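import Pool.Agent.helper45.Ball.Defs

/-!
Module BALL-ADJ: if two enlarged cells with different labels have a common point `t`, then `t` is
close to a box of `G`.

PROOF.  Let `c₁ = cs m n₁`, `Y₁ = (1/2)^n₁ + b₁ c₁` the lower end of the row `(n₁, b₁)`; in the
same way `c₂`, `Y₂`.  By symmetry assume that the row `(n₁, b₁)` is lower than or equal to
`(n₂, b₂)`: `n₁ > n₂`, or `n₁ = n₂` and `b₁ ≤ b₂`.  As `Y₂ ≤ im t ≤ Y₁ + (5/4) c₁` the rows are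
equal or consecutive (the row after the next one starts at least at `Y₁ + 2 c₁`).

Same row `(n, b)`: `re t / cs` lies in `[a₁, a₁ + 5/4] ∩ [a₂, a₂ + 5/4]`, so `|a₁ - a₂| ≤ 1`, they
are different, and `AdjG.V` gives `(n, a / 2^m) ∈ G` for `a = a₁` or `a = a₂`.
Rows `(n, b)`, `(n, b + 1)`: either `lab n a₁ b ≠ lab n a₁ (b + 1)` (`AdjG.H1`), or
`lab n a₁ (b + 1) ≠ lab n a₂ (b + 1)` and the previous case applies (`|a₁ - a₂| ≤ 1`, `a₁ ≠ a₂`).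
Rows `(n + 1, 2^m - 1)`, `(n, 0)`: let `c = cs m (n + 1)`; either
`lab (n + 1) a₁ (2^m - 1) ≠ lab n (a₁ / 2) 0` (`AdjG.H2`), or `lab n (a₁ / 2) 0 ≠ lab n a₂ 0`, and
`|a₁ / 2 - a₂| ≤ 1` because `re t / (2 c)` is in `[a₁ / 2, a₁ / 2 + 9/8]` (here `a₁ / 2` is the
natural number quotient) and in `[a₂, a₂ + 5/4]`; then `AdjG.V`.

In all cases we have found a node `I = (n', a' / 2^m) ∈ G` where the cell `(n', a', .)` has
`a' cs m n' - 2 cs m n' ≤ re t ≤ a' cs m n' + (9/4) cs m n'`, and the box of `I` lies over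
`[j len I, (j + 1) len I]`, `j = a' / 2^m`, which contains `[a' cs m n', (a' + 1) cs m n']`;
`cs m n' ≤ len I`; so `|re t - re (cen I)| ≤ 3 len I` (`re (cen I) = (j + 1/2) len I`).
Heights: in the first two cases `n'` is the level of both cells and
`(1/2)^n' ≤ im t ≤ (9/4) (1/2)^n'`; in the last case `(1/2)^n ≤ im t ≤ (1/2)^n + cs m (n + 1) / 4`,
and `n' = n` or `n' = n + 1`: `len I ≤ im t ≤ (9/4) len I`.
-/

noncomputable section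

open Set Finset

namespace Cor

theorem Adj_cs_pos (m n : ℕ) : 0 < cs m n := by
  unfold cs
  positivity

theorem Adj_cs_mul (m n : ℕ) : cs m n * 2 ^ m = (1 / 2) ^ n := by
  unfold cs
  rw [pow_add, mul_assoc, ← mul_pow]
  norm_num

theorem Adj_cs_succ (m n : ℕ) : cs m n = 2 * cs m (n + 1) := by
  unfold cs
  rw [show n + 1 + m = (n + m) + 1 by ring, pow_succ]
  ring

theorem Adj_cs_le (m n : ℕ) : cs m n ≤ (1 / 2) ^ n := by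
  rw [← Adj_cs_mul m n]
  have h1 := Adj_cs_pos m n
  have h2 : (1 : ℝ) ≤ 2 ^ m := one_le_pow₀ (by norm_num)
  nlinarith

theorem Adj_natle {a b : ℕ} {u c : ℝ} (hc : 0 < c) (hu : u < 2)
    (h : (a : ℝ) * c ≤ ((b : ℝ) + u) * c) : a ≤ b + 1 := by
  have h1 : (a : ℝ) ≤ (b : ℝ) + u := le_of_mul_le_mul_right h hc
  have h2 : (a : ℝ) < ((b + 2 : ℕ) : ℝ) := by
    push_cast
    linarith
  have h3 : a < b + 2 := by exact_mod_cast h2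
  omega

/-- closeness to the box of the node under the cell -/
theorem Adj_near {m n a : ℕ} {t : ℂ} (h1 : ((a : ℝ) - 2) * cs m n ≤ t.re)
    (h2 : t.re ≤ ((a : ℝ) + 9 / 4) * cs m n) (h3 : (1 / 2) ^ n ≤ t.im)
    (h4 : t.im ≤ 3 * (1 / 2) ^ n) : t ∈ NB (n, a / 2 ^ m) := by
  have hc := Adj_cs_pos m n
  have hl : len (n, a / 2 ^ m) = cs m n * 2 ^ m := (Adj_cs_mul m n).symm
  have h5 : ((a / 2 ^ m : ℕ) : ℝ) * 2 ^ m ≤ a := by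
    have := Nat.div_mul_le_self a (2 ^ m)
    exact_mod_cast this
  have h6 : (a : ℝ) + 1 ≤ (((a / 2 ^ m : ℕ) : ℝ) + 1) * 2 ^ m := by
    have := Nat.lt_mul_of_div_lt (Nat.lt_succ_self (a / 2 ^ m)) (pow_pos (by norm_num) m)
    have h7 : a + 1 ≤ (a / 2 ^ m + 1) * 2 ^ m := this
    exact_mod_cast h7
  have h8 : (1 : ℝ) ≤ 2 ^ m := one_le_pow₀ (by norm_num)
  have e1 : (cen (n, a / 2 ^ m)).re = (((a / 2 ^ m : ℕ) : ℝ) + 1 / 2) * len (n, a / 2 ^ m) := rfl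
  refine ⟨?_, ?_, ?_⟩
  · rw [e1, hl]
    set j : ℝ := ((a / 2 ^ m : ℕ) : ℝ) with hj
    set P : ℝ := (2 : ℝ) ^ m with hP
    have k1 : j * P * cs m n ≤ a * cs m n := mul_le_mul_of_nonneg_right h5 hc.le
    have k2 : ((a : ℝ) + 1) * cs m n ≤ (j + 1) * P * cs m n := mul_le_mul_of_nonneg_right h6 hc.le
    have k3 : cs m n ≤ P * cs m n := by nlinarith
    rw [abs_le]
    constructor
    · nlinarith
    · nlinarith
  · show (1 / 2 : ℝ) ^ n ≤ t.im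
    exact h3
  · show t.im ≤ 3 * (1 / 2 : ℝ) ^ n
    exact h4

theorem Adj_row {T : Type*} {m N : ℕ} {lab : ℕ → ℕ → ℕ → T} {G : Finset Nd}
    (h : AdjG m N lab G) {n a₁ a₂ b : ℕ} (hn : n ≤ N) (ha₁ : a₁ < 2 ^ (n + m))
    (ha₂ : a₂ < 2 ^ (n + m)) (hb : b < 2 ^ m) (hne : lab n a₁ b ≠ lab n a₂ b)
    (hd₁ : a₁ ≤ a₂ + 1) (hd₂ : a₂ ≤ a₁ + 1) {t : ℂ}
    (r₁ : ((a₁ : ℝ) - 2) * cs m n ≤ t.re) (r₁' : t.re ≤ ((a₁ : ℝ) + 9 / 4) * cs m n)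
    (r₂ : ((a₂ : ℝ) - 2) * cs m n ≤ t.re) (r₂' : t.re ≤ ((a₂ : ℝ) + 9 / 4) * cs m n)
    (h3 : (1 / 2) ^ n ≤ t.im) (h4 : t.im ≤ 3 * (1 / 2) ^ n) : ∃ I ∈ G, t ∈ NB I := by
  have key : (n, a₁ / 2 ^ m) ∈ G ∨ (n, a₂ / 2 ^ m) ∈ G := by
    have hcase : a₁ = a₂ ∨ a₂ = a₁ + 1 ∨ a₁ = a₂ + 1 := by omega
    rcases hcase with hh | hh | hh
    · exact absurd (by rw [hh]) hne
    · subst hh
      exact h.V n hn a₁ b ha₂ hb hne
    · subst hh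
      exact (h.V n hn a₂ b ha₁ hb hne.symm).symm
  rcases key with hG | hG
  · exact ⟨_, hG, Adj_near r₁ r₁' h3 h4⟩
  · exact ⟨_, hG, Adj_near r₂ r₂' h3 h4⟩

theorem Adj_aux {T : Type*} {m N : ℕ} {lab : ℕ → ℕ → ℕ → T} {G : Finset Nd}
    (h : AdjG m N lab G) {n₁ a₁ b₁ n₂ a₂ b₂ : ℕ} (hn₁ : n₁ ≤ N) (ha₁ : a₁ < 2 ^ (n₁ + m))
    (hb₁ : b₁ < 2 ^ m) (hn₂ : n₂ ≤ N) (ha₂ : a₂ < 2 ^ (n₂ + m)) (hb₂ : b₂ < 2 ^ m) {t : ℂ}
    (ht₁ : t ∈ cellE m n₁ a₁ b₁) (ht₂ : t ∈ cellE m n₂ a₂ b₂)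
    (hne : lab n₁ a₁ b₁ ≠ lab n₂ a₂ b₂) (hord : n₂ < n₁ ∨ (n₁ = n₂ ∧ b₁ ≤ b₂)) :
    ∃ I ∈ G, t ∈ NB I := by
  obtain ⟨x1, x2, y1, y2⟩ := ht₁
  obtain ⟨u1, u2, v1, v2⟩ := ht₂
  rcases hord with hord | ⟨rfl, hord⟩
  · have hc := Adj_cs_pos m n₁
    have hcle := Adj_cs_le m n₁
    have hcm := Adj_cs_mul m n₁
    have hb1 : (b₁ : ℝ) + 1 ≤ 2 ^ m := by exact_mod_cast hb₁
    have hb2 : (0 : ℝ) ≤ (b₂ : ℝ) := Nat.cast_nonneg _
    have him : t.im ≤ 2 * (1 / 2) ^ n₁ + 1 / 4 * cs m n₁ := by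
      have : ((b₁ : ℝ) + 5 / 4) * cs m n₁ ≤ (2 ^ m + 1 / 4) * cs m n₁ :=
        mul_le_mul_of_nonneg_right (by linarith) hc.le
      linarith
    have him2 : (1 / 2 : ℝ) ^ n₂ ≤ t.im := by
      have : 0 ≤ (b₂ : ℝ) * cs m n₂ := mul_nonneg hb2 (Adj_cs_pos m n₂).le
      linarith
    have hn : n₁ = n₂ + 1 := by
      by_contra hcon
      have h2 : n₂ + 2 ≤ n₁ := by omega
      have h3 : (1 / 2 : ℝ) ^ n₁ ≤ (1 / 2) ^ (n₂ + 2) :=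
        pow_le_pow_of_le_one (by norm_num) (by norm_num) h2
      have h4 : (1 / 2 : ℝ) ^ (n₂ + 2) = 1 / 4 * (1 / 2) ^ n₂ := by rw [pow_add]; ring
      have h5 : (0 : ℝ) < (1 / 2) ^ n₁ := by positivity
      linarith
    subst hn
    set c := cs m (n₂ + 1) with hcdef
    have hcs2 : cs m n₂ = 2 * c := Adj_cs_succ m n₂
    have hpow : (1 / 2 : ℝ) ^ n₂ = 2 * (1 / 2) ^ (n₂ + 1) := by rw [pow_succ]; ring
    rw [hcs2] at u1 u2 v1 v2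
    have hb2' : b₂ = 0 := by
      by_contra hcon
      have h1 : (1 : ℝ) ≤ b₂ := by exact_mod_cast Nat.one_le_iff_ne_zero.2 hcon
      have h2 : 1 * (2 * c) ≤ (b₂ : ℝ) * (2 * c) :=
        mul_le_mul_of_nonneg_right h1 (by linarith)
      linarith
    subst hb2'
    have hb1' : b₁ = 2 ^ m - 1 := by
      have h1 : (1 / 2 : ℝ) ^ (n₂ + 1) ≤ ((b₁ : ℝ) + 5 / 4) * c := by linarith
      rw [← hcm] at h1
      have h2 : (2 : ℝ) ^ m ≤ (b₁ : ℝ) + 5 / 4 := by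
        rw [mul_comm] at h1
        exact le_of_mul_le_mul_right h1 hc
      have h3 : ((2 ^ m : ℕ) : ℝ) < ((b₁ + 2 : ℕ) : ℝ) := by
        push_cast
        linarith
      have h4 : 2 ^ m < b₁ + 2 := by exact_mod_cast h3
      omega
    subst hb1'
    have hdiv1 : ((a₁ / 2 : ℕ) : ℝ) * 2 ≤ a₁ := by
      have := Nat.div_mul_le_self a₁ 2
      exact_mod_cast this
    have hdiv2 : (a₁ : ℝ) ≤ ((a₁ / 2 : ℕ) : ℝ) * 2 + 1 := by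
      have : a₁ ≤ a₁ / 2 * 2 + 1 := by omega
      exact_mod_cast this
    set q : ℝ := ((a₁ / 2 : ℕ) : ℝ) with hq
    have w1 : q * (2 * c) ≤ t.re := by
      have : q * 2 * c ≤ a₁ * c := mul_le_mul_of_nonneg_right hdiv1 hc.le
      linarith
    have w2 : t.re ≤ (q + 9 / 8) * (2 * c) := by
      have : ((a₁ : ℝ) + 5 / 4) * c ≤ (q * 2 + 1 + 5 / 4) * c :=
        mul_le_mul_of_nonneg_right (by linarith) hc.le
      linarith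
    have hp1 : (0 : ℝ) < (1 / 2) ^ (n₂ + 1) := by positivity
    by_cases hH : lab (n₂ + 1) a₁ (2 ^ m - 1) = lab n₂ (a₁ / 2) 0
    · rw [hH] at hne
      have hq2 : a₁ / 2 < 2 ^ (n₂ + m) := by
        have : 2 ^ (n₂ + 1 + m) = 2 * 2 ^ (n₂ + m) := by ring
        omega
      refine Adj_row h hn₂ hq2 ha₂ hb₂ hne ?_ ?_ ?_ ?_ ?_ ?_ him2 ?_
      · exact Adj_natle (u := 5 / 4) (c := 2 * c) (by linarith) (by norm_num) (w1.trans u2)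
      · exact Adj_natle (u := 9 / 8) (c := 2 * c) (by linarith) (by norm_num) (u1.trans w2)
      · rw [hcs2]; linarith
      · rw [hcs2]; linarith
      · rw [hcs2]; linarith
      · rw [hcs2]; linarith
      · linarith
    · rcases h.H2 n₂ hn₁ a₁ ha₁ hH with hG | hG
      · refine ⟨_, hG, Adj_near ?_ ?_ ?_ ?_⟩
        · linarith
        · linarith
        · linarith
        · linarith
      · refine ⟨_, hG, Adj_near ?_ ?_ him2 ?_⟩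
        · rw [hcs2]; linarith
        · rw [hcs2]; linarith
        · linarith
  · have hc := Adj_cs_pos m n₁
    have hcle := Adj_cs_le m n₁
    have hcm := Adj_cs_mul m n₁
    have hb1 : (b₁ : ℝ) + 1 ≤ 2 ^ m := by exact_mod_cast hb₁
    have hb0 : (0 : ℝ) ≤ (b₁ : ℝ) := Nat.cast_nonneg _
    have him : t.im ≤ 3 * (1 / 2) ^ n₁ := by
      have : ((b₁ : ℝ) + 5 / 4) * cs m n₁ ≤ (2 ^ m + 1 / 4) * cs m n₁ :=
        mul_le_mul_of_nonneg_right (by linarith) hc.le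
      linarith
    have him2 : (1 / 2 : ℝ) ^ n₁ ≤ t.im := by
      have : 0 ≤ (b₁ : ℝ) * cs m n₁ := mul_nonneg hb0 hc.le
      linarith
    have d1 : a₁ ≤ a₂ + 1 := Adj_natle (u := 5 / 4) hc (by norm_num) (x1.trans u2)
    have d2 : a₂ ≤ a₁ + 1 := Adj_natle (u := 5 / 4) hc (by norm_num) (u1.trans x2)
    have r1 : ((a₁ : ℝ) - 2) * cs m n₁ ≤ t.re := by linarith
    have r1' : t.re ≤ ((a₁ : ℝ) + 9 / 4) * cs m n₁ := by linarith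
    have r2 : ((a₂ : ℝ) - 2) * cs m n₁ ≤ t.re := by linarith
    have r2' : t.re ≤ ((a₂ : ℝ) + 9 / 4) * cs m n₁ := by linarith
    rcases Nat.eq_or_lt_of_le hord with hbe | hbl
    · subst hbe
      exact Adj_row h hn₁ ha₁ ha₂ hb₁ hne d1 d2 r1 r1' r2 r2' him2 him
    · have hb3 : b₂ = b₁ + 1 := by
        have h1 : (b₂ : ℝ) * cs m n₁ ≤ ((b₁ : ℝ) + 5 / 4) * cs m n₁ := by linarith
        have := Adj_natle (u := 5 / 4) hc (by norm_num) h1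
        omega
      subst hb3
      by_cases hH : lab n₁ a₁ b₁ = lab n₁ a₁ (b₁ + 1)
      · rw [hH] at hne
        exact Adj_row h hn₁ ha₁ ha₂ hb₂ hne d1 d2 r1 r1' r2 r2' him2 him
      · exact ⟨_, h.H1 n₁ hn₁ a₁ b₁ ha₁ hb₂ hH, Adj_near r1 r1' him2 him⟩

theorem adj_near {T : Type*} {m N : ℕ} {lab : ℕ → ℕ → ℕ → T} {G : Finset Nd}
    (h : AdjG m N lab G) {n₁ a₁ b₁ n₂ a₂ b₂ : ℕ} (hn₁ : n₁ ≤ N) (ha₁ : a₁ < 2 ^ (n₁ + m))
    (hb₁ : b₁ < 2 ^ m) (hn₂ : n₂ ≤ N) (ha₂ : a₂ < 2 ^ (n₂ + m)) (hb₂ : b₂ < 2 ^ m) {t : ℂ}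
    (ht₁ : t ∈ cellE m n₁ a₁ b₁) (ht₂ : t ∈ cellE m n₂ a₂ b₂)
    (hne : lab n₁ a₁ b₁ ≠ lab n₂ a₂ b₂) : ∃ I ∈ G, t ∈ NB I := by
  by_cases hord : n₂ < n₁ ∨ (n₁ = n₂ ∧ b₁ ≤ b₂)
  · exact Adj_aux h hn₁ ha₁ hb₁ hn₂ ha₂ hb₂ ht₁ ht₂ hne hord
  · refine Adj_aux h hn₂ ha₂ hb₂ hn₁ ha₁ hb₁ ht₂ ht₁ hne.symm ?_
    omega

end Cor
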