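import Pool.Agent.helper45.Cor.Avg

/-!
Module BALL-PH: holomorphic dependence on a parameter, integrals over plane sets.

PROOF.
`param_hol`: let `s₀ ∈ V`, `ball s₀ r ⊆ V`.  For almost every `ζ ∈ X` the function `H ζ` is
holomorphic on `ball s₀ r` and bounded there by `B ζ`; so its derivative is bounded on
`ball s₀ (r / 2)` by `2 * B ζ / r` (Cauchy, `Complex.norm_deriv_le_of_forall_mem_sphere_norm_le`).
Use `hasDerivAt_integral_of_dominated_loc_of_deriv_le` with `F' s ζ = deriv (H ζ) s`; the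
measurability of `ζ ↦ deriv (H ζ) s₀`: almost everywhere limit of difference quotients
`(H ζ (s₀ + h_n) - H ζ s₀) / h_n`, `h_n = r / (n + 2)` (`aestronglyMeasurable_of_tendsto_ae`).
`inv_int`: the function is measurable; `X ⊆ ball 0 R`; by `inv_integrable 0 t R`.
`inv_cont` (continuity of a weakly singular integral): let `t₀ ∈ V`, `ε > 0`, `ball t₀ r ⊆ V`, and
`6 π M r ≤ ε / 2` (shrink `r`).  For `t ∈ ball t₀ (r/2)` split `X` into `X ∩ ball t₀ r` and the rest
`X'`.  On the first part both integrals are at most `3 π r M` (`avg_inv t₀ t`).  On the second part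
`‖t - ζ‖ ≥ r / 2`, the integrand is bounded by `2 M / r`, it is continuous in `t ∈ ball t₀ (r/2)`
for fixed `ζ`: dominated convergence (`MeasureTheory.continuousAt_of_dominated` or
`continuousWithinAt_of_dominated`), `X'` has finite measure.
-/

noncomputable section

open Set Metric MeasureTheory Filter Topology

namespace Cor

theorem param_hol {V X : Set ℂ} (hV : IsOpen V) {H : ℂ → ℂ → ℂ} {B : ℂ → ℝ}
    (hH : ∀ᵐ ζ ∂(volume.restrict X), DifferentiableOn ℂ (H ζ) V)
    (hB : ∀ᵐ ζ ∂(volume.restrict X), ∀ s ∈ V, ‖H ζ s‖ ≤ B ζ)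
    (hBi : IntegrableOn B X)
    (hm : ∀ s ∈ V, AEStronglyMeasurable (fun ζ => H ζ s) (volume.restrict X)) :
    DifferentiableOn ℂ (fun s => ∫ ζ in X, H ζ s) V := by
  intro s₀ hs₀
  obtain ⟨r, hr, hball⟩ := Metric.isOpen_iff.1 hV s₀ hs₀
  apply DifferentiableAt.differentiableWithinAt
  have hdom := hasDerivAt_integral_of_dominated_loc_of_deriv_le
    (μ := volume.restrict X) (F := fun s ζ => H ζ s) (x₀ := s₀) (s := ball s₀ (r / 2))
    (bound := fun ζ => B ζ / (r / 4)) (ball_mem_nhds s₀ (by positivity))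
    (F' := fun s ζ => deriv (H ζ) s) ?_ ?_ ?_ ?_ ?_ ?_
  · exact hdom.2.differentiableAt
  · filter_upwards [hV.mem_nhds hs₀] with s hs
    exact hm s hs
  · refine hBi.mono' (hm s₀ hs₀) ?_
    filter_upwards [hB] with ζ hζ
    exact hζ s₀ hs₀
  · -- measurability of the derivative
    let h : ℕ → ℂ := fun n => ((r / (n + 2) : ℝ) : ℂ)
    have hn0 : ∀ n, h n ≠ 0 := by
      intro n
      have h1 : (0 : ℝ) < r / (n + 2) := by positivity
      exact Complex.ofReal_ne_zero.2 h1.ne'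
    have hnV : ∀ n, s₀ + h n ∈ V := by
      intro n
      apply hball
      rw [mem_ball, dist_eq_norm, add_sub_cancel_left, Complex.norm_real,
        Real.norm_of_nonneg (by positivity)]
      rw [div_lt_iff₀ (by positivity)]
      nlinarith [(Nat.cast_nonneg n : (0 : ℝ) ≤ n)]
    have hnlim : Tendsto h atTop (𝓝[≠] 0) := by
      apply tendsto_nhdsWithin_of_tendsto_nhds_of_eventually_within
      · have h1 : Tendsto (fun n : ℕ => (r / (n + 2) : ℝ)) atTop (𝓝 0) := by
          have h2 : Tendsto (fun n : ℕ => ((n : ℝ) + 2)) atTop atTop :=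
            tendsto_atTop_add_const_right _ _ tendsto_natCast_atTop_atTop
          exact h2.const_div_atTop r
        have h2 := (Complex.continuous_ofReal.tendsto (0 : ℝ)).comp h1
        rw [Complex.ofReal_zero] at h2
        exact h2
      · exact Eventually.of_forall fun n => hn0 n
    refine aestronglyMeasurable_of_tendsto_ae atTop
      (f := fun n ζ => (h n)⁻¹ • (H ζ (s₀ + h n) - H ζ s₀)) (fun n => ?_) ?_
    · exact ((hm _ (hnV n)).sub (hm s₀ hs₀)).const_smul (h n)⁻¹
    · filter_upwards [hH] with ζ hζ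
      have h1 : HasDerivAt (H ζ) (deriv (H ζ) s₀) s₀ :=
        (hζ.differentiableAt (hV.mem_nhds hs₀)).hasDerivAt
      exact (hasDerivAt_iff_tendsto_slope_zero.1 h1).comp hnlim
  · filter_upwards [hH, hB] with ζ hζ hζB s hs
    have hsub : closedBall s (r / 4) ⊆ V := by
      refine (closedBall_subset_ball' (ε₂ := r) ?_).trans hball
      have := mem_ball.1 hs
      linarith
    apply Complex.norm_deriv_le_of_forall_mem_sphere_norm_le (by positivity)
    · exact hζ.diffContOnCl_ball hsub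
    · intro z hz
      exact hζB z (hsub (sphere_subset_closedBall hz))
  · exact hBi.div_const _
  · filter_upwards [hH] with ζ hζ s hs
    have hsV : s ∈ V := hball (ball_subset_ball (by linarith) hs)
    exact (hζ.differentiableAt (hV.mem_nhds hsV)).hasDerivAt

theorem inv_int {X : Set ℂ} (hX : MeasurableSet X) (hXb : Bornology.IsBounded X) (t : ℂ) :
    IntegrableOn (fun ζ : ℂ => ‖t - ζ‖⁻¹) X := by
  obtain ⟨R, hR⟩ := hXb.subset_ball (0 : ℂ)
  exact (inv_integrable 0 t R).mono_set hR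

theorem PH_meas {X : Set ℂ} {f : ℂ → ℂ} (t : ℂ)
    (hf : AEStronglyMeasurable f (volume.restrict X)) :
    AEStronglyMeasurable (fun ζ => f ζ * (t - ζ)⁻¹) (volume.restrict X) := by
  have h1 : Measurable (fun ζ : ℂ => (t - ζ)⁻¹) := by fun_prop
  exact hf.mul h1.aestronglyMeasurable

theorem PH_int {X : Set ℂ} (hX : MeasurableSet X) (hXb : Bornology.IsBounded X) {f : ℂ → ℂ}
    {M : ℝ} (t : ℂ) (hf : AEStronglyMeasurable f (volume.restrict X))
    (hfM : ∀ ζ ∈ X, ‖f ζ‖ ≤ M) : IntegrableOn (fun ζ => f ζ * (t - ζ)⁻¹) X := by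
  refine Integrable.mono' ((inv_int hX hXb t).const_mul M) (PH_meas t hf) ?_
  rw [ae_restrict_iff' hX]
  refine Eventually.of_forall fun ζ hζ => ?_
  rw [norm_mul, norm_inv]
  exact mul_le_mul_of_nonneg_right (hfM ζ hζ) (by positivity)

theorem inv_cont {V X : Set ℂ} (hV : IsOpen V) (hX : MeasurableSet X)
    (hXb : Bornology.IsBounded X) {N : ℂ → ℂ → ℂ} {M : ℝ}
    (hN : ∀ ζ ∈ X, ContinuousOn (N ζ) V) (hNM : ∀ ζ ∈ X, ∀ t ∈ V, ‖N ζ t‖ ≤ M)
    (hNm : ∀ t ∈ V, AEStronglyMeasurable (fun ζ => N ζ t) (volume.restrict X)) :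
    ContinuousOn (fun t => ∫ ζ in X, N ζ t * (t - ζ)⁻¹) V := by
  intro t₀ ht₀
  apply ContinuousAt.continuousWithinAt
  rw [Metric.continuousAt_iff']
  intro ε hε
  obtain ⟨r₀, hr₀, hball⟩ := Metric.isOpen_iff.1 hV t₀ ht₀
  set M' : ℝ := max M 0 with hM'
  have hM'0 : 0 ≤ M' := le_max_right _ _
  have hpi := Real.pi_pos
  -- the radius
  set r : ℝ := min r₀ (ε / (9 * Real.pi * (M' + 1))) with hr
  have hrpos : 0 < r := lt_min hr₀ (by positivity)
  have hrb : 3 * Real.pi * r * M' ≤ ε / 3 := by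
    have h1 : r ≤ ε / (9 * Real.pi * (M' + 1)) := min_le_right _ _
    rw [le_div_iff₀ (by positivity)] at h1
    nlinarith [mul_pos hpi hrpos]
  set X1 : Set ℂ := X ∩ ball t₀ r with hX1
  set X2 : Set ℂ := X \ ball t₀ r with hX2
  have hX1m : MeasurableSet X1 := hX.inter measurableSet_ball
  have hX2m : MeasurableSet X2 := hX.diff measurableSet_ball
  have hX2b : Bornology.IsBounded X2 := hXb.subset sdiff_subset
  have hint : ∀ t ∈ V, IntegrableOn (fun ζ => N ζ t * (t - ζ)⁻¹) X := fun t ht =>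
    PH_int hX hXb t (hNm t ht) fun ζ hζ => hNM ζ hζ t ht
  have hsplit : ∀ t ∈ V, ∫ ζ in X, N ζ t * (t - ζ)⁻¹ =
      (∫ ζ in X1, N ζ t * (t - ζ)⁻¹) + ∫ ζ in X2, N ζ t * (t - ζ)⁻¹ := by
    intro t ht
    exact (integral_inter_add_sdiff measurableSet_ball (hint t ht)).symm
  -- the first part is small
  have hsmall : ∀ t ∈ V, ‖∫ ζ in X1, N ζ t * (t - ζ)⁻¹‖ ≤ ε / 3 := by
    intro t ht
    refine le_trans ?_ hrb
    refine (norm_integral_le_of_norm_le (g := fun ζ => M' * ‖t - ζ‖⁻¹)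
      (((inv_integrable t₀ t r).mono_set inter_subset_right).const_mul M') ?_).trans ?_
    · rw [ae_restrict_iff' hX1m]
      refine Eventually.of_forall fun ζ hζ => ?_
      rw [norm_mul, norm_inv]
      exact mul_le_mul_of_nonneg_right ((hNM ζ hζ.1 t ht).trans (le_max_left _ _)) (by positivity)
    · rw [integral_const_mul]
      have h1 : ∫ ζ in X1, ‖t - ζ‖⁻¹ ≤ ∫ ζ in ball t₀ r, ‖t - ζ‖⁻¹ :=
        setIntegral_mono_set (inv_integrable t₀ t r)
          (Eventually.of_forall fun ζ => by positivity)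
          (Eventually.of_forall fun ζ hζ => hζ.2)
      have h2 := avg_inv t₀ t hrpos
      calc M' * ∫ ζ in X1, ‖t - ζ‖⁻¹ ≤ M' * (3 * Real.pi * r) :=
            mul_le_mul_of_nonneg_left (h1.trans h2) hM'0
        _ = 3 * Real.pi * r * M' := by ring
  -- the second part is continuous
  have hcont : Tendsto (fun t => ∫ ζ in X2, N ζ t * (t - ζ)⁻¹) (𝓝 t₀)
      (𝓝 (∫ ζ in X2, N ζ t₀ * (t₀ - ζ)⁻¹)) := by
    refine tendsto_integral_filter_of_dominated_convergence (fun _ => M' * (2 / r)) ?_ ?_ ?_ ?_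
    · filter_upwards [hV.mem_nhds ht₀] with t ht
      exact PH_meas t ((hNm t ht).mono_measure (Measure.restrict_mono sdiff_subset le_rfl))
    · filter_upwards [hV.mem_nhds ht₀, ball_mem_nhds t₀ (half_pos hrpos)] with t ht htb
      rw [ae_restrict_iff' hX2m]
      refine Eventually.of_forall fun ζ hζ => ?_
      rw [norm_mul, norm_inv]
      have h1 : r / 2 ≤ ‖t - ζ‖ := by
        have h2 : r ≤ dist ζ t₀ := not_lt.1 fun h => hζ.2 (mem_ball.2 h)
        have h3 := dist_triangle ζ t t₀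
        have h4 := mem_ball.1 htb
        rw [dist_comm ζ t, dist_eq_norm t ζ] at h3
        linarith
      have h2 : ‖t - ζ‖⁻¹ ≤ 2 / r := by
        rw [inv_le_comm₀ (by linarith) (by positivity), inv_div]
        exact h1
      exact mul_le_mul ((hNM ζ hζ.1 t ht).trans (le_max_left _ _)) h2 (by positivity) hM'0
    · refine integrableOn_const ?_
      exact (hX2b.measure_lt_top).ne
    · rw [ae_restrict_iff' hX2m]
      refine Eventually.of_forall fun ζ hζ => ?_
      have h1 : t₀ - ζ ≠ 0 := by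
        intro h
        apply hζ.2
        rw [sub_eq_zero] at h
        rw [← h]
        exact mem_ball_self hrpos
      have h2 : ContinuousAt (N ζ) t₀ := (hN ζ hζ.1).continuousAt (hV.mem_nhds ht₀)
      have h3 : ContinuousAt (fun t => (t - ζ)⁻¹) t₀ :=
        (continuousAt_id.sub continuousAt_const).inv₀ h1
      exact (h2.mul h3)
  rw [Metric.tendsto_nhds] at hcont
  filter_upwards [hcont (ε / 3) (by positivity), hV.mem_nhds ht₀] with t ht htV
  rw [hsplit t htV, hsplit t₀ ht₀, dist_eq_norm]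
  rw [dist_eq_norm] at ht
  have h1 := hsmall t htV
  have h2 := hsmall t₀ ht₀
  set a := ∫ ζ in X1, N ζ t * (t - ζ)⁻¹
  set b := ∫ ζ in X1, N ζ t₀ * (t₀ - ζ)⁻¹
  set c := ∫ ζ in X2, N ζ t * (t - ζ)⁻¹
  set d := ∫ ζ in X2, N ζ t₀ * (t₀ - ζ)⁻¹
  calc ‖a + c - (b + d)‖ = ‖a + (-b) + (c - d)‖ := by ring_nf
    _ ≤ ‖a + -b‖ + ‖c - d‖ := norm_add_le _ _
    _ ≤ ‖a‖ + ‖-b‖ + ‖c - d‖ := by gcongr; exact norm_add_le _ _
    _ < ε := by rw [norm_neg]; linarith

end Cor
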