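import Pool.Agent.helper45.Ball.Kr
import Pool.Agent.helper45.Ball.PH

/-!
Module BALL-BD: the pointwise bound for the correction term.

PROOF.
`nb_int`: let `L = len I`, `c = cen I`, `D = ‖t - conj c‖`.  `NB I ⊆ ball c (4 L)` (distance at most
`sqrt (9 + 9/4) L`).  If `‖t - c‖ ≤ 8 L`: `∫_{ball c (4 L)} ‖t - ζ‖⁻¹ ≤ 12 π L` (`avg_inv`), and
`D ≤ ‖t - c‖ + ‖c - conj c‖ ≤ 11 L`, so `12 π L ≤ 132 π L^2 / D ≤ 420 L^2 / D`.  If `‖t - c‖ > 8 L`:
for `ζ ∈ ball c (4 L)` we have `‖t - ζ‖ ≥ ‖t - c‖ / 2`, and `D ≤ ‖t - c‖ + 3 L ≤ (11/8) ‖t - c‖`,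
so `‖t - ζ‖⁻¹ ≤ (11/4) / D`; the area is `16 π L^2`; `44 π ≤ 140`.
`corr_bound`: on `X` the function is bounded by `∑_{I ∈ G} indicator (NB I) ζ * (P / len I) *
8 exp (5/3 T) * PB G I t * len I * ‖t - ζ‖⁻¹` (`KG_le`, `im ζ ≥ len I` on `NB I`); if `ζ` is in no
`NB I` the left side is zero by `KG = 0` (empty sum).  Integrate (`norm_integral_le_of_norm_le`,
`MeasureTheory.integral_mono_of_nonneg`; the bound is integrable by `inv_int`), extend each integral
from `X ∩ NB I` to `NB I`, use `nb_int` and `jones_sum`: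
`8 P exp (5/3 T) * 420 * 2 = 6720 P exp (5/3 T)`.
-/

noncomputable section

open Set Metric MeasureTheory

namespace Cor

theorem Bd_NB_sub (I : Nd) : NB I ⊆ ball (cen I) (4 * len I) := by
  intro z hz
  obtain ⟨h1, h2, h3⟩ := hz
  have hL : 0 < len I := Jones_len_pos I
  rw [mem_ball, dist_eq_norm]
  have h4 : (cen I).im = 3 / 2 * len I := rfl
  have h5 : ‖z - cen I‖ ^ 2 = (z.re - (cen I).re) ^ 2 + (z.im - (cen I).im) ^ 2 := by
    rw [← Complex.normSq_eq_norm_sq, Complex.normSq_apply, Complex.sub_re, Complex.sub_im]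
    ring
  have h6 : (z.re - (cen I).re) ^ 2 ≤ (3 * len I) ^ 2 := by
    rw [← sq_abs]
    exact pow_le_pow_left₀ (abs_nonneg _) h1 2
  have h7 : (z.im - (cen I).im) ^ 2 ≤ (3 / 2 * len I) ^ 2 := by
    rw [← sq_abs]
    refine pow_le_pow_left₀ (abs_nonneg _) ?_ 2
    rw [h4, abs_le]
    constructor <;> linarith
  have h8 : ‖z - cen I‖ ^ 2 < (4 * len I) ^ 2 := by
    rw [h5]
    nlinarith [sq_pos_of_pos hL]
  exact lt_of_pow_lt_pow_left₀ 2 (by positivity) h8

theorem nb_int (I : Nd) {t : ℂ} (ht : t ∈ HP) :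
    ∫ ζ in NB I, ‖t - ζ‖⁻¹ ≤ 420 * len I ^ 2 / ‖t - (starRingEnd ℂ) (cen I)‖ := by
  have hL : 0 < len I := Jones_len_pos I
  have htim : 0 < t.im := ht
  set L := len I with hLdef
  set c := cen I with hc
  set D := ‖t - (starRingEnd ℂ) c‖ with hD
  have hDpos : 0 < D := Jones_norm_pos I ht
  have hci : c.im = 3 / 2 * L := rfl
  have hcc : ‖c - (starRingEnd ℂ) c‖ = 3 * L := by
    rw [Complex.sub_conj, norm_mul, Complex.norm_real, Complex.norm_I, mul_one, hci,
      Real.norm_of_nonneg (by positivity)]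
    ring
  have hD1 : D ≤ ‖t - c‖ + 3 * L := by
    rw [← hcc, hD]
    have : t - (starRingEnd ℂ) c = (t - c) + (c - (starRingEnd ℂ) c) := by ring
    rw [this]
    exact norm_add_le _ _
  have hpi := Real.pi_pos
  have hpi2 := Real.pi_lt_d2
  have hmono : ∫ ζ in NB I, ‖t - ζ‖⁻¹ ≤ ∫ ζ in ball c (4 * L), ‖t - ζ‖⁻¹ := by
    apply setIntegral_mono_set (inv_integrable c t (4 * L))
    · exact Filter.Eventually.of_forall fun z => by positivity
    · exact (Bd_NB_sub I).eventuallyLE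
  refine hmono.trans ?_
  rcases le_or_gt ‖t - c‖ (8 * L) with h | h
  · refine (avg_inv c t (by positivity)).trans ?_
    rw [le_div_iff₀ hDpos]
    have h1 : D ≤ 11 * L := by linarith
    have h2 : 3 * Real.pi * (4 * L) * D ≤ 3 * Real.pi * (4 * L) * (11 * L) :=
      mul_le_mul_of_nonneg_left h1 (by positivity)
    have h3 : Real.pi * L ^ 2 ≤ 3.15 * L ^ 2 :=
      mul_le_mul_of_nonneg_right hpi2.le (by positivity)
    nlinarith [sq_nonneg L]
  · have hfar := Avg_far c t (b := 4 * L) (c := ‖t - c‖ / 2) (by positivity) (by linarith)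
      (fun z hz => by
        rw [mem_ball, dist_eq_norm] at hz
        have h1 : ‖t - c‖ ≤ ‖t - z‖ + ‖z - c‖ := by
          have : t - c = (t - z) + (z - c) := by ring
          rw [this]
          exact norm_add_le _ _
        linarith)
    refine hfar.trans ?_
    rw [div_le_div_iff₀ (by linarith) hDpos]
    have h1 : D ≤ 11 / 8 * ‖t - c‖ := by linarith
    have h2 : Real.pi * (4 * L) ^ 2 * D ≤ Real.pi * (4 * L) ^ 2 * (11 / 8 * ‖t - c‖) :=
      mul_le_mul_of_nonneg_left h1 (by positivity)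
    refine h2.trans ?_
    have h3 : 0 ≤ L ^ 2 * ‖t - c‖ := by positivity
    have h4 : Real.pi * (L ^ 2 * ‖t - c‖) ≤ 3.15 * (L ^ 2 * ‖t - c‖) :=
      mul_le_mul_of_nonneg_right hpi2.le h3
    nlinarith

theorem corr_bound {G : Finset Nd} {T : ℝ} (hT : ∀ z ∈ HP, ∑ p ∈ G, om z (cen p) ≤ T) {X : Set ℂ}
    (hX : MeasurableSet X) (hXb : Bornology.IsBounded X) (hXH : X ⊆ HP) {P : ℝ} (hP : 0 ≤ P)
    {w : ℂ → ℂ} (hw : ∀ ζ ∈ X, ‖w ζ‖ ≤ P / ζ.im) {t : ℂ} (ht : t ∈ HP) :
    ‖∫ ζ in X, w ζ * KG G ζ t * (t - ζ)⁻¹‖ ≤ 6720 * P * Real.exp (5 / 3 * T) := by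
  classical
  set E := Real.exp (5 / 3 * T) with hE
  have hE0 : 0 < E := Real.exp_pos _
  have hPB : ∀ I : Nd, 0 ≤ PB G I t := fun I => by
    unfold PB
    positivity
  set a : Nd → ℝ := fun I => 8 * P * E * PB G I t with ha
  have ha0 : ∀ I, 0 ≤ a I := fun I => by
    have := hPB I
    rw [ha]
    positivity
  have hNBm : ∀ I : Nd, MeasurableSet (NB I) := fun I => (NB_closed I).measurableSet
  have hint : ∀ I : Nd, IntegrableOn (fun ζ : ℂ => (NB I).indicator (fun ζ => a I * ‖t - ζ‖⁻¹) ζ) X :=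
    fun I => ((inv_int hX hXb t).const_mul (a I)).indicator (hNBm I)
  have hsumint : IntegrableOn (fun ζ : ℂ => ∑ I ∈ G,
      (NB I).indicator (fun ζ => a I * ‖t - ζ‖⁻¹) ζ) X :=
    integrable_finsetSum G fun I _ => hint I
  have hpt : ∀ᵐ ζ ∂(volume.restrict X), ‖w ζ * KG G ζ t * (t - ζ)⁻¹‖ ≤
      ∑ I ∈ G, (NB I).indicator (fun ζ => a I * ‖t - ζ‖⁻¹) ζ := by
    rw [ae_restrict_iff' hX]
    refine Filter.Eventually.of_forall fun ζ hζ => ?_
    have hζ0 : 0 < ζ.im := hXH hζ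
    have h1 := hw ζ hζ
    have h2 := KG_le hT ζ ht
    have h3 : ∑ I ∈ G, (NB I).indicator (fun ζ => a I * ‖t - ζ‖⁻¹) ζ =
        ∑ I ∈ G.filter (fun I => ζ ∈ NB I), a I * ‖t - ζ‖⁻¹ := by
      rw [Finset.sum_filter]
      refine Finset.sum_congr rfl fun I _ => ?_
      rw [Set.indicator_apply]
    rw [h3, norm_mul, norm_mul, norm_inv]
    have h4 : ‖w ζ‖ * ‖KG G ζ t‖ ≤ ∑ I ∈ G.filter (fun I => ζ ∈ NB I), a I := by
      calc ‖w ζ‖ * ‖KG G ζ t‖ ≤ P / ζ.im *
            (8 * E * ∑ I ∈ G.filter (fun I => ζ ∈ NB I), PB G I t * len I) :=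
            mul_le_mul h1 h2 (norm_nonneg _) (by positivity)
        _ = ∑ I ∈ G.filter (fun I => ζ ∈ NB I), P / ζ.im * (8 * E * (PB G I t * len I)) := by
            rw [Finset.mul_sum, Finset.mul_sum]
        _ ≤ ∑ I ∈ G.filter (fun I => ζ ∈ NB I), a I := by
            refine Finset.sum_le_sum fun I hI => ?_
            have hI' : ζ ∈ NB I := (Finset.mem_filter.1 hI).2
            have h5 : len I ≤ ζ.im := hI'.2.1
            have h6 : P / ζ.im * len I ≤ P := by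
              rw [div_mul_eq_mul_div, div_le_iff₀ hζ0]
              exact mul_le_mul_of_nonneg_left h5 hP
            have h7 : P / ζ.im * (8 * E * (PB G I t * len I)) =
                (P / ζ.im * len I) * (8 * E * PB G I t) := by ring
            rw [h7, ha]
            have h8 : 0 ≤ 8 * E * PB G I t := by
              have := hPB I
              positivity
            have h9 := mul_le_mul_of_nonneg_right h6 h8
            simp only
            linarith
    calc ‖w ζ‖ * ‖KG G ζ t‖ * ‖t - ζ‖⁻¹ ≤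
          (∑ I ∈ G.filter (fun I => ζ ∈ NB I), a I) * ‖t - ζ‖⁻¹ :=
          mul_le_mul_of_nonneg_right h4 (by positivity)
      _ = _ := Finset.sum_mul _ _ _
  refine (norm_integral_le_of_norm_le hsumint hpt).trans ?_
  rw [integral_finsetSum G fun I _ => hint I]
  have hone : ∀ I ∈ G, ∫ ζ in X, (NB I).indicator (fun ζ => a I * ‖t - ζ‖⁻¹) ζ ≤
      a I * (420 * len I ^ 2 / ‖t - (starRingEnd ℂ) (cen I)‖) := by
    intro I _
    have hNBi : IntegrableOn (fun ζ : ℂ => a I * ‖t - ζ‖⁻¹) (NB I) :=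
      ((inv_integrable (cen I) t (4 * len I)).mono_set (Bd_NB_sub I)).const_mul (a I)
    calc ∫ ζ in X, (NB I).indicator (fun ζ => a I * ‖t - ζ‖⁻¹) ζ
        ≤ ∫ ζ, (NB I).indicator (fun ζ => a I * ‖t - ζ‖⁻¹) ζ := by
          refine setIntegral_le_integral ((integrable_indicator_iff (hNBm I)).2 hNBi) ?_
          refine Filter.Eventually.of_forall fun ζ => ?_
          exact Set.indicator_nonneg (fun ζ _ => mul_nonneg (ha0 I) (by positivity)) ζ
      _ = ∫ ζ in NB I, a I * ‖t - ζ‖⁻¹ := integral_indicator (hNBm I)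
      _ = a I * ∫ ζ in NB I, ‖t - ζ‖⁻¹ := integral_const_mul _ _
      _ ≤ _ := mul_le_mul_of_nonneg_left (nb_int I ht) (ha0 I)
  refine (Finset.sum_le_sum hone).trans ?_
  have hj := jones_sum G ht
  calc ∑ I ∈ G, a I * (420 * len I ^ 2 / ‖t - (starRingEnd ℂ) (cen I)‖)
      = 3360 * P * E * ∑ I ∈ G, len I ^ 2 / ‖t - (starRingEnd ℂ) (cen I)‖ * PB G I t := by
        rw [Finset.mul_sum]
        refine Finset.sum_congr rfl fun I _ => ?_
        rw [ha]
        simp only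
        ring
    _ ≤ 3360 * P * E * 2 := mul_le_mul_of_nonneg_left hj (by positivity)
    _ = 6720 * P * E := by ring

end Cor
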