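import Pool.Agent.helper45.Ball.Defs
import Pool.Agent.helper45.Cor.Contour

/-!
Module BALL-CE: labels which are good on the enlarged cells.

PROOF.  Take `m₀`, `M` from `contour_multi r (ρ / 2)` and `κ` with `2 ^ κ ≥ 16 / ρ`; put
`m = m₀ + κ`, and for the labels `lab₀`, `G` of `contour_multi` let
`lab n a b = lab₀ n (a / 2 ^ κ) (b / 2 ^ κ)`.
`AdjG m N lab G` follows from `AdjG m₀ N lab₀ G`: `(a / 2^κ) / 2^m₀ = a / 2^m`
(`Nat.div_div_eq_div_mul`).  `V`: `(a + 1) / 2^κ` is `a / 2^κ` (then the labels are equal) or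
`a / 2^κ + 1`.  `H1`: the same for `b`, `b + 1`.  `H2`: `(2 ^ m - 1) / 2 ^ κ = 2 ^ m₀ - 1`,
`(a / 2) / 2^κ = (a / 2^κ) / 2`, `0 / 2^κ = 0`.
Let `z ∈ cellE m n a b`; there is `z'` in the cell `cell m n a b ⊆ cell m₀ n (a/2^κ) (b/2^κ)` with
`|z - z'| ≤ cs m n / 2` (clamp both coordinates), so `‖h i z' - lab‖ < ρ / 2`.  The segment from
`z'` to `z` lies in `im ≥ (1/2)^n`, where `‖deriv (h i)‖ ≤ 2 * 2 ^ n` (Cauchy estimate on a disc of
radius `(1/2)^n / 2`, `h i` is bounded by `1`); so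
`‖h i z - h i z'‖ ≤ 2 * 2^n * cs m n / 2 = 2 ^ (-m) ≤ 2 ^ (-κ) ≤ ρ / 16`
(`Convex.norm_image_sub_le_of_norm_deriv_le`).
-/

noncomputable section

open Set Finset

namespace Cor

theorem CE_div_last (m₀ κ : ℕ) : (2 ^ (m₀ + κ) - 1) / 2 ^ κ = 2 ^ m₀ - 1 := by
  have hq : 0 < 2 ^ κ := by positivity
  have hm : 1 ≤ 2 ^ m₀ := Nat.one_le_two_pow
  obtain ⟨p, hp⟩ : ∃ p, 2 ^ m₀ = p + 1 := ⟨2 ^ m₀ - 1, by omega⟩
  rw [pow_add, hp]
  generalize 2 ^ κ = q at hq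
  have h1 : (p + 1) * q - 1 = (q - 1) + p * q := by
    rw [add_mul, one_mul]
    omega
  rw [h1, Nat.add_mul_div_right _ _ hq, Nat.div_eq_of_lt (by omega)]
  omega

theorem CE_div_div (a m₀ κ : ℕ) : a / 2 ^ κ / 2 ^ m₀ = a / 2 ^ (m₀ + κ) := by
  rw [Nat.div_div_eq_div_mul, pow_add, mul_comm]

theorem CE_div_lt {a k κ : ℕ} (h : a < 2 ^ (k + κ)) : a / 2 ^ κ < 2 ^ k := by
  apply Nat.div_lt_of_lt_mul
  rw [← pow_add, add_comm κ k]
  exact h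

theorem CE_succ (a κ : ℕ) : (a + 1) / 2 ^ κ = a / 2 ^ κ ∨ (a + 1) / 2 ^ κ = a / 2 ^ κ + 1 := by
  rw [Nat.succ_div]
  split_ifs
  · exact Or.inr rfl
  · exact Or.inl rfl

theorem CE_adj {T : Type*} {m₀ N : ℕ} {lab₀ : ℕ → ℕ → ℕ → T} {G : Finset Nd}
    (hA : AdjG m₀ N lab₀ G) (κ : ℕ) :
    AdjG (m₀ + κ) N (fun n a b => lab₀ n (a / 2 ^ κ) (b / 2 ^ κ)) G := by
  refine ⟨?_, ?_, ?_⟩
  · intro n hn a b ha hb hne
    rcases CE_succ a κ with h | h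
    · exact absurd (by simp only [h]) hne
    · have h1 : (a + 1) / 2 ^ κ < 2 ^ (n + m₀) := CE_div_lt (by rw [add_assoc]; exact ha)
      have h2 := hA.V n hn (a / 2 ^ κ) (b / 2 ^ κ) (h ▸ h1) (CE_div_lt hb)
        (by simpa only [h] using hne)
      rw [← h, CE_div_div, CE_div_div] at h2
      exact h2
  · intro n hn a b ha hb hne
    rcases CE_succ b κ with h | h
    · exact absurd (by simp only [h]) hne
    · have h1 : (b + 1) / 2 ^ κ < 2 ^ m₀ := CE_div_lt hb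
      have h2 := hA.H1 n hn (a / 2 ^ κ) (b / 2 ^ κ) (CE_div_lt (by rw [add_assoc]; exact ha))
        (h ▸ h1) (by simpa only [h] using hne)
      rw [CE_div_div] at h2
      exact h2
  · intro n hn a ha hne
    have e1 : a / 2 / 2 ^ κ = a / 2 ^ κ / 2 := by
      rw [Nat.div_div_eq_div_mul, Nat.div_div_eq_div_mul, mul_comm]
    have h2 := hA.H2 n hn (a / 2 ^ κ) (CE_div_lt (by rw [add_assoc]; exact ha)) (by
      simpa only [CE_div_last, Nat.zero_div, e1] using hne)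
    rw [← e1, CE_div_div, CE_div_div] at h2
    exact h2

theorem CE_cs (m₀ κ n : ℕ) : cs m₀ n = (2 : ℝ) ^ κ * cs (m₀ + κ) n := by
  unfold cs
  rw [← add_assoc, pow_add ((1 : ℝ) / 2) (n + m₀) κ, mul_comm ((1 / 2 : ℝ) ^ (n + m₀)), ← mul_assoc,
    ← mul_pow]
  norm_num

theorem CE_cs_pos (m n : ℕ) : 0 < cs m n := by
  unfold cs
  positivity

theorem CE_low (a κ : ℕ) : (((a / 2 ^ κ : ℕ) : ℝ)) * (2 : ℝ) ^ κ ≤ a := by
  have h : a / 2 ^ κ * 2 ^ κ ≤ a := Nat.div_mul_le_self a _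
  exact_mod_cast h

theorem CE_upp (a κ : ℕ) : (a : ℝ) + 1 ≤ (((a / 2 ^ κ : ℕ) : ℝ) + 1) * (2 : ℝ) ^ κ := by
  have h : a < (a / 2 ^ κ + 1) * 2 ^ κ := by
    rw [mul_comm]
    exact Nat.lt_mul_div_succ a (by positivity)
  exact_mod_cast Nat.succ_le_of_lt h

theorem CE_cell_sub (m₀ κ n a b : ℕ) :
    cell (m₀ + κ) n a b ⊆ cell m₀ n (a / 2 ^ κ) (b / 2 ^ κ) := by
  rintro z ⟨h1, h2, h3, h4⟩
  have hc := CE_cs_pos (m₀ + κ) n
  refine ⟨?_, ?_, ?_, ?_⟩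
  · rw [CE_cs m₀ κ, ← mul_assoc]
    exact le_trans (mul_le_mul_of_nonneg_right (CE_low a κ) hc.le) h1
  · rw [CE_cs m₀ κ, ← mul_assoc]
    exact le_trans h2 (mul_le_mul_of_nonneg_right (CE_upp a κ) hc.le)
  · rw [CE_cs m₀ κ, ← mul_assoc]
    have := mul_le_mul_of_nonneg_right (CE_low b κ) hc.le
    linarith
  · rw [CE_cs m₀ κ, ← mul_assoc]
    have := mul_le_mul_of_nonneg_right (CE_upp b κ) hc.le
    linarith

theorem CE_clamp {m n a b : ℕ} {z : ℂ} (hz : z ∈ cellE m n a b) :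
    ∃ z' ∈ cell m n a b, ‖z - z'‖ ≤ cs m n / 2 := by
  obtain ⟨h1, h2, h3, h4⟩ := hz
  have hc := CE_cs_pos m n
  refine ⟨⟨min z.re (((a : ℝ) + 1) * cs m n), min z.im ((1 / 2) ^ n + ((b : ℝ) + 1) * cs m n)⟩,
    ⟨?_, ?_, ?_, ?_⟩, ?_⟩
  · exact le_min h1 (by nlinarith)
  · exact min_le_right _ _
  · exact le_min h3 (by nlinarith)
  · exact min_le_right _ _
  · refine le_trans (Complex.norm_le_abs_re_add_abs_im _) ?_
    have hr : |(z - (⟨min z.re (((a : ℝ) + 1) * cs m n),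
        min z.im ((1 / 2) ^ n + ((b : ℝ) + 1) * cs m n)⟩ : ℂ)).re| ≤ cs m n / 4 := by
      rw [Complex.sub_re, abs_of_nonneg (sub_nonneg.2 (min_le_left _ _))]
      rcases min_choice z.re (((a : ℝ) + 1) * cs m n) with h | h
      · simp only [h]
        linarith
      · simp only [h]
        nlinarith
    have hi : |(z - (⟨min z.re (((a : ℝ) + 1) * cs m n),
        min z.im ((1 / 2) ^ n + ((b : ℝ) + 1) * cs m n)⟩ : ℂ)).im| ≤ cs m n / 4 := by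
      rw [Complex.sub_im, abs_of_nonneg (sub_nonneg.2 (min_le_left _ _))]
      rcases min_choice z.im ((1 / 2) ^ n + ((b : ℝ) + 1) * cs m n) with h | h
      · simp only [h]
        linarith
      · simp only [h]
        nlinarith
    linarith

theorem CE_cauchy {g : ℂ → ℂ} (hg : Unit1 g) {R : ℝ} (hR : 0 < R) {w : ℂ} (hw : R ≤ w.im) :
    ‖deriv g w‖ ≤ 2 / R := by
  have hsub : Metric.closedBall w (R / 2) ⊆ HP := by
    intro v hv
    rw [Metric.mem_closedBall, Complex.dist_eq] at hv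
    have h1 := (Complex.abs_im_le_norm (v - w)).trans hv
    rw [Complex.sub_im, abs_le] at h1
    show 0 < v.im
    linarith [h1.1]
  have hd : DiffContOnCl ℂ g (Metric.ball w (R / 2)) := by
    apply DifferentiableOn.diffContOnCl
    rw [closure_ball w (by positivity)]
    exact hg.1.mono hsub
  have h2 := Complex.norm_deriv_le_of_forall_mem_sphere_norm_le (C := 1) (half_pos hR) hd
    (fun v hv => hg.2 v (hsub (Metric.sphere_subset_closedBall hv)))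
  refine h2.trans (le_of_eq ?_)
  field_simp

theorem CE_lip {g : ℂ → ℂ} (hg : Unit1 g) {R : ℝ} (hR : 0 < R) {z w : ℂ} (hz : R ≤ z.im)
    (hw : R ≤ w.im) : ‖g z - g w‖ ≤ 2 / R * ‖z - w‖ := by
  have hopen : IsOpen HP := isOpen_lt continuous_const Complex.continuous_im
  have hconv : Convex ℝ {v : ℂ | R ≤ v.im} := convex_halfSpace_im_ge R
  refine Convex.norm_image_sub_le_of_norm_deriv_le (f := g) (C := 2 / R)
    (s := {v : ℂ | R ≤ v.im}) (fun v hv => ?_) (fun v hv => CE_cauchy hg hR hv) hconv hw hz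
  exact (hg.1 v (lt_of_lt_of_le hR hv)).differentiableAt (hopen.mem_nhds (lt_of_lt_of_le hR hv))

theorem contour_E (r : ℕ) {ρ : ℝ} (hρ : 0 < ρ) :
    ∃ (m : ℕ) (M : ℝ), 0 ≤ M ∧
      ∀ h : Fin r → ℂ → ℂ, (∀ i, Unit1 (h i)) → ∀ N : ℕ,
        ∃ (lab : ℕ → ℕ → ℕ → (Fin r → ℂ)) (G : Finset Nd), Pack M G ∧ AdjG m N lab G ∧
          ∀ n ≤ N, ∀ a < 2 ^ (n + m), ∀ b < 2 ^ m, ∀ z ∈ cellE m n a b, ∀ i,
            ‖h i z - lab n a b i‖ < ρ := by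
  obtain ⟨m₀, M, L, hM, hc⟩ := contour_multi r (half_pos hρ)
  obtain ⟨κ, hκ⟩ := pow_unbounded_of_one_lt (16 / ρ) (by norm_num : (1 : ℝ) < 2)
  refine ⟨m₀ + κ, M, hM, fun h hh N => ?_⟩
  obtain ⟨lab₀, G, hG, hA, hl⟩ := hc h hh N
  refine ⟨fun n a b => lab₀ n (a / 2 ^ κ) (b / 2 ^ κ), G, hG, CE_adj hA κ, ?_⟩
  intro n hn a ha b hb z hz i
  obtain ⟨z', hz', hzz⟩ := CE_clamp hz
  have h1 := (hl n hn (a / 2 ^ κ) (CE_div_lt (by rw [add_assoc]; exact ha)) (b / 2 ^ κ)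
    (CE_div_lt hb)).2 z' (CE_cell_sub m₀ κ n a b hz') i
  have hR : (0 : ℝ) < (1 / 2) ^ n := by positivity
  have hcp := CE_cs_pos (m₀ + κ) n
  have hzi : (1 / 2 : ℝ) ^ n ≤ z.im := by
    have := hz.2.2.1
    have h0 : (0 : ℝ) ≤ (b : ℝ) * cs (m₀ + κ) n := by positivity
    linarith
  have hzi' : (1 / 2 : ℝ) ^ n ≤ z'.im := by
    have := hz'.2.2.1
    have h0 : (0 : ℝ) ≤ (b : ℝ) * cs (m₀ + κ) n := by positivity
    linarith
  have h2 := CE_lip (hh i) hR hzi hzi'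
  have h3 : 2 / (1 / 2 : ℝ) ^ n * ‖z - z'‖ ≤ (1 / 2) ^ (m₀ + κ) := by
    calc 2 / (1 / 2 : ℝ) ^ n * ‖z - z'‖ ≤ 2 / (1 / 2 : ℝ) ^ n * (cs (m₀ + κ) n / 2) :=
          mul_le_mul_of_nonneg_left hzz (by positivity)
      _ = (1 / 2) ^ (m₀ + κ) := by
          unfold cs
          rw [pow_add (1 / 2 : ℝ) n]
          field_simp
  have h4 : (1 / 2 : ℝ) ^ (m₀ + κ) ≤ (1 / 2) ^ κ :=
    pow_le_pow_of_le_one (by norm_num) (by norm_num) (by omega)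
  have h5 : (1 / 2 : ℝ) ^ κ < ρ / 16 := by
    rw [one_div, inv_pow, inv_lt_comm₀ (by positivity) (by positivity)]
    rw [inv_div]
    exact hκ
  calc ‖h i z - lab₀ n (a / 2 ^ κ) (b / 2 ^ κ) i‖
      = ‖(h i z - h i z') + (h i z' - lab₀ n (a / 2 ^ κ) (b / 2 ^ κ) i)‖ := by ring_nf
    _ ≤ ‖h i z - h i z'‖ + ‖h i z' - lab₀ n (a / 2 ^ κ) (b / 2 ^ κ) i‖ := norm_add_le _ _
    _ < ρ := by linarith

end Cor
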