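import Pool.Agent.helper45.Ball.Lim
import Pool.Agent.helper45.Cor.Disc

/-!
Module BALL-CAY: localisation on the unit ball, and the corona theorem for one arbitrary generator
and functions of one coordinate.

PROOF.  `ballLoc`: Cayley transform `Ψ : Sg l → Bn d`,
`Ψ z = fun i => if i = l then (z l - I) / (z l + I) else 2 I z_i / (z l + I)`, inverse
`Ψ' w = fun i => if i = l then I (1 + w l) / (1 - w l) else w i / (1 - w l)`:
`1 - ∑ |Ψ z i|^2 = 4 (im (z l) - ∑_{i ≠ l} |z i|^2) / |z l + I|^2`, and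
`2 I / (Ψ' w l + I) = 1 - w l`.  Apply `sgLoc` to `F j ∘ Ψ` and `h i ∘ Disc_k` (see Cor/Disc.lean and
Cor/DiscK1.lean: `Disc_k`, `Disc_ki` and their lemmas).
`ballOneK`: exactly as `oneK` in Cor/DiscK.lean: apply `ballLoc` with `r = k`,
`h q = φ q` for `q ≠ j₀` and `h j₀ = 0`, `ρ = δ / (4 k)`, `K = 4 k / δ`: on
`W = {z : |h q (z l) - c q| < ρ}`: if `|c q| ≥ δ / (2 k)` for some `q ≠ j₀` then
`|f q| ≥ δ / (4 k)` on `W`, local solution `1 / f q` in the place `q`; otherwise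
`|f j₀| ≥ δ / (4 k)`.
-/

noncomputable section

open Set Metric

namespace Cor

/-- the unit ball of `ℂ^d` -/
def Bn (d : ℕ) : Set (Fin d → ℂ) := {z | ∑ i, ‖z i‖ ^ 2 < 1}

theorem Bn_open (d : ℕ) : IsOpen (Bn d) := by
  have h1 : Continuous fun z : Fin d → ℂ => ∑ i, ‖z i‖ ^ 2 := by fun_prop
  exact isOpen_lt h1 continuous_const

/-- Cayley transform of the Siegel domain to the ball -/
def Cay_P {d : ℕ} (l : Fin d) (z : Fin d → ℂ) : Fin d → ℂ := fun i =>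
  if i = l then Disc_k (z l) else 2 * Complex.I * z i / (z l + Complex.I)

/-- inverse of the Cayley transform -/
def Cay_Q {d : ℕ} (l : Fin d) (w : Fin d → ℂ) : Fin d → ℂ := fun i =>
  if i = l then Disc_ki (w l) else w i / (1 - w l)

theorem Cay_P_l {d : ℕ} (l : Fin d) (z : Fin d → ℂ) : Cay_P l z l = Disc_k (z l) := if_pos rfl

theorem Cay_P_ne {d : ℕ} {l i : Fin d} (h : i ≠ l) (z : Fin d → ℂ) :
    Cay_P l z i = 2 * Complex.I * z i / (z l + Complex.I) := if_neg h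

theorem Cay_Q_l {d : ℕ} (l : Fin d) (z : Fin d → ℂ) : Cay_Q l z l = Disc_ki (z l) := if_pos rfl

theorem Cay_Q_ne {d : ℕ} {l i : Fin d} (h : i ≠ l) (z : Fin d → ℂ) :
    Cay_Q l z i = z i / (1 - z l) := if_neg h

theorem Cay_Bn_lt {d : ℕ} (l : Fin d) {w : Fin d → ℂ} (hw : w ∈ Bn d) : ‖w l‖ < 1 := by
  have h1 : ‖w l‖ ^ 2 ≤ ∑ i, ‖w i‖ ^ 2 :=
    Finset.single_le_sum (f := fun i => ‖w i‖ ^ 2) (fun i _ => sq_nonneg _) (Finset.mem_univ l)
  have h2 : ∑ i, ‖w i‖ ^ 2 < 1 := hw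
  have h3 := norm_nonneg (w l)
  nlinarith

theorem Cay_P_mem {d : ℕ} {l : Fin d} {z : Fin d → ℂ} (hz : z ∈ Sg l) : Cay_P l z ∈ Bn d := by
  have hl : z l ∈ HP := Sg_HP hz
  have hz' : ∑ i ∈ Finset.univ.erase l, ‖z i‖ ^ 2 < (z l).im := hz
  have hN : 0 < ‖z l + Complex.I‖ ^ 2 := by
    have := norm_pos_iff.mpr (Disc_ne1 hl)
    positivity
  have h1 : ‖z l - Complex.I‖ ^ 2 = ‖z l + Complex.I‖ ^ 2 - 4 * (z l).im := by
    rw [← Complex.normSq_eq_norm_sq, ← Complex.normSq_eq_norm_sq, Complex.normSq_apply,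
      Complex.normSq_apply]
    simp only [Complex.sub_re, Complex.sub_im, Complex.add_re, Complex.add_im, Complex.I_re,
      Complex.I_im]
    ring
  change ∑ i, ‖Cay_P l z i‖ ^ 2 < 1
  rw [← Finset.add_sum_erase _ _ (Finset.mem_univ l)]
  have h2 : ‖Cay_P l z l‖ ^ 2 =
      (‖z l + Complex.I‖ ^ 2 - 4 * (z l).im) / ‖z l + Complex.I‖ ^ 2 := by
    rw [Cay_P_l, Disc_k, norm_div, div_pow, h1]
  have h3 : ∑ i ∈ Finset.univ.erase l, ‖Cay_P l z i‖ ^ 2 =
      4 * (∑ i ∈ Finset.univ.erase l, ‖z i‖ ^ 2) / ‖z l + Complex.I‖ ^ 2 := by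
    rw [Finset.mul_sum, Finset.sum_div]
    refine Finset.sum_congr rfl fun i hi => ?_
    rw [Cay_P_ne (Finset.ne_of_mem_erase hi), norm_div, norm_mul, norm_mul, Complex.norm_I,
      div_pow, mul_pow, mul_pow]
    norm_num
  rw [h2, h3, ← add_div, div_lt_one hN]
  linarith

theorem Cay_ki_im {w : ℂ} (hw : ‖w‖ < 1) :
    (Disc_ki w).im = (1 - ‖w‖ ^ 2) / ‖1 - w‖ ^ 2 := by
  have hne := Disc_ne2 hw
  have hpos : 0 < Complex.normSq (1 - w) := Complex.normSq_pos.mpr hne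
  unfold Disc_ki
  rw [Complex.div_im, ← Complex.normSq_eq_norm_sq, ← Complex.normSq_eq_norm_sq, ← sub_div]
  congr 1
  rw [Complex.normSq_apply]
  simp only [Complex.mul_im, Complex.mul_re, Complex.I_re, Complex.I_im, Complex.add_re,
    Complex.add_im, Complex.one_re, Complex.one_im, Complex.sub_re, Complex.sub_im]
  ring

theorem Cay_Q_mem {d : ℕ} {l : Fin d} {w : Fin d → ℂ} (hw : w ∈ Bn d) : Cay_Q l w ∈ Sg l := by
  have hl : ‖w l‖ < 1 := Cay_Bn_lt l hw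
  have hw' : ∑ i, ‖w i‖ ^ 2 < 1 := hw
  rw [← Finset.add_sum_erase _ _ (Finset.mem_univ l)] at hw'
  have hN : 0 < ‖1 - w l‖ ^ 2 := by
    have := norm_pos_iff.mpr (Disc_ne2 hl)
    positivity
  change ∑ i ∈ Finset.univ.erase l, ‖Cay_Q l w i‖ ^ 2 < (Cay_Q l w l).im
  have h3 : ∑ i ∈ Finset.univ.erase l, ‖Cay_Q l w i‖ ^ 2 =
      (∑ i ∈ Finset.univ.erase l, ‖w i‖ ^ 2) / ‖1 - w l‖ ^ 2 := by
    rw [Finset.sum_div]
    refine Finset.sum_congr rfl fun i hi => ?_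
    rw [Cay_Q_ne (Finset.ne_of_mem_erase hi), norm_div, div_pow]
  rw [h3, Cay_Q_l, Cay_ki_im hl]
  exact (div_lt_div_iff_of_pos_right hN).mpr (by linarith)

theorem Cay_P_Q {d : ℕ} {l : Fin d} {w : Fin d → ℂ} (hw : w ∈ Bn d) :
    Cay_P l (Cay_Q l w) = w := by
  have hl : ‖w l‖ < 1 := Cay_Bn_lt l hw
  have hne := Disc_ne2 hl
  funext i
  by_cases hi : i = l
  · subst hi
    rw [Cay_P_l, Cay_Q_l, Disc_k_ki hl]
  · rw [Cay_P_ne hi, Cay_Q_ne hi, Cay_Q_l]
    have h1 := Disc_ne1 (Disc_ki_mem hl)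
    rw [div_eq_iff h1]
    unfold Disc_ki
    field_simp
    ring

theorem Cay_P_diff {d : ℕ} (l : Fin d) : DifferentiableOn ℂ (Cay_P l) (Sg l) := by
  rw [differentiableOn_pi]
  intro i z hz
  have hl : z l ∈ HP := Sg_HP hz
  apply DifferentiableAt.differentiableWithinAt
  by_cases hi : i = l
  · subst hi
    have h1 : (fun z : Fin d → ℂ => Cay_P i z i) = fun z => Disc_k (z i) := by
      funext z
      exact Cay_P_l i z
    rw [h1]
    unfold Disc_k
    have h2 : DifferentiableAt ℂ (fun z : Fin d → ℂ => z i - Complex.I) z := by fun_prop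
    have h3 : DifferentiableAt ℂ (fun z : Fin d → ℂ => z i + Complex.I) z := by fun_prop
    have h5 : (fun z : Fin d → ℂ => z i + Complex.I) z ≠ 0 := Disc_ne1 hl
    have h4 := h2.mul (h3.inv h5)
    simp only [div_eq_mul_inv]
    exact h4
  · have h1 : (fun z : Fin d → ℂ => Cay_P l z i) =
        fun z => 2 * Complex.I * z i / (z l + Complex.I) := by
      funext z
      exact Cay_P_ne hi z
    rw [h1]
    have h2 : DifferentiableAt ℂ (fun z : Fin d → ℂ => 2 * Complex.I * z i) z := by fun_prop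
    have h3 : DifferentiableAt ℂ (fun z : Fin d → ℂ => z l + Complex.I) z := by fun_prop
    have h5 : (fun z : Fin d → ℂ => z l + Complex.I) z ≠ 0 := Disc_ne1 hl
    have h4 := h2.mul (h3.inv h5)
    simp only [div_eq_mul_inv]
    exact h4

theorem Cay_Q_diff {d : ℕ} (l : Fin d) : DifferentiableOn ℂ (Cay_Q l) (Bn d) := by
  rw [differentiableOn_pi]
  intro i z hz
  have hl : ‖z l‖ < 1 := Cay_Bn_lt l hz
  apply DifferentiableAt.differentiableWithinAt
  by_cases hi : i = l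
  · subst hi
    have h1 : (fun z : Fin d → ℂ => Cay_Q i z i) = fun z => Disc_ki (z i) := by
      funext z
      exact Cay_Q_l i z
    rw [h1]
    unfold Disc_ki
    have h2 : DifferentiableAt ℂ (fun z : Fin d → ℂ => Complex.I * (1 + z i)) z := by fun_prop
    have h3 : DifferentiableAt ℂ (fun z : Fin d → ℂ => 1 - z i) z := by fun_prop
    have h5 : (fun z : Fin d → ℂ => 1 - z i) z ≠ 0 := Disc_ne2 hl
    have h4 := h2.mul (h3.inv h5)
    simp only [div_eq_mul_inv]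
    exact h4
  · have h1 : (fun z : Fin d → ℂ => Cay_Q l z i) = fun z => z i / (1 - z l) := by
      funext z
      exact Cay_Q_ne hi z
    rw [h1]
    have h2 : DifferentiableAt ℂ (fun z : Fin d → ℂ => z i) z := by fun_prop
    have h3 : DifferentiableAt ℂ (fun z : Fin d → ℂ => 1 - z l) z := by fun_prop
    have h5 : (fun z : Fin d → ℂ => 1 - z l) z ≠ 0 := Disc_ne2 hl
    have h4 := h2.mul (h3.inv h5)
    simp only [div_eq_mul_inv]
    exact h4

theorem ballLoc {d : ℕ} (l : Fin d) (k r : ℕ) {ρ : ℝ} (hρ : 0 < ρ) {K : ℝ} (hK : 0 ≤ K) :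
    ∃ C : ℝ, 0 ≤ C ∧ ∀ F : Fin k → (Fin d → ℂ) → ℂ, (∀ j, DifferentiableOn ℂ (F j) (Bn d)) →
      (∀ j, ∀ z ∈ Bn d, ‖F j z‖ ≤ 1) → ∀ h : Fin r → ℂ → ℂ,
      (∀ i, DifferentiableOn ℂ (h i) (ball 0 1) ∧ ∀ w ∈ ball (0 : ℂ) 1, ‖h i w‖ ≤ 1) →
      (∀ c : Fin r → ℂ, ∃ A : Fin k → (Fin d → ℂ) → ℂ,
        (∀ j, DifferentiableOn ℂ (A j) {z | z ∈ Bn d ∧ ∀ i, ‖h i (z l) - c i‖ < ρ}) ∧
        ∀ z ∈ Bn d, (∀ i, ‖h i (z l) - c i‖ < ρ) →
          (∀ j, ‖A j z‖ ≤ K) ∧ ∑ j, F j z * A j z = 1) →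
      ∃ A : Fin k → (Fin d → ℂ) → ℂ, (∀ j, DifferentiableOn ℂ (A j) (Bn d)) ∧
        ∀ z ∈ Bn d, (∀ j, ‖A j z‖ ≤ C) ∧ ∑ j, F j z * A j z = 1 := by
  obtain ⟨C, hC0, hC⟩ := sgLoc l k r hρ hK
  refine ⟨C, hC0, ?_⟩
  intro F hF hF1 h hh hloc
  have hkball : ∀ t ∈ HP, Disc_k t ∈ ball (0 : ℂ) 1 := fun t ht =>
    mem_ball_zero_iff.mpr (Disc_k_lt ht)
  have hPm : MapsTo (Cay_P l) (Sg l) (Bn d) := fun z hz => Cay_P_mem hz
  have hQm : MapsTo (Cay_Q l) (Bn d) (Sg l) := fun z hz => Cay_Q_mem hz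
  obtain ⟨B, hB1, hB2⟩ := hC (fun j z => F j (Cay_P l z))
    (fun j => (hF j).comp (Cay_P_diff l) hPm)
    (fun j z hz => hF1 j _ (Cay_P_mem hz))
    (fun i t => h i (Disc_k t))
    (fun i => ⟨(hh i).1.comp Disc_k_diff hkball, fun t ht => (hh i).2 _ (hkball t ht)⟩)
    (by
      intro c
      obtain ⟨A, hA1, hA2⟩ := hloc c
      refine ⟨fun j z => A j (Cay_P l z), fun j => ?_, fun z hz hz' => ?_⟩
      · refine (hA1 j).comp ((Cay_P_diff l).mono fun z hz => hz.1) ?_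
        intro z hz
        refine ⟨Cay_P_mem hz.1, fun i => ?_⟩
        rw [Cay_P_l]
        exact hz.2 i
      · refine hA2 _ (Cay_P_mem hz) fun i => ?_
        rw [Cay_P_l]
        exact hz' i)
  refine ⟨fun j w => B j (Cay_Q l w), fun j => (hB1 j).comp (Cay_Q_diff l) hQm, fun w hw => ?_⟩
  have h1 := hB2 _ (Cay_Q_mem (l := l) hw)
  simp only [Cay_P_Q hw] at h1
  exact h1

/-- a bounded local solution if one generator is bounded below -/
theorem Cay_loc {d k : ℕ} (f : Fin k → (Fin d → ℂ) → ℂ)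
    (hf : ∀ j, DifferentiableOn ℂ (f j) (Bn d)) (W : Set (Fin d → ℂ)) (hW : W ⊆ Bn d) (j : Fin k)
    {ε : ℝ} (hε : 0 < ε) (hj : ∀ z ∈ W, ε ≤ ‖f j z‖) :
    ∃ A : Fin k → (Fin d → ℂ) → ℂ, (∀ i, DifferentiableOn ℂ (A i) W) ∧
      ∀ z ∈ W, (∀ i, ‖A i z‖ ≤ ε⁻¹) ∧ ∑ i, f i z * A i z = 1 := by
  classical
  have hne : ∀ z ∈ W, f j z ≠ 0 := fun z hz h0 => by
    have := hj z hz
    rw [h0, norm_zero] at this
    linarith
  refine ⟨fun i z => if i = j then (f j z)⁻¹ else 0, ?_, ?_⟩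
  · intro i
    by_cases hi : i = j
    · simp only [if_pos hi]
      exact ((hf j).mono hW).inv hne
    · simp only [if_neg hi]
      exact differentiableOn_const 0
  · intro z hz
    constructor
    · intro i
      by_cases hi : i = j
      · simp only [if_pos hi]
        rw [norm_inv]
        exact inv_anti₀ hε (hj z hz)
      · simp only [if_neg hi, norm_zero]
        positivity
    · simp only [mul_ite, mul_zero]
      rw [Finset.sum_ite_eq' Finset.univ j, if_pos (Finset.mem_univ _), mul_inv_cancel₀ (hne z hz)]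

theorem ballOneK {d : ℕ} (l : Fin d) (k : ℕ) {δ : ℝ} (hδ : 0 < δ) :
    ∃ C : ℝ, 0 ≤ C ∧ ∀ (f : Fin k → (Fin d → ℂ) → ℂ) (j₀ : Fin k) (φ : Fin k → ℂ → ℂ),
      (∀ j, DifferentiableOn ℂ (f j) (Bn d)) → (∀ j, ∀ z ∈ Bn d, ‖f j z‖ ≤ 1) →
      (∀ j, j ≠ j₀ → DifferentiableOn ℂ (φ j) (ball 0 1) ∧
        (∀ w ∈ ball (0 : ℂ) 1, ‖φ j w‖ ≤ 1) ∧ ∀ z ∈ Bn d, f j z = φ j (z l)) →
      (∀ z ∈ Bn d, δ ≤ ∑ j, ‖f j z‖) →
      ∃ g : Fin k → (Fin d → ℂ) → ℂ, (∀ j, DifferentiableOn ℂ (g j) (Bn d)) ∧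
        ∀ z ∈ Bn d, (∀ j, ‖g j z‖ ≤ C) ∧ ∑ j, f j z * g j z = 1 := by
  rcases Nat.eq_zero_or_pos k with hk0 | hk
  · subst hk0
    exact ⟨0, le_refl _, fun f j₀ => j₀.elim0⟩
  have hkr : (0 : ℝ) < k := by exact_mod_cast hk
  have hk1 : (1 : ℝ) ≤ k := by exact_mod_cast hk
  have hρ : 0 < δ / (4 * k) := by positivity
  obtain ⟨C, hC0, hC⟩ := ballLoc l k k hρ (K := (δ / (4 * k))⁻¹) (by positivity)
  refine ⟨C, hC0, ?_⟩
  intro f j₀ φ hf hf1 hφ hb
  classical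
  refine hC f hf hf1 (fun q => if q ≠ j₀ then φ q else fun _ => 0) ?_ ?_
  · intro q
    by_cases h : q ≠ j₀
    · simp only [if_pos h]
      exact ⟨(hφ q h).1, (hφ q h).2.1⟩
    · simp only [if_neg h]
      exact ⟨differentiableOn_const 0, fun w _ => by simp⟩
  · intro c
    set h : Fin k → ℂ → ℂ := fun q => if q ≠ j₀ then φ q else fun _ => 0 with hh
    set W : Set (Fin d → ℂ) :=
      {z | z ∈ Bn d ∧ ∀ q, ‖h q (z l) - c q‖ < δ / (4 * k)} with hWdef
    have hW : W ⊆ Bn d := fun z hz => hz.1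
    have hclose : ∀ z ∈ W, ∀ q, q ≠ j₀ → ‖f q z - c q‖ < δ / (4 * k) := by
      intro z hz q hq
      have h1 := hz.2 q
      have h2 : h q = φ q := by
        rw [hh]
        exact if_pos hq
      rw [h2] at h1
      rw [(hφ q hq).2.2 z hz.1]
      exact h1
    have e0 : δ / (2 * k) = 2 * (δ / (4 * k)) := by field_simp; norm_num
    have hfin : ∃ A : Fin k → (Fin d → ℂ) → ℂ, (∀ i, DifferentiableOn ℂ (A i) W) ∧
        ∀ z ∈ W, (∀ i, ‖A i z‖ ≤ (δ / (4 * k))⁻¹) ∧ ∑ i, f i z * A i z = 1 := by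
      by_cases hcase : ∃ q, q ≠ j₀ ∧ δ / (2 * k) ≤ ‖c q‖
      · obtain ⟨q, hq, hlow⟩ := hcase
        refine Cay_loc f hf W hW q hρ ?_
        intro z hz
        have e1 := hclose z hz q hq
        rw [norm_sub_rev] at e1
        have e2 : ‖c q‖ - ‖f q z‖ ≤ ‖c q - f q z‖ := norm_sub_norm_le _ _
        linarith
      · push Not at hcase
        refine Cay_loc f hf W hW j₀ hρ ?_
        intro z hz
        have e1 := hb z hz.1
        rw [← Finset.add_sum_erase _ _ (Finset.mem_univ j₀)] at e1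
        have e2 : ∑ j ∈ Finset.univ.erase j₀, ‖f j z‖ ≤ 3 * δ / 4 := by
          calc ∑ j ∈ Finset.univ.erase j₀, ‖f j z‖
              ≤ ∑ j ∈ Finset.univ.erase j₀, 3 * (δ / (4 * k)) := by
                apply Finset.sum_le_sum
                intro q hq
                have hq' := Finset.ne_of_mem_erase hq
                have e3 := hclose z hz q hq'
                have e4 := hcase q hq'
                have e5 : ‖f q z‖ - ‖c q‖ ≤ ‖f q z - c q‖ := norm_sub_norm_le _ _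
                linarith
            _ = ((k - 1 : ℕ) : ℝ) * (3 * (δ / (4 * k))) := by
                rw [Finset.sum_const, Finset.card_erase_of_mem (Finset.mem_univ _),
                  Finset.card_univ, Fintype.card_fin, nsmul_eq_mul]
            _ ≤ (k : ℝ) * (3 * (δ / (4 * k))) := by
                gcongr
                omega
            _ = 3 * δ / 4 := by field_simp
        have e6 : δ / (4 * k) ≤ δ / 4 := by
          apply div_le_div_of_nonneg_left hδ.le (by norm_num)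
          linarith
        linarith
    obtain ⟨A, hA1, hA2⟩ := hfin
    exact ⟨A, hA1, fun z hz hz' => hA2 z ⟨hz, hz'⟩⟩

end Cor
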