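import Pool.Agent.helper30.Cor.Gel

/-!
Module BALL-CH: characters of `H^∞(Ω)`.

PROOF.  `HX_*`: `HA_ext`, `HX_ev`.  `exists_char`: copy the first part of the proof of `gel`
(Pool/Agent/helper30/Cor/Gel.lean): the ideal generated by the `HX Ω (f j)` is proper, it is
contained in a maximal ideal, which is the kernel of a character.  `char_no`: apply `χ` to
`∑ j, HX Ω (f j) * HX Ω (A j) = 1`.
-/

noncomputable section

open Set Metric Filter Topology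

namespace Cor

variable {n : ℕ} {Ω : Set (Fin n → ℂ)}

theorem HX_const (Ω : Set (Fin n → ℂ)) (c : ℂ) :
    HX Ω (fun _ => c) = algebraMap ℂ (HA Ω) c := by
  apply HA_ext
  intro z
  rw [HX_ev (HInf_const Ω c), AlgHom.commutes]
  rfl

theorem HX_add {f g : (Fin n → ℂ) → ℂ} (hf : HInf Ω f) (hg : HInf Ω g) :
    HX Ω (fun z => f z + g z) = HX Ω f + HX Ω g := by
  apply HA_ext
  intro z
  rw [map_add, HX_ev hf, HX_ev hg, HX_ev (HInf_add hf hg)]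

theorem HX_mul {f g : (Fin n → ℂ) → ℂ} (hf : HInf Ω f) (hg : HInf Ω g) :
    HX Ω (fun z => f z * g z) = HX Ω f * HX Ω g := by
  apply HA_ext
  intro z
  rw [map_mul, HX_ev hf, HX_ev hg, HX_ev (HInf_mul hf hg)]

theorem HInf_sum {κ : Type*} (s : Finset κ) {f : κ → (Fin n → ℂ) → ℂ}
    (hf : ∀ i ∈ s, HInf Ω (f i)) : HInf Ω (fun z => ∑ i ∈ s, f i z) := by
  classical
  induction s using Finset.induction_on with
  | empty => simpa using HInf_const Ω 0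
  | insert a s ha ih =>
    have h1 := HInf_add (hf a (Finset.mem_insert_self _ _))
      (ih fun i hi => hf i (Finset.mem_insert_of_mem hi))
    have e : (fun z => ∑ i ∈ insert a s, f i z) = fun z => f a z + ∑ i ∈ s, f i z :=
      funext fun z => Finset.sum_insert ha
    rw [e]
    exact h1

theorem HX_sum {κ : Type*} (s : Finset κ) {f : κ → (Fin n → ℂ) → ℂ}
    (hf : ∀ i ∈ s, HInf Ω (f i)) : HX Ω (fun z => ∑ i ∈ s, f i z) = ∑ i ∈ s, HX Ω (f i) := by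
  apply HA_ext
  intro z
  rw [map_sum, HX_ev (HInf_sum s hf)]
  exact Finset.sum_congr rfl fun i hi => (HX_ev (hf i hi) z).symm

theorem HX_congr {f g : (Fin n → ℂ) → ℂ} (h : ∀ z ∈ Ω, f z = g z) : HX Ω f = HX Ω g := by
  have hiff : HInf Ω f ↔ HInf Ω g := by
    constructor
    · rintro ⟨hd, C, hC⟩
      exact ⟨hd.congr fun z hz => (h z hz).symm, C, fun z hz => by rw [← h z hz]; exact hC z hz⟩
    · rintro ⟨hd, C, hC⟩
      exact ⟨hd.congr h, C, fun z hz => by rw [h z hz]; exact hC z hz⟩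
  by_cases hf : HInf Ω f
  · apply HA_ext
    intro z
    rw [HX_ev hf, HX_ev (hiff.1 hf), h z.1 z.2]
  · unfold HX
    rw [dif_neg hf, dif_neg fun hg => hf (hiff.2 hg)]

theorem HX_norm {f : (Fin n → ℂ) → ℂ} (hf : HInf Ω f) {C : ℝ} (hC : 0 ≤ C)
    (h : ∀ z ∈ Ω, ‖f z‖ ≤ C) : ‖HX Ω f‖ ≤ C :=
  HA_norm_le hC fun z => by rw [HX_ev hf]; exact h z.1 z.2

theorem exists_char (hΩ : IsOpen Ω) {k : ℕ} (f : Fin k → (Fin n → ℂ) → ℂ)
    (hf : ∀ j, HInf Ω (f j))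
    (hno : ¬ ∃ A : Fin k → (Fin n → ℂ) → ℂ, (∀ j, HInf Ω (A j)) ∧
      ∀ z ∈ Ω, ∑ j, f j z * A j z = 1) :
    ∃ χ : HA Ω →ₐ[ℂ] ℂ, (∀ x, ‖χ x‖ ≤ ‖x‖) ∧ ∀ j, χ (HX Ω (f j)) = 0 := by
  classical
  have : CompleteSpace (HA Ω) := HA_complete hΩ
  set I : Ideal (HA Ω) := Ideal.span (Set.range fun j => HX Ω (f j)) with hI
  have hIne : I ≠ ⊤ := by
    intro htop
    have h1 : (1 : HA Ω) ∈ I := by rw [htop]; trivial
    rw [hI, Ideal.mem_span_range_iff_exists_fun] at h1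
    obtain ⟨c, hc⟩ := h1
    choose g hg1 hg2 using fun j => HX_fun (c j)
    refine hno ⟨g, hg1, fun z hz => ?_⟩
    have h2 := congrArg (HA_ev (⟨z, hz⟩ : Ω)) hc
    rw [map_sum, map_one] at h2
    rw [← h2]
    refine Finset.sum_congr rfl fun j _ => ?_
    rw [map_mul, HX_ev (hf j), hg2 j ⟨z, hz⟩, mul_comm]
  obtain ⟨𝔪, hmax, hle⟩ := Ideal.exists_le_maximal I hIne
  set χ₀ := 𝔪.toCharacterSpace with hχ₀
  set χ : HA Ω →ₐ[ℂ] ℂ := WeakDual.CharacterSpace.equivAlgHom χ₀ with hχ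
  have hχf : ∀ j, χ (HX Ω (f j)) = 0 := by
    intro j
    have h1 : HX Ω (f j) ∈ 𝔪 := hle (Ideal.subset_span ⟨j, rfl⟩)
    exact Ideal.toCharacterSpace_apply_eq_zero_of_mem 𝔪 h1
  have hone : ‖(1 : HA Ω)‖ ≤ 1 := by
    refine HA_norm_le zero_le_one fun z => ?_
    rw [map_one]
    simp
  have hχn : ∀ x : HA Ω, ‖χ x‖ ≤ ‖x‖ := by
    intro x
    have h1 := AlgHom.norm_apply_le_self_mul_norm_one χ x
    have h2 : ‖x‖ * ‖(1 : HA Ω)‖ ≤ ‖x‖ := mul_le_of_le_one_right (norm_nonneg _) hone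
    linarith
  exact ⟨χ, hχn, hχf⟩

theorem char_no (χ : HA Ω →ₐ[ℂ] ℂ) {κ : Type*} [Fintype κ] {f A : κ → (Fin n → ℂ) → ℂ}
    (hf : ∀ j, HInf Ω (f j)) (hχ : ∀ j, χ (HX Ω (f j)) = 0) (hA : ∀ j, HInf Ω (A j))
    (h : ∀ z ∈ Ω, ∑ j, f j z * A j z = 1) : False := by
  have h1 : ∑ j, HX Ω (f j) * HX Ω (A j) = 1 := by
    apply HA_ext
    intro z
    rw [map_sum, map_one, ← h z.1 z.2]
    refine Finset.sum_congr rfl fun j _ => ?_
    rw [map_mul, HX_ev (hf j), HX_ev (hA j)]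
  have h2 := congrArg χ h1
  rw [map_sum, map_one] at h2
  have h3 : ∑ j, χ (HX Ω (f j) * HX Ω (A j)) = 0 := by
    refine Finset.sum_eq_zero fun j _ => ?_
    rw [map_mul, hχ j, zero_mul]
  rw [h3] at h2
  exact zero_ne_one h2

end Cor
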