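import Pool.Agent.helper45.Cor.Defs

/-!
Corona problem on the unit ball (MP_a78379_an, Q1).  Definitions.

The ball is replaced by the Siegel domain `Sg l`, the coordinate `z l` plays the role of the
variable of the upper half plane.
-/

noncomputable section

open Set Finset MeasureTheory

namespace Cor

/-! ### The Siegel domain and its retractions -/

section

variable {ι : Type*} [Fintype ι] [DecidableEq ι]

/-- the Siegel domain with distinguished coordinate `l` -/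
def Sg (l : ι) : Set (ι → ℂ) := {z | ∑ i ∈ Finset.univ.erase l, ‖z i‖ ^ 2 < (z l).im}

/-- the factor `(ζ - conj ζ) / (t - conj ζ)` -/
def bz (ζ t : ℂ) : ℂ := (ζ - (starRingEnd ℂ) ζ) / (t - (starRingEnd ℂ) ζ)

/-- the retraction of the Siegel domain onto the slice `z l = ζ` -/
def rho (l : ι) (ζ : ℂ) (z : ι → ℂ) : ι → ℂ := fun i => if i = l then ζ else bz ζ (z l) * z i

end

/-! ### The partition of unity -/

/-- a smooth step: `0` for `u ≤ 0`, `1` for `u ≥ 1/4` -/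
def ssm (u : ℝ) : ℝ := Real.smoothTransition (4 * u)

/-- its derivative -/
def dss (u : ℝ) : ℝ := deriv ssm u

/-- horizontal weight of the column `a` of level `n` -/
def alw (m n a : ℕ) (x : ℝ) : ℝ := ssm (x / cs m n - a) - ssm (x / cs m n - (a + 1))

/-- its derivative -/
def dal (m n a : ℕ) (x : ℝ) : ℝ :=
  (dss (x / cs m n - a) - dss (x / cs m n - (a + 1))) / cs m n

/-- step at the lower end of the row `b` of level `n` -/
def lbw (m n b : ℕ) (y : ℝ) : ℝ :=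
  if b = 0 then ssm ((y - (1 / 2) ^ n) / cs m (n + 1)) else ssm ((y - (1 / 2) ^ n) / cs m n - b)

/-- its derivative -/
def dlb (m n b : ℕ) (y : ℝ) : ℝ :=
  if b = 0 then dss ((y - (1 / 2) ^ n) / cs m (n + 1)) / cs m (n + 1)
  else dss ((y - (1 / 2) ^ n) / cs m n - b) / cs m n

/-- step at the upper end of the row `b` of level `n` -/
def ubw (m n b : ℕ) (y : ℝ) : ℝ := ssm ((y - (1 / 2) ^ n) / cs m n - (b + 1))

/-- its derivative -/
def dub (m n b : ℕ) (y : ℝ) : ℝ := dss ((y - (1 / 2) ^ n) / cs m n - (b + 1)) / cs m n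

/-- vertical weight of the row `b` of level `n` -/
def bew (m n b : ℕ) (y : ℝ) : ℝ := lbw m n b y - ubw m n b y

/-- its derivative -/
def dbe (m n b : ℕ) (y : ℝ) : ℝ := dlb m n b y - dub m n b y

/-- weight of the cell `(n, a, b)` -/
def abw (m n a b : ℕ) (t : ℂ) : ℝ := alw m n a t.re * bew m n b t.im

/-- `∂/∂(conj t)` of the weight -/
def dabw (m n a b : ℕ) (t : ℂ) : ℂ :=
  1 / 2 * ((dal m n a t.re * bew m n b t.im : ℝ) +
    Complex.I * (alw m n a t.re * dbe m n b t.im : ℝ))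

/-- the enlarged closed cell; it contains the support of `abw m n a b` -/
def cellE (m n a b : ℕ) : Set ℂ :=
  {z | (a : ℝ) * cs m n ≤ z.re ∧ z.re ≤ ((a : ℝ) + 5 / 4) * cs m n ∧
    (1 / 2) ^ n + (b : ℝ) * cs m n ≤ z.im ∧ z.im ≤ (1 / 2) ^ n + ((b : ℝ) + 5 / 4) * cs m n}

/-- a neighbourhood of the box of a node -/
def NB (I : Nd) : Set ℂ :=
  {z | |z.re - (cen I).re| ≤ 3 * len I ∧ len I ≤ z.im ∧ z.im ≤ 3 * len I}

/-- the region -/
def DNB (N : ℕ) : Set ℂ := {z | 1 / 4 < z.re ∧ z.re < 3 / 4 ∧ 2 * (1 / 2) ^ N < z.im ∧ z.im < 1}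

/-- sum over all cells of level at most `N` -/
def SumC {X : Type*} [AddCommMonoid X] (m N : ℕ) (f : ℕ → ℕ → ℕ → X) : X :=
  ∑ n ∈ range (N + 1), ∑ a ∈ range (2 ^ (n + m)), ∑ b ∈ range (2 ^ m), f n a b

/-! ### The kernel -/

open Classical in
/-- the average of the quotients `Phi G I t / Phi G I ζ` over the `I ∈ G` with `ζ ∈ NB I` -/
def KG (G : Finset Nd) (ζ t : ℂ) : ℂ :=
  ((G.filter (fun I => ζ ∈ NB I)).card : ℂ)⁻¹ *
    ∑ I ∈ G.filter (fun I => ζ ∈ NB I), Phi G I t * (Phi G I ζ)⁻¹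

/-! ### The patching data -/

section

variable {ι : Type*} [Fintype ι] [DecidableEq ι] {Λ : Type*} {k : ℕ}

/-- smooth combination of the local solutions -/
def sgm (l : ι) (m N : ℕ) (lab : ℕ → ℕ → ℕ → Λ) (S : Λ → Fin k → (ι → ℂ) → ℂ) (j : Fin k)
    (z : ι → ℂ) : ℂ :=
  SumC m N fun n a b => (abw m n a b (z l) : ℂ) * S (lab n a b) j z

/-- its derivative with respect to `conj (z l)` -/
def tau (l : ι) (m N : ℕ) (lab : ℕ → ℕ → ℕ → Λ) (S : Λ → Fin k → (ι → ℂ) → ℂ) (j : Fin k)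
    (z : ι → ℂ) : ℂ :=
  SumC m N fun n a b => dabw m n a b (z l) * S (lab n a b) j z

/-- the Koszul matrix -/
def WB (l : ι) (m N : ℕ) (lab : ℕ → ℕ → ℕ → Λ) (S : Λ → Fin k → (ι → ℂ) → ℂ) (j i : Fin k)
    (z : ι → ℂ) : ℂ :=
  tau l m N lab S j z * sgm l m N lab S i z - sgm l m N lab S j z * tau l m N lab S i z

/-- local solutions near the enlarged cells: holomorphic, bounded by `K`, solving the Bezout
equation -/
def BSol (l : ι) (m N : ℕ) (K : ℝ) (lab : ℕ → ℕ → ℕ → Λ) (F : Fin k → (ι → ℂ) → ℂ)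
    (S : Λ → Fin k → (ι → ℂ) → ℂ) : Prop :=
  ∀ n ≤ N, ∀ a < 2 ^ (n + m), ∀ b < 2 ^ m, ∃ O : Set ℂ, IsOpen O ∧ cellE m n a b ⊆ O ∧
    (∀ j, DifferentiableOn ℂ (S (lab n a b) j) {z | z ∈ Sg l ∧ z l ∈ O}) ∧
    ∀ z ∈ Sg l, z l ∈ O → (∀ j, ‖S (lab n a b) j z‖ ≤ K) ∧ ∑ j, F j z * S (lab n a b) j z = 1

/-- the kernel of the correction term -/
def NK (l : ι) (m N : ℕ) (G : Finset Nd) (lab : ℕ → ℕ → ℕ → Λ) (F : Fin k → (ι → ℂ) → ℂ)
    (S : Λ → Fin k → (ι → ℂ) → ℂ) (j : Fin k) (ζ : ℂ) (z : ι → ℂ) : ℂ :=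
  (∑ i, WB l m N lab S j i (rho l ζ z) * F i z) * KG G ζ (z l)

/-- the solution -/
def AB (l : ι) (m N : ℕ) (G : Finset Nd) (lab : ℕ → ℕ → ℕ → Λ) (F : Fin k → (ι → ℂ) → ℂ)
    (S : Λ → Fin k → (ι → ℂ) → ℂ) (j : Fin k) (z : ι → ℂ) : ℂ :=
  sgm l m N lab S j z -
    (1 / (Real.pi : ℂ)) * ∫ ζ in DNB N, NK l m N G lab F S j ζ z * (z l - ζ)⁻¹

end

end Cor
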