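import Pool.Agent.helper45.Ball.Cay

/-!
Module BALL-ROT: the corona theorem on the ball for one arbitrary generator and functions of one
complex direction.

`ip p z` is the Hermitian product of `z` with the vector `p`.

PROOF.  Let `e : EuclideanSpace ℂ (Fin d)` be the vector `p`, `‖e‖ = 1`.  There is an orthonormal
basis `b` of `EuclideanSpace ℂ (Fin d)`, indexed by `Fin d`, with `b l = e`
(`Orthonormal.exists_orthonormalBasis_extension_of_card_eq` for the family that is `e` at `l`,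
restricted to `{l}`).  `U z = fun i => inner ℂ (b i) z` (that is `b.repr`) is a linear isometry,
`(U z) l = inner ℂ e z = ip p z`.  So `U` and its inverse `U'` map `Bn d` onto `Bn d`
(`EuclideanSpace.norm_eq`), they are holomorphic, and `ballOneK l k hδ` for `f j ∘ U'` gives the
result: `f j (U' w) = φ j (ip p (U' w)) = φ j (w l)`.
-/

noncomputable section

open Set Metric

namespace Cor

/-- the Hermitian product `∑ z_i conj(p_i)` -/
def ip {d : ℕ} (p z : Fin d → ℂ) : ℂ := ∑ i, z i * (starRingEnd ℂ) (p i)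

/-- Cauchy-Schwarz -/
theorem ip_le {d : ℕ} (p z : Fin d → ℂ) :
    ‖ip p z‖ ^ 2 ≤ (∑ i, ‖p i‖ ^ 2) * ∑ i, ‖z i‖ ^ 2 := by
  have h1 : ‖ip p z‖ ≤ ∑ i, ‖z i‖ * ‖p i‖ := by
    unfold ip
    refine (norm_sum_le _ _).trans (le_of_eq ?_)
    refine Finset.sum_congr rfl fun i _ => ?_
    rw [norm_mul, RCLike.norm_conj]
  calc ‖ip p z‖ ^ 2 ≤ (∑ i, ‖z i‖ * ‖p i‖) ^ 2 := pow_le_pow_left₀ (norm_nonneg _) h1 2
    _ ≤ (∑ i, ‖z i‖ ^ 2) * ∑ i, ‖p i‖ ^ 2 := Finset.sum_mul_sq_le_sq_mul_sq _ _ _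
    _ = _ := mul_comm _ _

theorem ip_ball {d : ℕ} {p z : Fin d → ℂ} (hp : ∑ i, ‖p i‖ ^ 2 = 1) (hz : z ∈ Bn d) :
    ‖ip p z‖ < 1 := by
  have h1 := ip_le p z
  rw [hp, one_mul] at h1
  have h2 : ∑ i, ‖z i‖ ^ 2 < 1 := hz
  by_contra h
  have h3 : (1 : ℝ) ≤ ‖ip p z‖ ^ 2 := by
    have := not_lt.1 h
    nlinarith
  linarith

/-- the unitary change of variables -/
theorem Rot_exists {d : ℕ} (l : Fin d) {p : Fin d → ℂ} (hp : ∑ i, ‖p i‖ ^ 2 = 1) :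
    ∃ U : (Fin d → ℂ) ≃L[ℂ] (Fin d → ℂ), (∀ z, ∑ i, ‖U z i‖ ^ 2 = ∑ i, ‖z i‖ ^ 2) ∧
      ∀ z, U z l = ip p z := by
  set e : EuclideanSpace ℂ (Fin d) := WithLp.toLp 2 p with he
  have he1 : ‖e‖ = 1 := by
    rw [EuclideanSpace.norm_eq]
    have : ∑ i, ‖e i‖ ^ 2 = 1 := hp
    rw [this, Real.sqrt_one]
  have hor : Orthonormal ℂ (({l} : Set (Fin d)).domRestrict (fun _ : Fin d => e)) := by
    constructor
    · intro i
      exact he1
    · intro i j hij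
      exact absurd (Subtype.ext (i.2.trans j.2.symm)) hij
  obtain ⟨b, hb⟩ := hor.exists_orthonormalBasis_extension_of_card_eq (by simp)
  have hbl : b l = e := hb l rfl
  refine ⟨(EuclideanSpace.equiv (Fin d) ℂ).symm.trans
    (b.repr.toContinuousLinearEquiv.trans (EuclideanSpace.equiv (Fin d) ℂ)), fun z => ?_,
    fun z => ?_⟩
  · have h1 : ‖b.repr (WithLp.toLp 2 z)‖ = ‖(WithLp.toLp 2 z : EuclideanSpace ℂ (Fin d))‖ :=
      b.repr.norm_map _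
    have h2 := congrArg (fun t : ℝ => t ^ 2) h1
    simp only [EuclideanSpace.norm_sq_eq] at h2
    exact h2
  · show b.repr (WithLp.toLp 2 z) l = ip p z
    rw [OrthonormalBasis.repr_apply_apply, hbl, PiLp.inner_apply]
    unfold ip
    exact Finset.sum_congr rfl fun i _ => rfl

theorem Rot_div {d : ℕ} {f : (Fin d → ℂ) → ℂ} {s : Set (Fin d → ℂ)}
    (hf : DifferentiableOn ℂ f s) (B : ℂ) : DifferentiableOn ℂ (fun z => f z / B) s := by
  simp only [div_eq_mul_inv]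
  exact hf.mul_const B⁻¹

theorem ballDirK (d k : ℕ) {δ : ℝ} (hδ : 0 < δ) :
    ∃ C : ℝ, 0 ≤ C ∧ ∀ (p : Fin d → ℂ), ∑ i, ‖p i‖ ^ 2 = 1 →
      ∀ (f : Fin k → (Fin d → ℂ) → ℂ) (j₀ : Fin k) (φ : Fin k → ℂ → ℂ),
      (∀ j, DifferentiableOn ℂ (f j) (Bn d)) → (∀ j, ∀ z ∈ Bn d, ‖f j z‖ ≤ 1) →
      (∀ j, j ≠ j₀ → DifferentiableOn ℂ (φ j) (ball 0 1) ∧
        (∀ w ∈ ball (0 : ℂ) 1, ‖φ j w‖ ≤ 1) ∧ ∀ z ∈ Bn d, f j z = φ j (ip p z)) →
      (∀ z ∈ Bn d, δ ≤ ∑ j, ‖f j z‖) →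
      ∃ g : Fin k → (Fin d → ℂ) → ℂ, (∀ j, DifferentiableOn ℂ (g j) (Bn d)) ∧
        ∀ z ∈ Bn d, (∀ j, ‖g j z‖ ≤ C) ∧ ∑ j, f j z * g j z = 1 := by
  rcases Nat.eq_zero_or_pos d with hd | hd
  · subst hd
    refine ⟨0, le_rfl, fun p hp => ?_⟩
    rw [Finset.univ_eq_empty, Finset.sum_empty] at hp
    exact absurd hp zero_ne_one
  obtain ⟨C, hC0, hC⟩ := ballOneK (d := d) ⟨0, hd⟩ k hδ
  refine ⟨C, hC0, fun p hp f j₀ φ hf hf1 hφ hb => ?_⟩
  obtain ⟨U, hU1, hU2⟩ := Rot_exists ⟨0, hd⟩ hp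
  have hUm : ∀ z ∈ Bn d, U z ∈ Bn d := fun z hz => by
    show ∑ i, ‖U z i‖ ^ 2 < 1
    rw [hU1]
    exact hz
  have hU'm : ∀ z ∈ Bn d, U.symm z ∈ Bn d := fun z hz => by
    show ∑ i, ‖U.symm z i‖ ^ 2 < 1
    rw [← hU1, U.apply_symm_apply]
    exact hz
  obtain ⟨g, hg1, hg2⟩ := hC (fun j z => f j (U.symm z)) j₀ φ
    (fun j => (hf j).comp U.symm.differentiable.differentiableOn hU'm)
    (fun j z hz => hf1 j _ (hU'm z hz))
    (fun j hj => ⟨(hφ j hj).1, (hφ j hj).2.1, fun z hz => by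
      rw [(hφ j hj).2.2 _ (hU'm z hz), ← hU2, U.apply_symm_apply]⟩)
    (fun z hz => hb _ (hU'm z hz))
  refine ⟨fun j z => g j (U z), fun j => (hg1 j).comp U.differentiable.differentiableOn hUm,
    fun z hz => ?_⟩
  have h1 := hg2 (U z) (hUm z hz)
  simp only [U.symm_apply_apply] at h1
  exact h1

/-- without normalisation -/
theorem ballDir {d k : ℕ} {p : Fin d → ℂ} (hp : ∑ i, ‖p i‖ ^ 2 = 1)
    (f : Fin k → (Fin d → ℂ) → ℂ) (j₀ : Fin k) (φ : Fin k → ℂ → ℂ)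
    (hf : ∀ j, HInf (Bn d) (f j)) (hφ : ∀ j, j ≠ j₀ → H1 (φ j) ∧ ∀ z ∈ Bn d, f j z = φ j (ip p z))
    {δ : ℝ} (hδ : 0 < δ) (hb : ∀ z ∈ Bn d, δ ≤ ∑ j, ‖f j z‖) :
    ∃ g : Fin k → (Fin d → ℂ) → ℂ, (∀ j, HInf (Bn d) (g j)) ∧
      ∀ z ∈ Bn d, ∑ j, f j z * g j z = 1 := by
  have h1 : ∀ j, ∃ C : ℝ, ∀ z ∈ Bn d, ‖f j z‖ ≤ C := fun j => (hf j).2
  choose Cf hCf using h1
  have h2 : ∀ j, ∃ D : ℝ, j ≠ j₀ → ∀ w ∈ ball (0 : ℂ) 1, ‖φ j w‖ ≤ D := by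
    intro j
    by_cases hj : j = j₀
    · exact ⟨0, fun h => absurd hj h⟩
    · obtain ⟨D, hD⟩ := (hφ j hj).1.2
      exact ⟨D, fun _ => hD⟩
  choose Df hDf using h2
  set B : ℝ := 1 + ∑ j, |Cf j| + ∑ j, |Df j| with hB
  have hs1 : 0 ≤ ∑ j, |Cf j| := Finset.sum_nonneg fun _ _ => abs_nonneg _
  have hs2 : 0 ≤ ∑ j, |Df j| := Finset.sum_nonneg fun _ _ => abs_nonneg _
  have hB0 : 0 < B := by linarith
  have hBC : ∀ j, Cf j ≤ B := fun j => by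
    have h3 : |Cf j| ≤ ∑ j, |Cf j| :=
      Finset.single_le_sum (f := fun j => |Cf j|) (fun _ _ => abs_nonneg _) (Finset.mem_univ j)
    have h4 := le_abs_self (Cf j)
    linarith
  have hBD : ∀ j, Df j ≤ B := fun j => by
    have h3 : |Df j| ≤ ∑ j, |Df j| :=
      Finset.single_le_sum (f := fun j => |Df j|) (fun _ _ => abs_nonneg _) (Finset.mem_univ j)
    have h4 := le_abs_self (Df j)
    linarith
  have hnB : ‖((B : ℝ) : ℂ)‖ = B := by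
    rw [Complex.norm_real, Real.norm_of_nonneg hB0.le]
  obtain ⟨C, hC0, hC⟩ := ballDirK d k (div_pos hδ hB0)
  obtain ⟨g, hg1, hg2⟩ := hC p hp (fun j z => f j z / B) j₀ (fun j w => φ j w / B)
    (fun j => Rot_div (hf j).1 _)
    (fun j z hz => by
      rw [norm_div, hnB, div_le_one hB0]
      exact (hCf j z hz).trans (hBC j))
    (fun j hj => ⟨(hφ j hj).1.1.div_const _, fun w hw => by
      rw [norm_div, hnB, div_le_one hB0]
      exact (hDf j hj w hw).trans (hBD j), fun z hz => by rw [(hφ j hj).2 z hz]⟩)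
    (fun z hz => by
      have h3 := hb z hz
      have h4 : ∑ j, ‖f j z / B‖ = (∑ j, ‖f j z‖) / B := by
        rw [Finset.sum_div]
        exact Finset.sum_congr rfl fun j _ => by rw [norm_div, hnB]
      rw [h4]
      exact div_le_div_of_nonneg_right h3 hB0.le)
  refine ⟨fun j z => g j z / B, fun j => ⟨Rot_div (hg1 j) _, C / B, fun z hz => ?_⟩,
    fun z hz => ?_⟩
  · rw [norm_div, hnB]
    exact div_le_div_of_nonneg_right ((hg2 z hz).1 j) hB0.le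
  · rw [← (hg2 z hz).2]
    exact Finset.sum_congr rfl fun j _ => by ring

end Cor
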