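import Pool.Agent.helper45.Ball.PK
import Pool.Agent.helper45.Ball.Rot

/-!
Module BALL-GL1: patching of two solutions of the Bezout equation on the ball, one of them near an
interior value `c` of the coordinate `z l`, the other one is `1 / (z l - c)`.

`bb ζ t = (1 - |ζ|^2) / (1 - conj ζ t)`, `rhb l ζ z`: retraction of the ball onto `z l = ζ`.

PROOF of `glue`.  Choose a smooth function `χ : ℂ → [0, 1]`, `χ = 1` on `closedBall c (κ / 2)`,
support in `closedBall c (3 κ / 4)` (`ContDiffBump` or `Real.smoothTransition`), `μ = ∂bar χ`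
(bounded by `C₁`, depends on `χ` only, zero on `ball c (κ / 2)`).  Put `S' i = 0` for `i ≠ i₀`,
`S' i₀ z = (z l - c)⁻¹`, `W j i = S j * S' i - S' j * S i`, and
`A j z = χ (z l) * S j z + (1 - χ (z l)) * S' j z -
  (1/π) ∫_{ζ ∈ ball c κ} μ ζ * (∑ i, W j i (rhb l ζ z) * F i z) * (z l - ζ)⁻¹`
(in the first two terms the product is `0` where the factor `χ` or `1 - χ` vanishes).
For `ζ ∈ ball c κ` and `z ∈ Ω` the point `rhb l ζ z` lies in `Ω₁` (`hΩ₁`), its coordinate `l` is
`ζ`, and on the support of `μ` we have `|ζ - c| ≥ κ / 2`, so `|S'| ≤ 2 / κ`, `|W| ≤ 4 K / κ`.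
Bezout equation: `∑ F j S j = 1` at `z` if `χ (z l) ≠ 0` (`z ∈ Ω₁` by `hΩ₁'`), `∑ F j S' j = 1`
(`F i₀ z = z l - c`), and the correction term vanishes in the sum (`W` is antisymmetric).
Bound: `‖A j‖ ≤ K + 2 / κ + k C₁ (4 K / κ) * 3 * π * κ / π` (`avg_inv`).
Holomorphic in `z i`, `i ≠ l`: `param_hol`.  Holomorphic in `z l`: `pk` on
`V = {t | update z l t ∈ Ω}` with `X = V ∪ ball c κ` (bounded, `V ⊆ ball 0 1`),
`N ζ t = μ ζ * ∑ i, W j i (rhb l ζ (update z l t)) * F i (update z l t)` for `ζ ∈ ball c κ`, and `0`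
otherwise; `N t t = μ t * (S j - S' j) (update z l t)` because
`∑ i, W j i * F i = S j - S' j` and `rhb l (z l) z = z`; this is `∂bar` of
`χ S j + (1 - χ) S' j`.
-/

noncomputable section

open Set Metric

namespace Cor

/-- the factor of the retraction -/
def bb (ζ t : ℂ) : ℂ := (1 - (‖ζ‖ : ℂ) ^ 2) / (1 - (starRingEnd ℂ) ζ * t)

/-- retraction of the ball onto the slice `z l = ζ` -/
def rhb {d : ℕ} (l : Fin d) (ζ : ℂ) (z : Fin d → ℂ) : Fin d → ℂ :=
  fun i => if i = l then ζ else bb ζ (z l) * z i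

theorem Gl1_coord {d : ℕ} {z : Fin d → ℂ} (hz : z ∈ Bn d) (l : Fin d) : ‖z l‖ < 1 := by
  have h1 : ‖z l‖ ^ 2 ≤ ∑ i, ‖z i‖ ^ 2 :=
    Finset.single_le_sum (f := fun i => ‖z i‖ ^ 2) (fun i _ => by positivity) (Finset.mem_univ l)
  have h2 : ∑ i, ‖z i‖ ^ 2 < 1 := hz
  nlinarith [norm_nonneg (z l)]

theorem Gl1_ne {ζ t : ℂ} (hζ : ‖ζ‖ < 1) (ht : ‖t‖ < 1) : 1 - (starRingEnd ℂ) ζ * t ≠ 0 := by
  intro h
  have h1 : (starRingEnd ℂ) ζ * t = 1 := (sub_eq_zero.1 h).symm
  have h2 : ‖ζ‖ * ‖t‖ = 1 := by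
    rw [← RCLike.norm_conj ζ, ← norm_mul, h1, norm_one]
  nlinarith [norm_nonneg ζ, norm_nonneg t]

theorem Gl1_bb {ζ t : ℂ} (hζ : ‖ζ‖ < 1) (ht : ‖t‖ < 1) :
    0 < ‖bb ζ t‖ ^ 2 ∧ ‖bb ζ t‖ ^ 2 * (1 - ‖t‖ ^ 2) ≤ 1 - ‖ζ‖ ^ 2 := by
  have hζ2 : 0 < 1 - ‖ζ‖ ^ 2 := by nlinarith [norm_nonneg ζ]
  have ht2 : 0 < 1 - ‖t‖ ^ 2 := by nlinarith [norm_nonneg t]
  have hne := Gl1_ne hζ ht
  have hpos : 0 < ‖1 - (starRingEnd ℂ) ζ * t‖ ^ 2 := by
    have := norm_pos_iff.2 hne
    positivity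
  have h1 : ‖bb ζ t‖ ^ 2 = (1 - ‖ζ‖ ^ 2) ^ 2 / ‖1 - (starRingEnd ℂ) ζ * t‖ ^ 2 := by
    unfold bb
    rw [norm_div, div_pow]
    congr 2
    have : (1 - (‖ζ‖ : ℂ) ^ 2) = ((1 - ‖ζ‖ ^ 2 : ℝ) : ℂ) := by push_cast; rfl
    rw [this, Complex.norm_real, Real.norm_of_nonneg hζ2.le]
  have h2 : ‖1 - (starRingEnd ℂ) ζ * t‖ ^ 2 = ‖ζ - t‖ ^ 2 + (1 - ‖ζ‖ ^ 2) * (1 - ‖t‖ ^ 2) := by
    rw [← Complex.normSq_eq_norm_sq, ← Complex.normSq_eq_norm_sq, ← Complex.normSq_eq_norm_sq,
      ← Complex.normSq_eq_norm_sq, Complex.normSq_apply, Complex.normSq_apply,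
      Complex.normSq_apply, Complex.normSq_apply]
    simp only [Complex.sub_re, Complex.sub_im, Complex.one_re, Complex.one_im, Complex.mul_re,
      Complex.mul_im, Complex.conj_re, Complex.conj_im]
    ring
  rw [h1]
  refine ⟨by positivity, ?_⟩
  rw [div_mul_eq_mul_div, div_le_iff₀ hpos, h2]
  nlinarith [sq_nonneg ‖ζ - t‖, mul_pos hζ2 ht2]

theorem Gl1_self {d : ℕ} {l : Fin d} {z : Fin d → ℂ} (hz : z ∈ Bn d) : rhb l (z l) z = z := by
  have h1 := Gl1_coord hz l
  have h2 : bb (z l) (z l) = 1 := by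
    have h3 := Gl1_ne h1 h1
    have h4 : (starRingEnd ℂ) (z l) * z l = (‖z l‖ : ℂ) ^ 2 := by
      rw [mul_comm, Complex.mul_conj, Complex.normSq_eq_norm_sq]
      push_cast
      rfl
    unfold bb
    rw [h4] at h3 ⊢
    exact div_self h3
  funext i
  unfold rhb
  by_cases hi : i = l
  · rw [if_pos hi, hi]
  · rw [if_neg hi, h2, one_mul]

theorem rhb_mem {d : ℕ} {l : Fin d} {ζ : ℂ} (hζ : ‖ζ‖ < 1) {z : Fin d → ℂ} (hz : z ∈ Bn d) :
    rhb l ζ z ∈ Bn d := by
  have hz' : ∑ i, ‖z i‖ ^ 2 < 1 := hz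
  have hb := Gl1_bb hζ (Gl1_coord hz l)
  have h1 : ∑ i, ‖z i‖ ^ 2 = ‖z l‖ ^ 2 + ∑ i ∈ Finset.univ.erase l, ‖z i‖ ^ 2 :=
    (Finset.add_sum_erase _ _ (Finset.mem_univ l)).symm
  have h2 : ∑ i, ‖rhb l ζ z i‖ ^ 2 =
      ‖ζ‖ ^ 2 + ‖bb ζ (z l)‖ ^ 2 * ∑ i ∈ Finset.univ.erase l, ‖z i‖ ^ 2 := by
    rw [← Finset.add_sum_erase _ _ (Finset.mem_univ l), Finset.mul_sum]
    congr 1
    · simp [rhb]
    · refine Finset.sum_congr rfl fun i hi => ?_
      have : i ≠ l := (Finset.mem_erase.1 hi).1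
      simp only [rhb, if_neg this, norm_mul, mul_pow]
  show ∑ i, ‖rhb l ζ z i‖ ^ 2 < 1
  rw [h2]
  have h3 : ∑ i ∈ Finset.univ.erase l, ‖z i‖ ^ 2 < 1 - ‖z l‖ ^ 2 := by linarith
  have h4 := mul_lt_mul_of_pos_left h3 hb.1
  have h5 := hb.2
  linarith

/-- `∂bar` of a real function -/
def Gl1_db (χ : ℂ → ℝ) (t : ℂ) : ℂ :=
  1 / 2 * ((fderiv ℝ χ t 1 : ℝ) + Complex.I * (fderiv ℝ χ t Complex.I : ℝ))

theorem Gl1_cut {χ : ℂ → ℝ} (hχ : ContDiff ℝ 1 χ) {V D : Set ℂ} (hV : IsOpen V) (hD : IsOpen D)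
    {s : ℂ → ℂ} (hs : DifferentiableOn ℂ s (V ∩ D)) (hsup : tsupport χ ⊆ D) :
    ∃ G : ℂ → ℂ →L[ℝ] ℂ, (∀ t ∈ V, HasFDerivAt (fun t => (χ t : ℂ) * s t) (G t) t) ∧
      ContinuousOn G V ∧
      ∀ t ∈ V, 1 / 2 * (G t 1 + Complex.I * G t Complex.I) = Gl1_db χ t * s t := by
  have hVD : IsOpen (V ∩ D) := hV.inter hD
  let G : ℂ → ℂ →L[ℝ] ℂ := fun t =>
    (χ t : ℂ) • (deriv s t • (1 : ℂ →L[ℝ] ℂ)) +
      s t • (Complex.ofRealCLM.comp (fderiv ℝ χ t))
  have hG : ∀ t v, G t v = (χ t : ℂ) * (deriv s t * v) + s t * (fderiv ℝ χ t v : ℝ) := by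
    intro t v
    simp [G]
  have h0 : ∀ t, t ∉ D → ∀ᶠ u in nhds t, χ u = 0 ∧ fderiv ℝ χ u = 0 := by
    intro t ht
    have h1 : t ∈ (tsupport χ)ᶜ := fun h => ht (hsup h)
    have h2 : (tsupport χ)ᶜ ∈ nhds t := (isClosed_tsupport χ).isOpen_compl.mem_nhds h1
    filter_upwards [h2] with u hu
    exact ⟨image_eq_zero_of_notMem_tsupport hu,
      image_eq_zero_of_notMem_tsupport fun h => hu (tsupport_fderiv_subset ℝ h)⟩
  refine ⟨G, fun t ht => ?_, fun t ht => ?_, fun t ht => ?_⟩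
  · by_cases hd : t ∈ D
    · have h1 : HasFDerivAt (fun t => (χ t : ℂ)) (Complex.ofRealCLM.comp (fderiv ℝ χ t)) t :=
        Complex.ofRealCLM.hasFDerivAt.comp t
          ((hχ.differentiable one_ne_zero).differentiableAt.hasFDerivAt)
      have h2 : HasFDerivAt s (deriv s t • (1 : ℂ →L[ℝ] ℂ)) t :=
        (((hs t ⟨ht, hd⟩).differentiableAt (hVD.mem_nhds ⟨ht, hd⟩)).hasDerivAt).complexToReal_fderiv
      exact h1.mul h2
    · have h1 := h0 t hd
      have h2 : G t = 0 := by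
        have := h1.self_of_nhds
        ext v <;> simp [hG, this.1, this.2]
      rw [h2]
      refine (hasFDerivAt_const (0 : ℂ) t).congr_of_eventuallyEq ?_
      filter_upwards [h1] with u hu
      simp [hu.1]
  · apply ContinuousAt.continuousWithinAt
    by_cases hd : t ∈ D
    · have hc1 : ContinuousAt (fun t => (χ t : ℂ)) t :=
        Complex.continuous_ofReal.continuousAt.comp hχ.continuous.continuousAt
      have hc2 : ContinuousAt (fun t => fderiv ℝ χ t) t :=
        (hχ.continuous_fderiv one_ne_zero).continuousAt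
      have hc3 : ContinuousAt (fun t => deriv s t) t :=
        ((hs.deriv hVD).continuousOn t ⟨ht, hd⟩).continuousAt (hVD.mem_nhds ⟨ht, hd⟩)
      have hc4 : ContinuousAt s t :=
        (hs.continuousOn t ⟨ht, hd⟩).continuousAt (hVD.mem_nhds ⟨ht, hd⟩)
      refine ContinuousAt.add (hc1.smul (hc3.smul continuousAt_const)) (hc4.smul ?_)
      · exact ((ContinuousLinearMap.compL ℝ ℂ ℝ ℂ Complex.ofRealCLM).continuous.continuousAt).comp
          hc2
    · have h1 := h0 t hd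
      have h2 : ∀ᶠ u in nhds t, G u = 0 := by
        filter_upwards [h1] with u hu
        ext v <;> simp [hG, hu.1, hu.2]
      have h3 : G =ᶠ[nhds t] fun _ => 0 := h2
      exact continuousAt_const.congr h3.symm
  · rw [hG, hG, Gl1_db]
    have hI : Complex.I * Complex.I = -1 := Complex.I_mul_I
    linear_combination (1 / 2 * (χ t : ℂ) * deriv s t) * hI

theorem Gl1_cont {d : ℕ} {l : Fin d} {z : Fin d → ℂ} (hz : z ∈ Bn d) :
    ContinuousOn (fun ζ => rhb l ζ z) (ball 0 1) := by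
  rw [continuousOn_pi]
  intro i
  unfold rhb
  by_cases hi : i = l
  · simp only [if_pos hi]
    exact continuousOn_id
  · simp only [if_neg hi]
    refine ContinuousOn.mul ?_ continuousOn_const
    unfold bb
    refine ContinuousOn.div (by fun_prop) ?_ ?_
    · have h : Continuous fun ζ : ℂ => 1 - (starRingEnd ℂ) ζ * z l :=
        continuous_const.sub (Complex.continuous_conj.mul continuous_const)
      exact h.continuousOn
    · intro ζ hζ
      rw [mem_ball_zero_iff] at hζ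
      exact Gl1_ne hζ (Gl1_coord hz l)

theorem Gl1_diff {d : ℕ} {l : Fin d} {ζ : ℂ} (hζ : ‖ζ‖ < 1) :
    DifferentiableOn ℂ (rhb l ζ) (Bn d) := by
  rw [differentiableOn_pi]
  intro i
  unfold rhb
  by_cases hi : i = l
  · simp only [if_pos hi]
    exact differentiableOn_const _
  · simp only [if_neg hi]
    refine DifferentiableOn.mul ?_ (differentiable_apply i).differentiableOn
    have h : Differentiable ℂ fun z : Fin d → ℂ => 1 - (starRingEnd ℂ) ζ * z l := by fun_prop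
    have h1 := ((h.differentiableOn (s := Bn d)).inv fun z hz =>
      Gl1_ne hζ (Gl1_coord hz l)).const_mul (1 - (‖ζ‖ : ℂ) ^ 2)
    refine h1.congr fun z _ => ?_
    rw [bb, div_eq_mul_inv]
    rfl

/-- the second solution -/
def Gl1_p {k : ℕ} (c : ℂ) (i₀ i : Fin k) (t : ℂ) : ℂ := if i = i₀ then (t - c)⁻¹ else 0

theorem Gl1_p_meas {k : ℕ} (c : ℂ) (i₀ i : Fin k) : Measurable (Gl1_p c i₀ i) := by
  unfold Gl1_p
  by_cases hi : i = i₀
  · simp only [if_pos hi]
    exact (measurable_id.sub_const c).inv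
  · simp only [if_neg hi]
    exact measurable_const

theorem Gl1_p_le {k : ℕ} {c : ℂ} {i₀ i : Fin k} {κ : ℝ} (hκ : 0 < κ) {t : ℂ}
    (ht : κ / 2 ≤ ‖t - c‖) : ‖Gl1_p c i₀ i t‖ ≤ 2 / κ := by
  unfold Gl1_p
  split_ifs
  · rw [norm_inv]
    calc ‖t - c‖⁻¹ ≤ (κ / 2)⁻¹ := by gcongr
      _ = 2 / κ := by rw [inv_div]
  · rw [norm_zero]
    positivity

theorem Gl1_p_diff {k : ℕ} {c : ℂ} {i₀ i : Fin k} :
    DifferentiableOn ℂ (Gl1_p c i₀ i) {c}ᶜ := by
  unfold Gl1_p
  by_cases hi : i = i₀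
  · simp only [if_pos hi]
    refine DifferentiableOn.inv (by fun_prop) ?_
    intro t ht
    exact sub_ne_zero.2 ht
  · simp only [if_neg hi]
    exact differentiableOn_const _

/-- the kernel -/
def Gl1_N {d k : ℕ} (l : Fin d) (c : ℂ) (i₀ : Fin k) (χ : ℂ → ℝ) (F S : Fin k → (Fin d → ℂ) → ℂ)
    (j : Fin k) (ζ : ℂ) (z : Fin d → ℂ) : ℂ :=
  Gl1_db χ ζ * ∑ i, (S j (rhb l ζ z) * Gl1_p c i₀ i ζ - Gl1_p c i₀ j ζ * S i (rhb l ζ z)) * F i z

theorem Gl1_N_anti {d k : ℕ} (l : Fin d) (c : ℂ) (i₀ : Fin k) (χ : ℂ → ℝ)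
    (F S : Fin k → (Fin d → ℂ) → ℂ) (ζ : ℂ) (z : Fin d → ℂ) :
    ∑ j, F j z * Gl1_N l c i₀ χ F S j ζ z = 0 := by
  set f : Fin k → Fin k → ℂ := fun j i => F j z * (Gl1_db χ ζ *
    ((S j (rhb l ζ z) * Gl1_p c i₀ i ζ - Gl1_p c i₀ j ζ * S i (rhb l ζ z)) * F i z)) with hf
  have h1 : ∑ j, F j z * Gl1_N l c i₀ χ F S j ζ z = ∑ j, ∑ i, f j i := by
    refine Finset.sum_congr rfl fun j _ => ?_
    rw [Gl1_N, Finset.mul_sum, Finset.mul_sum]
  have h2 : ∀ j i, f j i = - f i j := by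
    intro j i
    simp only [hf]
    ring
  have h3 : ∑ j, ∑ i, f j i = - ∑ j, ∑ i, f j i := by
    calc ∑ j, ∑ i, f j i = ∑ j, ∑ i, - f i j :=
          Finset.sum_congr rfl fun j _ => Finset.sum_congr rfl fun i _ => h2 j i
      _ = - ∑ j, ∑ i, f i j := by simp only [Finset.sum_neg_distrib]
      _ = - ∑ j, ∑ i, f j i := by rw [Finset.sum_comm]
  rw [h1]
  exact self_eq_neg.1 h3

theorem Gl1_bounds {d k : ℕ} {Ω : Set (Fin d → ℂ)} {S : Fin k → (Fin d → ℂ) → ℂ}
    (hS : ∀ j, HInf Ω (S j)) : ∃ K : ℝ, 0 ≤ K ∧ ∀ j, ∀ z ∈ Ω, ‖S j z‖ ≤ K := by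
  choose C hC using fun j => (hS j).2
  refine ⟨∑ j, |C j|, Finset.sum_nonneg fun j _ => abs_nonneg _, fun j z hz => ?_⟩
  calc ‖S j z‖ ≤ C j := hC j z hz
    _ ≤ |C j| := le_abs_self _
    _ ≤ ∑ j, |C j| := Finset.single_le_sum (f := fun j => |C j|) (fun i _ => abs_nonneg _)
        (Finset.mem_univ j)

theorem Gl1_upd_open {d : ℕ} {Ω : Set (Fin d → ℂ)} (hΩ : IsOpen Ω) (z : Fin d → ℂ) (i : Fin d) :
    IsOpen {t | Function.update z i t ∈ Ω} :=
  hΩ.preimage (continuous_const.update i continuous_id)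

theorem glue {d k : ℕ} {l : Fin d} {c : ℂ} {κ : ℝ} (hκ : 0 < κ) (hc : ‖c‖ + κ < 1)
    {Ω Ω₁ : Set (Fin d → ℂ)} (hΩ : IsOpen Ω) (hΩB : Ω ⊆ Bn d) (hΩ₁ : IsOpen Ω₁)
    (hr : ∀ z ∈ Ω, ∀ ζ ∈ ball c κ, rhb l ζ z ∈ Ω₁) (hr' : ∀ z ∈ Ω, z l ∈ ball c κ → z ∈ Ω₁)
    {F : Fin k → (Fin d → ℂ) → ℂ} (hF : ∀ j, HInf Ω (F j)) {i₀ : Fin k}
    (hi₀ : ∀ z ∈ Ω ∪ Ω₁, F i₀ z = z l - c) {S : Fin k → (Fin d → ℂ) → ℂ}
    (hS : ∀ j, HInf Ω₁ (S j)) (hFS : ∀ z ∈ Ω₁, ∑ j, F j z * S j z = 1) :
    ∃ A : Fin k → (Fin d → ℂ) → ℂ, (∀ j, HInf Ω (A j)) ∧ ∀ z ∈ Ω, ∑ j, F j z * A j z = 1 := by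
  classical
  -- the cut-off function
  let fb : ContDiffBump c := ⟨κ / 2, 3 * κ / 4, by positivity, by linarith⟩
  set χ : ℂ → ℝ := fun t => fb t with hχdef
  have hχ : ContDiff ℝ 1 χ := fb.contDiff
  have hχ0 : ∀ t, 0 ≤ χ t := fun t => fb.nonneg
  have hχ1 : ∀ t, χ t ≤ 1 := fun t => fb.le_one
  have hχone : ∀ t ∈ closedBall c (κ / 2), χ t = 1 := fun t ht => fb.one_of_mem_closedBall ht
  have hts : tsupport χ = closedBall c (3 * κ / 4) := fb.tsupport_eq
  have htsb : tsupport χ ⊆ ball c κ := by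
    rw [hts]
    exact closedBall_subset_ball (by linarith)
  have hχne : ∀ t, χ t ≠ 0 → t ∈ ball c κ := fun t ht =>
    htsb (subset_tsupport _ ht)
  have hball1 : ball c κ ⊆ ball (0 : ℂ) 1 := by
    intro t ht
    rw [mem_ball, dist_eq_norm] at ht
    rw [mem_ball_zero_iff]
    calc ‖t‖ = ‖(t - c) + c‖ := by rw [sub_add_cancel]
      _ ≤ ‖t - c‖ + ‖c‖ := norm_add_le _ _
      _ < 1 := by linarith
  -- its derivative
  have hdb0 : ∀ t, t ∉ ball c κ → Gl1_db χ t = 0 := by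
    intro t ht
    have h1 : fderiv ℝ χ t = 0 :=
      image_eq_zero_of_notMem_tsupport fun h => ht (htsb (tsupport_fderiv_subset ℝ h))
    simp [Gl1_db, h1]
  have hdb1 : ∀ t ∈ ball c (κ / 2), Gl1_db χ t = 0 := by
    intro t ht
    have h1 : χ =ᶠ[nhds t] fun _ => (1 : ℝ) := by
      filter_upwards [isOpen_ball.mem_nhds ht] with u hu
      exact hχone u (ball_subset_closedBall hu)
    have h2 : fderiv ℝ χ t = 0 := by
      rw [h1.fderiv_eq]
      simp
    simp [Gl1_db, h2]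
  have hdbc : Continuous (Gl1_db χ) := by
    have h1 : Continuous (fderiv ℝ χ) := hχ.continuous_fderiv one_ne_zero
    unfold Gl1_db
    have h2 : ∀ v : ℂ, Continuous fun t => ((fderiv ℝ χ t v : ℝ) : ℂ) := fun v =>
      Complex.continuous_ofReal.comp (h1.clm_apply continuous_const)
    exact continuous_const.mul ((h2 1).add (continuous_const.mul (h2 Complex.I)))
  obtain ⟨C₁, hC₁⟩ : ∃ C, ∀ t, ‖Gl1_db χ t‖ ≤ C := by
    have h1 : HasCompactSupport (Gl1_db χ) :=
      HasCompactSupport.intro (isCompact_closedBall c κ) fun t ht =>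
        hdb0 t fun h => ht (ball_subset_closedBall h)
    exact hdbc.bounded_above_of_compact_support h1
  have hC₁0 : 0 ≤ C₁ := (norm_nonneg _).trans (hC₁ 0)
  -- bounds
  obtain ⟨K, hK0, hK⟩ := Gl1_bounds hS
  obtain ⟨KF, hKF0, hKF⟩ := Gl1_bounds hF
  set M : ℝ := C₁ * (k * ((K * (2 / κ) + 2 / κ * K) * KF)) with hM
  have hM0 : 0 ≤ M := by positivity
  set N := Gl1_N l c i₀ χ F S with hNdef
  have hNM : ∀ j ζ, ∀ z ∈ Ω, ‖N j ζ z‖ ≤ M := by
    intro j ζ z hz
    by_cases hζ : Gl1_db χ ζ = 0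
    · rw [hNdef, Gl1_N, hζ, zero_mul, norm_zero]
      exact hM0
    · have h1 : ζ ∈ ball c κ := by
        by_contra h
        exact hζ (hdb0 ζ h)
      have h2 : κ / 2 ≤ ‖ζ - c‖ := by
        by_contra h
        push Not at h
        exact hζ (hdb1 ζ (by rwa [mem_ball, dist_eq_norm]))
      have h3 := hr z hz ζ h1
      rw [hNdef, Gl1_N, norm_mul, hM]
      refine mul_le_mul (hC₁ ζ) ?_ (norm_nonneg _) hC₁0
      refine (norm_sum_le _ _).trans ?_
      calc ∑ i, ‖(S j (rhb l ζ z) * Gl1_p c i₀ i ζ - Gl1_p c i₀ j ζ * S i (rhb l ζ z)) * F i z‖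
          ≤ ∑ _i : Fin k, (K * (2 / κ) + 2 / κ * K) * KF := by
            refine Finset.sum_le_sum fun i _ => ?_
            rw [norm_mul]
            refine mul_le_mul ((norm_sub_le _ _).trans ?_) (hKF i z hz) (norm_nonneg _)
              (by positivity)
            rw [norm_mul, norm_mul]
            have e1 := hK j _ h3
            have e2 := hK i _ h3
            have e3 : ‖Gl1_p c i₀ i ζ‖ ≤ 2 / κ := Gl1_p_le hκ h2
            have e4 : ‖Gl1_p c i₀ j ζ‖ ≤ 2 / κ := Gl1_p_le hκ h2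
            gcongr
        _ = k * ((K * (2 / κ) + 2 / κ * K) * KF) := by
            rw [Finset.sum_const, Finset.card_univ, Fintype.card_fin, nsmul_eq_mul]
  have hNm : ∀ j, ∀ z ∈ Ω, Measurable fun ζ => N j ζ z := by
    intro j z hz
    set q : Fin k → ℂ → ℂ := fun i => (ball c κ).indicator fun ζ => S i (rhb l ζ z) with hq
    have hqm : ∀ i, Measurable (q i) := by
      intro i
      have h1 : ContinuousOn (fun ζ => S i (rhb l ζ z)) (ball c κ) :=
        (hS i).1.continuousOn.comp ((Gl1_cont (hΩB hz)).mono hball1) fun ζ hζ => hr z hz ζ hζ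
      rw [hq]
      simp only
      rw [← piecewise_eq_indicator]
      exact h1.measurable_piecewise continuousOn_const measurableSet_ball
    have h2 : (fun ζ => N j ζ z) = fun ζ => Gl1_db χ ζ *
        ∑ i, (q j ζ * Gl1_p c i₀ i ζ - Gl1_p c i₀ j ζ * q i ζ) * F i z := by
      funext ζ
      by_cases hζ : ζ ∈ ball c κ
      · simp only [hNdef, Gl1_N, hq, indicator_of_mem hζ]
      · simp only [hNdef, Gl1_N, hdb0 ζ hζ, zero_mul]
    rw [h2]
    refine hdbc.measurable.mul (Finset.measurable_sum _ fun i _ => ?_)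
    exact (((hqm j).mul (Gl1_p_meas c i₀ i)).sub ((Gl1_p_meas c i₀ j).mul (hqm i))).mul_const _
  have hNd : ∀ j ζ, DifferentiableOn ℂ (N j ζ) Ω := by
    intro j ζ
    by_cases hζ : ζ ∈ ball c κ
    · have h1 : DifferentiableOn ℂ (rhb l ζ) Ω :=
        (Gl1_diff (by simpa using hball1 hζ)).mono hΩB
      have h2 : ∀ i, DifferentiableOn ℂ (fun z => S i (rhb l ζ z)) Ω := fun i =>
        (hS i).1.comp h1 fun z hz => hr z hz ζ hζ
      rw [hNdef]
      unfold Gl1_N
      refine (differentiableOn_const _).mul (DifferentiableOn.fun_sum fun i _ => ?_)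
      exact (((h2 j).mul (differentiableOn_const _)).sub
        ((differentiableOn_const _).mul (h2 i))).mul (hF i).1
    · rw [hNdef]
      unfold Gl1_N
      rw [hdb0 ζ hζ]
      simp only [zero_mul]
      exact differentiableOn_const _
  have hNs : ∀ j, ∀ z ∈ Ω, N j (z l) z = Gl1_db χ (z l) * (S j z - Gl1_p c i₀ j (z l)) := by
    intro j z hz
    rw [hNdef, Gl1_N, Gl1_self (hΩB hz)]
    by_cases hζ : Gl1_db χ (z l) = 0
    · rw [hζ, zero_mul, zero_mul]
    · congr 1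
      have h1 : z l ∈ ball c κ := by
        by_contra h
        exact hζ (hdb0 _ h)
      have h2 : z l ≠ c := by
        intro h
        exact hζ (hdb1 _ (by rw [h]; exact mem_ball_self (by positivity)))
      have h3 := hFS z (hr' z hz h1)
      have h4 : ∑ i, Gl1_p c i₀ i (z l) * F i z = 1 := by
        simp only [Gl1_p, ite_mul, zero_mul, Finset.sum_ite_eq', Finset.mem_univ, if_true]
        rw [hi₀ z (Or.inl hz)]
        exact inv_mul_cancel₀ (sub_ne_zero.2 h2)
      calc ∑ i, (S j z * Gl1_p c i₀ i (z l) - Gl1_p c i₀ j (z l) * S i z) * F i z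
          = S j z * ∑ i, Gl1_p c i₀ i (z l) * F i z - Gl1_p c i₀ j (z l) * ∑ i, F i z * S i z := by
            rw [Finset.mul_sum, Finset.mul_sum, ← Finset.sum_sub_distrib]
            exact Finset.sum_congr rfl fun i _ => by ring
        _ = S j z - Gl1_p c i₀ j (z l) := by rw [h4, h3, mul_one, mul_one]
  -- integrability
  have hint : ∀ j, ∀ z ∈ Ω, MeasureTheory.IntegrableOn (fun ζ => N j ζ z * (z l - ζ)⁻¹)
      (ball (0 : ℂ) 1) := by
    intro j z hz
    have h1 : MeasureTheory.IntegrableOn (fun ζ : ℂ => M * ‖z l - ζ‖⁻¹) (ball (0 : ℂ) 1) :=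
      (inv_integrable 0 (z l) 1).const_mul M
    refine MeasureTheory.Integrable.mono' h1 ?_ (Filter.Eventually.of_forall fun ζ => ?_)
    · exact ((hNm j z hz).mul (measurable_const.sub measurable_id).inv).aestronglyMeasurable
    · rw [norm_mul, norm_inv]
      exact mul_le_mul_of_nonneg_right (hNM j ζ z hz) (by positivity)
  set A : Fin k → (Fin d → ℂ) → ℂ := fun j z =>
    (χ (z l) : ℂ) * S j z + (1 - χ (z l) : ℝ) * Gl1_p c i₀ j (z l) -
      (1 / (Real.pi : ℂ)) * ∫ ζ in ball (0 : ℂ) 1, N j ζ z * (z l - ζ)⁻¹ with hA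
  refine ⟨A, fun j => ?_, fun z hz => ?_⟩
  · -- bounded and holomorphic
    have hbd : ∀ z ∈ Ω, ‖A j z‖ ≤ K + 2 / κ + 3 * M := by
      intro z hz
      have e1 : ‖(χ (z l) : ℂ) * S j z‖ ≤ K := by
        by_cases h : χ (z l) = 0
        · rw [h, Complex.ofReal_zero, zero_mul, norm_zero]
          exact hK0
        · rw [norm_mul, Complex.norm_real, Real.norm_of_nonneg (hχ0 _)]
          calc χ (z l) * ‖S j z‖ ≤ 1 * K :=
                mul_le_mul (hχ1 _) (hK j z (hr' z hz (hχne _ h))) (norm_nonneg _) zero_le_one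
            _ = K := one_mul K
      have e2 : ‖((1 - χ (z l) : ℝ) : ℂ) * Gl1_p c i₀ j (z l)‖ ≤ 2 / κ := by
        by_cases h : z l ∈ closedBall c (κ / 2)
        · rw [hχone _ h, sub_self, Complex.ofReal_zero, zero_mul, norm_zero]
          positivity
        · have h2 : κ / 2 ≤ ‖z l - c‖ := by
            rw [mem_closedBall, dist_eq_norm, not_le] at h
            exact h.le
          rw [norm_mul, Complex.norm_real, Real.norm_of_nonneg (by linarith [hχ1 (z l)])]
          calc (1 - χ (z l)) * ‖Gl1_p c i₀ j (z l)‖ ≤ 1 * (2 / κ) :=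
                mul_le_mul (by linarith [hχ0 (z l)]) (Gl1_p_le hκ h2) (norm_nonneg _) zero_le_one
            _ = 2 / κ := one_mul _
      have e3 : ‖(1 / (Real.pi : ℂ)) * ∫ ζ in ball (0 : ℂ) 1, N j ζ z * (z l - ζ)⁻¹‖ ≤ 3 * M := by
        have h1 : ‖∫ ζ in ball (0 : ℂ) 1, N j ζ z * (z l - ζ)⁻¹‖ ≤
            ∫ ζ in ball (0 : ℂ) 1, M * ‖z l - ζ‖⁻¹ := by
          refine MeasureTheory.norm_integral_le_of_norm_le
            ((inv_integrable 0 (z l) 1).const_mul M) (Filter.Eventually.of_forall fun ζ => ?_)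
          rw [norm_mul, norm_inv]
          exact mul_le_mul_of_nonneg_right (hNM j ζ z hz) (by positivity)
        have h2 : ∫ ζ in ball (0 : ℂ) 1, M * ‖z l - ζ‖⁻¹ ≤ M * (3 * Real.pi * 1) := by
          rw [MeasureTheory.integral_const_mul]
          exact mul_le_mul_of_nonneg_left (avg_inv 0 (z l) one_pos) hM0
        have hpi := Real.pi_pos
        rw [norm_mul, norm_div, norm_one, Complex.norm_real, Real.norm_of_nonneg hpi.le]
        calc 1 / Real.pi * ‖∫ ζ in ball (0 : ℂ) 1, N j ζ z * (z l - ζ)⁻¹‖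
            ≤ 1 / Real.pi * (M * (3 * Real.pi * 1)) :=
              mul_le_mul_of_nonneg_left (h1.trans h2) (by positivity)
          _ = 3 * M := by field_simp
      calc ‖A j z‖ ≤ ‖(χ (z l) : ℂ) * S j z + (1 - χ (z l) : ℝ) * Gl1_p c i₀ j (z l)‖ +
            ‖(1 / (Real.pi : ℂ)) * ∫ ζ in ball (0 : ℂ) 1, N j ζ z * (z l - ζ)⁻¹‖ :=
            norm_sub_le _ _
        _ ≤ (K + 2 / κ) + 3 * M := add_le_add ((norm_add_le _ _).trans (add_le_add e1 e2)) e3
    refine ⟨osgood_open hΩ hbd ?_, ⟨_, hbd⟩⟩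
    intro z hz i
    by_cases hi : i = l
    · subst hi
      -- the distinguished coordinate
      set V : Set ℂ := {t | Function.update z i t ∈ Ω} with hVdef
      have hV : IsOpen V := Gl1_upd_open hΩ z i
      have hzV : z i ∈ V := by
        show Function.update z i (z i) ∈ Ω
        rw [Function.update_eq_self]
        exact hz
      have hs1 : DifferentiableOn ℂ (fun t => S j (Function.update z i t)) (V ∩ ball c κ) := by
        refine (hS j).1.comp (update_diff z i).differentiableOn ?_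
        rintro t ⟨ht, ht'⟩
        exact hr' _ ht (by rwa [Function.update_self])
      obtain ⟨G₁, hG₁, hG₁c, hG₁d⟩ := Gl1_cut hχ hV isOpen_ball hs1 htsb
      have hχ2 : ContDiff ℝ 1 (fun t => 1 - χ t) := contDiff_const.sub hχ
      have hsup2 : tsupport (fun t => 1 - χ t) ⊆ {c}ᶜ := by
        have h1 : Function.support (fun t => 1 - χ t) ⊆ (ball c (κ / 2))ᶜ := by
          intro t ht h
          apply ht
          show 1 - χ t = 0
          rw [hχone t (ball_subset_closedBall h), sub_self]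
        have h2 : tsupport (fun t => 1 - χ t) ⊆ (ball c (κ / 2))ᶜ :=
          closure_minimal h1 isOpen_ball.isClosed_compl
        intro t ht h
        rw [mem_singleton_iff] at h
        exact h2 ht (by rw [h]; exact mem_ball_self (by positivity))
      obtain ⟨G₂, hG₂, hG₂c, hG₂d⟩ := Gl1_cut (s := Gl1_p c i₀ j) hχ2 hV
        (isOpen_compl_singleton (x := c)) (Gl1_p_diff.mono inter_subset_right) hsup2
      have hdb2 : ∀ t, Gl1_db (fun t => 1 - χ t) t = - Gl1_db χ t := by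
        intro t
        have h1 : fderiv ℝ (fun t => 1 - χ t) t = - fderiv ℝ χ t := by
          rw [fderiv_const_sub]
        unfold Gl1_db
        rw [h1]
        simp only [ContinuousLinearMap.neg_apply, Complex.ofReal_neg]
        ring
      have hVX : V ⊆ ball (0 : ℂ) 1 := by
        intro t ht
        have := Gl1_coord (hΩB ht) i
        rw [Function.update_self] at this
        rwa [mem_ball_zero_iff]
      have key := pk (V := V) (X := ball (0 : ℂ) 1) hV measurableSet_ball isBounded_ball hVX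
        (g := fun t => (χ t : ℂ) * S j (Function.update z i t) +
          ((1 - χ t : ℝ) : ℂ) * Gl1_p c i₀ j t)
        (g' := fun t => G₁ t + G₂ t) (fun t ht => (hG₁ t ht).add (hG₂ t ht)) (hG₁c.add hG₂c)
        (N := fun ζ t => N j ζ (Function.update z i t)) (M := M)
        (fun ζ _ => (hNd j ζ).comp (update_diff z i).differentiableOn fun t ht => ht)
        (fun ζ _ t ht => hNM j ζ _ ht)
        (fun t ht => (hNm j _ ht).indicator measurableSet_ball)
        (fun ζ hζ => by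
          have h1 := hNs j _ hζ
          rw [Function.update_self] at h1
          have h2 := hG₁d ζ hζ
          have h3 := hG₂d ζ hζ
          rw [hdb2] at h3
          simp only [ContinuousLinearMap.add_apply]
          rw [h1]
          linear_combination (-1 : ℂ) * h2 - h3)
      have h5 : (fun s => A j (Function.update z i s)) = fun t =>
          ((χ t : ℂ) * S j (Function.update z i t) + ((1 - χ t : ℝ) : ℂ) * Gl1_p c i₀ j t) -
          (1 / (Real.pi : ℂ)) * ∫ ζ in ball (0 : ℂ) 1, N j ζ (Function.update z i t) *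
            (t - ζ)⁻¹ := by
        funext t
        simp only [hA, Function.update_self]
      rw [h5]
      exact (key (z i) hzV).differentiableAt (hV.mem_nhds hzV)
    · -- another coordinate
      set V : Set ℂ := {t | Function.update z i t ∈ Ω} with hVdef
      have hV : IsOpen V := Gl1_upd_open hΩ z i
      have hzV : z i ∈ V := by
        show Function.update z i (z i) ∈ Ω
        rw [Function.update_eq_self]
        exact hz
      have hl : ∀ s, Function.update z i s l = z l := fun s =>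
        Function.update_of_ne (Ne.symm hi) _ _
      have h5 : (fun s => A j (Function.update z i s)) = fun s =>
          ((χ (z l) : ℂ) * S j (Function.update z i s) +
            ((1 - χ (z l) : ℝ) : ℂ) * Gl1_p c i₀ j (z l)) -
          (1 / (Real.pi : ℂ)) * ∫ ζ in ball (0 : ℂ) 1, N j ζ (Function.update z i s) *
            (z l - ζ)⁻¹ := by
        funext s
        simp only [hA, hl]
      rw [h5]
      refine DifferentiableAt.sub (DifferentiableAt.add ?_ (differentiableAt_const _))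
        ((differentiableAt_const _).mul ?_)
      · by_cases h : χ (z l) = 0
        · simp only [h, Complex.ofReal_zero, zero_mul]
          exact differentiableAt_const _
        · have hz1 : z ∈ Ω₁ := hr' z hz (hχne _ h)
          have h6 : DifferentiableAt ℂ (S j) (Function.update z i (z i)) := by
            rw [Function.update_eq_self]
            exact ((hS j).1 z hz1).differentiableAt (hΩ₁.mem_nhds hz1)
          exact (differentiableAt_const _).mul (h6.comp (z i) (update_diff z i (z i)))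
      · have h6 := param_hol (V := V) (X := ball (0 : ℂ) 1) hV
          (H := fun ζ s => N j ζ (Function.update z i s) * (z l - ζ)⁻¹)
          (B := fun ζ => M * ‖z l - ζ‖⁻¹)
          (Filter.Eventually.of_forall fun ζ => ((hNd j ζ).comp
            (update_diff z i).differentiableOn fun t ht => ht).mul (differentiableOn_const _))
          (Filter.Eventually.of_forall fun ζ s hs => by
            rw [norm_mul, norm_inv]
            exact mul_le_mul_of_nonneg_right (hNM j ζ _ hs) (by positivity))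
          ((inv_integrable 0 (z l) 1).const_mul M)
          (fun s hs => ((hNm j _ hs).mul
            (measurable_const.sub measurable_id).inv).aestronglyMeasurable)
        exact (h6 (z i) hzV).differentiableAt (hV.mem_nhds hzV)
  · -- the Bezout equation
    have e1 : (χ (z l) : ℂ) * ∑ j, F j z * S j z = χ (z l) := by
      by_cases h : χ (z l) = 0
      · rw [h, Complex.ofReal_zero, zero_mul]
      · rw [hFS z (hr' z hz (hχne _ h)), mul_one]
    have e2 : ((1 - χ (z l) : ℝ) : ℂ) * ∑ j, F j z * Gl1_p c i₀ j (z l) = (1 - χ (z l) : ℝ) := by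
      by_cases h : z l = c
      · have : χ (z l) = 1 := hχone _ (by rw [h]; exact mem_closedBall_self (by positivity))
        rw [this, sub_self, Complex.ofReal_zero, zero_mul]
      · have h4 : ∑ j, F j z * Gl1_p c i₀ j (z l) = 1 := by
          simp only [Gl1_p, mul_ite, mul_zero, Finset.sum_ite_eq', Finset.mem_univ, if_true]
          rw [hi₀ z (Or.inl hz)]
          exact mul_inv_cancel₀ (sub_ne_zero.2 h)
        rw [h4, mul_one]
    have e3 : ∑ j, F j z * ∫ ζ in ball (0 : ℂ) 1, N j ζ z * (z l - ζ)⁻¹ = 0 := by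
      have h1 : ∀ j, F j z * ∫ ζ in ball (0 : ℂ) 1, N j ζ z * (z l - ζ)⁻¹ =
          ∫ ζ in ball (0 : ℂ) 1, F j z * (N j ζ z * (z l - ζ)⁻¹) := fun j =>
        (MeasureTheory.integral_const_mul _ _).symm
      simp only [h1]
      rw [← MeasureTheory.integral_finsetSum _ fun j _ => (hint j z hz).const_mul _]
      have h2 : ∀ ζ, ∑ j, F j z * (N j ζ z * (z l - ζ)⁻¹) = 0 := by
        intro ζ
        have h3 := Gl1_N_anti l c i₀ χ F S ζ z
        calc ∑ j, F j z * (N j ζ z * (z l - ζ)⁻¹) =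
            (∑ j, F j z * N j ζ z) * (z l - ζ)⁻¹ := by
              rw [Finset.sum_mul]
              exact Finset.sum_congr rfl fun j _ => by ring
          _ = 0 := by rw [h3, zero_mul]
      simp only [h2, MeasureTheory.integral_zero]
    calc ∑ j, F j z * A j z = (χ (z l) : ℂ) * ∑ j, F j z * S j z +
          ((1 - χ (z l) : ℝ) : ℂ) * ∑ j, F j z * Gl1_p c i₀ j (z l) -
          (1 / (Real.pi : ℂ)) * ∑ j, F j z * ∫ ζ in ball (0 : ℂ) 1, N j ζ z * (z l - ζ)⁻¹ := by
          rw [Finset.mul_sum, Finset.mul_sum, Finset.mul_sum, ← Finset.sum_add_distrib,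
            ← Finset.sum_sub_distrib]
          refine Finset.sum_congr rfl fun j _ => ?_
          simp only [hA]
          ring
      _ = 1 := by
          rw [e1, e2, e3]
          push_cast
          ring

end Cor
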