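import Pool.Agent.helper45.Ball.Gl1

/-!
Module BALL-GL2: a bounded holomorphic function `G` on the ball with `G p ≠ 0` at a point `p` of the
ball, and the functions `z i - p i`, generate the unit ideal.

PROOF.  `gl_axis` (the case `p i = 0` for `i ≠ l₀`): index set `Fin (d + 1)`:
`F 0 = G`, `F (i + 1) z = z i - p i`.  For a set `s` of coordinates and `r > 0` let
`Ω s r = {z ∈ Bn d | ∀ i ∈ s, ‖z i - p i‖ < r}`.  Claim `P s`: for some `r > 0` the equation is
solvable on `Ω s r` (in `H^∞`).  `P univ`: for small `r` we have `|G| ≥ |G p| / 2` on `Ω univ r`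
(`G` is continuous at `p`), solution `1 / G`.  `P (insert l s) → P s` for `l ∉ s`, if `p l = 0` or
`s = ∅`: let `r ≤ 1` be the radius for `insert l s`; choose `κ ≤ r / 8` with
`κ < 1 - ‖p l‖`, and apply `glue` with `c = p l`, `Ω₁ = Ω (insert l s) r`, `Ω = Ω s (r / 2)`:
for `z ∈ Ω`, `‖ζ - p l‖ < κ` the coordinate `l` of `rhb l ζ z` is `ζ`, `‖ζ - p l‖ < r`, and for
`i ∈ s` (so `p l = 0`, `‖ζ‖ < κ`): `|bb ζ t - 1| = |conj ζ t - |ζ|^2| / |1 - conj ζ t|
≤ (κ + κ^2) / (1 - κ) ≤ 3 κ`, `‖bb ζ (z l) * z i - p i‖ < r / 2 + 3 κ ≤ r`.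
Start with `univ`, remove all coordinates `≠ l₀` one after the other (`p l = 0`), and finally
`l₀` (`s = ∅`): `Ω ∅ r = Bn d`.
`gl_point` (general `p`): if `p = 0` this is `gl_axis` for any `l₀` (for `d = 0` the ball is one
point: solution `1 / G`).  Otherwise rotate: as in Rot.lean there is a unitary map `U` of `ℂ^d` with
`U p = (‖p‖, 0, .., 0)` (orthonormal basis with `b l₀ = p / ‖p‖`); apply `gl_axis` to `G ∘ U⁻¹`, and
note that the functions `(U z) i - (U p) i` are linear combinations of the `z j - p j`.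
-/

noncomputable section

open Set Metric

namespace Cor

/-- the data of the unit ideal -/
def Gl2_F {d : ℕ} (G : (Fin d → ℂ) → ℂ) (p : Fin d → ℂ) : Fin (d + 1) → (Fin d → ℂ) → ℂ :=
  Fin.cons G (fun i z => z i - p i)

theorem Gl2_F_zero {d : ℕ} (G : (Fin d → ℂ) → ℂ) (p : Fin d → ℂ) : Gl2_F G p 0 = G := by
  simp [Gl2_F]

theorem Gl2_F_succ {d : ℕ} (G : (Fin d → ℂ) → ℂ) (p : Fin d → ℂ) (i : Fin d) :
    Gl2_F G p i.succ = fun z => z i - p i := by
  simp [Gl2_F]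

/-- the region near `p` in the directions of `s` -/
def Gl2_Om {d : ℕ} (p : Fin d → ℂ) (s : Finset (Fin d)) (r : ℝ) : Set (Fin d → ℂ) :=
  {z | z ∈ Bn d ∧ ∀ i ∈ s, ‖z i - p i‖ < r}

theorem Gl2_Om_open {d : ℕ} (p : Fin d → ℂ) (s : Finset (Fin d)) (r : ℝ) :
    IsOpen (Gl2_Om p s r) := by
  have h1 : Gl2_Om p s r = Bn d ∩ ⋂ i ∈ s, {z : Fin d → ℂ | ‖z i - p i‖ < r} := by
    ext z
    simp [Gl2_Om]
  rw [h1]
  refine (Bn_open d).inter ?_
  refine isOpen_biInter_finset ?_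
  intro i _
  exact isOpen_lt (by fun_prop) continuous_const

theorem Gl2_coord_le {d : ℕ} {z : Fin d → ℂ} (hz : z ∈ Bn d) (i : Fin d) : ‖z i‖ < 1 := by
  have h1 : ‖z i‖ ^ 2 ≤ ∑ j, ‖z j‖ ^ 2 :=
    Finset.single_le_sum (f := fun j => ‖z j‖ ^ 2) (fun j _ => sq_nonneg _) (Finset.mem_univ i)
  have h2 : ∑ j, ‖z j‖ ^ 2 < 1 := hz
  nlinarith [norm_nonneg (z i)]

theorem Gl2_HInf_mono {d : ℕ} {s t : Set (Fin d → ℂ)} (h : s ⊆ t) {f : (Fin d → ℂ) → ℂ}
    (hf : HInf t f) : HInf s f :=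
  ⟨hf.1.mono h, hf.2.imp fun _ hC z hz => hC z (h hz)⟩

theorem Gl2_F_HInf {d : ℕ} {G : (Fin d → ℂ) → ℂ} {p : Fin d → ℂ} (hp : p ∈ Bn d)
    (hG : HInf (Bn d) G) (j : Fin (d + 1)) : HInf (Bn d) (Gl2_F G p j) := by
  refine Fin.cases ?_ (fun i => ?_) j
  · rw [Gl2_F_zero]; exact hG
  · rw [Gl2_F_succ]
    refine ⟨?_, 2, ?_⟩
    · exact (by fun_prop : Differentiable ℂ (fun z : Fin d → ℂ => z i - p i)).differentiableOn
    · intro z hz
      have h1 := Gl2_coord_le hz i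
      have h2 := Gl2_coord_le hp i
      exact (norm_sub_le _ _).trans (by linarith)

/-- solvability on the region -/
def Gl2_P {d : ℕ} (G : (Fin d → ℂ) → ℂ) (p : Fin d → ℂ) (s : Finset (Fin d)) : Prop :=
  ∃ r : ℝ, 0 < r ∧ ∃ A : Fin (d + 1) → (Fin d → ℂ) → ℂ, (∀ j, HInf (Gl2_Om p s r) (A j)) ∧
    ∀ z ∈ Gl2_Om p s r, ∑ j, Gl2_F G p j z * A j z = 1

theorem Gl2_base {d : ℕ} {p : Fin d → ℂ} (hp : p ∈ Bn d) {G : (Fin d → ℂ) → ℂ}
    (hG : HInf (Bn d) G) (hGp : G p ≠ 0) : Gl2_P G p Finset.univ := by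
  have hcont : ContinuousAt G p := (hG.1.continuousOn).continuousAt ((Bn_open d).mem_nhds hp)
  have hpos : 0 < ‖G p‖ / 2 := by
    have := norm_pos_iff.mpr hGp
    positivity
  obtain ⟨r, hr, hrb⟩ := Metric.continuousAt_iff.mp hcont (‖G p‖ / 2) hpos
  have hlow : ∀ z ∈ Gl2_Om p Finset.univ r, ‖G p‖ / 2 ≤ ‖G z‖ := by
    intro z hz
    have h1 : dist z p < r := by
      rw [dist_pi_lt_iff hr]
      intro i
      rw [dist_eq_norm]
      exact hz.2 i (Finset.mem_univ i)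
    have h2 := hrb h1
    rw [dist_eq_norm] at h2
    have h3 : ‖G p‖ ≤ ‖G z‖ + ‖G z - G p‖ := by
      have h4 : G p = G z - (G z - G p) := by ring
      calc ‖G p‖ = ‖G z - (G z - G p)‖ := by rw [← h4]
        _ ≤ _ := norm_sub_le _ _
    linarith
  have hne : ∀ z ∈ Gl2_Om p Finset.univ r, G z ≠ 0 := by
    intro z hz h0
    have := hlow z hz
    rw [h0, norm_zero] at this
    linarith
  refine ⟨r, hr, Fin.cons (fun z => (G z)⁻¹) (fun _ _ => 0), ?_, ?_⟩
  · intro j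
    refine Fin.cases ?_ (fun i => ?_) j
    · rw [Fin.cons_zero]
      refine ⟨?_, (‖G p‖ / 2)⁻¹, ?_⟩
      · exact (hG.1.mono fun z hz => hz.1).inv hne
      · intro z hz
        rw [norm_inv]
        exact inv_anti₀ hpos (hlow z hz)
    · rw [Fin.cons_succ]
      refine ⟨differentiableOn_const _, 0, ?_⟩
      intro z _
      simp
  · intro z hz
    rw [Fin.sum_univ_succ]
    simp only [Fin.cons_zero, Fin.cons_succ, mul_zero, Finset.sum_const_zero, add_zero,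
      Gl2_F_zero]
    exact mul_inv_cancel₀ (hne z hz)

theorem Gl2_bb {ζ t : ℂ} {κ : ℝ} (hκ : κ ≤ 1 / 2) (hζ : ‖ζ‖ < κ) (ht : ‖t‖ < 1) :
    ‖bb ζ t - 1‖ ≤ 3 * κ := by
  have h0 : 0 ≤ ‖ζ‖ := norm_nonneg _
  have hcz : ‖(starRingEnd ℂ) ζ‖ = ‖ζ‖ := RCLike.norm_conj ζ
  have hsmall : ‖(starRingEnd ℂ) ζ * t‖ ≤ ‖ζ‖ := by
    rw [norm_mul, hcz]
    nlinarith [norm_nonneg t]
  have hden : 1 - ‖ζ‖ ≤ ‖1 - (starRingEnd ℂ) ζ * t‖ := by
    have h1 : ‖(1 : ℂ)‖ - ‖(starRingEnd ℂ) ζ * t‖ ≤ ‖1 - (starRingEnd ℂ) ζ * t‖ :=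
      norm_sub_norm_le _ _
    rw [norm_one] at h1
    linarith
  have hdpos : 0 < ‖1 - (starRingEnd ℂ) ζ * t‖ := by linarith
  have hdne : 1 - (starRingEnd ℂ) ζ * t ≠ 0 := norm_pos_iff.mp hdpos
  have heq : bb ζ t - 1 = ((starRingEnd ℂ) ζ * t - (‖ζ‖ : ℂ) ^ 2) / (1 - (starRingEnd ℂ) ζ * t) := by
    unfold bb
    field_simp
    ring
  rw [heq, norm_div, div_le_iff₀ hdpos]
  have hnum : ‖(starRingEnd ℂ) ζ * t - (‖ζ‖ : ℂ) ^ 2‖ ≤ ‖ζ‖ + ‖ζ‖ ^ 2 := by
    refine (norm_sub_le _ _).trans ?_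
    have : ‖((‖ζ‖ : ℂ)) ^ 2‖ = ‖ζ‖ ^ 2 := by
      rw [norm_pow, Complex.norm_real, norm_norm]
    rw [this]
    linarith
  nlinarith

theorem Gl2_step {d : ℕ} {p : Fin d → ℂ} (hp : p ∈ Bn d) {G : (Fin d → ℂ) → ℂ}
    (hG : HInf (Bn d) G) {s : Finset (Fin d)} {l : Fin d} (hl : l ∉ s) (hs : p l = 0 ∨ s = ∅)
    (h : Gl2_P G p (insert l s)) : Gl2_P G p s := by
  obtain ⟨r, hr, S, hS, hFS⟩ := h
  have hpl : ‖p l‖ < 1 := Gl2_coord_le hp l
  obtain ⟨κ, hκ, hκ1, hκ2, hκ3⟩ : ∃ κ : ℝ, 0 < κ ∧ κ ≤ r / 8 ∧ κ ≤ 1 / 8 ∧ κ < 1 - ‖p l‖ := by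
    refine ⟨min (min (r / 8) (1 / 8)) ((1 - ‖p l‖) / 2), ?_, ?_, ?_, ?_⟩
    · refine lt_min (lt_min (by positivity) (by norm_num)) (by linarith)
    · exact (min_le_left _ _).trans (min_le_left _ _)
    · exact (min_le_left _ _).trans (min_le_right _ _)
    · exact lt_of_le_of_lt (min_le_right _ _) (by linarith)
  have hsub : Gl2_Om p s (r / 2) ⊆ Bn d := fun z hz => hz.1
  have hsub1 : Gl2_Om p (insert l s) r ⊆ Bn d := fun z hz => hz.1
  have key := glue (l := l) (c := p l) (κ := κ) hκ (by linarith)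
    (Gl2_Om_open p s (r / 2)) hsub (Gl2_Om_open p (insert l s) r)
    (F := Gl2_F G p) (i₀ := l.succ) (S := S) ?_ ?_
    (fun j => Gl2_HInf_mono hsub (Gl2_F_HInf hp hG j)) ?_ hS hFS
  · exact ⟨r / 2, by positivity, key⟩
  · intro z hz ζ hζ
    have hζ1 : ‖ζ - p l‖ < κ := by rwa [mem_ball, dist_eq_norm] at hζ
    have hζn : ‖ζ‖ < 1 := by
      have h1 : ‖ζ‖ ≤ ‖ζ - p l‖ + ‖p l‖ := by
        calc ‖ζ‖ = ‖ζ - p l + p l‖ := by rw [sub_add_cancel]
          _ ≤ _ := norm_add_le _ _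
      linarith
    refine ⟨rhb_mem hζn hz.1, ?_⟩
    intro i hi
    rcases Finset.mem_insert.mp hi with hil | his
    · subst hil
      have : rhb i ζ z i = ζ := by simp [rhb]
      rw [this]
      linarith
    · have hil : i ≠ l := fun h => hl (h ▸ his)
      have hrh : rhb l ζ z i = bb ζ (z l) * z i := by simp [rhb, hil]
      rcases hs with hp0 | hs0
      · rw [hrh]
        have hζ0 : ‖ζ‖ < κ := by
          rw [hp0, sub_zero] at hζ1
          exact hζ1
        have h1 := Gl2_bb (t := z l) (by linarith : κ ≤ 1 / 2) hζ0 (Gl2_coord_le hz.1 l)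
        have h2 := hz.2 i his
        have h3 : bb ζ (z l) * z i - p i = (bb ζ (z l) - 1) * z i + (z i - p i) := by ring
        rw [h3]
        refine lt_of_le_of_lt (norm_add_le _ _) ?_
        rw [norm_mul]
        have h4 := Gl2_coord_le hz.1 i
        nlinarith [norm_nonneg (z i), norm_nonneg (bb ζ (z l) - 1)]
      · rw [hs0] at his
        exact absurd his (Finset.notMem_empty i)
  · intro z hz hzl
    have hzl1 : ‖z l - p l‖ < κ := by rwa [mem_ball, dist_eq_norm] at hzl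
    refine ⟨hz.1, ?_⟩
    intro i hi
    rcases Finset.mem_insert.mp hi with hil | his
    · subst hil
      linarith
    · have := hz.2 i his
      linarith
  · intro z _
    rw [Gl2_F_succ]

theorem gl_axis {d : ℕ} (l₀ : Fin d) {p : Fin d → ℂ} (hp : p ∈ Bn d) (h0 : ∀ i, i ≠ l₀ → p i = 0)
    {G : (Fin d → ℂ) → ℂ} (hG : HInf (Bn d) G) (hGp : G p ≠ 0) :
    ∃ (A : (Fin d → ℂ) → ℂ) (B : Fin d → (Fin d → ℂ) → ℂ), HInf (Bn d) A ∧
      (∀ i, HInf (Bn d) (B i)) ∧ ∀ z ∈ Bn d, G z * A z + ∑ i, (z i - p i) * B i z = 1 := by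
  classical
  have hall : ∀ t : Finset (Fin d), l₀ ∉ t → Gl2_P G p (Finset.univ \ t) := by
    intro t
    induction t using Finset.induction_on with
    | empty =>
      intro _
      rw [Finset.sdiff_empty]
      exact Gl2_base hp hG hGp
    | insert a t ha ih =>
      intro hl
      have hal : a ≠ l₀ := fun h => hl (h ▸ Finset.mem_insert_self a t)
      have hlt : l₀ ∉ t := fun h => hl (Finset.mem_insert_of_mem h)
      have h1 := ih hlt
      have h2 : Finset.univ \ t = insert a (Finset.univ \ insert a t) := by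
        ext x
        simp only [Finset.mem_sdiff, Finset.mem_univ, true_and, Finset.mem_insert]
        constructor
        · intro hx
          by_cases hxa : x = a
          · exact Or.inl hxa
          · exact Or.inr (fun h => h.elim hxa hx)
        · rintro (hx | hx)
          · rw [hx]; exact ha
          · exact fun h => hx (Or.inr h)
      rw [h2] at h1
      exact Gl2_step hp hG (by simp) (Or.inl (h0 a hal)) h1
  have h1 := hall (Finset.univ.erase l₀) (Finset.notMem_erase l₀ _)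
  have h2 : Finset.univ \ Finset.univ.erase l₀ = insert l₀ (∅ : Finset (Fin d)) := by
    ext x
    simp
  rw [h2] at h1
  obtain ⟨r, _, A, hA, hFA⟩ := Gl2_step hp hG (Finset.notMem_empty l₀) (Or.inr rfl) h1
  have hOm : Gl2_Om p ∅ r = Bn d := by
    ext z
    simp [Gl2_Om]
  rw [hOm] at hA hFA
  refine ⟨A 0, fun i => A i.succ, hA 0, fun i => hA i.succ, ?_⟩
  intro z hz
  have h3 := hFA z hz
  rw [Fin.sum_univ_succ, Gl2_F_zero] at h3
  simpa only [Gl2_F_succ] using h3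

theorem Gl2_norm_sum {d : ℕ} (v : EuclideanSpace ℂ (Fin d)) :
    ∑ i, ‖v i‖ ^ 2 = ‖v‖ ^ 2 := (EuclideanSpace.norm_sq_eq v).symm

/-- a unitary change of coordinates that puts `p` on an axis -/
theorem Gl2_unitary {d : ℕ} (l₀ : Fin d) (p : Fin d → ℂ) :
    ∃ L : (Fin d → ℂ) ≃L[ℂ] (Fin d → ℂ), (∀ z, ∑ i, ‖L z i‖ ^ 2 = ∑ i, ‖z i‖ ^ 2) ∧
      ∀ i, i ≠ l₀ → L p i = 0 := by
  classical
  set q : EuclideanSpace ℂ (Fin d) := WithLp.toLp 2 p with hq
  obtain ⟨e, c, he, hec⟩ : ∃ (e : EuclideanSpace ℂ (Fin d)) (c : ℂ), ‖e‖ = 1 ∧ q = c • e := by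
    by_cases hq0 : q = 0
    · refine ⟨EuclideanSpace.single l₀ 1, 0, ?_, ?_⟩
      · simp
      · rw [zero_smul]; exact hq0
    · have hqn : ‖q‖ ≠ 0 := norm_ne_zero_iff.mpr hq0
      refine ⟨((‖q‖ : ℂ)⁻¹) • q, (‖q‖ : ℂ), ?_, ?_⟩
      · rw [norm_smul, norm_inv, Complex.norm_real, norm_norm]
        exact inv_mul_cancel₀ hqn
      · rw [smul_smul, mul_inv_cancel₀, one_smul]
        exact_mod_cast hqn
  have hcard : Module.finrank ℂ (EuclideanSpace ℂ (Fin d)) = Fintype.card (Fin d) := by simp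
  obtain ⟨b, hb⟩ := Orthonormal.exists_orthonormalBasis_extension_of_card_eq (𝕜 := ℂ)
    (ι := Fin d) hcard (v := fun _ => e) (s := {l₀}) (by
      rw [orthonormal_iff_ite]
      rintro ⟨i, hi⟩ ⟨j, hj⟩
      have hi' : i = l₀ := hi
      have hj' : j = l₀ := hj
      subst hi'
      subst hj'
      simp [he])
  have hbl : b l₀ = e := hb l₀ rfl
  set T : (Fin d → ℂ) ≃L[ℂ] EuclideanSpace ℂ (Fin d) :=
    (PiLp.continuousLinearEquiv 2 ℂ (fun _ : Fin d => ℂ)).symm with hT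
  refine ⟨T.trans (b.repr.toContinuousLinearEquiv.trans T.symm), ?_, ?_⟩
  · intro z
    have h1 : ∀ i, (T.trans (b.repr.toContinuousLinearEquiv.trans T.symm)) z i
        = (b.repr (WithLp.toLp 2 z)) i := fun i => rfl
    simp only [h1]
    rw [Gl2_norm_sum, LinearIsometryEquiv.norm_map]
    rw [← Gl2_norm_sum]
  · intro i hi
    have h1 : (T.trans (b.repr.toContinuousLinearEquiv.trans T.symm)) p i
        = (b.repr q) i := rfl
    rw [h1, hec, ← hbl, map_smul, b.repr_self]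
    simp [hi]

theorem gl_point {d : ℕ} {p : Fin d → ℂ} (hp : p ∈ Bn d) {G : (Fin d → ℂ) → ℂ}
    (hG : HInf (Bn d) G) (hGp : G p ≠ 0) :
    ∃ (A : (Fin d → ℂ) → ℂ) (B : Fin d → (Fin d → ℂ) → ℂ), HInf (Bn d) A ∧
      (∀ i, HInf (Bn d) (B i)) ∧ ∀ z ∈ Bn d, G z * A z + ∑ i, (z i - p i) * B i z = 1 := by
  classical
  rcases Nat.eq_zero_or_pos d with hd | hd
  · subst hd
    refine ⟨fun _ => (G p)⁻¹, fun _ _ => 0, ⟨differentiableOn_const _, ‖(G p)⁻¹‖, fun _ _ => le_rfl⟩,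
      fun i => i.elim0, ?_⟩
    intro z _
    have hz : z = p := Subsingleton.elim _ _
    subst hz
    simp [hGp]
  · obtain ⟨L, hL, hLp⟩ := Gl2_unitary (⟨0, hd⟩ : Fin d) p
    have hLB : ∀ z, z ∈ Bn d → L z ∈ Bn d := by
      intro z hz
      have h1 : ∑ i, ‖z i‖ ^ 2 < 1 := hz
      show ∑ i, ‖L z i‖ ^ 2 < 1
      rw [hL]; exact h1
    have hLB' : ∀ w, w ∈ Bn d → L.symm w ∈ Bn d := by
      intro w hw
      have h1 : ∑ i, ‖w i‖ ^ 2 < 1 := hw
      show ∑ i, ‖L.symm w i‖ ^ 2 < 1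
      rw [← hL, L.apply_symm_apply]; exact h1
    obtain ⟨A, B, hA, hB, hAB⟩ := gl_axis (⟨0, hd⟩ : Fin d) (p := L p) (hLB p hp) hLp
      (G := fun w => G (L.symm w)) ⟨hG.1.comp L.symm.differentiable.differentiableOn hLB',
        hG.2.imp fun _ hC w hw => hC _ (hLB' w hw)⟩ (by simpa using hGp)
    have hcomp : ∀ f : (Fin d → ℂ) → ℂ, HInf (Bn d) f → HInf (Bn d) (fun z => f (L z)) := by
      intro f hf
      exact ⟨hf.1.comp L.differentiable.differentiableOn hLB,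
        hf.2.imp fun _ hC w hw => hC _ (hLB w hw)⟩
    refine ⟨fun z => A (L z), fun j z => ∑ i, L (Pi.single j 1) i * B i (L z), hcomp A hA, ?_, ?_⟩
    · intro j
      refine ⟨?_, ?_⟩
      · refine DifferentiableOn.fun_sum ?_
        intro i _
        exact (hcomp (B i) (hB i)).1.const_mul _
      · choose C hC using fun i => (hcomp (B i) (hB i)).2
        refine ⟨∑ i, ‖L (Pi.single j 1) i‖ * C i, ?_⟩
        intro z hz
        refine (norm_sum_le _ _).trans (Finset.sum_le_sum ?_)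
        intro i _
        rw [norm_mul]
        exact mul_le_mul_of_nonneg_left (hC i z hz) (norm_nonneg _)
    · intro z hz
      have h1 := hAB (L z) (hLB z hz)
      rw [L.symm_apply_apply] at h1
      refine Eq.trans ?_ h1
      congr 1
      have h2 : ∀ i, L z i - L p i = ∑ j, (z j - p j) * L (Pi.single j 1) i := by
        intro i
        have h3 : L z - L p = L (z - p) := (map_sub L z p).symm
        have h4 : z - p = ∑ j, (z j - p j) • (Pi.single j 1 : Fin d → ℂ) := by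
          ext i
          simp [Finset.sum_apply, Pi.single_apply]
        have h5 : L z i - L p i = (L z - L p) i := rfl
        rw [h5, h3, h4, map_sum, Finset.sum_apply]
        refine Finset.sum_congr rfl ?_
        intro j _
        rw [map_smul, Pi.smul_apply, smul_eq_mul]
      simp only [h2, Finset.sum_mul, Finset.mul_sum]
      rw [Finset.sum_comm]
      refine Finset.sum_congr rfl ?_
      intro i _
      refine Finset.sum_congr rfl ?_
      intro j _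
      ring

end Cor
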