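import Pool.Agent.helper45.Ball.Defs
import Pool.Agent.helper45.Cor.Osgood

/-!
Module BALL-RHO: the Siegel domain, its retractions, Osgood's lemma on open sets.

PROOF.
`rho_mem`: `|bz ζ t|^2 = 4 (im ζ)^2 / |t - conj ζ|^2` and
`|t - conj ζ|^2 ≥ (im t + im ζ)^2 ≥ 4 im t im ζ`, so `|bz ζ t|^2 * im t ≤ im ζ`; multiply
`∑ |z i|^2 < im t` by `|bz ζ t|^2` (`bz ζ t ≠ 0`).
`rho_self`: `bz t t = 1` (`t - conj t = 2 i im t ≠ 0`).
`rho_hol`: componentwise (`differentiableOn_pi`), `t - conj ζ ≠ 0` for `im t > 0`, `im ζ > 0`.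
`rho_cont`: componentwise, the same.
`osgood_open`: for `z₀ ∈ U` take `r > 0` with `{z | ∀ i, ‖z i - z₀ i‖ < r} ⊆ U` and apply `osgood`
(Cor/Osgood.lean) with `O i = ball (z₀ i) r`.
-/

noncomputable section

open Set Finset Metric

namespace Cor

variable {ι : Type*} [Fintype ι] [DecidableEq ι]

theorem Sg_open (l : ι) : IsOpen (Sg l) := by
  unfold Sg
  refine isOpen_lt ?_ ?_
  · exact continuous_finsetSum _ fun i _ => ((continuous_apply i).norm.pow 2)
  · exact Complex.continuous_im.comp (continuous_apply l)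

theorem Sg_HP {l : ι} {z : ι → ℂ} (hz : z ∈ Sg l) : z l ∈ HP := by
  have h1 : ∑ i ∈ Finset.univ.erase l, ‖z i‖ ^ 2 < (z l).im := hz
  have h2 : 0 ≤ ∑ i ∈ Finset.univ.erase l, ‖z i‖ ^ 2 :=
    Finset.sum_nonneg fun i _ => by positivity
  exact lt_of_le_of_lt h2 h1

theorem rho_l (l : ι) (ζ : ℂ) (z : ι → ℂ) : rho l ζ z l = ζ := if_pos rfl

/-- the denominator does not vanish -/
theorem Rho_den {ζ t : ℂ} (hζ : ζ ∈ HP) (ht : t ∈ HP) : t - (starRingEnd ℂ) ζ ≠ 0 := by
  intro h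
  have h1 := congrArg Complex.im h
  rw [Complex.sub_im, Complex.conj_im, Complex.zero_im] at h1
  have h2 : 0 < ζ.im := hζ
  have h3 : 0 < t.im := ht
  linarith

theorem Rho_bz_ne {ζ t : ℂ} (hζ : ζ ∈ HP) (ht : t ∈ HP) : bz ζ t ≠ 0 :=
  div_ne_zero (Rho_den hζ hζ) (Rho_den hζ ht)

theorem Rho_bz_sq {ζ t : ℂ} (hζ : ζ ∈ HP) (ht : t ∈ HP) : ‖bz ζ t‖ ^ 2 * t.im ≤ ζ.im := by
  have h2 : 0 < ζ.im := hζ
  have h3 : 0 < t.im := ht
  have h4 : ‖ζ - (starRingEnd ℂ) ζ‖ ^ 2 = 4 * ζ.im ^ 2 := by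
    rw [Complex.sq_norm, Complex.normSq_apply, Complex.sub_re, Complex.sub_im, Complex.conj_re,
      Complex.conj_im]
    ring
  have h5 : ‖t - (starRingEnd ℂ) ζ‖ ^ 2 = (t.re - ζ.re) ^ 2 + (t.im + ζ.im) ^ 2 := by
    rw [Complex.sq_norm, Complex.normSq_apply, Complex.sub_re, Complex.sub_im, Complex.conj_re,
      Complex.conj_im]
    ring
  have h6 : 0 < (t.re - ζ.re) ^ 2 + (t.im + ζ.im) ^ 2 := by positivity
  unfold bz
  rw [norm_div, div_pow, h4, h5, div_mul_eq_mul_div, div_le_iff₀ h6]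
  nlinarith [mul_nonneg h2.le (sq_nonneg (t.re - ζ.re)), mul_nonneg h2.le (sq_nonneg (t.im - ζ.im))]

theorem rho_mem {l : ι} {ζ : ℂ} (hζ : ζ ∈ HP) {z : ι → ℂ} (hz : z ∈ Sg l) : rho l ζ z ∈ Sg l := by
  have h1 : ∑ i ∈ Finset.univ.erase l, ‖z i‖ ^ 2 < (z l).im := hz
  have ht := Sg_HP hz
  show ∑ i ∈ Finset.univ.erase l, ‖rho l ζ z i‖ ^ 2 < (rho l ζ z l).im
  rw [rho_l]
  have h2 : ∑ i ∈ Finset.univ.erase l, ‖rho l ζ z i‖ ^ 2 =
      ‖bz ζ (z l)‖ ^ 2 * ∑ i ∈ Finset.univ.erase l, ‖z i‖ ^ 2 := by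
    rw [Finset.mul_sum]
    refine Finset.sum_congr rfl fun i hi => ?_
    unfold rho
    rw [if_neg (Finset.ne_of_mem_erase hi), norm_mul, mul_pow]
  rw [h2]
  have h3 : 0 < ‖bz ζ (z l)‖ ^ 2 := pow_pos (norm_pos_iff.2 (Rho_bz_ne hζ ht)) 2
  exact (mul_lt_mul_of_pos_left h1 h3).trans_le (Rho_bz_sq hζ ht)

theorem rho_self {l : ι} {z : ι → ℂ} (hz : z ∈ Sg l) : rho l (z l) z = z := by
  have ht := Sg_HP hz
  funext i
  unfold rho bz
  split_ifs with h
  · rw [h]
  · rw [div_self (Rho_den ht ht), one_mul]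

theorem rho_hol {l : ι} {ζ : ℂ} (hζ : ζ ∈ HP) : DifferentiableOn ℂ (rho l ζ) (Sg l) := by
  rw [differentiableOn_pi]
  intro i
  by_cases h : i = l
  · subst h
    have h1 : (fun z : ι → ℂ => rho i ζ z i) = fun _ => ζ := by
      funext z
      exact rho_l i ζ z
    rw [h1]
    exact differentiableOn_const ζ
  · have h1 : (fun z : ι → ℂ => rho l ζ z i) = fun z => bz ζ (z l) * z i := by
      funext z
      unfold rho
      rw [if_neg h]
    rw [h1]
    have h2 : ∀ j : ι, Differentiable ℂ fun z : ι → ℂ => z j := fun j =>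
      (ContinuousLinearMap.proj (R := ℂ) (φ := fun _ : ι => ℂ) j).differentiable
    unfold bz
    intro z hz
    have h3 : DifferentiableAt ℂ (fun z : ι → ℂ => z l - (starRingEnd ℂ) ζ) z :=
      ((h2 l) z).sub_const _
    have h4 := h3.fun_inv (Rho_den hζ (Sg_HP hz))
    simp only [div_eq_mul_inv]
    exact (((differentiableAt_const _).fun_mul h4).fun_mul ((h2 i) z)).differentiableWithinAt

theorem rho_cont {l : ι} {z : ι → ℂ} (hz : z ∈ Sg l) :
    ContinuousOn (fun ζ => rho l ζ z) HP := by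
  rw [continuousOn_pi]
  intro i
  by_cases h : i = l
  · subst h
    have h1 : (fun ζ : ℂ => rho i ζ z i) = fun ζ => ζ := by
      funext ζ
      exact rho_l i ζ z
    rw [h1]
    exact continuousOn_id
  · have h1 : (fun ζ : ℂ => rho l ζ z i) = fun ζ => bz ζ (z l) * z i := by
      funext ζ
      unfold rho
      rw [if_neg h]
    rw [h1]
    unfold bz
    refine ContinuousOn.mul (ContinuousOn.div ?_ ?_ fun ζ hζ => Rho_den hζ (Sg_HP hz))
      continuousOn_const
    · exact (continuous_id.sub Complex.continuous_conj).continuousOn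
    · exact (continuous_const.sub Complex.continuous_conj).continuousOn

theorem update_diff (z : ι → ℂ) (i : ι) : Differentiable ℂ (fun s : ℂ => Function.update z i s) := by
  rw [differentiable_pi]
  intro j
  by_cases h : j = i
  · subst h
    simp only [Function.update_self]
    exact differentiable_id
  · simp only [Function.update_of_ne h]
    exact differentiable_const _

/-- Osgood's lemma on an open set -/
theorem osgood_open {d : ℕ} {U : Set (Fin d → ℂ)} (hU : IsOpen U) {f : (Fin d → ℂ) → ℂ} {C : ℝ}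
    (hC : ∀ z ∈ U, ‖f z‖ ≤ C)
    (hf : ∀ z ∈ U, ∀ i, DifferentiableAt ℂ (fun s => f (Function.update z i s)) (z i)) :
    DifferentiableOn ℂ f U := by
  intro z₀ hz₀
  apply DifferentiableAt.differentiableWithinAt
  obtain ⟨r, hr, hrU⟩ := Metric.isOpen_iff.1 hU z₀ hz₀
  have hPr : Pr (fun i => ball (z₀ i) r) = ball z₀ r := by
    ext z
    rw [mem_ball, dist_pi_lt_iff hr]
    rfl
  have hsub : Pr (fun i => ball (z₀ i) r) ⊆ U := by
    rw [hPr]
    exact hrU
  have h1 : SH (fun i => ball (z₀ i) r) f := by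
    refine ⟨⟨C, fun z hz => hC z (hsub hz)⟩, fun z hz l t ht => ?_⟩
    apply DifferentiableAt.differentiableWithinAt
    have h2 : Function.update z l t ∈ Pr (fun i => ball (z₀ i) r) := by
      intro i
      by_cases h : i = l
      · subst h
        rw [Function.update_self]
        exact ht
      · rw [Function.update_of_ne h]
        exact hz i
    have h3 := hf _ (hsub h2) l
    rw [Function.update_self] at h3
    simp only [Function.update_idem] at h3
    exact h3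
  have h2 := osgood (fun i => isOpen_ball) h1
  rw [hPr] at h2
  exact h2.differentiableAt (ball_mem_nhds z₀ hr)

end Cor
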