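import Pool.Agent.helper45.Ball.PU2
import Pool.Agent.helper45.Ball.Adj
import Pool.Agent.helper45.Ball.Rho

/-!
Module BALL-K1: the smooth combination of the local solutions and the Koszul matrix, algebra and
bounds.

PROOF.  Fix `z ∈ Sg l`, `t = z l ∈ DNB N`.  In each sum over the cells only the cells with
`t ∈ cellE m n a b` matter (`abw_supp`), and for these `hS` gives `‖S (lab n a b) j z‖ ≤ K` and
`∑ j, F j z * S (lab n a b) j z = 1`.
`sgm_bezout`: exchange the sums, `abw_sum` (cast to `ℂ`).  `tau_bezout`: `dabw_sum`.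
`sgm_le`: `∑ abw * K = K` (`abw_nonneg`).  `tau_le`: `dabw_abs`.  `WB_le`: two products.
`WB_F`: `∑ i, (tau j * sgm i - sgm j * tau i) * F i = tau j * 1 - sgm j * 0`.
`WB_zero`: if `t` is in no `NB I`, `I ∈ G`, then by `adj_near` all cells with `t ∈ cellE` have the
same label `c`.  If there is no such cell all sums vanish.  Otherwise `sgm j z = S c j z`
(`abw_sum`) and `tau j z = (∑ dabw) * S c j z = 0` (`dabw_sum`), for every `j`, so `WB = 0`.
-/

noncomputable section

open Set Finset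

namespace Cor

variable {ι : Type*} [Fintype ι] [DecidableEq ι] {Λ : Type*} {k : ℕ} {l : ι} {m N : ℕ} {K : ℝ}
  {lab : ℕ → ℕ → ℕ → Λ} {F : Fin k → (ι → ℂ) → ℂ} {S : Λ → Fin k → (ι → ℂ) → ℂ}

theorem Kos1_congr {X : Type*} [AddCommMonoid X] {f g : ℕ → ℕ → ℕ → X}
    (h : ∀ n ≤ N, ∀ a < 2 ^ (n + m), ∀ b < 2 ^ m, f n a b = g n a b) :
    SumC m N f = SumC m N g := by
  unfold SumC
  refine Finset.sum_congr rfl fun n hn => Finset.sum_congr rfl fun a ha =>
    Finset.sum_congr rfl fun b hb => ?_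
  exact h n (Nat.lt_succ_iff.1 (Finset.mem_range.1 hn)) a (Finset.mem_range.1 ha) b
    (Finset.mem_range.1 hb)

theorem Kos1_mono {f g : ℕ → ℕ → ℕ → ℝ}
    (h : ∀ n ≤ N, ∀ a < 2 ^ (n + m), ∀ b < 2 ^ m, f n a b ≤ g n a b) :
    SumC m N f ≤ SumC m N g := by
  unfold SumC
  refine Finset.sum_le_sum fun n hn => Finset.sum_le_sum fun a ha =>
    Finset.sum_le_sum fun b hb => ?_
  exact h n (Nat.lt_succ_iff.1 (Finset.mem_range.1 hn)) a (Finset.mem_range.1 ha) b
    (Finset.mem_range.1 hb)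

theorem Kos1_mul_left {X : Type*} [CommRing X] (c : X) (f : ℕ → ℕ → ℕ → X) :
    c * SumC m N f = SumC m N fun n a b => c * f n a b := by
  unfold SumC
  simp only [Finset.mul_sum]

theorem Kos1_mul_right {X : Type*} [CommRing X] (c : X) (f : ℕ → ℕ → ℕ → X) :
    SumC m N f * c = SumC m N fun n a b => f n a b * c := by
  unfold SumC
  simp only [Finset.sum_mul]

theorem Kos1_comm {X α : Type*} [AddCommMonoid X] (s : Finset α) (f : α → ℕ → ℕ → ℕ → X) :
    ∑ j ∈ s, SumC m N (f j) = SumC m N fun n a b => ∑ j ∈ s, f j n a b := by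
  unfold SumC
  rw [Finset.sum_comm]
  refine Finset.sum_congr rfl fun n _ => ?_
  rw [Finset.sum_comm]
  refine Finset.sum_congr rfl fun a _ => ?_
  rw [Finset.sum_comm]

theorem Kos1_ofReal (f : ℕ → ℕ → ℕ → ℝ) :
    SumC m N (fun n a b => (f n a b : ℂ)) = ((SumC m N f : ℝ) : ℂ) := by
  unfold SumC
  simp only [Complex.ofReal_sum]

theorem Kos1_norm (f : ℕ → ℕ → ℕ → ℂ) : ‖SumC m N f‖ ≤ SumC m N fun n a b => ‖f n a b‖ := by
  unfold SumC
  refine (norm_sum_le _ _).trans (Finset.sum_le_sum fun n _ => ?_)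
  refine (norm_sum_le _ _).trans (Finset.sum_le_sum fun a _ => ?_)
  exact norm_sum_le _ _

theorem Kos1_zero {X : Type*} [AddCommMonoid X] : SumC m N (fun _ _ _ => (0 : X)) = 0 := by
  unfold SumC
  simp

theorem Kos1_key (hS : BSol l m N K lab F S) {z : ι → ℂ} (hz : z ∈ Sg l) {n a b : ℕ}
    (hn : n ≤ N) (ha : a < 2 ^ (n + m)) (hb : b < 2 ^ m)
    (h : abw m n a b (z l) ≠ 0 ∨ dabw m n a b (z l) ≠ 0) :
    (∀ j, ‖S (lab n a b) j z‖ ≤ K) ∧ ∑ j, F j z * S (lab n a b) j z = 1 := by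
  obtain ⟨O, -, hO, -, h2⟩ := hS n hn a ha b hb
  exact h2 z hz (hO (abw_supp h))

theorem Kos1_bezout (hS : BSol l m N K lab F S) {z : ι → ℂ} (hz : z ∈ Sg l)
    (w : ℕ → ℕ → ℕ → ℂ)
    (hw : ∀ n a b, w n a b ≠ 0 → abw m n a b (z l) ≠ 0 ∨ dabw m n a b (z l) ≠ 0) :
    ∑ j, F j z * SumC m N (fun n a b => w n a b * S (lab n a b) j z) = SumC m N w := by
  rw [Finset.sum_congr rfl fun j _ => Kos1_mul_left (F j z) _, Kos1_comm]
  refine Kos1_congr fun n hn a ha b hb => ?_
  by_cases h : w n a b = 0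
  · simp [h]
  · have h1 := (Kos1_key hS hz hn ha hb (hw n a b h)).2
    calc ∑ j, F j z * (w n a b * S (lab n a b) j z)
        = w n a b * ∑ j, F j z * S (lab n a b) j z := by
          rw [Finset.mul_sum]
          refine Finset.sum_congr rfl fun j _ => ?_
          ring
      _ = w n a b := by rw [h1, mul_one]

theorem sgm_bezout (hS : BSol l m N K lab F S) {z : ι → ℂ} (hz : z ∈ Sg l) (hzl : z l ∈ DNB N) :
    ∑ j, F j z * sgm l m N lab S j z = 1 := by
  have h1 := Kos1_bezout hS hz (fun n a b => (abw m n a b (z l) : ℂ)) (fun n a b h => by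
    left
    intro h2
    apply h
    show (abw m n a b (z l) : ℂ) = 0
    rw [h2, Complex.ofReal_zero])
  have h2 := abw_sum m N hzl
  rw [Kos1_ofReal, h2, Complex.ofReal_one] at h1
  exact h1

theorem tau_bezout (hS : BSol l m N K lab F S) {z : ι → ℂ} (hz : z ∈ Sg l) (hzl : z l ∈ DNB N) :
    ∑ j, F j z * tau l m N lab S j z = 0 := by
  have h1 := Kos1_bezout hS hz (fun n a b => dabw m n a b (z l)) (fun n a b h => Or.inr h)
  rw [dabw_sum m N hzl] at h1
  exact h1

theorem sgm_le (hK : 0 ≤ K) (hS : BSol l m N K lab F S) (j : Fin k) {z : ι → ℂ} (hz : z ∈ Sg l)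
    (hzl : z l ∈ DNB N) : ‖sgm l m N lab S j z‖ ≤ K := by
  have h1 : ‖sgm l m N lab S j z‖ ≤ SumC m N fun n a b => abw m n a b (z l) * K := by
    refine (Kos1_norm _).trans (Kos1_mono fun n hn a ha b hb => ?_)
    rw [norm_mul, Complex.norm_real, Real.norm_of_nonneg (abw_nonneg m n a b (z l))]
    by_cases h : abw m n a b (z l) = 0
    · rw [h, zero_mul, zero_mul]
    · exact mul_le_mul_of_nonneg_left ((Kos1_key hS hz hn ha hb (Or.inl h)).1 j)
        (abw_nonneg m n a b (z l))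
  rw [← Kos1_mul_right, abw_sum m N hzl, one_mul] at h1
  exact h1

theorem tau_le {D : ℝ} (hD : ∀ u, |dss u| ≤ D) (hK : 0 ≤ K) (hS : BSol l m N K lab F S)
    (j : Fin k) {z : ι → ℂ} (hz : z ∈ Sg l) (hzl : z l ∈ DNB N) :
    ‖tau l m N lab S j z‖ ≤ 7 * D * 2 ^ m * K / (z l).im := by
  have h1 : ‖tau l m N lab S j z‖ ≤ SumC m N fun n a b => ‖dabw m n a b (z l)‖ * K := by
    refine (Kos1_norm _).trans (Kos1_mono fun n hn a ha b hb => ?_)
    rw [norm_mul]
    by_cases h : dabw m n a b (z l) = 0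
    · rw [h, norm_zero, zero_mul, zero_mul]
    · exact mul_le_mul_of_nonneg_left ((Kos1_key hS hz hn ha hb (Or.inr h)).1 j)
        (norm_nonneg _)
  rw [← Kos1_mul_right] at h1
  refine h1.trans ((mul_le_mul_of_nonneg_right (dabw_abs m N hD hzl) hK).trans_eq ?_)
  ring

theorem WB_le {D : ℝ} (hD : ∀ u, |dss u| ≤ D) (hK : 0 ≤ K) (hS : BSol l m N K lab F S)
    (j i : Fin k) {z : ι → ℂ} (hz : z ∈ Sg l) (hzl : z l ∈ DNB N) :
    ‖WB l m N lab S j i z‖ ≤ 14 * D * 2 ^ m * K ^ 2 / (z l).im := by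
  have hs := fun j => sgm_le hK hS j hz hzl
  have ht := fun j => tau_le hD hK hS j hz hzl
  have h1 : ‖tau l m N lab S j z * sgm l m N lab S i z‖ ≤ 7 * D * 2 ^ m * K / (z l).im * K := by
    rw [norm_mul]
    exact mul_le_mul (ht j) (hs i) (norm_nonneg _) ((norm_nonneg _).trans (ht j))
  have h2 : ‖sgm l m N lab S j z * tau l m N lab S i z‖ ≤ K * (7 * D * 2 ^ m * K / (z l).im) := by
    rw [norm_mul]
    exact mul_le_mul (hs j) (ht i) (norm_nonneg _) hK
  unfold WB
  refine (norm_sub_le _ _).trans ((add_le_add h1 h2).trans_eq ?_)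
  ring

theorem WB_anti (j i : Fin k) (z : ι → ℂ) : WB l m N lab S j i z = - WB l m N lab S i j z := by
  unfold WB
  ring

theorem WB_F (hS : BSol l m N K lab F S) (j : Fin k) {z : ι → ℂ} (hz : z ∈ Sg l)
    (hzl : z l ∈ DNB N) :
    ∑ i, WB l m N lab S j i z * F i z = tau l m N lab S j z := by
  have h1 := sgm_bezout hS hz hzl
  have h2 := tau_bezout hS hz hzl
  calc ∑ i, WB l m N lab S j i z * F i z
      = ∑ i, (tau l m N lab S j z * (F i z * sgm l m N lab S i z) -
          sgm l m N lab S j z * (F i z * tau l m N lab S i z)) := by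
        refine Finset.sum_congr rfl fun i _ => ?_
        unfold WB
        ring
    _ = tau l m N lab S j z := by
        rw [Finset.sum_sub_distrib, ← Finset.mul_sum, ← Finset.mul_sum, h1, h2, mul_one, mul_zero,
          sub_zero]

theorem WB_zero {G : Finset Nd} (hadj : AdjG m N lab G) (j i : Fin k) {z : ι → ℂ}
    (hzl : z l ∈ DNB N) (h : ∀ I ∈ G, z l ∉ NB I) : WB l m N lab S j i z = 0 := by
  -- a cell which contains `z l`
  obtain ⟨n0, hn0, a0, ha0, b0, hb0, ht0⟩ : ∃ n ≤ N, ∃ a < 2 ^ (n + m), ∃ b < 2 ^ m,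
      z l ∈ cellE m n a b := by
    by_contra hcon
    push Not at hcon
    have h1 : SumC m N (fun n a b => abw m n a b (z l)) = SumC m N (fun _ _ _ => (0 : ℝ)) := by
      refine Kos1_congr fun n hn a ha b hb => ?_
      by_contra h2
      exact hcon n hn a ha b hb (abw_supp (Or.inl h2))
    rw [abw_sum m N hzl, Kos1_zero] at h1
    exact one_ne_zero h1
  have hlab : ∀ n ≤ N, ∀ a < 2 ^ (n + m), ∀ b < 2 ^ m, z l ∈ cellE m n a b →
      lab n a b = lab n0 a0 b0 := by
    intro n hn a ha b hb ht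
    by_contra hne
    obtain ⟨I, hI, hI2⟩ := adj_near hadj hn ha hb hn0 ha0 hb0 ht ht0 hne
    exact h I hI hI2
  have htau : ∀ j, tau l m N lab S j z = 0 := by
    intro j
    have h1 : tau l m N lab S j z = SumC m N fun n a b =>
        dabw m n a b (z l) * S (lab n0 a0 b0) j z := by
      refine Kos1_congr fun n hn a ha b hb => ?_
      by_cases h2 : dabw m n a b (z l) = 0
      · rw [h2, zero_mul, zero_mul]
      · rw [hlab n hn a ha b hb (abw_supp (Or.inr h2))]
    rw [h1, ← Kos1_mul_right, dabw_sum m N hzl, zero_mul]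
  unfold WB
  rw [htau, htau, zero_mul, mul_zero, sub_zero]

end Cor
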