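import Pool.Agent.helper45.Ball.PU2
import Pool.Agent.helper45.Ball.Rho

/-!
Module BALL-K2: the Koszul matrix, regularity.

PROOF.
`WB_hol`: for fixed `ζ` the weights `abw m n a b ζ`, `dabw m n a b ζ` are constants (the coordinate
`l` of `rho l ζ z` is `ζ`); if one of them is nonzero then `ζ ∈ cellE ⊆ O` (`abw_supp`), and
`z ↦ S (lab n a b) j (rho l ζ z)` is holomorphic on `Sg l` (composition with `rho_hol`, `rho_mem`);
otherwise the term is zero.
`WB_cont`: it is enough that `ζ ↦ abw m n a b ζ * S (lab n a b) j (rho l ζ z)` is continuous at each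
`ζ₀ ∈ DNB N` (and the same with `dabw`).  If `ζ₀ ∈ cellE`: `S (lab n a b) j` is continuous at
`rho l ζ₀ z`, `rho_cont`.  If `ζ₀ ∉ cellE`: the product is zero near `ζ₀` (`cellE_closed`).
`sgm_hol`: the weights do not depend on the coordinate `i ≠ l`.
`sgm_fderiv`: `L t = ∑ cells, (S .. (update z l t)) • Labw t + abw t • (derivative of
s ↦ S .. (update z l s))` with `abw_fderiv`, where a term is replaced by `0` if `t ∉ cellE`; near
`t ∈ cellE` the function `s ↦ S (lab n a b) j (update z l s)` is holomorphic (`update_diff`, the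
open set `{s | update z l s ∈ Sg l ∧ s ∈ O}`) with continuous derivative `S'`, whose real
derivative `M v = S' v` satisfies `M 1 + I * M I = 0`; near `t ∉ cellE` all is zero.  Continuity of
`L` at `t ∈ cellE`: the formula without replacement is valid near `t`, because `abw` and `Labw`
vanish outside `cellE`.
-/

noncomputable section

open Set Finset

namespace Cor

variable {ι : Type*} [Fintype ι] [DecidableEq ι] {Λ : Type*} {k : ℕ} {l : ι} {m N : ℕ} {K : ℝ}
  {lab : ℕ → ℕ → ℕ → Λ} {F : Fin k → (ι → ℂ) → ℂ} {S : Λ → Fin k → (ι → ℂ) → ℂ}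

theorem Kos2_HP_open : IsOpen HP := isOpen_lt continuous_const Complex.continuous_im

theorem Kos2_DNB {ζ : ℂ} (hζ : ζ ∈ DNB N) : ζ ∈ HP :=
  lt_trans (by positivity : (0 : ℝ) < 2 * (1 / 2) ^ N) hζ.2.2.1

/-- the open set on which the local solution is defined -/
theorem Kos2_open (l : ι) {O : Set ℂ} (hO : IsOpen O) : IsOpen {z : ι → ℂ | z ∈ Sg l ∧ z l ∈ O} :=
  (Sg_open l).inter (hO.preimage (continuous_apply l))

/-- for the cells of a sum -/
theorem Kos2_range {n a b : ℕ} (hn : n ∈ range (N + 1)) (ha : a ∈ range (2 ^ (n + m)))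
    (hb : b ∈ range (2 ^ m)) : n ≤ N ∧ a < 2 ^ (n + m) ∧ b < 2 ^ m :=
  ⟨Nat.lt_succ_iff.1 (Finset.mem_range.1 hn), Finset.mem_range.1 ha, Finset.mem_range.1 hb⟩

theorem Kos2_supp {n a b : ℕ} {t : ℂ} (h : (abw m n a b t : ℂ) ≠ 0) : t ∈ cellE m n a b :=
  abw_supp (Or.inl fun h1 => h (by rw [h1, Complex.ofReal_zero]))

/-- one term, in the variable `z` -/
theorem Kos2_hol (hS : BSol l m N K lab F S) (j : Fin k) {n a b : ℕ} (hn : n ≤ N)
    (ha : a < 2 ^ (n + m)) (hb : b < 2 ^ m) {ζ : ℂ} (hζ : ζ ∈ HP) {w : ℂ}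
    (hw : w ≠ 0 → ζ ∈ cellE m n a b) :
    DifferentiableOn ℂ (fun z => w * S (lab n a b) j (rho l ζ z)) (Sg l) := by
  by_cases h0 : w = 0
  · rw [h0]
    simp only [zero_mul]
    exact differentiableOn_const _
  · obtain ⟨O, hO, hEO, hd, _⟩ := hS n hn a ha b hb
    refine (((hd j).comp (rho_hol hζ) fun z hz => ?_)).const_mul w
    refine ⟨rho_mem hζ hz, ?_⟩
    show rho l ζ z l ∈ O
    rw [rho_l]
    exact hEO (hw h0)

/-- one term, in the variable `ζ` -/
theorem Kos2_cont (hS : BSol l m N K lab F S) (j : Fin k) {n a b : ℕ} (hn : n ≤ N)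
    (ha : a < 2 ^ (n + m)) (hb : b < 2 ^ m) {w : ℂ → ℂ} (hwc : Continuous w)
    (hw : ∀ ζ, w ζ ≠ 0 → ζ ∈ cellE m n a b) {z : ι → ℂ} (hz : z ∈ Sg l) :
    ContinuousOn (fun ζ => w ζ * S (lab n a b) j (rho l ζ z)) (DNB N) := by
  intro ζ hζ
  apply ContinuousAt.continuousWithinAt
  by_cases h0 : ζ ∈ cellE m n a b
  · obtain ⟨O, hO, hEO, hd, _⟩ := hS n hn a ha b hb
    have h1 : ContinuousAt (fun ζ => rho l ζ z) ζ :=
      (rho_cont hz).continuousAt (Kos2_HP_open.mem_nhds (Kos2_DNB hζ))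
    have h2 : ContinuousAt (S (lab n a b) j) (rho l ζ z) := by
      refine ((hd j).continuousOn).continuousAt ((Kos2_open l hO).mem_nhds ⟨?_, ?_⟩)
      · exact rho_mem (Kos2_DNB hζ) hz
      · show rho l ζ z l ∈ O
        rw [rho_l]
        exact hEO h0
    exact hwc.continuousAt.mul (ContinuousAt.comp (f := fun ζ => rho l ζ z) h2 h1)
  · have h1 : (fun ζ => w ζ * S (lab n a b) j (rho l ζ z)) =ᶠ[nhds ζ] fun _ => 0 := by
      filter_upwards [(cellE_closed m n a b).isOpen_compl.mem_nhds h0] with t ht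
      have h2 : w t = 0 := by
        by_contra h3
        exact ht (hw t h3)
      rw [h2, zero_mul]
    exact ContinuousAt.congr continuousAt_const h1.symm

theorem Kos2_sgm_rho (j : Fin k) (ζ : ℂ) (z : ι → ℂ) : sgm l m N lab S j (rho l ζ z) =
    SumC m N fun n a b => (abw m n a b ζ : ℂ) * S (lab n a b) j (rho l ζ z) := by
  rw [sgm, rho_l]

theorem Kos2_tau_rho (j : Fin k) (ζ : ℂ) (z : ι → ℂ) : tau l m N lab S j (rho l ζ z) =
    SumC m N fun n a b => dabw m n a b ζ * S (lab n a b) j (rho l ζ z) := by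
  rw [tau, rho_l]

theorem Kos2_sgm_hol (hS : BSol l m N K lab F S) (j : Fin k) {ζ : ℂ} (hζ : ζ ∈ HP) :
    DifferentiableOn ℂ (fun z => sgm l m N lab S j (rho l ζ z)) (Sg l) := by
  simp only [Kos2_sgm_rho, SumC]
  refine DifferentiableOn.fun_sum fun n hn => DifferentiableOn.fun_sum fun a ha =>
    DifferentiableOn.fun_sum fun b hb => ?_
  obtain ⟨h1, h2, h3⟩ := Kos2_range hn ha hb
  exact Kos2_hol hS j h1 h2 h3 hζ Kos2_supp

theorem Kos2_tau_hol (hS : BSol l m N K lab F S) (j : Fin k) {ζ : ℂ} (hζ : ζ ∈ HP) :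
    DifferentiableOn ℂ (fun z => tau l m N lab S j (rho l ζ z)) (Sg l) := by
  simp only [Kos2_tau_rho, SumC]
  refine DifferentiableOn.fun_sum fun n hn => DifferentiableOn.fun_sum fun a ha =>
    DifferentiableOn.fun_sum fun b hb => ?_
  obtain ⟨h1, h2, h3⟩ := Kos2_range hn ha hb
  exact Kos2_hol hS j h1 h2 h3 hζ fun h => abw_supp (Or.inr h)

theorem WB_hol (hS : BSol l m N K lab F S) (j i : Fin k) {ζ : ℂ} (hζ : ζ ∈ DNB N) :
    DifferentiableOn ℂ (fun z => WB l m N lab S j i (rho l ζ z)) (Sg l) := by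
  have h := Kos2_DNB hζ
  exact ((Kos2_tau_hol hS j h).mul (Kos2_sgm_hol hS i h)).sub
    ((Kos2_sgm_hol hS j h).mul (Kos2_tau_hol hS i h))

theorem Kos2_sgm_cont (hS : BSol l m N K lab F S) (j : Fin k) {z : ι → ℂ} (hz : z ∈ Sg l) :
    ContinuousOn (fun ζ => sgm l m N lab S j (rho l ζ z)) (DNB N) := by
  simp only [Kos2_sgm_rho, SumC]
  refine continuousOn_finsetSum _ fun n hn => continuousOn_finsetSum _ fun a ha =>
    continuousOn_finsetSum _ fun b hb => ?_
  obtain ⟨h1, h2, h3⟩ := Kos2_range hn ha hb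
  exact Kos2_cont hS j h1 h2 h3 (Complex.continuous_ofReal.comp (abw_cont m n a b))
    (fun ζ h => Kos2_supp h) hz

theorem Kos2_tau_cont (hS : BSol l m N K lab F S) (j : Fin k) {z : ι → ℂ} (hz : z ∈ Sg l) :
    ContinuousOn (fun ζ => tau l m N lab S j (rho l ζ z)) (DNB N) := by
  simp only [Kos2_tau_rho, SumC]
  refine continuousOn_finsetSum _ fun n hn => continuousOn_finsetSum _ fun a ha =>
    continuousOn_finsetSum _ fun b hb => ?_
  obtain ⟨h1, h2, h3⟩ := Kos2_range hn ha hb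
  exact Kos2_cont hS j h1 h2 h3 (dabw_cont m n a b) (fun ζ h => abw_supp (Or.inr h)) hz

theorem WB_cont (hS : BSol l m N K lab F S) (j i : Fin k) {z : ι → ℂ} (hz : z ∈ Sg l) :
    ContinuousOn (fun ζ => WB l m N lab S j i (rho l ζ z)) (DNB N) :=
  ((Kos2_tau_cont hS j hz).mul (Kos2_sgm_cont hS i hz)).sub
    ((Kos2_sgm_cont hS j hz).mul (Kos2_tau_cont hS i hz))

theorem sgm_hol (hS : BSol l m N K lab F S) (j : Fin k) {z : ι → ℂ} (hz : z ∈ Sg l) {i : ι}
    (hi : i ≠ l) :
    DifferentiableAt ℂ (fun s => sgm l m N lab S j (Function.update z i s)) (z i) := by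
  simp only [sgm, SumC, Function.update_of_ne hi.symm]
  refine DifferentiableAt.fun_sum fun n hn => DifferentiableAt.fun_sum fun a ha =>
    DifferentiableAt.fun_sum fun b hb => ?_
  obtain ⟨h1, h2, h3⟩ := Kos2_range hn ha hb
  by_cases h0 : (abw m n a b (z l) : ℂ) = 0
  · rw [h0]
    simp only [zero_mul]
    exact differentiableAt_const _
  · obtain ⟨O, hO, hEO, hd, _⟩ := hS n h1 a h2 b h3
    refine DifferentiableAt.const_mul ?_ _
    have h4 : DifferentiableAt ℂ (S (lab n a b) j) (Function.update z i (z i)) := by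
      rw [Function.update_eq_self]
      exact (hd j).differentiableAt ((Kos2_open l hO).mem_nhds ⟨hz, hEO (Kos2_supp h0)⟩)
    exact DifferentiableAt.comp (f := fun s => Function.update z i s) (z i) h4
      (update_diff z i).differentiableAt

/-- the derivative of a product with a weight -/
def Kos2_L (w s : ℂ → ℂ) (Lw : ℂ → ℂ →L[ℝ] ℂ) (t : ℂ) : ℂ →L[ℝ] ℂ :=
  s t • Lw t + w t • ((1 : ℂ →L[ℂ] ℂ).smulRight (deriv s t)).restrictScalars ℝ

/-- the statement about the derivative of a product with a weight -/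
def Kos2_C (U : Set ℂ) (w s wd : ℂ → ℂ) (Lw : ℂ → ℂ →L[ℝ] ℂ) : Prop :=
  ContinuousOn (Kos2_L w s Lw) U ∧
    ∀ t ∈ U, HasFDerivAt (fun t => w t * s t) (Kos2_L w s Lw t) t ∧
      1 / 2 * (Kos2_L w s Lw t 1 + Complex.I * Kos2_L w s Lw t Complex.I) = wd t * s t

theorem Kos2_L_zero {w s : ℂ → ℂ} {Lw : ℂ → ℂ →L[ℝ] ℂ} {t : ℂ} (hw : w t = 0) (hL : Lw t = 0) :
    Kos2_L w s Lw t = 0 := by
  refine ContinuousLinearMap.ext fun v => ?_
  show s t * Lw t v + w t * (v * deriv s t) = 0
  rw [hw, hL]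
  show s t * 0 + 0 * (v * deriv s t) = 0
  ring

/-- the real derivative of a product with a weight which vanishes outside of `E` -/
theorem Kos2_prod {E O U : Set ℂ} (hE : IsClosed E) (hO : IsOpen O) (hEO : E ⊆ O) (hU : IsOpen U)
    {w s wd : ℂ → ℂ} {Lw : ℂ → ℂ →L[ℝ] ℂ} (hLw : Continuous Lw)
    (hw : ∀ t, HasFDerivAt w (Lw t) t) (hwd : ∀ t, 1 / 2 * (Lw t 1 + Complex.I * Lw t Complex.I) =
      wd t) (hw0 : ∀ t, t ∉ E → w t = 0) (hL0 : ∀ t, t ∉ E → Lw t = 0)
    (hs : DifferentiableOn ℂ s (U ∩ O)) : Kos2_C U w s wd Lw := by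
  have hUO : IsOpen (U ∩ O) := hU.inter hO
  have hd := hs.deriv hUO
  have hwc : ∀ t, ContinuousAt w t := fun t => (hw t).continuousAt
  refine ⟨fun t ht => ContinuousAt.continuousWithinAt ?_, fun t ht => ⟨?_, ?_⟩⟩
  · by_cases h : t ∈ E
    · have htO : t ∈ U ∩ O := ⟨ht, hEO h⟩
      have h1 : ContinuousAt s t := hs.continuousOn.continuousAt (hUO.mem_nhds htO)
      have h2 : ContinuousAt (deriv s) t := hd.continuousOn.continuousAt (hUO.mem_nhds htO)
      refine (h1.smul hLw.continuousAt).add ((hwc t).smul ?_)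
      have h3 : Continuous fun c : ℂ =>
          ((1 : ℂ →L[ℂ] ℂ).smulRight c).restrictScalars ℝ := by
        have h4 : (fun c : ℂ => ((1 : ℂ →L[ℂ] ℂ).smulRight c).restrictScalars ℝ) =
            fun c : ℂ => c • (ContinuousLinearMap.id ℝ ℂ) := by
          funext c
          ext v
          simp [mul_comm]
        rw [h4]
        exact continuous_id.smul continuous_const
      exact h3.continuousAt.comp h2
    · refine ContinuousAt.congr (f := fun _ => 0) continuousAt_const ?_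
      filter_upwards [hE.isOpen_compl.mem_nhds h] with x hx
      exact (Kos2_L_zero (hw0 x hx) (hL0 x hx)).symm
  · by_cases h : t ∈ E
    · have htO : t ∈ U ∩ O := ⟨ht, hEO h⟩
      have h1 : HasDerivAt s (deriv s t) t :=
        (hs.differentiableAt (hUO.mem_nhds htO)).hasDerivAt
      have h2 := (hw t).mul (h1.hasFDerivAt.restrictScalars ℝ)
      rw [add_comm] at h2
      exact h2
    · rw [Kos2_L_zero (hw0 t h) (hL0 t h)]
      refine HasFDerivAt.congr_of_eventuallyEq (hasFDerivAt_const (0 : ℂ) t) ?_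
      filter_upwards [hE.isOpen_compl.mem_nhds h] with x hx
      rw [hw0 x hx, zero_mul]
  · rw [← hwd t]
    have e1 : ∀ v : ℂ, Kos2_L w s Lw t v = s t * Lw t v + w t * (v * deriv s t) := fun v => rfl
    rw [e1, e1]
    linear_combination (1 / 2 * w t * deriv s t) * Complex.I_mul_I

theorem sgm_fderiv (hS : BSol l m N K lab F S) (j : Fin k) (z : ι → ℂ) :
    ∃ L : ℂ → ℂ →L[ℝ] ℂ, ContinuousOn L {t | Function.update z l t ∈ Sg l} ∧
      ∀ t, Function.update z l t ∈ Sg l →
        HasFDerivAt (fun t => sgm l m N lab S j (Function.update z l t)) (L t) t ∧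
        1 / 2 * (L t 1 + Complex.I * L t Complex.I) =
          tau l m N lab S j (Function.update z l t) := by
  choose Lw hLc hLd hLe hL0 using fun n a b => abw_fderiv m n a b
  set U : Set ℂ := {t | Function.update z l t ∈ Sg l} with hU
  have hUo : IsOpen U := (Sg_open l).preimage (update_diff z l).continuous
  have key : ∀ n a b, n ≤ N → a < 2 ^ (n + m) → b < 2 ^ m →
      Kos2_C U (fun t => (abw m n a b t : ℂ)) (fun t => S (lab n a b) j (Function.update z l t))
        (dabw m n a b) (Lw n a b) := by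
    intro n a b h1 h2 h3
    obtain ⟨O, hO, hEO, hd, _⟩ := hS n h1 a h2 b h3
    exact Kos2_prod (cellE_closed m n a b) hO hEO hUo (hLc n a b) (hLd n a b) (hLe n a b)
      (fun t ht => by
        by_contra h
        exact ht (Kos2_supp h)) (hL0 n a b)
      ((hd j).comp (update_diff z l).differentiableOn fun t ht => ⟨ht.1, by
        show Function.update z l t l ∈ O
        rw [Function.update_self]
        exact ht.2⟩)
  refine ⟨fun t => SumC m N fun n a b => Kos2_L (fun t => (abw m n a b t : ℂ))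
    (fun t => S (lab n a b) j (Function.update z l t)) (Lw n a b) t, ?_, fun t ht => ⟨?_, ?_⟩⟩
  · simp only [SumC]
    refine continuousOn_finsetSum _ fun n hn => continuousOn_finsetSum _ fun a ha =>
      continuousOn_finsetSum _ fun b hb => ?_
    obtain ⟨h1, h2, h3⟩ := Kos2_range hn ha hb
    exact (key n a b h1 h2 h3).1
  · simp only [sgm, SumC, Function.update_self]
    refine HasFDerivAt.fun_sum fun n hn => HasFDerivAt.fun_sum fun a ha =>
      HasFDerivAt.fun_sum fun b hb => ?_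
    obtain ⟨h1, h2, h3⟩ := Kos2_range hn ha hb
    exact ((key n a b h1 h2 h3).2 t ht).1
  · simp only [tau, SumC, Function.update_self]
    simp only [_root_.sum_apply, Finset.mul_sum, ← Finset.sum_add_distrib]
    refine Finset.sum_congr rfl fun n hn => Finset.sum_congr rfl fun a ha =>
      Finset.sum_congr rfl fun b hb => ?_
    obtain ⟨h1, h2, h3⟩ := Kos2_range hn ha hb
    exact ((key n a b h1 h2 h3).2 t ht).2

end Cor
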