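import Pool.Agent.helper45.Ball.Defs
import Pool.Agent.helper45.Cor.Jones

/-!
Module BALL-KR: the kernel `KG`.

PROOF.
`phi_inv_nb`: as `phi_inv` (Cor/Jones.lean): for `ζ ∈ NB I` we have `im ζ ≥ len I ≥ len p` for
`p.1 ≥ I.1`, so `(th p ζ).re ≤ 5/3 * om ζ (cen p)` (`th_re`), and
`‖ζ - conj (cen I)‖ ≤ sqrt (3^2 + (3 + 3/2)^2) len I ≤ 6 len I`.
`KG_diff`: `phi_diff`, finite sums.  `KG_one`: the summands are `1` (`phi_ne`, `NB I ⊆ HP`).
`KG_meas`: a finite sum over `I ∈ G` of `indicator (NB I)` times measurable functions, times a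
measurable function of `ζ` with finitely many values; `NB I` is closed; `Phi G I` is measurable (a
finite expression of measurable functions).
`KG_bdd`: `‖Phi G I t‖ ≤ 1 / ‖t - conj (cen I)‖ ≤ 1 / (3/2 len I)` on `HP`
(`Jones_th_nonneg`, `Jones_norm_Phi`, `Jones_im_le`), and `phi_inv_nb`: each summand is at most
`4 exp (5/3 T)`, the average also.
`KG_le`: `‖Phi G I t‖ ≤ 4/3 PB G I t` (`phi_le` with `z = z₀ = t`), `phi_inv_nb`, and the factor
`card⁻¹ ≤ 1`: `4/3 * 6 = 8`.
-/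

noncomputable section

open Set Finset

namespace Cor

theorem NB_closed (I : Nd) : IsClosed (NB I) := by
  have h1 : IsClosed {z : ℂ | |z.re - (cen I).re| ≤ 3 * len I} :=
    isClosed_le ((Complex.continuous_re.sub continuous_const).abs) continuous_const
  have h2 : IsClosed {z : ℂ | len I ≤ z.im} := isClosed_le continuous_const Complex.continuous_im
  have h3 : IsClosed {z : ℂ | z.im ≤ 3 * len I} :=
    isClosed_le Complex.continuous_im continuous_const
  exact h1.inter (h2.inter h3)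

theorem NB_HP (I : Nd) : NB I ⊆ HP := by
  intro z hz
  exact lt_of_lt_of_le (Jones_len_pos I) hz.2.1

theorem phi_inv_nb {G : Finset Nd} {T : ℝ} (hT : ∀ z ∈ HP, ∑ p ∈ G, om z (cen p) ≤ T) {I : Nd}
    {ζ : ℂ} (hζ : ζ ∈ NB I) : ‖(Phi G I ζ)⁻¹‖ ≤ 6 * Real.exp (5 / 3 * T) * len I := by
  have hlI := Jones_len_pos I
  have hζH : ζ ∈ HP := NB_HP I hζ
  obtain ⟨hr, hi1, hi2⟩ := hζ
  have hsum : ∑ p ∈ G.filter (fun p => I.1 ≤ p.1), (th p ζ).re ≤ 5 / 3 * T := by
    have h1 : ∑ p ∈ G.filter (fun p => I.1 ≤ p.1), (th p ζ).re ≤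
        ∑ p ∈ G.filter (fun p => I.1 ≤ p.1), 5 / 3 * om ζ (cen p) := by
      apply Finset.sum_le_sum
      intro p hp
      rw [Finset.mem_filter] at hp
      have hlp := Jones_len_pos p
      have hle : len p ≤ len I := by
        unfold len
        exact pow_le_pow_of_le_one (by norm_num) (by norm_num) hp.2
      rw [th_re p hζH]
      unfold om
      have hN := Jones_norm_pos p hζH
      have hci : (cen p).im = 3 / 2 * len p := rfl
      rw [hci, ← mul_div_assoc]
      apply div_le_div_of_nonneg_right _ (by positivity)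
      nlinarith
    have h2 : ∑ p ∈ G.filter (fun p => I.1 ≤ p.1), 5 / 3 * om ζ (cen p) ≤
        ∑ p ∈ G, 5 / 3 * om ζ (cen p) := by
      apply Finset.sum_le_sum_of_subset_of_nonneg (Finset.filter_subset _ _)
      intro p _ _
      have hci : (cen p).im = 3 / 2 * len p := rfl
      have hlp := Jones_len_pos p
      have h3 : 0 < ζ.im := hζH
      unfold om
      rw [hci]
      positivity
    rw [← Finset.mul_sum (s := G)] at h2
    have h3 := hT ζ hζH
    linarith
  have hnorm : ‖ζ - (starRingEnd ℂ) (cen I)‖ ≤ 6 * len I := by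
    have h0 : ‖ζ - (starRingEnd ℂ) (cen I)‖ ^ 2 ≤ (6 * len I) ^ 2 := by
      rw [← Complex.normSq_eq_norm_sq, Complex.normSq_apply, Jones_sub_re, Jones_sub_im]
      have hc : (cen I).re = ((I.2 : ℝ) + 1 / 2) * len I := rfl
      rw [hc] at hr
      have h1 : (ζ.re - ((I.2 : ℝ) + 1 / 2) * len I) * (ζ.re - ((I.2 : ℝ) + 1 / 2) * len I) ≤
          (3 * len I) * (3 * len I) := by
        rw [← abs_mul_abs_self]
        exact mul_self_le_mul_self (abs_nonneg _) hr
      have h2 : (ζ.im + 3 / 2 * len I) * (ζ.im + 3 / 2 * len I) ≤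
          (9 / 2 * len I) * (9 / 2 * len I) := by
        apply mul_self_le_mul_self
        · linarith
        · linarith
      nlinarith
    exact (pow_le_pow_iff_left₀ (norm_nonneg _) (by positivity) two_ne_zero).1 h0
  rw [norm_inv, Jones_norm_Phi, inv_div, Real.exp_neg, div_inv_eq_mul]
  have h4 : Real.exp (∑ p ∈ G.filter (fun p => I.1 ≤ p.1), (th p ζ).re) ≤
      Real.exp (5 / 3 * T) := Real.exp_le_exp.mpr hsum
  calc ‖ζ - (starRingEnd ℂ) (cen I)‖ *
        Real.exp (∑ p ∈ G.filter (fun p => I.1 ≤ p.1), (th p ζ).re)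
      ≤ (6 * len I) * Real.exp (5 / 3 * T) := by
        apply mul_le_mul hnorm h4 (Real.exp_pos _).le (by positivity)
    _ = 6 * Real.exp (5 / 3 * T) * len I := by ring

theorem KG_diff (G : Finset Nd) (ζ : ℂ) : DifferentiableOn ℂ (KG G ζ) HP := by
  unfold KG
  apply DifferentiableOn.const_mul
  apply DifferentiableOn.fun_sum
  intro I _
  exact (phi_diff G I).mul_const _

theorem KG_one {G : Finset Nd} {ζ : ℂ} (h : ∃ I ∈ G, ζ ∈ NB I) : KG G ζ ζ = 1 := by
  classical
  obtain ⟨I, hI, hζ⟩ := h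
  unfold KG
  rw [Finset.sum_congr rfl (g := fun _ => (1 : ℂ))]
  · rw [Finset.sum_const, nsmul_eq_mul, mul_one]
    apply inv_mul_cancel₀
    rw [Nat.cast_ne_zero]
    exact Finset.card_ne_zero_of_mem (Finset.mem_filter.2 ⟨hI, hζ⟩)
  · intro J hJ
    exact mul_inv_cancel₀ (phi_ne G J (NB_HP J (Finset.mem_filter.1 hJ).2))

theorem Kr_Phi_meas (G : Finset Nd) (I : Nd) : Measurable (Phi G I) := by
  unfold Phi th
  fun_prop

theorem KG_meas (G : Finset Nd) (t : ℂ) : Measurable (fun ζ => KG G ζ t) := by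
  classical
  unfold KG
  simp only [Finset.card_filter, Finset.sum_filter, Nat.cast_sum]
  apply Measurable.mul
  · apply Measurable.inv
    apply Finset.measurable_fun_sum
    intro I _
    apply Measurable.fun_comp (g := (Nat.cast : ℕ → ℂ)) measurable_from_top
    exact Measurable.ite (NB_closed I).measurableSet measurable_const measurable_const
  · apply Finset.measurable_fun_sum
    intro I _
    exact Measurable.ite (NB_closed I).measurableSet
      (measurable_const.mul (Kr_Phi_meas G I).inv) measurable_const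

theorem Kr_card {s : Finset Nd} : ‖((s.card : ℂ))⁻¹‖ * (s.card : ℝ) ≤ 1 := by
  rw [norm_inv, Complex.norm_natCast]
  exact inv_mul_le_one

theorem KG_bdd {G : Finset Nd} {T : ℝ} (hT : ∀ z ∈ HP, ∑ p ∈ G, om z (cen p) ≤ T) (ζ : ℂ) {t : ℂ}
    (ht : t ∈ HP) : ‖KG G ζ t‖ ≤ 4 * Real.exp (5 / 3 * T) := by
  classical
  unfold KG
  rw [norm_mul]
  have hE := Real.exp_pos (5 / 3 * T)
  have h1 : ‖∑ I ∈ G.filter (fun I => ζ ∈ NB I), Phi G I t * (Phi G I ζ)⁻¹‖ ≤
      ((G.filter (fun I => ζ ∈ NB I)).card : ℝ) * (4 * Real.exp (5 / 3 * T)) := by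
    rw [← nsmul_eq_mul]
    apply (norm_sum_le _ _).trans
    apply Finset.sum_le_card_nsmul
    intro I hI
    have hI2 := (Finset.mem_filter.1 hI).2
    rw [norm_mul]
    have hl := Jones_len_pos I
    have h2 := phi_inv_nb hT hI2
    have h3 : ‖Phi G I t‖ ≤ 1 / (3 / 2 * len I) := by
      rw [Jones_norm_Phi]
      apply div_le_div₀ zero_le_one _ (by positivity)
      · have := Jones_im_le I t
        have ht' : 0 < t.im := ht
        linarith
      · rw [← Real.exp_zero]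
        apply Real.exp_le_exp.2
        have : 0 ≤ ∑ p ∈ G.filter (fun p => I.1 ≤ p.1), (th p t).re :=
          Finset.sum_nonneg fun p _ => Jones_th_nonneg p ht
        linarith
    calc ‖Phi G I t‖ * ‖(Phi G I ζ)⁻¹‖ ≤
        (1 / (3 / 2 * len I)) * (6 * Real.exp (5 / 3 * T) * len I) :=
          mul_le_mul h3 h2 (norm_nonneg _) (by positivity)
      _ = 4 * Real.exp (5 / 3 * T) := by
          field_simp
          norm_num
  calc ‖(((G.filter (fun I => ζ ∈ NB I)).card : ℂ))⁻¹‖ *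
      ‖∑ I ∈ G.filter (fun I => ζ ∈ NB I), Phi G I t * (Phi G I ζ)⁻¹‖ ≤
      ‖(((G.filter (fun I => ζ ∈ NB I)).card : ℂ))⁻¹‖ *
        (((G.filter (fun I => ζ ∈ NB I)).card : ℝ) * (4 * Real.exp (5 / 3 * T))) :=
        mul_le_mul_of_nonneg_left h1 (norm_nonneg _)
    _ = (‖(((G.filter (fun I => ζ ∈ NB I)).card : ℂ))⁻¹‖ *
        ((G.filter (fun I => ζ ∈ NB I)).card : ℝ)) * (4 * Real.exp (5 / 3 * T)) := by ring
    _ ≤ 1 * (4 * Real.exp (5 / 3 * T)) :=
        mul_le_mul_of_nonneg_right Kr_card (by positivity)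
    _ = 4 * Real.exp (5 / 3 * T) := one_mul _

theorem Kr_norm_inv_card (s : Finset Nd) : ‖((s.card : ℂ))⁻¹‖ ≤ 1 := by
  rw [norm_inv, Complex.norm_natCast]
  exact Nat.cast_inv_le_one _

open Classical in
theorem KG_le {G : Finset Nd} {T : ℝ} (hT : ∀ z ∈ HP, ∑ p ∈ G, om z (cen p) ≤ T) (ζ : ℂ) {t : ℂ}
    (ht : t ∈ HP) : ‖KG G ζ t‖ ≤
      8 * Real.exp (5 / 3 * T) * ∑ I ∈ G.filter (fun I => ζ ∈ NB I), PB G I t * len I := by
  unfold KG
  rw [norm_mul]
  have hE := Real.exp_pos (5 / 3 * T)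
  have h1 : ‖∑ I ∈ G.filter (fun I => ζ ∈ NB I), Phi G I t * (Phi G I ζ)⁻¹‖ ≤
      8 * Real.exp (5 / 3 * T) * ∑ I ∈ G.filter (fun I => ζ ∈ NB I), PB G I t * len I := by
    rw [Finset.mul_sum]
    apply (norm_sum_le _ _).trans
    apply Finset.sum_le_sum
    intro I hI
    have hI2 := (Finset.mem_filter.1 hI).2
    rw [norm_mul]
    have hl := Jones_len_pos I
    have h2 := phi_inv_nb hT hI2
    have ht' : 0 < t.im := ht
    have h3 : ‖Phi G I t‖ ≤ 4 / 3 * PB G I t := by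
      apply phi_le G I ht
      rw [dist_self]
      positivity
    calc ‖Phi G I t‖ * ‖(Phi G I ζ)⁻¹‖ ≤
        (4 / 3 * PB G I t) * (6 * Real.exp (5 / 3 * T) * len I) :=
          mul_le_mul h3 h2 (norm_nonneg _) ((norm_nonneg _).trans h3)
      _ = 8 * Real.exp (5 / 3 * T) * (PB G I t * len I) := by ring
  calc ‖(((G.filter (fun I => ζ ∈ NB I)).card : ℂ))⁻¹‖ *
      ‖∑ I ∈ G.filter (fun I => ζ ∈ NB I), Phi G I t * (Phi G I ζ)⁻¹‖ ≤
      1 * ‖∑ I ∈ G.filter (fun I => ζ ∈ NB I), Phi G I t * (Phi G I ζ)⁻¹‖ :=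
        mul_le_mul_of_nonneg_right (Kr_norm_inv_card _) (norm_nonneg _)
    _ ≤ _ := by
        rw [one_mul]
        exact h1

end Cor
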