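import Pool.Agent.helper45.Ball.Tr
import Pool.Agent.helper45.Ball.CE
import Pool.Agent.helper45.Cor.ULim
import Pool.Agent.helper45.Cor.GP

/-!
Module BALL-LIM: localisation on the Siegel domain.

PROOF.  Let `m`, `M` be as in `contour_E r hρ`, `D` as in `dss_bdd`, `T = 40 M`
(`test_of_pack`, Cor/Contour.lean), `C = K + 6720 (k (14 D 2^m K^2)) exp (5/3 T)`.
For `N : ℕ` let `Θ s = fun i => if i = l then 4 ^ N * (s l - 1/2) else 2 ^ N * s i`; it maps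
`Sg l` to `Sg l` (`∑ |2^N s_i|^2 = 4^N ∑ |s_i|^2 < 4^N im (s l)`), is affine, with inverse
`Θ' z = fun i => if i = l then z l / 4 ^ N + 1/2 else z i / 2 ^ N`.
Apply `contour_E` to `h' i t = h i (4 ^ N (t - 1/2))` (again `Unit1`) and the level `4 N`: `lab`,
`G`; choose local solutions `A c` for every `c` (hypothesis) and put `S c j s = A c j (Θ s)`.
`BSol l m (4 N) K lab (F ∘ Θ) S`: for a cell take
`O = {t ∈ HP | ∀ i, ‖h' i t - lab n a b i‖ < ρ}` (open, contains `cellE`, note `cellE ⊆ HP`).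
`AB_bezout`, `AB_le`, `AB_diff` give a solution `A^N` for `F ∘ Θ` on
`{s ∈ Sg l | s l ∈ DNB (4 N)}`; put `B^N j z = A^N j (Θ' z)`.
For `z ∈ Sg l` and `N` large (uniformly near `z`): `(Θ' z) l ∈ DNB (4 N)`
(`|re (z l)| < 4^N / 4`, `2 * 4^N (1/16)^N = 2 / 4^N < im (z l) < 4^N`).
Put `A j z = ulim (fun N => B^N j z)`.  Bound: `ulim_norm`; equation: `ulim_sum`; separately
holomorphic: `ulim_diff` applied to `a N s = B^N j (update z i s)` on a small disc; then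
`osgood_open`.
-/

noncomputable section

open Set Finset

namespace Cor

/-! ### scaling of the Siegel domain -/

/-- the dilation -/
def Lim_Th {d : ℕ} (l : Fin d) (N : ℕ) (s : Fin d → ℂ) : Fin d → ℂ :=
  fun i => if i = l then GP_sig (2 * N) (s l) else 2 ^ N * s i

/-- its inverse -/
def Lim_Ti {d : ℕ} (l : Fin d) (N : ℕ) (z : Fin d → ℂ) : Fin d → ℂ :=
  fun i => if i = l then GP_tau (2 * N) (z l) else z i / 2 ^ N

lemma Lim_Th_l {d : ℕ} (l : Fin d) (N : ℕ) (s : Fin d → ℂ) :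
    Lim_Th l N s l = GP_sig (2 * N) (s l) := if_pos rfl

lemma Lim_Ti_l {d : ℕ} (l : Fin d) (N : ℕ) (s : Fin d → ℂ) :
    Lim_Ti l N s l = GP_tau (2 * N) (s l) := if_pos rfl

lemma Lim_Th_mem {d : ℕ} {l : Fin d} (N : ℕ) {s : Fin d → ℂ} (hs : s ∈ Sg l) :
    Lim_Th l N s ∈ Sg l := by
  have hs' : ∑ i ∈ Finset.univ.erase l, ‖s i‖ ^ 2 < (s l).im := hs
  show ∑ i ∈ Finset.univ.erase l, ‖Lim_Th l N s i‖ ^ 2 < (Lim_Th l N s l).im
  rw [Lim_Th_l, GP_sig_im]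
  have h1 : ∑ i ∈ Finset.univ.erase l, ‖Lim_Th l N s i‖ ^ 2 =
      2 ^ (2 * N) * ∑ i ∈ Finset.univ.erase l, ‖s i‖ ^ 2 := by
    rw [Finset.mul_sum]
    refine Finset.sum_congr rfl fun i hi => ?_
    have hil : i ≠ l := Finset.ne_of_mem_erase hi
    rw [Lim_Th, if_neg hil, norm_mul, norm_pow, mul_pow, ← pow_mul, mul_comm N 2]
    norm_num
  rw [h1]
  exact mul_lt_mul_of_pos_left hs' (by positivity)

lemma Lim_Ti_mem {d : ℕ} {l : Fin d} (N : ℕ) {s : Fin d → ℂ} (hs : s ∈ Sg l) :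
    Lim_Ti l N s ∈ Sg l := by
  have hs' : ∑ i ∈ Finset.univ.erase l, ‖s i‖ ^ 2 < (s l).im := hs
  show ∑ i ∈ Finset.univ.erase l, ‖Lim_Ti l N s i‖ ^ 2 < (Lim_Ti l N s l).im
  rw [Lim_Ti_l, GP_tau_im]
  have h1 : ∑ i ∈ Finset.univ.erase l, ‖Lim_Ti l N s i‖ ^ 2 =
      (∑ i ∈ Finset.univ.erase l, ‖s i‖ ^ 2) / 2 ^ (2 * N) := by
    rw [Finset.sum_div]
    refine Finset.sum_congr rfl fun i hi => ?_
    have hil : i ≠ l := Finset.ne_of_mem_erase hi
    rw [Lim_Ti, if_neg hil, norm_div, norm_pow, div_pow, ← pow_mul, mul_comm N 2]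
    norm_num
  rw [h1]
  exact div_lt_div_of_pos_right hs' (by positivity)

lemma Lim_Th_Ti {d : ℕ} (l : Fin d) (N : ℕ) (z : Fin d → ℂ) : Lim_Th l N (Lim_Ti l N z) = z := by
  funext i
  by_cases hi : i = l
  · subst hi
    rw [Lim_Th_l, Lim_Ti_l, GP_sig_tau]
  · rw [Lim_Th, if_neg hi, Lim_Ti, if_neg hi]
    have h1 : (2 : ℂ) ^ N ≠ 0 := pow_ne_zero _ two_ne_zero
    field_simp

lemma Lim_Th_diff {d : ℕ} (l : Fin d) (N : ℕ) : Differentiable ℂ (Lim_Th l N) := by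
  rw [differentiable_pi]
  intro i
  by_cases hi : i = l
  · have h1 : (fun s : Fin d → ℂ => Lim_Th l N s i) = fun s => GP_sig (2 * N) (s l) := by
      funext s
      rw [Lim_Th, if_pos hi]
    rw [h1]
    exact (GP_sig_diff (2 * N)).comp (differentiable_apply l)
  · have h1 : (fun s : Fin d → ℂ => Lim_Th l N s i) = fun s => 2 ^ N * s i := by
      funext s
      rw [Lim_Th, if_neg hi]
    rw [h1]
    exact (differentiable_apply i).const_mul _

lemma Lim_Ti_diff {d : ℕ} (l : Fin d) (N : ℕ) : Differentiable ℂ (Lim_Ti l N) := by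
  rw [differentiable_pi]
  intro i
  by_cases hi : i = l
  · have h1 : (fun s : Fin d → ℂ => Lim_Ti l N s i) = fun s => GP_tau (2 * N) (s l) := by
      funext s
      rw [Lim_Ti, if_pos hi]
    rw [h1]
    exact (GP_tau_diff (2 * N)).comp (differentiable_apply l)
  · have h1 : (fun s : Fin d → ℂ => Lim_Ti l N s i) = fun s => (2 ^ N)⁻¹ * s i := by
      funext s
      rw [Lim_Ti, if_neg hi, div_eq_inv_mul]
    rw [h1]
    exact (differentiable_apply i).const_mul _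

lemma Lim_cellE_HP (m n a b : ℕ) : cellE m n a b ⊆ HP := by
  intro z hz
  have h1 : (1 / 2 : ℝ) ^ n + (b : ℝ) * cs m n ≤ z.im := hz.2.2.1
  have h2 : (0 : ℝ) < (1 / 2) ^ n := by positivity
  have h3 : (0 : ℝ) ≤ (b : ℝ) * cs m n := by
    unfold cs
    positivity
  show 0 < z.im
  linarith

lemma Lim_DN (N : ℕ) : DN N = DNB N := rfl

lemma Lim_ev {w : ℂ} (hw : w ∈ HP) : ∃ r > 0, ∀ᶠ N in Filter.atTop, ∀ t ∈ Metric.ball w r,
    GP_tau (2 * N) t ∈ DNB (4 * N) := by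
  obtain ⟨r, hr, hev⟩ := GP_ev hw
  refine ⟨r, hr, ?_⟩
  have ht : Filter.Tendsto (fun N : ℕ => 2 * N) Filter.atTop Filter.atTop :=
    Filter.tendsto_atTop_mono (fun N => (by omega : N ≤ 2 * N)) Filter.tendsto_id
  filter_upwards [ht.eventually hev] with N hN t ht
  have h1 := hN t ht
  rw [← Lim_DN]
  have h2 : 2 * (2 * N) = 4 * N := by ring
  rwa [h2] at h1

/-- the solutions of level `N` -/
lemma Lim_level {d : ℕ} (l : Fin d) (k r : ℕ) {ρ K D M : ℝ} {m : ℕ} (hM : 0 ≤ M)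
    (hK : 0 ≤ K) (hD : ∀ u, |dss u| ≤ D)
    (hcont : ∀ h : Fin r → ℂ → ℂ, (∀ i, Unit1 (h i)) → ∀ N : ℕ,
        ∃ (lab : ℕ → ℕ → ℕ → (Fin r → ℂ)) (G : Finset Nd), Pack M G ∧ AdjG m N lab G ∧
          ∀ n ≤ N, ∀ a < 2 ^ (n + m), ∀ b < 2 ^ m, ∀ z ∈ cellE m n a b, ∀ i,
            ‖h i z - lab n a b i‖ < ρ)
    {F : Fin k → (Fin d → ℂ) → ℂ} (hF : ∀ j, DifferentiableOn ℂ (F j) (Sg l))
    (hF1 : ∀ j, ∀ z ∈ Sg l, ‖F j z‖ ≤ 1) {h : Fin r → ℂ → ℂ} (hh : ∀ i, Unit1 (h i))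
    {A : (Fin r → ℂ) → Fin k → (Fin d → ℂ) → ℂ}
    (hAd : ∀ c j, DifferentiableOn ℂ (A c j) {z | z ∈ Sg l ∧ ∀ i, ‖h i (z l) - c i‖ < ρ})
    (hA : ∀ c, ∀ z ∈ Sg l, (∀ i, ‖h i (z l) - c i‖ < ρ) →
          (∀ j, ‖A c j z‖ ≤ K) ∧ ∑ j, F j z * A c j z = 1) (N : ℕ) :
    ∃ AN : Fin k → (Fin d → ℂ) → ℂ,
      (∀ j, DifferentiableOn ℂ (AN j) {z | z ∈ Sg l ∧ z l ∈ DNB (4 * N)}) ∧
      ∀ z ∈ Sg l, z l ∈ DNB (4 * N) →
        (∀ j, ‖AN j z‖ ≤
          K + 6720 * (k * (14 * D * 2 ^ m * K ^ 2)) * Real.exp (5 / 3 * (40 * M))) ∧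
        ∑ j, F j (Lim_Th l N z) * AN j z = 1 := by
  have hh' : ∀ i, Unit1 (fun t => h i (GP_sig (2 * N) t)) := fun i =>
    ⟨(hh i).1.comp (GP_sig_diff (2 * N)).differentiableOn (fun t ht => GP_sig_mem ht),
      fun t ht => (hh i).2 _ (GP_sig_mem ht)⟩
  obtain ⟨lab, G, hG, hadj, hlab⟩ := hcont (fun i t => h i (GP_sig (2 * N) t)) hh' (4 * N)
  have hT : ∀ z ∈ HP, ∑ p ∈ G, om z (cen p) ≤ 40 * M := fun z hz => test_of_pack hM hG hz
  have hF' : ∀ j, DifferentiableOn ℂ (fun z => F j (Lim_Th l N z)) (Sg l) := fun j =>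
    (hF j).comp (Lim_Th_diff l N).differentiableOn (fun z hz => Lim_Th_mem N hz)
  have hF1' : ∀ j, ∀ z ∈ Sg l, ‖F j (Lim_Th l N z)‖ ≤ 1 := fun j z hz =>
    hF1 j _ (Lim_Th_mem N hz)
  have hS : BSol l m (4 * N) K lab (fun j z => F j (Lim_Th l N z))
      (fun c j z => A c j (Lim_Th l N z)) := by
    intro n hn a ha b hb
    refine ⟨{t | t ∈ HP ∧ ∀ i, ‖h i (GP_sig (2 * N) t) - lab n a b i‖ < ρ},
      GP_V_open (h := fun i t => h i (GP_sig (2 * N) t)) (fun i => (hh' i).1) (lab n a b) ρ,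
      fun z hz => ⟨Lim_cellE_HP m n a b hz, fun i => hlab n hn a ha b hb z hz i⟩, ?_, ?_⟩
    · intro j
      refine (hAd (lab n a b) j).comp (Lim_Th_diff l N).differentiableOn ?_
      rintro z ⟨hz, hz2⟩
      refine ⟨Lim_Th_mem N hz, fun i => ?_⟩
      rw [Lim_Th_l]
      exact hz2.2 i
    · intro z hz hz2
      refine hA (lab n a b) (Lim_Th l N z) (Lim_Th_mem N hz) fun i => ?_
      rw [Lim_Th_l]
      exact hz2.2 i
  refine ⟨fun j => AB l m (4 * N) G lab (fun j z => F j (Lim_Th l N z))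
      (fun c j z => A c j (Lim_Th l N z)) j, fun j => ?_, fun z hz hzl => ⟨fun j => ?_, ?_⟩⟩
  · exact AB_diff hT hadj hK hF' hF1' hS j
  · exact AB_le hT hD hK hF1' hS j hz hzl
  · exact AB_bezout hT hK hF1' hS hz hzl

theorem sgLoc {d : ℕ} (l : Fin d) (k r : ℕ) {ρ : ℝ} (hρ : 0 < ρ) {K : ℝ} (hK : 0 ≤ K) :
    ∃ C : ℝ, 0 ≤ C ∧ ∀ F : Fin k → (Fin d → ℂ) → ℂ, (∀ j, DifferentiableOn ℂ (F j) (Sg l)) →
      (∀ j, ∀ z ∈ Sg l, ‖F j z‖ ≤ 1) → ∀ h : Fin r → ℂ → ℂ, (∀ i, Unit1 (h i)) →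
      (∀ c : Fin r → ℂ, ∃ A : Fin k → (Fin d → ℂ) → ℂ,
        (∀ j, DifferentiableOn ℂ (A j) {z | z ∈ Sg l ∧ ∀ i, ‖h i (z l) - c i‖ < ρ}) ∧
        ∀ z ∈ Sg l, (∀ i, ‖h i (z l) - c i‖ < ρ) →
          (∀ j, ‖A j z‖ ≤ K) ∧ ∑ j, F j z * A j z = 1) →
      ∃ A : Fin k → (Fin d → ℂ) → ℂ, (∀ j, DifferentiableOn ℂ (A j) (Sg l)) ∧
        ∀ z ∈ Sg l, (∀ j, ‖A j z‖ ≤ C) ∧ ∑ j, F j z * A j z = 1 := by
  obtain ⟨m, M, hM, hcont⟩ := contour_E r hρ
  obtain ⟨D, hD0, hD⟩ := dss_bdd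
  refine ⟨K + 6720 * (k * (14 * D * 2 ^ m * K ^ 2)) * Real.exp (5 / 3 * (40 * M)),
    by positivity, ?_⟩
  set C : ℝ := K + 6720 * (k * (14 * D * 2 ^ m * K ^ 2)) * Real.exp (5 / 3 * (40 * M)) with hC
  intro F hF hF1 h hh hloc
  choose A hAd hA using hloc
  choose AN hANd hAN using fun N => Lim_level l k r hM hK hD hcont hF hF1 hh hAd hA N
  -- eventual bounds
  have hbd : ∀ z ∈ Sg l, ∀ᶠ N in Filter.atTop, ∀ j, ‖AN N j (Lim_Ti l N z)‖ ≤ C := by
    intro z hz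
    obtain ⟨r', hr', hev⟩ := Lim_ev (Sg_HP hz)
    filter_upwards [hev] with N hN j
    have h1 := hN (z l) (Metric.mem_ball_self hr')
    exact (hAN N _ (Lim_Ti_mem N hz) (by rw [Lim_Ti_l]; exact h1)).1 j
  have hC1 : ∀ j, ∀ z ∈ Sg l, ‖ulim (fun N => AN N j (Lim_Ti l N z))‖ ≤ C := fun j z hz =>
    ulim_norm ((hbd z hz).mono fun N hN => hN j)
  refine ⟨fun j z => ulim (fun N => AN N j (Lim_Ti l N z)), fun j => ?_,
    fun z hz => ⟨fun j => hC1 j z hz, ?_⟩⟩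
  · refine osgood_open (Sg_open l) (C := C) (hC1 j) ?_
    intro z hz i
    set V : Set ℂ := {s | Function.update z i s ∈ Sg l} with hV
    have hVo : IsOpen V := (Sg_open l).preimage (update_diff z i).continuous
    have hzV : z i ∈ V := by
      show Function.update z i (z i) ∈ Sg l
      rw [Function.update_eq_self]
      exact hz
    have hd : DifferentiableOn ℂ
        (fun s => ulim (fun N => AN N j (Lim_Ti l N (Function.update z i s)))) V := by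
      refine ulim_diff (a := fun N s => AN N j (Lim_Ti l N (Function.update z i s))) (C := C)
        fun s hs => ?_
      obtain ⟨r₁, hr₁, hball⟩ := Metric.isOpen_iff.1 hVo s hs
      obtain ⟨r₂, hr₂, hev⟩ := Lim_ev (Sg_HP (hs : Function.update z i s ∈ Sg l))
      refine ⟨min r₁ r₂, lt_min hr₁ hr₂, ?_⟩
      have hnear : ∀ t ∈ Metric.ball s (min r₁ r₂), Function.update z i t ∈ Sg l ∧
          Function.update z i t l ∈ Metric.ball (Function.update z i s l) r₂ := by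
        intro t ht
        refine ⟨hball (Metric.ball_subset_ball (min_le_left _ _) ht), ?_⟩
        by_cases hi : l = i
        · subst hi
          rw [Function.update_self, Function.update_self]
          exact Metric.ball_subset_ball (min_le_right _ _) ht
        · rw [Function.update_of_ne hi, Function.update_of_ne hi]
          exact Metric.mem_ball_self hr₂
      filter_upwards [hev] with N hN
      have hmem : ∀ t ∈ Metric.ball s (min r₁ r₂),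
          Lim_Ti l N (Function.update z i t) ∈ {z | z ∈ Sg l ∧ z l ∈ DNB (4 * N)} := by
        intro t ht
        refine ⟨Lim_Ti_mem N (hnear t ht).1, ?_⟩
        rw [Lim_Ti_l]
        exact hN _ (hnear t ht).2
      refine ⟨?_, fun t ht => ?_⟩
      · exact (hANd N j).comp
          ((Lim_Ti_diff l N).comp (update_diff z i)).differentiableOn hmem
      · exact (hAN N _ (hmem t ht).1 (hmem t ht).2).1 j
    exact (hd (z i) hzV).differentiableAt (hVo.mem_nhds hzV)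
  · refine ulim_sum (C := C) (fun j => (hbd z hz).mono fun N hN => hN j) ?_
    obtain ⟨r', hr', hev⟩ := Lim_ev (Sg_HP hz)
    filter_upwards [hev] with N hN
    have h1 := hN (z l) (Metric.mem_ball_self hr')
    have h2 := (hAN N _ (Lim_Ti_mem N hz) (by rw [Lim_Ti_l]; exact h1)).2
    rwa [Lim_Th_Ti] at h2

end Cor
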