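import Pool.Agent.helper45.Ball.PH
import Pool.Agent.helper45.Cor.Rect

/-!
Module BALL-PK: solution of the `∂bar` equation in one variable with a kernel.

PROOF.  Let `A t = g t - π⁻¹ ∫_X N ζ t / (t - ζ)`.  By Morera's theorem
(`Complex.isConservativeOn_and_continuousOn_iff_isDifferentiableOn`) it is enough that `A` is
continuous on `V` (`g` is continuous, `inv_cont`) and that the integral of `A` over the boundary of
every closed rectangle `R ⊆ V` vanishes (the cases of degenerate or reversed rectangles are trivial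
or follow by symmetry: `Complex.wedgeIntegral_add_wedgeIntegral_eq`).

(1) The integral of `g` over the boundary of `R` is `∫_R (I g'(ζ) 1 - g'(ζ) I) dA
= 2 i ∫_R ∂bar g = 2 i ∫_R N ζ ζ dA` by
`Complex.integral_boundary_rect_of_hasFDerivAt_real_off_countable` (`s = ∅`); note
`I g' 1 - g' I = 2 i * (1/2) (g' 1 + I g' I)`.
(2) The integral of `t ↦ ∫_X N ζ t / (t - ζ) dA(ζ)` over the boundary of `R` is, by Fubini, the
integral over `ζ ∈ X` of `∮_{∂R} N ζ t / (t - ζ) dt`.  Fubini is applied on each of the four sides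
`[0, s] × X`: the integrand is bounded by `M ‖t - ζ‖⁻¹`, which is integrable on the product (for
each `t` the integral over `X ⊆ ball c ρ` is at most `3 π ρ`, `avg_inv`); its measurability: it is
the product of the continuous-off-the-diagonal function `(t - ζ)⁻¹` (measurable) and `N ζ t`, which
is jointly measurable because it is continuous in `t` for each `ζ` and measurable in `ζ` for each
`t` (`stronglyMeasurable_uncurry_of_continuous_of_stronglyMeasurable`, applied to
`(s, ζ) ↦ X.indicator (fun ζ => N ζ (p + d * projIcc s)) ζ`, where `projIcc` is the projection of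
the real line onto `[0, s₀]`, so that it is continuous on the whole line).
(3) The inner integral is `2 π i N ζ ζ` if `ζ` is in the interior of `R` (`rInt_cauchy`), and `0`
if `ζ ∉ R` (`rInt_zero`); the boundary of `R` is a null set.  So (2) is
`2 π i ∫_{R} N ζ ζ dA` (`R ⊆ V ⊆ X`), and (1) - π⁻¹ (2) = 0.
-/

noncomputable section

open Set Metric MeasureTheory Filter Topology

namespace Cor

/-- the integral over the boundary of a rectangle -/
def PK_R (a b c d : ℝ) (f : ℂ → ℂ) : ℂ :=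
  (∫ x : ℝ in a..b, f (x + c * Complex.I)) - (∫ x : ℝ in a..b, f (x + d * Complex.I)) +
    Complex.I • (∫ y : ℝ in c..d, f (b + y * Complex.I)) -
    Complex.I • ∫ y : ℝ in c..d, f (a + y * Complex.I)

theorem PK_R_swap1 (a b c d : ℝ) (f : ℂ → ℂ) : PK_R b a c d f = -PK_R a b c d f := by
  unfold PK_R
  rw [intervalIntegral.integral_symm a b, intervalIntegral.integral_symm a b]
  ring

theorem PK_R_swap2 (a b c d : ℝ) (f : ℂ → ℂ) : PK_R a b d c f = -PK_R a b c d f := by
  unfold PK_R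
  rw [intervalIntegral.integral_symm c d, intervalIntegral.integral_symm c d]
  simp only [smul_neg]
  ring

/-- integrability on side times region -/
theorem PK_side {V X : Set ℂ} (hX : MeasurableSet X) (hXb : Bornology.IsBounded X)
    {N : ℂ → ℂ → ℂ} {M : ℝ}
    (hN : ∀ ζ ∈ X, ContinuousOn (N ζ) V) (hNM : ∀ ζ ∈ X, ∀ t ∈ V, ‖N ζ t‖ ≤ M)
    (hNm : ∀ t ∈ V, Measurable (X.indicator (fun ζ => N ζ t)))
    {pt : ℝ → ℂ} (hpt : Continuous pt) {u v : ℝ} (huv : u ≤ v)
    (hptV : ∀ s ∈ Icc u v, pt s ∈ V) :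
    Integrable (fun p : ℝ × ℂ => N p.2 (pt p.1) * (pt p.1 - p.2)⁻¹)
      ((volume.restrict (Ioc u v)).prod (volume.restrict X)) := by
  have hmeas : AEStronglyMeasurable (fun p : ℝ × ℂ => N p.2 (pt p.1) * (pt p.1 - p.2)⁻¹)
      ((volume.restrict (Ioc u v)).prod (volume.restrict X)) := by
    let U : ℝ → ℂ → ℂ := fun s ζ => X.indicator (fun ζ => N ζ (pt (projIcc u v huv s))) ζ
    have hU1 : ∀ ζ, Continuous fun s => U s ζ := by
      intro ζ
      by_cases hζ : ζ ∈ X
      · have h1 : (fun s => U s ζ) = fun s => N ζ (pt (projIcc u v huv s)) := by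
          funext s
          exact indicator_of_mem hζ _
        rw [h1]
        have h2 : Continuous fun s : ℝ => pt (projIcc u v huv s) :=
          hpt.comp (continuous_subtype_val.comp continuous_projIcc)
        exact (hN ζ hζ).comp_continuous h2 fun s => hptV _ (projIcc u v huv s).2
      · have h1 : (fun s => U s ζ) = fun _ => 0 := by
          funext s
          exact indicator_of_notMem hζ _
        rw [h1]
        exact continuous_const
    have hU2 : ∀ s, StronglyMeasurable (U s) := fun s =>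
      (hNm _ (hptV _ (projIcc u v huv s).2)).stronglyMeasurable
    have hU := stronglyMeasurable_uncurry_of_continuous_of_stronglyMeasurable hU1 hU2
    have hinv : StronglyMeasurable (fun p : ℝ × ℂ => (pt p.1 - p.2)⁻¹) := by
      have : Measurable (fun p : ℝ × ℂ => (pt p.1 - p.2)⁻¹) :=
        ((hpt.measurable.comp measurable_fst).sub measurable_snd).inv
      exact this.stronglyMeasurable
    refine (hU.mul hinv).aestronglyMeasurable.congr ?_
    rw [Measure.prod_restrict]
    refine (ae_restrict_iff' (measurableSet_Ioc.prod hX)).2 (Eventually.of_forall ?_)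
    rintro ⟨s, ζ⟩ ⟨hs, hζ⟩
    have h1 : U s ζ = N ζ (pt s) := by
      show X.indicator (fun ζ => N ζ (pt (projIcc u v huv s))) ζ = _
      rw [indicator_of_mem hζ, projIcc_of_mem huv (Ioc_subset_Icc_self hs)]
    show Function.uncurry U (s, ζ) * _ = _
    rw [Function.uncurry_apply_pair, h1]
  obtain ⟨R, hR⟩ := hXb.subset_ball (0 : ℂ)
  set R' : ℝ := max R 1 with hR'
  have hR'0 : 0 < R' := lt_of_lt_of_le one_pos (le_max_right _ _)
  have hRX : X ⊆ ball (0 : ℂ) R' := hR.trans (ball_subset_ball (le_max_left _ _))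
  set M' : ℝ := max M 0 with hM'
  have hM'0 : 0 ≤ M' := le_max_right _ _
  rw [integrable_prod_iff hmeas]
  have hmA : ∀ t ∈ V, AEStronglyMeasurable (fun ζ => N ζ t) (volume.restrict X) := fun t ht =>
    (aestronglyMeasurable_indicator_iff hX).1 (hNm t ht).aestronglyMeasurable
  constructor
  · refine (ae_restrict_iff' measurableSet_Ioc).2 (Eventually.of_forall fun s hs => ?_)
    have hsV := hptV s (Ioc_subset_Icc_self hs)
    exact PH_int hX hXb (pt s) (hmA _ hsV) fun ζ hζ => hNM ζ hζ _ hsV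
  · refine Integrable.mono' (g := fun _ => M' * (3 * Real.pi * R')) (integrable_const _)
      hmeas.norm.integral_prod_right' ?_
    refine (ae_restrict_iff' measurableSet_Ioc).2 (Eventually.of_forall fun s hs => ?_)
    have hsV := hptV s (Ioc_subset_Icc_self hs)
    rw [Real.norm_of_nonneg (integral_nonneg fun ζ => norm_nonneg _)]
    have h1 : ∫ ζ in X, ‖N ζ (pt s) * (pt s - ζ)⁻¹‖ ≤ ∫ ζ in X, M' * ‖pt s - ζ‖⁻¹ := by
      refine setIntegral_mono_on (PH_int hX hXb (pt s) (hmA _ hsV)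
        fun ζ hζ => hNM ζ hζ _ hsV).norm ((inv_int hX hXb (pt s)).const_mul M') hX ?_
      intro ζ hζ
      rw [norm_mul, norm_inv]
      exact mul_le_mul_of_nonneg_right ((hNM ζ hζ _ hsV).trans (le_max_left _ _)) (by positivity)
    refine h1.trans ?_
    rw [integral_const_mul]
    refine mul_le_mul_of_nonneg_left ?_ hM'0
    refine le_trans ?_ (avg_inv 0 (pt s) hR'0)
    exact setIntegral_mono_set (inv_integrable 0 (pt s) R')
      (Eventually.of_forall fun ζ => by positivity)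
      (Eventually.of_forall fun ζ hζ => hRX hζ)

/-- Fubini on a side -/
theorem PK_swap {V X : Set ℂ} (hX : MeasurableSet X) (hXb : Bornology.IsBounded X)
    {N : ℂ → ℂ → ℂ} {M : ℝ}
    (hN : ∀ ζ ∈ X, ContinuousOn (N ζ) V) (hNM : ∀ ζ ∈ X, ∀ t ∈ V, ‖N ζ t‖ ≤ M)
    (hNm : ∀ t ∈ V, Measurable (X.indicator (fun ζ => N ζ t)))
    {pt : ℝ → ℂ} (hpt : Continuous pt) {u v : ℝ} (huv : u ≤ v)
    (hptV : ∀ s ∈ Icc u v, pt s ∈ V) :
    IntegrableOn (fun ζ => ∫ s in u..v, N ζ (pt s) * (pt s - ζ)⁻¹) X ∧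
    ∫ s in u..v, (∫ ζ in X, N ζ (pt s) * (pt s - ζ)⁻¹) =
      ∫ ζ in X, ∫ s in u..v, N ζ (pt s) * (pt s - ζ)⁻¹ := by
  have h := PK_side hX hXb hN hNM hNm hpt huv hptV
  simp only [intervalIntegral.integral_of_le huv]
  exact ⟨h.integral_prod_right, integral_integral_swap h⟩

theorem PK_rInt (a b c d : ℝ) (f : ℂ → ℂ) :
    rInt ⟨a, c⟩ (b - a) (d - c) f = PK_R a b c d f := by
  rw [Rect_eq]
  unfold PK_R
  simp only [add_sub_cancel]

theorem PK_inner {V : Set ℂ} (hV : IsOpen V) {a b c d : ℝ}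
    (hR : {z : ℂ | a ≤ z.re ∧ z.re ≤ b ∧ c ≤ z.im ∧ z.im ≤ d} ⊆ V) {f : ℂ → ℂ}
    (hf : DifferentiableOn ℂ f V) {ζ : ℂ}
    (hζ : a < ζ.re ∧ ζ.re < b ∧ c < ζ.im ∧ ζ.im < d) :
    PK_R a b c d (fun t => f t * (t - ζ)⁻¹) = 2 * Real.pi * Complex.I * f ζ := by
  rw [← PK_rInt]
  have h := rInt_cauchy (p := ⟨a, c⟩) (w := b - a) (h := d - c) hV
    (by simpa only [add_sub_cancel] using hR) hf (z := ζ) (by simpa only [add_sub_cancel] using hζ)
  rw [smul_eq_mul] at h
  rw [← h]
  congr 1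
  funext t
  rw [smul_eq_mul, mul_comm]

theorem PK_outer {V : Set ℂ} (hV : IsOpen V) {a b c d : ℝ} (hab : a ≤ b) (hcd : c ≤ d)
    (hR : {z : ℂ | a ≤ z.re ∧ z.re ≤ b ∧ c ≤ z.im ∧ z.im ≤ d} ⊆ V) {f : ℂ → ℂ}
    (hf : DifferentiableOn ℂ f V) {ζ : ℂ}
    (hζ : ζ.re < a ∨ b < ζ.re ∨ ζ.im < c ∨ d < ζ.im) :
    PK_R a b c d (fun t => f t * (t - ζ)⁻¹) = 0 := by
  rw [← PK_rInt]
  have h := rInt_zero (p := ⟨a, c⟩) (w := b - a) (h := d - c) (by linarith) (by linarith) hV
    (by simpa only [add_sub_cancel] using hR) hf (z := ζ) (by simpa only [add_sub_cancel] using hζ)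
  rw [← h]
  congr 1
  funext t
  rw [smul_eq_mul, mul_comm]

theorem PK_null_re (a : ℝ) : volume {ζ : ℂ | ζ.re = a} = 0 := by
  have h := Complex.volume_preserving_equiv_real_prod.measure_preimage (s := {a} ×ˢ univ)
    ((measurableSet_singleton a).prod MeasurableSet.univ).nullMeasurableSet
  rw [Measure.volume_eq_prod, Measure.prod_prod, measure_singleton, zero_mul] at h
  rw [← h]
  congr 1
  ext ζ
  simp [Complex.measurableEquivRealProd_apply]

theorem PK_null_im (a : ℝ) : volume {ζ : ℂ | ζ.im = a} = 0 := by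
  have h := Complex.volume_preserving_equiv_real_prod.measure_preimage (s := univ ×ˢ {a})
    (MeasurableSet.univ.prod (measurableSet_singleton a)).nullMeasurableSet
  rw [Measure.volume_eq_prod, Measure.prod_prod, measure_singleton, mul_zero] at h
  rw [← h]
  congr 1
  ext ζ
  simp [Complex.measurableEquivRealProd_apply]

/-- the open rectangle -/
def PK_O (a b c d : ℝ) : Set ℂ := {z : ℂ | a < z.re ∧ z.re < b ∧ c < z.im ∧ z.im < d}

theorem PK_O_meas (a b c d : ℝ) : MeasurableSet (PK_O a b c d) := by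
  have h1 : IsOpen (PK_O a b c d) := by
    unfold PK_O
    refine IsOpen.inter (isOpen_lt continuous_const Complex.continuous_re) ?_
    refine IsOpen.inter (isOpen_lt Complex.continuous_re continuous_const) ?_
    exact IsOpen.inter (isOpen_lt continuous_const Complex.continuous_im)
      (isOpen_lt Complex.continuous_im continuous_const)
  exact h1.measurableSet

theorem PK_rect_int {a b c d : ℝ} (hab : a ≤ b) (hcd : c ≤ d) {F : ℂ → ℂ}
    (hF : ContinuousOn F {z : ℂ | a ≤ z.re ∧ z.re ≤ b ∧ c ≤ z.im ∧ z.im ≤ d}) :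
    ∫ ζ in PK_O a b c d, F ζ = ∫ x : ℝ in a..b, ∫ y : ℝ in c..d, F (x + y * Complex.I) := by
  have he := (Complex.volume_preserving_equiv_real_prod.symm _)
  rw [← he.setIntegral_preimage_emb (MeasurableEquiv.measurableEmbedding _) F (PK_O a b c d)]
  have hset : (Complex.measurableEquivRealProd.symm ⁻¹' PK_O a b c d) = Ioo a b ×ˢ Ioo c d := by
    ext ⟨x, y⟩
    simp [PK_O, Complex.measurableEquivRealProd_symm_apply]
    tauto
  rw [hset, Measure.volume_eq_prod]
  have hcont : ContinuousOn (fun p : ℝ × ℝ => F (Complex.measurableEquivRealProd.symm p))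
      (Icc a b ×ˢ Icc c d) := by
    refine hF.comp (f := fun p : ℝ × ℝ => Complex.measurableEquivRealProd.symm p) ?_ ?_
    · have : (fun p : ℝ × ℝ => Complex.measurableEquivRealProd.symm p) =
          fun p : ℝ × ℝ => (p.1 : ℂ) + p.2 * Complex.I := by
        funext p
        rw [Complex.measurableEquivRealProd_symm_apply]
        exact Complex.mk_eq_add_mul_I _ _
      rw [this]
      fun_prop
    · rintro ⟨x, y⟩ ⟨hx, hy⟩
      exact ⟨hx.1, hx.2, hy.1, hy.2⟩
  have hint : IntegrableOn (fun p : ℝ × ℝ => F (Complex.measurableEquivRealProd.symm p))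
      (Ioo a b ×ˢ Ioo c d) ((volume : Measure ℝ).prod volume) := by
    have h1 := hcont.integrableOn_compact (μ := (volume : Measure (ℝ × ℝ)))
      (isCompact_Icc.prod isCompact_Icc)
    exact h1.mono_set (prod_mono Ioo_subset_Icc_self Ioo_subset_Icc_self)
  rw [setIntegral_prod _ hint]
  simp only [intervalIntegral.integral_of_le hab, intervalIntegral.integral_of_le hcd,
    integral_Ioc_eq_integral_Ioo]
  congr 1
  funext x
  congr 1
  funext y
  rw [Complex.measurableEquivRealProd_symm_apply]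
  congr 1
  exact Complex.mk_eq_add_mul_I _ _

theorem PK_R_int {V X : Set ℂ} (hV : IsOpen V) (hX : MeasurableSet X)
    (hXb : Bornology.IsBounded X) (hVX : V ⊆ X) {N : ℂ → ℂ → ℂ} {M : ℝ}
    (hN : ∀ ζ ∈ X, DifferentiableOn ℂ (N ζ) V) (hNM : ∀ ζ ∈ X, ∀ t ∈ V, ‖N ζ t‖ ≤ M)
    (hNm : ∀ t ∈ V, Measurable (X.indicator (fun ζ => N ζ t)))
    {a b c d : ℝ} (hab : a ≤ b) (hcd : c ≤ d)
    (hR : {z : ℂ | a ≤ z.re ∧ z.re ≤ b ∧ c ≤ z.im ∧ z.im ≤ d} ⊆ V) :
    PK_R a b c d (fun t => ∫ ζ in X, N ζ t * (t - ζ)⁻¹) =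
      ∫ ζ in PK_O a b c d, 2 * Real.pi * Complex.I * N ζ ζ := by
  have hNc : ∀ ζ ∈ X, ContinuousOn (N ζ) V := fun ζ hζ => (hN ζ hζ).continuousOn
  have side := fun (pt : ℝ → ℂ) (hpt : Continuous pt) (u v : ℝ) (huv : u ≤ v)
    (h : ∀ s ∈ Icc u v, pt s ∈ V) => PK_swap hX hXb hNc hNM hNm hpt huv h
  obtain ⟨i1, e1⟩ := side (fun x => x + c * Complex.I) (by fun_prop) a b hab (fun s hs => hR (by
    simp [hs.1, hs.2, hcd]))
  obtain ⟨i2, e2⟩ := side (fun x => x + d * Complex.I) (by fun_prop) a b hab (fun s hs => hR (by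
    simp [hs.1, hs.2, hcd]))
  obtain ⟨i3, e3⟩ := side (fun y => b + y * Complex.I) (by fun_prop) c d hcd (fun s hs => hR (by
    simp [hs.1, hs.2, hab]))
  obtain ⟨i4, e4⟩ := side (fun y => a + y * Complex.I) (by fun_prop) c d hcd (fun s hs => hR (by
    simp [hs.1, hs.2, hab]))
  have hsum : PK_R a b c d (fun t => ∫ ζ in X, N ζ t * (t - ζ)⁻¹) =
      ∫ ζ in X, PK_R a b c d (fun t => N ζ t * (t - ζ)⁻¹) := by
    unfold PK_R
    rw [e1, e2, e3, e4]
    have j12 : IntegrableOn (fun ζ => (∫ x : ℝ in a..b,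
        N ζ (x + c * Complex.I) * (x + c * Complex.I - ζ)⁻¹) - ∫ x : ℝ in a..b,
        N ζ (x + d * Complex.I) * (x + d * Complex.I - ζ)⁻¹) X := i1.sub i2
    have j3 : IntegrableOn (fun ζ => Complex.I • ∫ y : ℝ in c..d,
        N ζ (b + y * Complex.I) * (b + y * Complex.I - ζ)⁻¹) X := i3.smul Complex.I
    have j4 : IntegrableOn (fun ζ => Complex.I • ∫ y : ℝ in c..d,
        N ζ (a + y * Complex.I) * (a + y * Complex.I - ζ)⁻¹) X := i4.smul Complex.I
    have j123 : IntegrableOn (fun ζ => (∫ x : ℝ in a..b,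
        N ζ (x + c * Complex.I) * (x + c * Complex.I - ζ)⁻¹) - (∫ x : ℝ in a..b,
        N ζ (x + d * Complex.I) * (x + d * Complex.I - ζ)⁻¹) + Complex.I • ∫ y : ℝ in c..d,
        N ζ (b + y * Complex.I) * (b + y * Complex.I - ζ)⁻¹) X := j12.add j3
    have e5 := integral_sub j123 j4
    have e6 := integral_add j12 j3
    have e7 := integral_sub i1 i2
    rw [e6, e7, integral_smul, integral_smul] at e5
    exact e5.symm
  rw [hsum]
  have hO : PK_O a b c d ⊆ X := by
    intro ζ hζ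
    exact hVX (hR ⟨hζ.1.le, hζ.2.1.le, hζ.2.2.1.le, hζ.2.2.2.le⟩)
  have hae : ∀ᵐ ζ : ℂ, ζ ∈ X → PK_R a b c d (fun t => N ζ t * (t - ζ)⁻¹) =
      (PK_O a b c d).indicator (fun ζ => 2 * Real.pi * Complex.I * N ζ ζ) ζ := by
    have n1 := measure_eq_zero_iff_ae_notMem.1 (PK_null_re a)
    have n2 := measure_eq_zero_iff_ae_notMem.1 (PK_null_re b)
    have n3 := measure_eq_zero_iff_ae_notMem.1 (PK_null_im c)
    have n4 := measure_eq_zero_iff_ae_notMem.1 (PK_null_im d)
    filter_upwards [n1, n2, n3, n4] with ζ h1 h2 h3 h4 hζ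
    by_cases hζO : ζ ∈ PK_O a b c d
    · rw [indicator_of_mem hζO]
      exact PK_inner hV hR (hN ζ hζ) hζO
    · rw [indicator_of_notMem hζO]
      apply PK_outer hV hab hcd hR (hN ζ hζ)
      by_contra hcon
      push Not at hcon
      obtain ⟨k1, k2, k3, k4⟩ := hcon
      exact hζO ⟨lt_of_le_of_ne k1 fun h => h1 h.symm, lt_of_le_of_ne k2 h2,
        lt_of_le_of_ne k3 fun h => h3 h.symm, lt_of_le_of_ne k4 h4⟩
  rw [setIntegral_congr_ae hX hae, setIntegral_indicator (PK_O_meas a b c d),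
    inter_eq_self_of_subset_right hO]

theorem pk {V X : Set ℂ} (hV : IsOpen V) (hX : MeasurableSet X) (hXb : Bornology.IsBounded X)
    (hVX : V ⊆ X) {g : ℂ → ℂ} {g' : ℂ → ℂ →L[ℝ] ℂ} (hg : ∀ t ∈ V, HasFDerivAt g (g' t) t)
    (hg' : ContinuousOn g' V) {N : ℂ → ℂ → ℂ} {M : ℝ}
    (hN : ∀ ζ ∈ X, DifferentiableOn ℂ (N ζ) V) (hNM : ∀ ζ ∈ X, ∀ t ∈ V, ‖N ζ t‖ ≤ M)
    (hNm : ∀ t ∈ V, Measurable (X.indicator (fun ζ => N ζ t)))
    (hNd : ∀ ζ ∈ V, N ζ ζ = 1 / 2 * (g' ζ 1 + Complex.I * g' ζ Complex.I)) :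
    DifferentiableOn ℂ (fun t => g t - (1 / (Real.pi : ℂ)) * ∫ ζ in X, N ζ t * (t - ζ)⁻¹) V := by
  rw [← Complex.isConservativeOn_and_continuousOn_iff_isDifferentiableOn hV]
  have hgc : ContinuousOn g V := fun t ht => (hg t ht).continuousAt.continuousWithinAt
  have hIc : ContinuousOn (fun t => ∫ ζ in X, N ζ t * (t - ζ)⁻¹) V :=
    inv_cont hV hX hXb (fun ζ hζ => (hN ζ hζ).continuousOn) hNM fun t ht =>
      (aestronglyMeasurable_indicator_iff hX).1 (hNm t ht).aestronglyMeasurable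
  have hAc : ContinuousOn
      (fun t => g t - (1 / (Real.pi : ℂ)) * ∫ ζ in X, N ζ t * (t - ζ)⁻¹) V :=
    hgc.sub (continuousOn_const.mul hIc)
  refine ⟨?_, hAc⟩
  -- ordered rectangles
  have main : ∀ a b c d : ℝ, a ≤ b → c ≤ d →
      {z : ℂ | a ≤ z.re ∧ z.re ≤ b ∧ c ≤ z.im ∧ z.im ≤ d} ⊆ V →
      PK_R a b c d (fun t => g t - (1 / (Real.pi : ℂ)) * ∫ ζ in X, N ζ t * (t - ζ)⁻¹) = 0 := by
    intro a b c d hab hcd hR
    have hNdc : ContinuousOn (fun ζ => 1 / 2 * (g' ζ 1 + Complex.I * g' ζ Complex.I)) V :=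
      continuousOn_const.mul ((hg'.clm_apply continuousOn_const).add
        (continuousOn_const.mul (hg'.clm_apply continuousOn_const)))
    have hI := PK_R_int hV hX hXb hVX hN hNM hNm hab hcd hR
    have hI2 : ∫ ζ in PK_O a b c d, 2 * Real.pi * Complex.I * N ζ ζ =
        2 * Real.pi * Complex.I * ∫ x : ℝ in a..b, ∫ y : ℝ in c..d,
          1 / 2 * (g' (x + y * Complex.I) 1 + Complex.I * g' (x + y * Complex.I) Complex.I) := by
      rw [integral_const_mul]
      congr 1
      rw [← PK_rect_int hab hcd (F := fun ζ => 1 / 2 * (g' ζ 1 + Complex.I * g' ζ Complex.I))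
        (hNdc.mono hR)]
      apply setIntegral_congr_fun (PK_O_meas a b c d)
      intro ζ hζ
      exact hNd ζ (hR ⟨hζ.1.le, hζ.2.1.le, hζ.2.2.1.le, hζ.2.2.2.le⟩)
    have hset : (uIcc a b ×ℂ uIcc c d) =
        {z : ℂ | a ≤ z.re ∧ z.re ≤ b ∧ c ≤ z.im ∧ z.im ≤ d} := by
      ext z
      rw [Complex.mem_reProdIm, uIcc_of_le hab, uIcc_of_le hcd]
      simp only [mem_Icc, mem_ofPred_eq]
      tauto
    have hG : PK_R a b c d g = 2 * Complex.I * ∫ x : ℝ in a..b, ∫ y : ℝ in c..d,
        1 / 2 * (g' (x + y * Complex.I) 1 + Complex.I * g' (x + y * Complex.I) Complex.I) := by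
      have h1 := Complex.integral_boundary_rect_of_hasFDerivAt_real_off_countable g g' ⟨a, c⟩
        ⟨b, d⟩ ∅ countable_empty ?_ ?_ ?_
      · unfold PK_R
        rw [h1, ← intervalIntegral.integral_const_mul]
        congr 1
        funext x
        rw [← intervalIntegral.integral_const_mul]
        congr 1
        funext y
        rw [smul_eq_mul]
        linear_combination (-g' (x + y * Complex.I) Complex.I) * Complex.I_mul_I
      · show ContinuousOn g (uIcc a b ×ℂ uIcc c d)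
        rw [hset]
        exact hgc.mono hR
      · intro x hx
        apply hg
        apply hR
        have hx1 := hx.1
        rw [Complex.mem_reProdIm] at hx1
        simp only at hx1
        rw [min_eq_left hab, max_eq_right hab, min_eq_left hcd, max_eq_right hcd] at hx1
        exact ⟨hx1.1.1.le, hx1.1.2.le, hx1.2.1.le, hx1.2.2.le⟩
      · show IntegrableOn _ (uIcc a b ×ℂ uIcc c d)
        have h2 : ContinuousOn (fun z => Complex.I • g' z 1 - g' z Complex.I)
            (uIcc a b ×ℂ uIcc c d) := by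
          rw [hset]
          have k1 : ContinuousOn (fun z => g' z 1) V := hg'.clm_apply continuousOn_const
          have k2 : ContinuousOn (fun z => g' z Complex.I) V := hg'.clm_apply continuousOn_const
          exact ((k1.const_smul Complex.I).sub k2).mono hR
        exact h2.integrableOn_compact (isCompact_uIcc.reProdIm isCompact_uIcc)
    have hsub : PK_R a b c d (fun t => g t - (1 / (Real.pi : ℂ)) * ∫ ζ in X, N ζ t * (t - ζ)⁻¹) =
        PK_R a b c d g - (1 / (Real.pi : ℂ)) *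
          PK_R a b c d (fun t => ∫ ζ in X, N ζ t * (t - ζ)⁻¹) := by
      have ii : ∀ (f : ℂ → ℂ), ContinuousOn f V → ∀ (pt : ℝ → ℂ), Continuous pt → ∀ u v : ℝ,
          u ≤ v → (∀ s ∈ Icc u v, pt s ∈ V) → IntervalIntegrable (fun s => f (pt s)) volume u v := by
        intro f hf pt hpt u v huv hs
        apply ContinuousOn.intervalIntegrable
        rw [uIcc_of_le huv]
        exact hf.comp hpt.continuousOn hs
      have lin : ∀ (pt : ℝ → ℂ), Continuous pt → ∀ u v : ℝ,
          u ≤ v → (∀ s ∈ Icc u v, pt s ∈ V) →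
          ∫ s in u..v, (g (pt s) - (1 / (Real.pi : ℂ)) * ∫ ζ in X, N ζ (pt s) * (pt s - ζ)⁻¹) =
            (∫ s in u..v, g (pt s)) - (1 / (Real.pi : ℂ)) *
              ∫ s in u..v, ∫ ζ in X, N ζ (pt s) * (pt s - ζ)⁻¹ := by
        intro pt hpt u v huv hs
        rw [intervalIntegral.integral_sub (ii g hgc pt hpt u v huv hs)
          ((ii _ hIc pt hpt u v huv hs).const_mul _), intervalIntegral.integral_const_mul]
      have l1 := lin (fun x => x + c * Complex.I) (by fun_prop) a b hab (fun s hs => hR (by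
        simp [hs.1, hs.2, hcd]))
      have l2 := lin (fun x => x + d * Complex.I) (by fun_prop) a b hab (fun s hs => hR (by
        simp [hs.1, hs.2, hcd]))
      have l3 := lin (fun y => b + y * Complex.I) (by fun_prop) c d hcd (fun s hs => hR (by
        simp [hs.1, hs.2, hab]))
      have l4 := lin (fun y => a + y * Complex.I) (by fun_prop) c d hcd (fun s hs => hR (by
        simp [hs.1, hs.2, hab]))
      unfold PK_R
      rw [l1, l2, l3, l4]
      simp only [smul_eq_mul]
      ring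
    rw [hsub, hG, hI, hI2]
    have hpi : (Real.pi : ℂ) ≠ 0 := Complex.ofReal_ne_zero.2 Real.pi_ne_zero
    field_simp
    ring
  intro z w hzw
  rw [← add_eq_zero_iff_eq_neg, Complex.wedgeIntegral_add_wedgeIntegral_eq]
  show PK_R z.re w.re z.im w.im
    (fun t => g t - (1 / (Real.pi : ℂ)) * ∫ ζ in X, N ζ t * (t - ζ)⁻¹) = 0
  have hrect : ∀ a b c d : ℝ, a ∈ ({z.re, w.re} : Set ℝ) → b ∈ ({z.re, w.re} : Set ℝ) →
      c ∈ ({z.im, w.im} : Set ℝ) → d ∈ ({z.im, w.im} : Set ℝ) →
      {z : ℂ | a ≤ z.re ∧ z.re ≤ b ∧ c ≤ z.im ∧ z.im ≤ d} ⊆ V := by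
    intro a b c d ha hb hc hd x hx
    apply hzw
    rw [Complex.Rectangle, Complex.mem_reProdIm, mem_uIcc, mem_uIcc]
    obtain ⟨h1, h2, h3, h4⟩ := hx
    simp only [mem_insert_iff, mem_singleton_iff] at ha hb hc hd
    constructor
    · rcases ha with rfl | rfl <;> rcases hb with rfl | rfl
      · rcases le_total z.re w.re with h | h
        · exact Or.inl ⟨h1, h2.trans h⟩
        · exact Or.inr ⟨h.trans h1, h2⟩
      · exact Or.inl ⟨h1, h2⟩
      · exact Or.inr ⟨h1, h2⟩
      · rcases le_total z.re w.re with h | h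
        · exact Or.inl ⟨h.trans h1, h2⟩
        · exact Or.inr ⟨h1, h2.trans h⟩
    · rcases hc with rfl | rfl <;> rcases hd with rfl | rfl
      · rcases le_total z.im w.im with h | h
        · exact Or.inl ⟨h3, h4.trans h⟩
        · exact Or.inr ⟨h.trans h3, h4⟩
      · exact Or.inl ⟨h3, h4⟩
      · exact Or.inr ⟨h3, h4⟩
      · rcases le_total z.im w.im with h | h
        · exact Or.inl ⟨h.trans h3, h4⟩
        · exact Or.inr ⟨h3, h4.trans h⟩
  rcases le_total z.re w.re with h1 | h1 <;> rcases le_total z.im w.im with h2 | h2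
  · exact main _ _ _ _ h1 h2 (hrect _ _ _ _ (by simp) (by simp) (by simp) (by simp))
  · rw [← neg_eq_zero, ← PK_R_swap2]
    exact main _ _ _ _ h1 h2 (hrect _ _ _ _ (by simp) (by simp) (by simp) (by simp))
  · rw [← neg_eq_zero, ← PK_R_swap1]
    exact main _ _ _ _ h1 h2 (hrect _ _ _ _ (by simp) (by simp) (by simp) (by simp))
  · rw [← neg_eq_zero, ← PK_R_swap2, ← neg_eq_zero, ← PK_R_swap1]
    exact main _ _ _ _ h1 h2 (hrect _ _ _ _ (by simp) (by simp) (by simp) (by simp))

end Cor
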