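import Pool.Agent.helper45.Ball.Defs

/-!
Module BALL-PU1: the one dimensional partitions of unity.

PROOF.  `Real.smoothTransition` is smooth, `0` on `u ≤ 0`, `1` on `u ≥ 1`, monotone
(`Real.smoothTransition.contDiff`, `.zero_of_nonpos`, `.one_of_one_le`, `.monotone`, ...).  `dss` is
continuous, and zero for `u ≤ 0` and `u ≥ 1/4` (constant on a half line, and differentiable at the
end point: the derivative is also the one sided derivative), so it is bounded.

Sums: `alw_sum`, `dal_sum` telescope (`Finset.sum_range_succ` by induction or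
`Finset.sum_range_sub'`), first term with argument `x / cs ≥ 1/4`, last one with argument
`x / cs - 2 ^ (n + m) ≤ 0` (`2 ^ (n + m) * cs m n = 1`).
`bew_sum`, `dbe_sum`: `ubw m n b = lbw m n (b + 1)`; `ubw m (n + 1) (2 ^ m - 1) = lbw m n 0`
(`(y - (1/2)^(n+1)) / cs m (n+1) - 2^m = (y - (1/2)^n) / cs m (n+1)`); so the sum over `b` is
`lbw m n 0 - ubw m n (2 ^ m - 1)` and the sum over `n ≤ N` is
`lbw m N 0 y - ubw m 0 (2 ^ m - 1) y = 1 - 0`.
Nonnegativity: monotonicity (`lbw m n b y ≥ ubw m n b y`; for `b = 0`: `u ↦ ssm`, and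
`(y - (1/2)^n) / cs m (n+1) = 2 (y - (1/2)^n) / cs m n ≥ (y - (1/2)^n)/cs m n - 1` for
`y ≥ (1/2)^n`, for `y < (1/2)^n` both are `0`).
Supports: clear from the definitions (`cs m (n + 1) = cs m n / 2`).
`dal_abs`: `∑_a |dss (x / cs - a)| ≤ D` since at most one term is nonzero (`dss u ≠ 0` implies
`0 < u < 1/4`).
`dbe_abs`: the sum is at most `∑ |dlb| + ∑ |dub|`, and in each of the two sums at most one term is
nonzero: the open intervals (start of the row, start of the row `+ cs/4`) are disjoint, also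
those at the upper ends; a nonzero term for the level `n` is at most `D / cs m (n + 1)` for `dlb`
and `D / cs m n` for `dub`, and `y < (9/4) (1/2)^n` (in the `dub` case as well), so
`1 / cs m (n + 1) = 2 * 2^m * 2^n ≤ (9/2) 2^m / y`.  Total `≤ 9 * D * 2 ^ m / y`.
-/

noncomputable section

open Set Finset

namespace Cor

theorem PU1_contDiff : ContDiff ℝ 1 ssm := by
  have h : ContDiff ℝ 1 Real.smoothTransition := Real.smoothTransition.contDiff
  exact h.comp (contDiff_const.mul contDiff_id)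

theorem ssm_deriv (u : ℝ) : HasDerivAt ssm (dss u) u :=
  (PU1_contDiff.differentiable one_ne_zero u).hasDerivAt

theorem dss_cont : Continuous dss := PU1_contDiff.continuous_deriv le_rfl

theorem ssm_zero {u : ℝ} (hu : u ≤ 0) : ssm u = 0 :=
  Real.smoothTransition.zero_of_nonpos (by linarith)

theorem ssm_one {u : ℝ} (hu : 1 / 4 ≤ u) : ssm u = 1 :=
  Real.smoothTransition.one_of_one_le (by linarith)

theorem ssm_nonneg (u : ℝ) : 0 ≤ ssm u := Real.smoothTransition.nonneg _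

theorem ssm_le_one (u : ℝ) : ssm u ≤ 1 := Real.smoothTransition.le_one _

theorem ssm_mono : Monotone ssm := fun u v h =>
  Real.smoothTransition.monotone (by linarith)

theorem PU1_dss_low {u : ℝ} (hu : u ≤ 0) : dss u = 0 := by
  refine IsLocalMin.deriv_eq_zero (Filter.Eventually.of_forall fun v => ?_)
  rw [ssm_zero hu]
  exact ssm_nonneg v

theorem PU1_dss_high {u : ℝ} (hu : 1 / 4 ≤ u) : dss u = 0 := by
  refine IsLocalMax.deriv_eq_zero (Filter.Eventually.of_forall fun v => ?_)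
  rw [ssm_one hu]
  exact ssm_le_one v

theorem dss_supp {u : ℝ} (hu : dss u ≠ 0) : 0 < u ∧ u < 1 / 4 := by
  constructor
  · by_contra h
    exact hu (PU1_dss_low (not_lt.1 h))
  · by_contra h
    exact hu (PU1_dss_high (not_lt.1 h))

theorem dss_bdd : ∃ D : ℝ, 0 ≤ D ∧ ∀ u, |dss u| ≤ D := by
  obtain ⟨D, hD⟩ := (isCompact_Icc (a := (0 : ℝ)) (b := 1 / 4)).exists_bound_of_continuousOn
    dss_cont.continuousOn
  have h0 : 0 ≤ D := (norm_nonneg _).trans (hD 0 ⟨le_rfl, by norm_num⟩)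
  refine ⟨D, h0, fun u => ?_⟩
  by_cases hu : dss u = 0
  · rw [hu, abs_zero]
    exact h0
  · obtain ⟨h1, h2⟩ := dss_supp hu
    exact hD u ⟨h1.le, h2.le⟩

theorem PU1_cs_pos (m n : ℕ) : 0 < cs m n := by
  unfold cs
  positivity

theorem PU1_cs_succ (m n : ℕ) : cs m (n + 1) = cs m n / 2 := by
  unfold cs
  rw [show n + 1 + m = n + m + 1 by ring, pow_succ]
  ring

theorem PU1_cs_mul (m n : ℕ) : (2 : ℝ) ^ m * cs m n = (1 / 2) ^ n := by
  unfold cs
  rw [pow_add, mul_comm ((1 / 2 : ℝ) ^ n), ← mul_assoc, ← mul_pow]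
  norm_num

theorem PU1_cs_le_one (m n : ℕ) : cs m n ≤ 1 := by
  unfold cs
  exact pow_le_one₀ (by norm_num) (by norm_num)

theorem PU1_cs_inv (m n : ℕ) : 1 / cs m n = 2 ^ (n + m) := by
  unfold cs
  rw [one_div, ← inv_pow]
  norm_num

theorem PU1_lin (c d t : ℝ) (x : ℝ) : HasDerivAt (fun x => ssm ((x - t) / c - d))
    (dss ((x - t) / c - d) / c) x := by
  have h1 : HasDerivAt (fun x : ℝ => (x - t) / c - d) (1 / c) x :=
    (((hasDerivAt_id x).sub_const t).div_const c).sub_const d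
  have h2 := (ssm_deriv ((x - t) / c - d)).comp x h1
  rw [mul_one_div] at h2
  exact h2

theorem PU1_lin0 (c d : ℝ) (x : ℝ) : HasDerivAt (fun x => ssm (x / c - d))
    (dss (x / c - d) / c) x := by
  have h := PU1_lin c d 0 x
  simpa using h

theorem PU1_lin1 (c t : ℝ) (x : ℝ) : HasDerivAt (fun x => ssm ((x - t) / c))
    (dss ((x - t) / c) / c) x := by
  have h := PU1_lin c 0 t x
  simpa using h

theorem alw_deriv (m n a : ℕ) (x : ℝ) : HasDerivAt (alw m n a) (dal m n a x) x := by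
  have h := (PU1_lin0 (cs m n) a x).sub (PU1_lin0 (cs m n) (a + 1) x)
  unfold dal
  rw [sub_div]
  exact h

theorem PU1_lbw_deriv (m n b : ℕ) (y : ℝ) : HasDerivAt (lbw m n b) (dlb m n b y) y := by
  by_cases hb : b = 0
  · have h : lbw m n b = fun y => ssm ((y - (1 / 2) ^ n) / cs m (n + 1)) := by
      funext y
      rw [lbw, if_pos hb]
    rw [h, dlb, if_pos hb]
    exact PU1_lin1 _ _ _
  · have h : lbw m n b = fun y => ssm ((y - (1 / 2) ^ n) / cs m n - b) := by
      funext y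
      rw [lbw, if_neg hb]
    rw [h, dlb, if_neg hb]
    exact PU1_lin _ _ _ _

theorem bew_deriv (m n b : ℕ) (y : ℝ) : HasDerivAt (bew m n b) (dbe m n b y) y :=
  (PU1_lbw_deriv m n b y).sub (PU1_lin _ _ _ _)

theorem dal_cont (m n a : ℕ) : Continuous (dal m n a) := by
  unfold dal
  refine Continuous.div_const (Continuous.sub ?_ ?_) _
  · exact dss_cont.comp ((continuous_id.div_const _).sub continuous_const)
  · exact dss_cont.comp ((continuous_id.div_const _).sub continuous_const)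

theorem dbe_cont (m n b : ℕ) : Continuous (dbe m n b) := by
  have h1 : Continuous (dlb m n b) := by
    by_cases hb : b = 0
    · have h : dlb m n b = fun y => dss ((y - (1 / 2) ^ n) / cs m (n + 1)) / cs m (n + 1) := by
        funext y
        rw [dlb, if_pos hb]
      rw [h]
      exact (dss_cont.comp ((continuous_id.sub continuous_const).div_const _)).div_const _
    · have h : dlb m n b = fun y => dss ((y - (1 / 2) ^ n) / cs m n - b) / cs m n := by
        funext y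
        rw [dlb, if_neg hb]
      rw [h]
      exact (dss_cont.comp (((continuous_id.sub continuous_const).div_const _).sub
        continuous_const)).div_const _
  have h2 : Continuous (dub m n b) := by
    unfold dub
    exact (dss_cont.comp (((continuous_id.sub continuous_const).div_const _).sub
      continuous_const)).div_const _
  exact h1.sub h2

theorem alw_nonneg (m n a : ℕ) (x : ℝ) : 0 ≤ alw m n a x := by
  unfold alw
  exact sub_nonneg.2 (ssm_mono (by linarith))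

theorem PU1_half (m n : ℕ) (t : ℝ) : t / cs m (n + 1) = 2 * (t / cs m n) := by
  rw [PU1_cs_succ]
  field_simp

theorem bew_nonneg (m n b : ℕ) (y : ℝ) : 0 ≤ bew m n b y := by
  unfold bew lbw ubw
  rw [sub_nonneg]
  split_ifs with hb
  · rw [PU1_half, hb]
    by_cases hv : -1 ≤ (y - (1 / 2) ^ n) / cs m n
    · apply ssm_mono
      push_cast
      linarith
    · rw [ssm_zero (u := (y - (1 / 2) ^ n) / cs m n - ((0 : ℕ) + 1))]
      · exact ssm_nonneg _
      · push_cast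
        linarith [not_le.1 hv]
  · exact ssm_mono (by linarith)

theorem alw_supp {m n a : ℕ} {x : ℝ} (h : alw m n a x ≠ 0 ∨ dal m n a x ≠ 0) :
    (a : ℝ) * cs m n ≤ x ∧ x ≤ ((a : ℝ) + 5 / 4) * cs m n := by
  have hc := PU1_cs_pos m n
  rw [← le_div_iff₀ hc, ← div_le_iff₀ hc]
  constructor
  · by_contra hlt
    rw [not_le] at hlt
    rcases h with h | h
    · apply h
      rw [alw, ssm_zero (by linarith), ssm_zero (by linarith), sub_zero]
    · apply h
      rw [dal, PU1_dss_low (by linarith), PU1_dss_low (by linarith), sub_zero, zero_div]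
  · by_contra hlt
    rw [not_le] at hlt
    rcases h with h | h
    · apply h
      rw [alw, ssm_one (by linarith), ssm_one (by linarith), sub_self]
    · apply h
      rw [dal, PU1_dss_high (by linarith), PU1_dss_high (by linarith), sub_zero, zero_div]

theorem bew_supp {m n b : ℕ} {y : ℝ} (h : bew m n b y ≠ 0 ∨ dbe m n b y ≠ 0) :
    (1 / 2) ^ n + (b : ℝ) * cs m n ≤ y ∧ y ≤ (1 / 2) ^ n + ((b : ℝ) + 5 / 4) * cs m n := by
  have hc := PU1_cs_pos m n
  have e1 : (1 / 2 : ℝ) ^ n + (b : ℝ) * cs m n ≤ y ↔ (b : ℝ) ≤ (y - (1 / 2) ^ n) / cs m n := by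
    rw [le_div_iff₀ hc]
    constructor <;> intro h <;> linarith
  have e2 : y ≤ (1 / 2 : ℝ) ^ n + ((b : ℝ) + 5 / 4) * cs m n ↔
      (y - (1 / 2) ^ n) / cs m n ≤ (b : ℝ) + 5 / 4 := by
    rw [div_le_iff₀ hc]
    constructor <;> intro h <;> linarith
  rw [e1, e2]
  have hb0 : (0 : ℝ) ≤ b := Nat.cast_nonneg b
  constructor
  · by_contra hlt
    rw [not_le] at hlt
    rcases h with h | h
    · apply h
      rw [bew, lbw, ubw]
      split_ifs with hb
      · rw [PU1_half]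
        rw [hb, Nat.cast_zero] at hlt
        rw [ssm_zero (by linarith), ssm_zero (by linarith), sub_zero]
      · rw [ssm_zero (by linarith), ssm_zero (by linarith), sub_zero]
    · apply h
      rw [dbe, dlb, dub]
      split_ifs with hb
      · rw [hb, Nat.cast_zero] at hlt
        rw [PU1_dss_low (by rw [PU1_half]; linarith), PU1_dss_low (by linarith), zero_div,
          zero_div, sub_zero]
      · rw [PU1_dss_low (by linarith), PU1_dss_low (by linarith), zero_div, sub_zero]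
  · by_contra hlt
    rw [not_le] at hlt
    rcases h with h | h
    · apply h
      rw [bew, lbw, ubw]
      split_ifs with hb
      · rw [PU1_half, ssm_one (by linarith), ssm_one (by linarith), sub_self]
      · rw [ssm_one (by linarith), ssm_one (by linarith), sub_self]
    · apply h
      rw [dbe, dlb, dub]
      split_ifs with hb
      · rw [PU1_dss_high (by rw [PU1_half]; linarith), PU1_dss_high (by linarith), zero_div,
          zero_div, sub_zero]
      · rw [PU1_dss_high (by linarith), PU1_dss_high (by linarith), zero_div, sub_zero]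

theorem PU1_low (m n : ℕ) {x : ℝ} (h1 : 1 / 4 ≤ x) : 1 / 4 ≤ x / cs m n := by
  rw [le_div_iff₀ (PU1_cs_pos m n)]
  have := PU1_cs_le_one m n
  have := PU1_cs_pos m n
  nlinarith

theorem PU1_high (m n : ℕ) {x : ℝ} (h2 : x ≤ 1) :
    x / cs m n - ((2 ^ (n + m) : ℕ) : ℝ) ≤ 0 := by
  have h := PU1_cs_inv m n
  have h3 : x / cs m n ≤ 1 / cs m n := div_le_div_of_nonneg_right h2 (PU1_cs_pos m n).le
  rw [h] at h3
  push_cast
  linarith

theorem alw_sum (m n : ℕ) {x : ℝ} (h1 : 1 / 4 ≤ x) (h2 : x ≤ 1) :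
    ∑ a ∈ range (2 ^ (n + m)), alw m n a x = 1 := by
  have h := Finset.sum_range_sub' (fun a : ℕ => ssm (x / cs m n - a)) (2 ^ (n + m))
  have h3 : ∑ a ∈ range (2 ^ (n + m)), alw m n a x =
      ∑ a ∈ range (2 ^ (n + m)), (ssm (x / cs m n - (a : ℕ)) - ssm (x / cs m n - (a + 1 : ℕ))) := by
    refine Finset.sum_congr rfl fun a _ => ?_
    rw [alw]
    push_cast
    rfl
  rw [h3, h, Nat.cast_zero, sub_zero, ssm_one (PU1_low m n h1), ssm_zero (PU1_high m n h2),
    sub_zero]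

theorem dal_sum (m n : ℕ) {x : ℝ} (h1 : 1 / 4 ≤ x) (h2 : x ≤ 1) :
    ∑ a ∈ range (2 ^ (n + m)), dal m n a x = 0 := by
  have h := Finset.sum_range_sub' (fun a : ℕ => dss (x / cs m n - a)) (2 ^ (n + m))
  have h3 : ∑ a ∈ range (2 ^ (n + m)), dal m n a x =
      (∑ a ∈ range (2 ^ (n + m)),
        (dss (x / cs m n - (a : ℕ)) - dss (x / cs m n - (a + 1 : ℕ)))) / cs m n := by
    rw [Finset.sum_div]
    refine Finset.sum_congr rfl fun a _ => ?_
    rw [dal]
    push_cast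
    rfl
  rw [h3, h, Nat.cast_zero, sub_zero, PU1_dss_high (PU1_low m n h1),
    PU1_dss_low (PU1_high m n h2), sub_zero, zero_div]

/-- the argument at the upper end of level `n + 1` is the one at the lower end of level `n` -/
theorem PU1_shift (m n : ℕ) (y : ℝ) :
    (y - (1 / 2) ^ (n + 1)) / cs m (n + 1) - ((2 ^ m : ℕ) : ℝ) =
      (y - (1 / 2) ^ n) / cs m (n + 1) := by
  have h := PU1_cs_mul m (n + 1)
  have hc := PU1_cs_pos m (n + 1)
  have h2 : ((1 / 2 : ℝ) ^ n) = 2 * (1 / 2) ^ (n + 1) := by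
    rw [pow_succ]
    ring
  rw [h2, ← h]
  push_cast
  field_simp
  ring

theorem PU1_row (m n : ℕ) (y : ℝ) : ∑ b ∈ range (2 ^ m), bew m n b y =
    lbw m n 0 y - ssm ((y - (1 / 2) ^ n) / cs m n - ((2 ^ m : ℕ) : ℝ)) := by
  have hM : 0 < 2 ^ m := by positivity
  have h := Finset.sum_range_sub' (fun b : ℕ => lbw m n b y) (2 ^ m)
  have h3 : ∑ b ∈ range (2 ^ m), bew m n b y =
      ∑ b ∈ range (2 ^ m), (lbw m n b y - lbw m n (b + 1) y) := by
    refine Finset.sum_congr rfl fun b _ => ?_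
    rw [bew]
    congr 1
    rw [ubw, lbw, if_neg (Nat.succ_ne_zero b)]
    push_cast
    rfl
  rw [h3, h]
  congr 1
  rw [lbw, if_neg hM.ne']

theorem PU1_drow (m n : ℕ) (y : ℝ) : ∑ b ∈ range (2 ^ m), dbe m n b y =
    dlb m n 0 y - dss ((y - (1 / 2) ^ n) / cs m n - ((2 ^ m : ℕ) : ℝ)) / cs m n := by
  have hM : 0 < 2 ^ m := by positivity
  have h := Finset.sum_range_sub' (fun b : ℕ => dlb m n b y) (2 ^ m)
  have h3 : ∑ b ∈ range (2 ^ m), dbe m n b y =
      ∑ b ∈ range (2 ^ m), (dlb m n b y - dlb m n (b + 1) y) := by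
    refine Finset.sum_congr rfl fun b _ => ?_
    rw [dbe]
    congr 1
    rw [dub, dlb, if_neg (Nat.succ_ne_zero b)]
    push_cast
    rfl
  rw [h3, h]
  congr 1
  rw [dlb, if_neg hM.ne']

theorem PU1_top (m N : ℕ) {y : ℝ} (h1 : 2 * (1 / 2) ^ N ≤ y) :
    1 / 4 ≤ (y - (1 / 2) ^ N) / cs m (N + 1) := by
  have hc := PU1_cs_pos m (N + 1)
  have h3 := PU1_cs_mul m (N + 1)
  have h4 : ((1 / 2 : ℝ) ^ N) = 2 * (1 / 2) ^ (N + 1) := by
    rw [pow_succ]
    ring
  have h5 : (1 : ℝ) ≤ 2 ^ m := one_le_pow₀ (by norm_num)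
  rw [le_div_iff₀ hc]
  nlinarith

theorem PU1_bot (m : ℕ) {y : ℝ} (h2 : y ≤ 2) :
    (y - (1 / 2) ^ 0) / cs m 0 - ((2 ^ m : ℕ) : ℝ) ≤ 0 := by
  have hc := PU1_cs_pos m 0
  have h3 := PU1_cs_mul m 0
  rw [sub_nonpos, div_le_iff₀ hc]
  push_cast
  rw [h3]
  norm_num
  linarith

theorem bew_sum (m N : ℕ) {y : ℝ} (h1 : 2 * (1 / 2) ^ N ≤ y) (h2 : y ≤ 2) :
    ∑ n ∈ range (N + 1), ∑ b ∈ range (2 ^ m), bew m n b y = 1 := by
  have h := Finset.sum_range_sub
    (fun n : ℕ => ssm ((y - (1 / 2) ^ n) / cs m n - ((2 ^ m : ℕ) : ℝ))) (N + 1)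
  have h3 : ∑ n ∈ range (N + 1), ∑ b ∈ range (2 ^ m), bew m n b y =
      ∑ n ∈ range (N + 1), (ssm ((y - (1 / 2) ^ (n + 1)) / cs m (n + 1) - ((2 ^ m : ℕ) : ℝ)) -
        ssm ((y - (1 / 2) ^ n) / cs m n - ((2 ^ m : ℕ) : ℝ))) := by
    refine Finset.sum_congr rfl fun n _ => ?_
    rw [PU1_row, PU1_shift, lbw, if_pos rfl]
  rw [h3, h, PU1_shift, ssm_one (PU1_top m N h1), ssm_zero (PU1_bot m h2), sub_zero]

theorem dbe_sum (m N : ℕ) {y : ℝ} (h1 : 2 * (1 / 2) ^ N ≤ y) (h2 : y ≤ 2) :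
    ∑ n ∈ range (N + 1), ∑ b ∈ range (2 ^ m), dbe m n b y = 0 := by
  have h := Finset.sum_range_sub
    (fun n : ℕ => dss ((y - (1 / 2) ^ n) / cs m n - ((2 ^ m : ℕ) : ℝ)) / cs m n) (N + 1)
  have h3 : ∑ n ∈ range (N + 1), ∑ b ∈ range (2 ^ m), dbe m n b y =
      ∑ n ∈ range (N + 1),
        (dss ((y - (1 / 2) ^ (n + 1)) / cs m (n + 1) - ((2 ^ m : ℕ) : ℝ)) / cs m (n + 1) -
        dss ((y - (1 / 2) ^ n) / cs m n - ((2 ^ m : ℕ) : ℝ)) / cs m n) := by
    refine Finset.sum_congr rfl fun n _ => ?_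
    rw [PU1_drow, PU1_shift, dlb, if_pos rfl]
  rw [h3, h, PU1_shift, PU1_dss_high (PU1_top m N h1), PU1_dss_low (PU1_bot m h2), zero_div,
    zero_div, sub_zero]

theorem PU1_single {ι : Type*} (s : Finset ι) (f : ι → ℝ) {D : ℝ} (hD : 0 ≤ D)
    (hf : ∀ i ∈ s, f i ≠ 0 → f i ≤ D)
    (hu : ∀ i ∈ s, ∀ j ∈ s, f i ≠ 0 → f j ≠ 0 → i = j) : ∑ i ∈ s, f i ≤ D := by
  by_cases h : ∃ i ∈ s, f i ≠ 0
  · obtain ⟨i, hi, hi0⟩ := h
    rw [Finset.sum_eq_single_of_mem i hi]
    · exact hf i hi hi0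
    · intro j hj hne
      by_contra hj0
      exact hne (hu j hj i hi hj0 hi0)
  · push Not at h
    rw [Finset.sum_eq_zero h]
    exact hD

theorem PU1_sum_dss (X : ℝ) (M : ℕ) {D : ℝ} (hD : ∀ u, |dss u| ≤ D) :
    ∑ a ∈ range M, |dss (X - a)| ≤ D := by
  have h0 : 0 ≤ D := (abs_nonneg _).trans (hD 0)
  refine PU1_single _ _ h0 (fun a _ _ => hD _) ?_
  intro a _ b _ ha hb
  obtain ⟨h1, h2⟩ := dss_supp (abs_ne_zero.1 ha)
  obtain ⟨h3, h4⟩ := dss_supp (abs_ne_zero.1 hb)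
  have h5 : ((a : ℤ) : ℝ) < (b : ℤ) + 1 := by push_cast; linarith
  have h6 : ((b : ℤ) : ℝ) < (a : ℤ) + 1 := by push_cast; linarith
  have h7 : (a : ℤ) < b + 1 := by exact_mod_cast h5
  have h8 : (b : ℤ) < a + 1 := by exact_mod_cast h6
  omega

theorem dal_abs (m n : ℕ) {D : ℝ} (hD : ∀ u, |dss u| ≤ D) (x : ℝ) :
    ∑ a ∈ range (2 ^ (n + m)), |dal m n a x| ≤ 2 * D / cs m n := by
  have hc := PU1_cs_pos m n
  have h1 : ∀ a ∈ range (2 ^ (n + m)), |dal m n a x| ≤
      (|dss (x / cs m n - a)| + |dss (x / cs m n - 1 - a)|) / cs m n := by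
    intro a _
    rw [dal, abs_div, abs_of_pos hc]
    apply div_le_div_of_nonneg_right _ hc.le
    have h2 : x / cs m n - 1 - a = x / cs m n - (a + 1) := by ring
    rw [h2]
    exact abs_sub _ _
  refine (Finset.sum_le_sum h1).trans ?_
  rw [← Finset.sum_div, Finset.sum_add_distrib]
  apply div_le_div_of_nonneg_right _ hc.le
  have h3 := PU1_sum_dss (x / cs m n) (2 ^ (n + m)) hD
  have h4 := PU1_sum_dss (x / cs m n - 1) (2 ^ (n + m)) hD
  linarith

theorem PU1_dlb_supp {m n b : ℕ} (_hb : b < 2 ^ m) {y : ℝ} (h : dlb m n b y ≠ 0) :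
    (b : ℝ) < (y - (1 / 2) ^ n) / cs m n ∧ (y - (1 / 2) ^ n) / cs m n < b + 1 / 4 := by
  rw [dlb] at h
  split_ifs at h with h0
  · have h1 := dss_supp (div_ne_zero_iff.1 h).1
    rw [PU1_half] at h1
    rw [h0, Nat.cast_zero]
    constructor <;> linarith
  · have h1 := dss_supp (div_ne_zero_iff.1 h).1
    constructor <;> linarith

theorem PU1_level {m n b : ℕ} (hb : b < 2 ^ m) {y : ℝ}
    (h1 : (b : ℝ) < (y - (1 / 2) ^ n) / cs m n)
    (h2 : (y - (1 / 2) ^ n) / cs m n < b + 1 / 4) :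
    (1 / 2) ^ n < y ∧ y < 2 * (1 / 2) ^ n := by
  have hc := PU1_cs_pos m n
  have h3 := PU1_cs_mul m n
  rw [lt_div_iff₀ hc] at h1
  rw [div_lt_iff₀ hc] at h2
  have hb0 : (0 : ℝ) ≤ b := Nat.cast_nonneg b
  have hb1 : (b : ℝ) + 1 ≤ 2 ^ m := by exact_mod_cast hb
  constructor
  · nlinarith
  · nlinarith

theorem PU1_pow_lt {n n' : ℕ} (h : n < n') : 2 * (1 / 2 : ℝ) ^ n' ≤ (1 / 2) ^ n := by
  obtain ⟨k, rfl⟩ := Nat.exists_eq_add_of_lt h
  have h1 : (1 / 2 : ℝ) ^ (n + k + 1) ≤ (1 / 2) ^ (n + 1) :=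
    pow_le_pow_of_le_one (by norm_num) (by norm_num) (by omega)
  rw [pow_succ _ n] at h1
  linarith

theorem PU1_nat_eq {a b : ℕ} {v : ℝ} (h1 : (a : ℝ) < v) (h2 : v < a + 1 / 4)
    (h3 : (b : ℝ) < v) (h4 : v < b + 1 / 4) : a = b := by
  have h5 : ((a : ℤ) : ℝ) < (b : ℤ) + 1 := by push_cast; linarith
  have h6 : ((b : ℤ) : ℝ) < (a : ℤ) + 1 := by push_cast; linarith
  have h7 : (a : ℤ) < b + 1 := by exact_mod_cast h5
  have h8 : (b : ℤ) < a + 1 := by exact_mod_cast h6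
  omega

theorem PU1_sum_dlb (m N : ℕ) {D : ℝ} (hD : ∀ u, |dss u| ≤ D) {y : ℝ} (hy : 0 < y) :
    ∑ p ∈ range (N + 1) ×ˢ range (2 ^ m), |dlb m p.1 p.2 y| ≤ 9 / 2 * D * 2 ^ m / y := by
  have h0 : 0 ≤ D := (abs_nonneg _).trans (hD 0)
  refine PU1_single _ _ (by positivity) ?_ ?_
  · rintro ⟨n, b⟩ hp hne
    rw [Finset.mem_product, Finset.mem_range, Finset.mem_range] at hp
    have hb : b < 2 ^ m := hp.2
    have hne' : dlb m n b y ≠ 0 := abs_ne_zero.1 hne
    obtain ⟨h1, h2⟩ := PU1_dlb_supp hb hne'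
    obtain ⟨h3, h4⟩ := PU1_level hb h1 h2
    have hc := PU1_cs_pos m n
    have hc1 := PU1_cs_pos m (n + 1)
    have h5 : |dlb m n b y| ≤ D / cs m (n + 1) := by
      rw [dlb]
      split_ifs with hb0
      · rw [abs_div, abs_of_pos hc1]
        exact div_le_div_of_nonneg_right (hD _) hc1.le
      · rw [abs_div, abs_of_pos hc]
        calc |dss ((y - (1 / 2) ^ n) / cs m n - b)| / cs m n ≤ D / cs m n :=
              div_le_div_of_nonneg_right (hD _) hc.le
          _ ≤ D / cs m (n + 1) := by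
              apply div_le_div_of_nonneg_left h0 hc1
              rw [PU1_cs_succ]
              linarith
    have h6 : D / cs m (n + 1) ≤ 9 / 2 * D * 2 ^ m / y := by
      rw [div_le_div_iff₀ hc1 hy, PU1_cs_succ]
      have h7 := PU1_cs_mul m n
      have h8 : 9 / 2 * D * 2 ^ m * (cs m n / 2) = 9 / 4 * D * (1 / 2) ^ n := by
        rw [← h7]
        ring
      rw [h8]
      have h9 : 0 < (1 / 2 : ℝ) ^ n := by positivity
      nlinarith
    exact h5.trans h6
  · rintro ⟨n, b⟩ hp ⟨n', b'⟩ hp' hne hne'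
    rw [Finset.mem_product, Finset.mem_range, Finset.mem_range] at hp hp'
    have hb : b < 2 ^ m := hp.2
    have hb' : b' < 2 ^ m := hp'.2
    obtain ⟨h1, h2⟩ := PU1_dlb_supp (n := n) hb (abs_ne_zero.1 hne)
    obtain ⟨h3, h4⟩ := PU1_dlb_supp (n := n') hb' (abs_ne_zero.1 hne')
    obtain ⟨h5, h6⟩ := PU1_level hb h1 h2
    obtain ⟨h7, h8⟩ := PU1_level hb' h3 h4
    have hn : n = n' := by
      rcases lt_trichotomy n n' with h | h | h
      · have := PU1_pow_lt h
        linarith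
      · exact h
      · have := PU1_pow_lt h
        linarith
    subst hn
    have hbb : b = b' := PU1_nat_eq h1 h2 h3 h4
    rw [hbb]

theorem PU1_sum_dub (m N : ℕ) {D : ℝ} (hD : ∀ u, |dss u| ≤ D) {y : ℝ} (hy : 0 < y) :
    ∑ p ∈ range (N + 1) ×ˢ range (2 ^ m), |dub m p.1 p.2 y| ≤ 9 / 2 * D * 2 ^ m / y := by
  have h0 : 0 ≤ D := (abs_nonneg _).trans (hD 0)
  have key : ∀ n b : ℕ, b < 2 ^ m → dub m n b y ≠ 0 →
      ((b + 1 : ℕ) : ℝ) < (y - (1 / 2) ^ n) / cs m n ∧
      (y - (1 / 2) ^ n) / cs m n < ((b + 1 : ℕ) : ℝ) + 1 / 4 ∧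
      (1 / 2) ^ n + cs m n < y ∧ y < 2 * (1 / 2) ^ n + cs m n / 4 := by
    intro n b hb hne
    rw [dub] at hne
    have h1 := dss_supp (div_ne_zero_iff.1 hne).1
    have hc := PU1_cs_pos m n
    have h3 := PU1_cs_mul m n
    have hb0 : (0 : ℝ) ≤ b := Nat.cast_nonneg b
    have hb1 : (b : ℝ) + 1 ≤ 2 ^ m := by exact_mod_cast hb
    have h4 : (b : ℝ) + 1 < (y - (1 / 2) ^ n) / cs m n := by linarith
    have h5 : (y - (1 / 2) ^ n) / cs m n < b + 1 + 1 / 4 := by linarith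
    refine ⟨by push_cast; exact h4, by push_cast; exact h5, ?_, ?_⟩
    · rw [lt_div_iff₀ hc] at h4
      nlinarith
    · rw [div_lt_iff₀ hc] at h5
      nlinarith
  refine PU1_single _ _ (by positivity) ?_ ?_
  · rintro ⟨n, b⟩ hp hne
    rw [Finset.mem_product, Finset.mem_range, Finset.mem_range] at hp
    obtain ⟨_, _, h3, h4⟩ := key n b hp.2 (abs_ne_zero.1 hne)
    have hc := PU1_cs_pos m n
    have h7 := PU1_cs_mul m n
    have h71 : (1 : ℝ) ≤ 2 ^ m := one_le_pow₀ (by norm_num)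
    have h5 : |dub m n b y| ≤ D / cs m n := by
      rw [dub, abs_div, abs_of_pos hc]
      exact div_le_div_of_nonneg_right (hD _) hc.le
    have h6 : D / cs m n ≤ 9 / 2 * D * 2 ^ m / y := by
      rw [div_le_div_iff₀ hc hy]
      have h8 : 9 / 2 * D * 2 ^ m * cs m n = 9 / 2 * D * (1 / 2) ^ n := by
        rw [← h7]
        ring
      rw [h8]
      have h9 : cs m n ≤ (1 / 2) ^ n := by nlinarith
      have h10 : y ≤ 9 / 4 * (1 / 2) ^ n := by linarith
      have h11 : 0 < (1 / 2 : ℝ) ^ n := by positivity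
      nlinarith
    exact h5.trans h6
  · rintro ⟨n, b⟩ hp ⟨n', b'⟩ hp' hne hne'
    rw [Finset.mem_product, Finset.mem_range, Finset.mem_range] at hp hp'
    obtain ⟨h1, h2, h3, h4⟩ := key n b hp.2 (abs_ne_zero.1 hne)
    obtain ⟨h1', h2', h3', h4'⟩ := key n' b' hp'.2 (abs_ne_zero.1 hne')
    have hstep : ∀ k k' : ℕ, k < k' → 2 * cs m k' ≤ cs m k := by
      intro k k' hk
      have e1 := PU1_cs_mul m k
      have e2 := PU1_cs_mul m k'
      have e3 := PU1_pow_lt hk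
      rw [← e1, ← e2] at e3
      have e4 : (0 : ℝ) < 2 ^ m := by positivity
      nlinarith
    have hn : n = n' := by
      rcases lt_trichotomy n n' with h | h | h
      · have e1 := PU1_pow_lt h
        have e2 := hstep _ _ h
        have e3 := PU1_cs_pos m n'
        linarith
      · exact h
      · have e1 := PU1_pow_lt h
        have e2 := hstep _ _ h
        have e3 := PU1_cs_pos m n
        linarith
    subst hn
    have hbb : b + 1 = b' + 1 := PU1_nat_eq h1 h2 h1' h2'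
    rw [Nat.succ_injective hbb]

theorem dbe_abs (m N : ℕ) {D : ℝ} (hD : ∀ u, |dss u| ≤ D) {y : ℝ} (hy : 0 < y) :
    ∑ n ∈ range (N + 1), ∑ b ∈ range (2 ^ m), |dbe m n b y| ≤ 9 * D * 2 ^ m / y := by
  have h1 := PU1_sum_dlb m N hD hy
  have h2 := PU1_sum_dub m N hD hy
  have h3 : ∑ n ∈ range (N + 1), ∑ b ∈ range (2 ^ m), |dbe m n b y| =
      ∑ p ∈ range (N + 1) ×ˢ range (2 ^ m), |dbe m p.1 p.2 y| := by
    rw [Finset.sum_product]
  rw [h3]
  have h4 : ∑ p ∈ range (N + 1) ×ˢ range (2 ^ m), |dbe m p.1 p.2 y| ≤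
      ∑ p ∈ range (N + 1) ×ˢ range (2 ^ m), (|dlb m p.1 p.2 y| + |dub m p.1 p.2 y|) := by
    refine Finset.sum_le_sum fun p _ => ?_
    rw [dbe]
    exact abs_sub _ _
  rw [Finset.sum_add_distrib] at h4
  have h5 : 9 * D * 2 ^ m / y = 9 / 2 * D * 2 ^ m / y + 9 / 2 * D * 2 ^ m / y := by ring
  linarith

end Cor
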