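import Pool.Agent.helper45.Ball.PU1

/-!
Module BALL-PU2: the partition of unity on the region.

PROOF.  `abw_sum`: `∑_n ∑_a ∑_b alw * bew = ∑_n ∑_b bew * (∑_a alw) = 1`.  `dabw_sum` in the same
way: `∑_a dal = 0`, and `∑_n ∑_b dbe * (∑_a alw) = 0`.
`dabw_abs`: `‖dabw‖ ≤ (1/2) (|dal| bew + alw |dbe|)`; the first sum is at most
`∑_n ∑_b bew m n b y * (2 D / cs m n)`, and `bew m n b y ≠ 0` with `b < 2 ^ m` implies
`y ≤ (9/4) (1/2)^n`, so `1 / cs m n ≤ (9/4) 2^m / y`: it is at most `(9/2) D 2^m / y`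
(`∑ bew = 1`); the second sum is at most `9 D 2^m / y` (`∑_a alw = 1`).
`abw_fderiv`: product rule; take `L = (dal * bew) • reCLM + (alw * dbe) • imCLM` composed with the
embedding `ℝ → ℂ` (`Complex.ofRealCLM`), `L 1 = dal * bew`, `L I = alw * dbe`.
-/

noncomputable section

open Set Finset

namespace Cor

private theorem PU2_cs_pos (m n : ℕ) : 0 < cs m n := by
  unfold cs
  positivity

private theorem PU2_alw_cont (m n a : ℕ) : Continuous (alw m n a) :=
  continuous_iff_continuousAt.2 fun x => (alw_deriv m n a x).continuousAt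

private theorem PU2_bew_cont (m n b : ℕ) : Continuous (bew m n b) :=
  continuous_iff_continuousAt.2 fun x => (bew_deriv m n b x).continuousAt

private theorem PU2_mem {m n a b : ℕ} {t : ℂ} (h1 : alw m n a t.re ≠ 0 ∨ dal m n a t.re ≠ 0)
    (h2 : bew m n b t.im ≠ 0 ∨ dbe m n b t.im ≠ 0) : t ∈ cellE m n a b := by
  have h3 := alw_supp h1
  have h4 := bew_supp h2
  exact ⟨h3.1, h3.2, h4.1, h4.2⟩

private theorem PU2_sum (m N : ℕ) (f g : ℕ → ℕ → ℝ) :
    SumC m N (fun n a b => f n a * g n b) =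
      ∑ n ∈ range (N + 1), (∑ a ∈ range (2 ^ (n + m)), f n a) * ∑ b ∈ range (2 ^ m), g n b := by
  unfold SumC
  exact Finset.sum_congr rfl fun n _ => (Finset.sum_mul_sum _ _ _ _).symm

private theorem PU2_sumC (m N : ℕ) (f g : ℕ → ℕ → ℂ) :
    SumC m N (fun n a b => f n a * g n b) =
      ∑ n ∈ range (N + 1), (∑ a ∈ range (2 ^ (n + m)), f n a) * ∑ b ∈ range (2 ^ m), g n b := by
  unfold SumC
  exact Finset.sum_congr rfl fun n _ => (Finset.sum_mul_sum _ _ _ _).symm

private theorem PU2_sum_add {X : Type*} [AddCommMonoid X] (m N : ℕ) (f g : ℕ → ℕ → ℕ → X) :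
    SumC m N (fun n a b => f n a b + g n a b) = SumC m N f + SumC m N g := by
  unfold SumC
  simp only [Finset.sum_add_distrib]

private theorem PU2_sum_le (m N : ℕ) (f g : ℕ → ℕ → ℕ → ℝ) (h : ∀ n a b, f n a b ≤ g n a b) :
    SumC m N f ≤ SumC m N g := by
  unfold SumC
  exact Finset.sum_le_sum fun n _ => Finset.sum_le_sum fun a _ => Finset.sum_le_sum fun b _ =>
    h n a b

theorem abw_nonneg (m n a b : ℕ) (t : ℂ) : 0 ≤ abw m n a b t :=
  mul_nonneg (alw_nonneg m n a _) (bew_nonneg m n b _)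

theorem abw_supp {m n a b : ℕ} {t : ℂ} (h : abw m n a b t ≠ 0 ∨ dabw m n a b t ≠ 0) :
    t ∈ cellE m n a b := by
  rcases h with h | h
  · unfold abw at h
    exact PU2_mem (Or.inl (left_ne_zero_of_mul h)) (Or.inl (right_ne_zero_of_mul h))
  · by_cases h1 : dal m n a t.re * bew m n b t.im = 0
    · by_cases h2 : alw m n a t.re * dbe m n b t.im = 0
      · exfalso
        apply h
        unfold dabw
        rw [h1, h2]
        simp
      · exact PU2_mem (Or.inl (left_ne_zero_of_mul h2)) (Or.inr (right_ne_zero_of_mul h2))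
    · exact PU2_mem (Or.inr (left_ne_zero_of_mul h1)) (Or.inl (right_ne_zero_of_mul h1))

theorem cellE_closed (m n a b : ℕ) : IsClosed (cellE m n a b) := by
  unfold cellE
  exact (isClosed_le continuous_const Complex.continuous_re).inter
    ((isClosed_le Complex.continuous_re continuous_const).inter
      ((isClosed_le continuous_const Complex.continuous_im).inter
        (isClosed_le Complex.continuous_im continuous_const)))

theorem abw_cont (m n a b : ℕ) : Continuous (abw m n a b) :=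
  ((PU2_alw_cont m n a).comp Complex.continuous_re).mul
    ((PU2_bew_cont m n b).comp Complex.continuous_im)

private theorem PU2_c1 (m n a b : ℕ) :
    Continuous fun t : ℂ => dal m n a t.re * bew m n b t.im :=
  ((dal_cont m n a).comp Complex.continuous_re).mul
    ((PU2_bew_cont m n b).comp Complex.continuous_im)

private theorem PU2_c2 (m n a b : ℕ) :
    Continuous fun t : ℂ => alw m n a t.re * dbe m n b t.im :=
  ((PU2_alw_cont m n a).comp Complex.continuous_re).mul
    ((dbe_cont m n b).comp Complex.continuous_im)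

theorem dabw_cont (m n a b : ℕ) : Continuous (dabw m n a b) := by
  unfold dabw
  exact continuous_const.mul ((Complex.continuous_ofReal.comp (PU2_c1 m n a b)).add
    (continuous_const.mul (Complex.continuous_ofReal.comp (PU2_c2 m n a b))))

theorem abw_fderiv (m n a b : ℕ) : ∃ L : ℂ → ℂ →L[ℝ] ℂ, Continuous L ∧
    (∀ t, HasFDerivAt (fun t => (abw m n a b t : ℂ)) (L t) t) ∧
    (∀ t, 1 / 2 * (L t 1 + Complex.I * L t Complex.I) = dabw m n a b t) ∧
    ∀ t, t ∉ cellE m n a b → L t = 0 := by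
  refine ⟨fun t => (dal m n a t.re * bew m n b t.im) • (Complex.ofRealCLM.comp Complex.reCLM) +
    (alw m n a t.re * dbe m n b t.im) • (Complex.ofRealCLM.comp Complex.imCLM), ?_, ?_, ?_, ?_⟩
  · exact ((PU2_c1 m n a b).smul continuous_const).add ((PU2_c2 m n a b).smul continuous_const)
  · intro t
    have h1 : HasFDerivAt (fun t : ℂ => alw m n a t.re) (dal m n a t.re • Complex.reCLM) t :=
      (alw_deriv m n a t.re).comp_hasFDerivAt t Complex.reCLM.hasFDerivAt
    have h2 : HasFDerivAt (fun t : ℂ => bew m n b t.im) (dbe m n b t.im • Complex.imCLM) t :=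
      (bew_deriv m n b t.im).comp_hasFDerivAt t Complex.imCLM.hasFDerivAt
    have h3 := h1.mul h2
    have h4 := Complex.ofRealCLM.hasFDerivAt.comp t h3
    refine (h4.congr_fderiv ?_)
    ext1 z
    simp only [ContinuousLinearMap.comp_apply, ContinuousLinearMap.add_apply,
      ContinuousLinearMap.smul_apply, Complex.ofRealCLM_apply, Complex.reCLM_apply,
      Complex.imCLM_apply, smul_eq_mul, Complex.real_smul]
    push_cast
    ring
  · intro t
    unfold dabw
    simp only [ContinuousLinearMap.comp_apply, ContinuousLinearMap.add_apply,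
      ContinuousLinearMap.smul_apply, Complex.ofRealCLM_apply, Complex.reCLM_apply,
      Complex.imCLM_apply, Complex.real_smul, Complex.one_re, Complex.one_im, Complex.I_re,
      Complex.I_im, Complex.ofReal_one, Complex.ofReal_zero, mul_one, mul_zero, add_zero, zero_add]
  · intro t ht
    have h1 : dal m n a t.re * bew m n b t.im = 0 := by
      by_contra h
      exact ht (PU2_mem (Or.inr (left_ne_zero_of_mul h)) (Or.inl (right_ne_zero_of_mul h)))
    have h2 : alw m n a t.re * dbe m n b t.im = 0 := by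
      by_contra h
      exact ht (PU2_mem (Or.inl (left_ne_zero_of_mul h)) (Or.inr (right_ne_zero_of_mul h)))
    simp only [h1, h2]
    ext1 z
    simp

theorem abw_sum (m N : ℕ) {t : ℂ} (ht : t ∈ DNB N) : SumC m N (fun n a b => abw m n a b t) = 1 := by
  obtain ⟨h1, h2, h3, h4⟩ := ht
  have h5 := PU2_sum m N (fun n a => alw m n a t.re) (fun n b => bew m n b t.im)
  refine h5.trans ?_
  rw [← bew_sum m N h3.le (by linarith : t.im ≤ 2)]
  refine Finset.sum_congr rfl fun n _ => ?_
  rw [alw_sum m n h1.le (by linarith), one_mul]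

theorem dabw_sum (m N : ℕ) {t : ℂ} (ht : t ∈ DNB N) :
    SumC m N (fun n a b => dabw m n a b t) = 0 := by
  obtain ⟨h1, h2, h3, h4⟩ := ht
  have e1 : (fun n a b => dabw m n a b t) = fun n a b =>
      ((1 / 2 : ℂ) * (dal m n a t.re : ℂ)) * (bew m n b t.im : ℂ) +
        ((1 / 2 : ℂ) * Complex.I * (alw m n a t.re : ℂ)) * (dbe m n b t.im : ℂ) := by
    funext n a b
    unfold dabw
    push_cast
    ring
  rw [e1, PU2_sum_add, PU2_sumC, PU2_sumC]
  have e2 : ∑ n ∈ range (N + 1), (∑ a ∈ range (2 ^ (n + m)), (1 / 2 : ℂ) * (dal m n a t.re : ℂ)) *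
      ∑ b ∈ range (2 ^ m), (bew m n b t.im : ℂ) = 0 := by
    refine Finset.sum_eq_zero fun n _ => ?_
    rw [← Finset.mul_sum, ← Complex.ofReal_sum, dal_sum m n h1.le (by linarith)]
    simp
  have e3 : ∑ n ∈ range (N + 1), (∑ a ∈ range (2 ^ (n + m)),
      (1 / 2 : ℂ) * Complex.I * (alw m n a t.re : ℂ)) *
      ∑ b ∈ range (2 ^ m), (dbe m n b t.im : ℂ) = 0 := by
    have e4 : ∀ n ∈ range (N + 1), (∑ a ∈ range (2 ^ (n + m)),
        (1 / 2 : ℂ) * Complex.I * (alw m n a t.re : ℂ)) *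
        ∑ b ∈ range (2 ^ m), (dbe m n b t.im : ℂ) =
        (1 / 2 : ℂ) * Complex.I * ((∑ b ∈ range (2 ^ m), dbe m n b t.im : ℝ) : ℂ) := by
      intro n _
      rw [← Finset.mul_sum, ← Complex.ofReal_sum, alw_sum m n h1.le (by linarith),
        ← Complex.ofReal_sum]
      simp
    rw [Finset.sum_congr rfl e4, ← Finset.mul_sum, ← Complex.ofReal_sum,
      dbe_sum m N h3.le (by linarith : t.im ≤ 2)]
    simp
  rw [e2, e3, add_zero]

private theorem PU2_norm (m n a b : ℕ) (t : ℂ) : ‖dabw m n a b t‖ ≤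
    1 / 2 * (|dal m n a t.re| * bew m n b t.im) + 1 / 2 * (alw m n a t.re * |dbe m n b t.im|) := by
  unfold dabw
  rw [norm_mul]
  have h1 : ‖(1 / 2 : ℂ)‖ = 1 / 2 := by simp
  rw [h1, ← mul_add]
  refine mul_le_mul_of_nonneg_left ((norm_add_le _ _).trans (le_of_eq ?_)) (by norm_num)
  rw [norm_mul, Complex.norm_I, one_mul, Complex.norm_real, Complex.norm_real, Real.norm_eq_abs,
    Real.norm_eq_abs, abs_mul, abs_mul, abs_of_nonneg (bew_nonneg m n b _),
    abs_of_nonneg (alw_nonneg m n a _)]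

private theorem PU2_term (m n b : ℕ) (hb : b < 2 ^ m) {D : ℝ} (hD0 : 0 ≤ D) {y : ℝ} (hy : 0 < y) :
    2 * D / cs m n * bew m n b y ≤ 9 / 2 * D * 2 ^ m / y * bew m n b y := by
  by_cases h0 : bew m n b y = 0
  · rw [h0, mul_zero, mul_zero]
  · refine mul_le_mul_of_nonneg_right ?_ (bew_nonneg m n b y)
    have h1 := (bew_supp (Or.inl h0 : bew m n b y ≠ 0 ∨ dbe m n b y ≠ 0)).2
    have hcs : cs m n = (1 / 2) ^ n * (1 / 2) ^ m := by
      unfold cs
      rw [pow_add]
    have hb1 : (b : ℝ) + 1 ≤ 2 ^ m := by exact_mod_cast hb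
    have h2m : (1 : ℝ) ≤ 2 ^ m := one_le_pow₀ (by norm_num)
    have hmm : (2 : ℝ) ^ m * (1 / 2) ^ m = 1 := by
      rw [← mul_pow]
      norm_num
    have hn0 : (0 : ℝ) < (1 / 2) ^ n := by positivity
    have hm0 : (0 : ℝ) < (1 / 2) ^ m := by positivity
    have hy2 : y ≤ 9 / 4 * (1 / 2) ^ n := by
      have h3 : ((b : ℝ) + 5 / 4) * (1 / 2) ^ m ≤ 5 / 4 := by
        have h4 : ((b : ℝ) + 5 / 4) * (1 / 2) ^ m ≤ (2 ^ m + 1 / 4 * 2 ^ m) * (1 / 2) ^ m := by
          refine mul_le_mul_of_nonneg_right ?_ hm0.le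
          linarith
        have h5 : ((2 : ℝ) ^ m + 1 / 4 * 2 ^ m) * (1 / 2) ^ m = 5 / 4 := by
          linear_combination (5 / 4 : ℝ) * hmm
        linarith
      have h6 : ((b : ℝ) + 5 / 4) * cs m n = (1 / 2) ^ n * (((b : ℝ) + 5 / 4) * (1 / 2) ^ m) := by
        rw [hcs]
        ring
      rw [h6] at h1
      nlinarith
    have hc0 : 0 < cs m n := PU2_cs_pos m n
    rw [div_le_div_iff₀ hc0 hy]
    have h7 : 9 / 2 * D * 2 ^ m * cs m n = 2 * D * (9 / 4 * (1 / 2) ^ n) := by
      rw [hcs]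
      linear_combination (9 / 2 * D * (1 / 2) ^ n) * hmm
    rw [h7]
    exact mul_le_mul_of_nonneg_left hy2 (by linarith)

theorem dabw_abs (m N : ℕ) {D : ℝ} (hD : ∀ u, |dss u| ≤ D) {t : ℂ} (ht : t ∈ DNB N) :
    SumC m N (fun n a b => ‖dabw m n a b t‖) ≤ 7 * D * 2 ^ m / t.im := by
  obtain ⟨h1, h2, h3, h4⟩ := ht
  have hy : 0 < t.im := lt_trans (by positivity) h3
  have hD0 : 0 ≤ D := (abs_nonneg _).trans (hD 0)
  refine (PU2_sum_le m N _ _ fun n a b => PU2_norm m n a b t).trans ?_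
  rw [PU2_sum_add]
  have e1 : SumC m N (fun n a b => 1 / 2 * (|dal m n a t.re| * bew m n b t.im)) ≤
      9 / 4 * D * 2 ^ m / t.im := by
    have h5 : SumC m N (fun n a b => 1 / 2 * (|dal m n a t.re| * bew m n b t.im)) =
        SumC m N (fun n a b => (1 / 2 * |dal m n a t.re|) * bew m n b t.im) := by
      congr 1
      funext n a b
      ring
    rw [h5, PU2_sum]
    have h6 : ∀ n ∈ range (N + 1), (∑ a ∈ range (2 ^ (n + m)), 1 / 2 * |dal m n a t.re|) *
        ∑ b ∈ range (2 ^ m), bew m n b t.im ≤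
        9 / 4 * D * 2 ^ m / t.im * ∑ b ∈ range (2 ^ m), bew m n b t.im := by
      intro n _
      rw [← Finset.mul_sum]
      have h7 : 1 / 2 * ∑ a ∈ range (2 ^ (n + m)), |dal m n a t.re| ≤ 1 / 2 * (2 * D / cs m n) :=
        mul_le_mul_of_nonneg_left (dal_abs m n hD _) (by norm_num)
      refine (mul_le_mul_of_nonneg_right h7
        (Finset.sum_nonneg fun b _ => bew_nonneg m n b _)).trans ?_
      rw [Finset.mul_sum, Finset.mul_sum]
      refine Finset.sum_le_sum fun b hb => ?_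
      have h8 := PU2_term m n b (Finset.mem_range.1 hb) hD0 hy
      have h9 : 1 / 2 * (2 * D / cs m n) * bew m n b t.im =
        1 / 2 * (2 * D / cs m n * bew m n b t.im) := by ring
      rw [h9]
      refine (mul_le_mul_of_nonneg_left h8 (by norm_num : (0 : ℝ) ≤ 1 / 2)).trans (le_of_eq ?_)
      ring
    refine (Finset.sum_le_sum h6).trans (le_of_eq ?_)
    rw [← Finset.mul_sum, bew_sum m N h3.le (by linarith : t.im ≤ 2), mul_one]
  have e2 : SumC m N (fun n a b => 1 / 2 * (alw m n a t.re * |dbe m n b t.im|)) ≤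
      9 / 2 * D * 2 ^ m / t.im := by
    have h5 : SumC m N (fun n a b => 1 / 2 * (alw m n a t.re * |dbe m n b t.im|)) =
        SumC m N (fun n a b => (1 / 2 * alw m n a t.re) * |dbe m n b t.im|) := by
      congr 1
      funext n a b
      ring
    rw [h5, PU2_sum]
    have h6 : ∀ n ∈ range (N + 1), (∑ a ∈ range (2 ^ (n + m)), 1 / 2 * alw m n a t.re) *
        ∑ b ∈ range (2 ^ m), |dbe m n b t.im| =
        1 / 2 * ∑ b ∈ range (2 ^ m), |dbe m n b t.im| := by
      intro n _
      rw [← Finset.mul_sum, alw_sum m n h1.le (by linarith), mul_one]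
    rw [Finset.sum_congr rfl h6, ← Finset.mul_sum]
    refine (mul_le_mul_of_nonneg_left (dbe_abs m N hD hy) (by norm_num : (0 : ℝ) ≤ 1 / 2)).trans
      (le_of_eq ?_)
    ring
  have h10 : 9 / 4 * D * 2 ^ m / t.im + 9 / 2 * D * 2 ^ m / t.im ≤ 7 * D * 2 ^ m / t.im := by
    rw [← add_div]
    refine div_le_div_of_nonneg_right ?_ hy.le
    have : 0 ≤ D * 2 ^ m := by positivity
    linarith
  linarith

end Cor
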