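import Pool.Agent.helper45.Ball.Rot

/-!
Module BALL-RB: the class `RB` of the functions `u` on the ball such that
`u z - u (⟨z, p⟩ p) → 0` as `z → p`, for every boundary point `p`.

PROOF.  If `p` is a unit vector and `z ∈ Bn d` then `t = ip p z` has `|t| < 1` (`ip_ball`), so
`w = t p ∈ Bn d` (`∑ |t p_i|^2 = |t|^2`), and `w → p` as `z → p`:
`1 - t = ip p p - ip p z = ip p (p - z)`, `|1 - t|^2 ≤ ∑ |p_i - z_i|^2` (`ip_le`).
`RB_add`, `RB_mul` (bounded functions), `RB_const`, `RB_lim` (as `HC_lim`): standard.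
`RB_ridge`: `u z = h (ip e z)`.  If `|ip e p| < 1`: `ip e z` and `ip e w` both tend to `ip e p` as
`z → p`, and `h` is continuous there.  If `|ip e p| = 1`: equality in the Cauchy-Schwarz inequality,
`∑ |e_i - conj(λ) p_i|^2 = 0` with `λ = ip e p` (expand: `1 + 1 - 2 |λ|^2`), so
`ip e z = λ ip p z` for all `z`, hence `ip e w = t ip e p = t λ = ip e z`, and `u z = u w`.
`RB_cont`: `u` is continuous at `p` within the closed ball, `z → p` and `w → p`.
-/

noncomputable section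

open Set Metric

namespace Cor

/-- bounded holomorphic functions `u` on the ball such that, for every boundary point `p`,
`u z - u (⟨z, p⟩ p)` tends to zero as `z → p` -/
def RB (d : ℕ) (u : (Fin d → ℂ) → ℂ) : Prop :=
  HInf (Bn d) u ∧ ∀ p : Fin d → ℂ, ∑ i, ‖p i‖ ^ 2 = 1 → ∀ ε : ℝ, 0 < ε → ∃ η : ℝ, 0 < η ∧
    ∀ z ∈ Bn d, ∑ i, ‖z i - p i‖ ^ 2 < η → ‖u z - u (fun i => ip p z * p i)‖ ≤ ε

theorem RB_slice {d : ℕ} {p : Fin d → ℂ} (hp : ∑ i, ‖p i‖ ^ 2 = 1) {t : ℂ} (ht : ‖t‖ < 1) :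
    (fun i => t * p i) ∈ Bn d := by
  show ∑ i, ‖t * p i‖ ^ 2 < 1
  have h1 : ∑ i, ‖t * p i‖ ^ 2 = ‖t‖ ^ 2 := by
    have h2 : ∀ i, ‖t * p i‖ ^ 2 = ‖t‖ ^ 2 * ‖p i‖ ^ 2 := fun i => by rw [norm_mul, mul_pow]
    rw [Finset.sum_congr rfl (fun i _ => h2 i), ← Finset.mul_sum, hp, mul_one]
  rw [h1]
  have h3 := norm_nonneg t
  nlinarith

/-- linearity of `ip` -/
theorem RB_ip_sub {d : ℕ} (p z w : Fin d → ℂ) : ip p (fun i => z i - w i) = ip p z - ip p w := by
  unfold ip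
  rw [← Finset.sum_sub_distrib]
  exact Finset.sum_congr rfl (fun i _ => by ring)

theorem RB_ip_smul {d : ℕ} (p z : Fin d → ℂ) (t : ℂ) : ip p (fun i => t * z i) = t * ip p z := by
  unfold ip
  rw [Finset.mul_sum]
  exact Finset.sum_congr rfl (fun i _ => by ring)

theorem RB_ip_self {d : ℕ} {p : Fin d → ℂ} (hp : ∑ i, ‖p i‖ ^ 2 = 1) : ip p p = 1 := by
  unfold ip
  have h2 : ∀ i, p i * (starRingEnd ℂ) (p i) = ((‖p i‖ ^ 2 : ℝ) : ℂ) := fun i => by
    rw [Complex.mul_conj, Complex.normSq_eq_norm_sq]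
  rw [Finset.sum_congr rfl (fun i _ => h2 i), ← Complex.ofReal_sum, hp]
  simp

theorem RB_near {d : ℕ} {p : Fin d → ℂ} (hp : ∑ i, ‖p i‖ ^ 2 = 1) (z : Fin d → ℂ) :
    ‖1 - ip p z‖ ^ 2 ≤ ∑ i, ‖z i - p i‖ ^ 2 := by
  have h1 := ip_le p (fun i => z i - p i)
  rw [RB_ip_sub, RB_ip_self hp, hp, one_mul, norm_sub_rev] at h1
  exact h1

/-- expansion of the square of the distance -/
theorem RB_expand {d : ℕ} (z p : Fin d → ℂ) :
    ∑ i, ‖z i - p i‖ ^ 2 = ∑ i, ‖z i‖ ^ 2 + ∑ i, ‖p i‖ ^ 2 - 2 * (ip p z).re := by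
  unfold ip
  rw [Complex.re_sum, Finset.mul_sum, ← Finset.sum_add_distrib, ← Finset.sum_sub_distrib]
  refine Finset.sum_congr rfl (fun i _ => ?_)
  rw [← Complex.normSq_eq_norm_sq, ← Complex.normSq_eq_norm_sq, ← Complex.normSq_eq_norm_sq,
    Complex.normSq_sub]

/-- conversely, a point of the ball with `⟨z, p⟩` close to `1` is close to `p` -/
theorem RB_near' {d : ℕ} {p : Fin d → ℂ} (hp : ∑ i, ‖p i‖ ^ 2 = 1) {z : Fin d → ℂ}
    (hz : z ∈ Bn d) : ∑ i, ‖z i - p i‖ ^ 2 ≤ 2 * ‖1 - ip p z‖ := by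
  have hz' : ∑ i, ‖z i‖ ^ 2 < 1 := hz
  rw [RB_expand, hp]
  have h1 := Complex.re_le_norm (1 - ip p z)
  rw [Complex.sub_re, Complex.one_re] at h1
  linarith

theorem RB_const {d : ℕ} (c : ℂ) : RB d (fun _ => c) := by
  refine ⟨⟨differentiableOn_const c, ‖c‖, fun z _ => le_rfl⟩, fun p _ ε hε => ⟨1, one_pos, ?_⟩⟩
  intro z _ _
  simpa using hε.le

theorem RB_add {d : ℕ} {u v : (Fin d → ℂ) → ℂ} (hu : RB d u) (hv : RB d v) :
    RB d (fun z => u z + v z) := by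
  obtain ⟨⟨hu1, Cu, hu2⟩, hu3⟩ := hu
  obtain ⟨⟨hv1, Cv, hv2⟩, hv3⟩ := hv
  refine ⟨⟨hu1.add hv1, Cu + Cv, fun z hz =>
    (norm_add_le _ _).trans (add_le_add (hu2 z hz) (hv2 z hz))⟩, fun p hp ε hε => ?_⟩
  obtain ⟨η₁, h1, h1'⟩ := hu3 p hp (ε / 2) (by linarith)
  obtain ⟨η₂, h2, h2'⟩ := hv3 p hp (ε / 2) (by linarith)
  refine ⟨min η₁ η₂, lt_min h1 h2, fun z hz hzp => ?_⟩
  have a1 := h1' z hz (lt_of_lt_of_le hzp (min_le_left _ _))
  have a2 := h2' z hz (lt_of_lt_of_le hzp (min_le_right _ _))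
  have e : u z + v z - (u (fun i => ip p z * p i) + v (fun i => ip p z * p i)) =
      (u z - u (fun i => ip p z * p i)) + (v z - v (fun i => ip p z * p i)) := by ring
  show ‖u z + v z - (u (fun i => ip p z * p i) + v (fun i => ip p z * p i))‖ ≤ ε
  rw [e]
  exact (norm_add_le _ _).trans (by linarith)

theorem RB_mul {d : ℕ} {u v : (Fin d → ℂ) → ℂ} (hu : RB d u) (hv : RB d v) :
    RB d (fun z => u z * v z) := by
  obtain ⟨⟨hu1, Cu, hu2⟩, hu3⟩ := hu
  obtain ⟨⟨hv1, Cv, hv2⟩, hv3⟩ := hv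
  have hu2' : ∀ z ∈ Bn d, ‖u z‖ ≤ |Cu| := fun z hz => (hu2 z hz).trans (le_abs_self _)
  have hv2' : ∀ z ∈ Bn d, ‖v z‖ ≤ |Cv| := fun z hz => (hv2 z hz).trans (le_abs_self _)
  refine ⟨⟨hu1.mul hv1, |Cu| * |Cv|, fun z hz => ?_⟩, fun p hp ε hε => ?_⟩
  · rw [norm_mul]
    exact mul_le_mul (hu2' z hz) (hv2' z hz) (norm_nonneg _) (abs_nonneg _)
  have hK : 0 < |Cu| + |Cv| + 1 := by positivity
  set δ := ε / (|Cu| + |Cv| + 1) with hδ
  have hδ0 : 0 < δ := div_pos hε hK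
  obtain ⟨η₁, h1, h1'⟩ := hu3 p hp δ hδ0
  obtain ⟨η₂, h2, h2'⟩ := hv3 p hp δ hδ0
  refine ⟨min η₁ η₂, lt_min h1 h2, fun z hz hzp => ?_⟩
  have a1 := h1' z hz (lt_of_lt_of_le hzp (min_le_left _ _))
  have a2 := h2' z hz (lt_of_lt_of_le hzp (min_le_right _ _))
  have hw : (fun i => ip p z * p i) ∈ Bn d := RB_slice hp (ip_ball hp hz)
  have e : u z * v z - u (fun i => ip p z * p i) * v (fun i => ip p z * p i) =
      (u z - u (fun i => ip p z * p i)) * v z +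
        u (fun i => ip p z * p i) * (v z - v (fun i => ip p z * p i)) := by ring
  show ‖u z * v z - u (fun i => ip p z * p i) * v (fun i => ip p z * p i)‖ ≤ ε
  rw [e]
  refine (norm_add_le _ _).trans ?_
  rw [norm_mul, norm_mul]
  have b1 : ‖u z - u (fun i => ip p z * p i)‖ * ‖v z‖ ≤ δ * |Cv| :=
    mul_le_mul a1 (hv2' z hz) (norm_nonneg _) hδ0.le
  have b2 : ‖u (fun i => ip p z * p i)‖ * ‖v z - v (fun i => ip p z * p i)‖ ≤ |Cu| * δ :=
    mul_le_mul (hu2' _ hw) a2 (norm_nonneg _) (abs_nonneg _)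
  have b3 : δ * (|Cu| + |Cv| + 1) = ε := div_mul_cancel₀ _ hK.ne'
  nlinarith

theorem RB_lim {d : ℕ} {u : (Fin d → ℂ) → ℂ} (hd : HInf (Bn d) u)
    (hu : ∀ ε : ℝ, 0 < ε → ∃ v, RB d v ∧ ∀ z ∈ Bn d, ‖u z - v z‖ ≤ ε) : RB d u := by
  refine ⟨hd, fun p hp ε hε => ?_⟩
  obtain ⟨v, hv, huv⟩ := hu (ε / 3) (by linarith)
  obtain ⟨η, h1, h1'⟩ := hv.2 p hp (ε / 3) (by linarith)
  refine ⟨η, h1, fun z hz hzp => ?_⟩
  have hw : (fun i => ip p z * p i) ∈ Bn d := RB_slice hp (ip_ball hp hz)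
  have a1 := h1' z hz hzp
  have a2 := huv z hz
  have a3 := huv _ hw
  have e : u z - u (fun i => ip p z * p i) =
      (u z - v z) + (v z - v (fun i => ip p z * p i)) +
        (v (fun i => ip p z * p i) - u (fun i => ip p z * p i)) := by ring
  rw [e]
  refine (norm_add₃_le).trans ?_
  rw [norm_sub_rev (v (fun i => ip p z * p i)) (u (fun i => ip p z * p i))]
  linarith

theorem RB_ip_diff {d : ℕ} (e : Fin d → ℂ) : Differentiable ℂ (fun z : Fin d → ℂ => ip e z) := by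
  unfold ip
  fun_prop

/-- ridge functions -/
theorem RB_ridge {d : ℕ} {e : Fin d → ℂ} (he : ∑ i, ‖e i‖ ^ 2 = 1) {h : ℂ → ℂ} (hh : H1 h) :
    RB d (fun z => h (ip e z)) := by
  obtain ⟨hh1, C, hh2⟩ := hh
  have hm : ∀ z ∈ Bn d, ip e z ∈ ball (0 : ℂ) 1 := fun z hz => by
    rw [mem_ball_zero_iff]
    exact ip_ball he hz
  refine ⟨⟨?_, C, fun z hz => hh2 _ (hm z hz)⟩, fun p hp ε hε => ?_⟩
  · exact hh1.comp (RB_ip_diff e).differentiableOn hm
  have hl : ‖ip e p‖ ^ 2 ≤ 1 := by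
    have := ip_le e p
    rwa [he, hp, one_mul] at this
  have hw : ∀ z, ip e (fun i => ip p z * p i) = ip p z * ip e p := fun z => RB_ip_smul e p _
  by_cases hl1 : ‖ip e p‖ ^ 2 = 1
  · -- the directions coincide
    refine ⟨1, one_pos, fun z hz _ => ?_⟩
    have h0 : ∑ i, ‖p i - ip e p * e i‖ ^ 2 = 0 := by
      have h3 := RB_expand p (fun i => ip e p * e i)
      rw [h3, hp]
      have h4 : ∑ i, ‖ip e p * e i‖ ^ 2 = 1 := by
        have h2 : ∀ i, ‖ip e p * e i‖ ^ 2 = ‖ip e p‖ ^ 2 * ‖e i‖ ^ 2 := fun i => by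
          rw [norm_mul, mul_pow]
        rw [Finset.sum_congr rfl (fun i _ => h2 i), ← Finset.mul_sum, he, mul_one, hl1]
      have h5 : ip (fun i => ip e p * e i) p = (starRingEnd ℂ) (ip e p) * ip e p := by
        conv_lhs => unfold ip
        conv_rhs => rw [show ip e p = ∑ i, p i * (starRingEnd ℂ) (e i) from rfl]
        rw [Finset.mul_sum]
        refine Finset.sum_congr rfl (fun i _ => ?_)
        rw [map_mul]
        ring
      have h55 : (starRingEnd ℂ) (ip e p) * ip e p = 1 := by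
        rw [mul_comm, Complex.mul_conj, Complex.normSq_eq_norm_sq, hl1]
        simp
      rw [h4, h5, h55]
      simp
      norm_num
    have h6 : ∀ i, p i = ip e p * e i := by
      intro i
      have h7 := (Finset.sum_eq_zero_iff_of_nonneg (fun i _ => by positivity)).mp h0 i
        (Finset.mem_univ i)
      have h8 : ‖p i - ip e p * e i‖ = 0 := by
        exact pow_eq_zero_iff (two_ne_zero) |>.mp h7
      exact sub_eq_zero.mp (norm_eq_zero.mp h8)
    have h9 : ip p z = (starRingEnd ℂ) (ip e p) * ip e z := by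
      conv_lhs => unfold ip
      conv_rhs => rw [show ip e z = ∑ i, z i * (starRingEnd ℂ) (e i) from rfl]
      rw [Finset.mul_sum]
      refine Finset.sum_congr rfl (fun i _ => ?_)
      conv_lhs => rw [h6 i, map_mul]
      ring
    have h10 : ip e (fun i => ip p z * p i) = ip e z := by
      rw [hw, h9]
      have : (starRingEnd ℂ) (ip e p) * ip e p = 1 := by
        rw [mul_comm, Complex.mul_conj, Complex.normSq_eq_norm_sq, hl1]
        simp
      linear_combination ip e z * this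
    show ‖h (ip e z) - h (ip e (fun i => ip p z * p i))‖ ≤ ε
    rw [h10, sub_self, norm_zero]
    exact hε.le
  · have hl2 : ‖ip e p‖ < 1 := by
      have h3 := norm_nonneg (ip e p)
      have h4 : ‖ip e p‖ ^ 2 < 1 := lt_of_le_of_ne hl hl1
      nlinarith
    have hlb : ip e p ∈ ball (0 : ℂ) 1 := by rwa [mem_ball_zero_iff]
    have hc : ContinuousAt h (ip e p) :=
      (hh1.differentiableAt (isOpen_ball.mem_nhds hlb)).continuousAt
    obtain ⟨r, hr, hr'⟩ := Metric.continuousAt_iff.mp hc (ε / 2) (by linarith)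
    refine ⟨r ^ 2, by positivity, fun z hz hzp => ?_⟩
    have h1 : ‖ip e z - ip e p‖ < r := by
      have h2 := ip_le e (fun i => z i - p i)
      rw [RB_ip_sub, he, one_mul] at h2
      exact lt_of_pow_lt_pow_left₀ 2 hr.le (lt_of_le_of_lt h2 hzp)
    have h2 : ‖ip e (fun i => ip p z * p i) - ip e p‖ < r := by
      have h3 : ip e (fun i => ip p z * p i) - ip e p = -((1 - ip p z) * ip e p) := by
        rw [hw]
        ring
      rw [h3, norm_neg, norm_mul]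
      have h4 : ‖1 - ip p z‖ < r :=
        lt_of_pow_lt_pow_left₀ 2 hr.le (lt_of_le_of_lt (RB_near hp z) hzp)
      have h5 := norm_nonneg (1 - ip p z)
      nlinarith [norm_nonneg (ip e p)]
    have a1 := hr' (x := ip e z) (by rwa [dist_eq_norm])
    have a2 := hr' (x := ip e (fun i => ip p z * p i)) (by rwa [dist_eq_norm])
    rw [dist_eq_norm] at a1 a2
    have e1 : h (ip e z) - h (ip e (fun i => ip p z * p i)) =
        (h (ip e z) - h (ip e p)) - (h (ip e (fun i => ip p z * p i)) - h (ip e p)) := by ring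
    show ‖h (ip e z) - h (ip e (fun i => ip p z * p i))‖ ≤ ε
    rw [e1]
    refine (norm_sub_le _ _).trans ?_
    linarith

/-- the closed ball is compact -/
theorem RB_compact (d : ℕ) : IsCompact {z : Fin d → ℂ | ∑ i, ‖z i‖ ^ 2 ≤ 1} := by
  refine Metric.isCompact_of_isClosed_isBounded ?_ ?_
  · exact isClosed_le (by fun_prop) continuous_const
  · refine (Metric.isBounded_closedBall (x := (0 : Fin d → ℂ)) (r := 1)).subset ?_
    intro z hz
    have hz' : ∑ i, ‖z i‖ ^ 2 ≤ 1 := hz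
    rw [mem_closedBall_zero_iff, pi_norm_le_iff_of_nonneg zero_le_one]
    intro i
    have h1 : ‖z i‖ ^ 2 ≤ ∑ i, ‖z i‖ ^ 2 :=
      Finset.single_le_sum (f := fun i => ‖z i‖ ^ 2) (fun i _ => by positivity)
        (Finset.mem_univ i)
    have h2 := norm_nonneg (z i)
    nlinarith

/-- closeness in the Euclidean norm implies closeness in the maximum norm -/
theorem RB_dist {d : ℕ} {z p : Fin d → ℂ} {r : ℝ} (hr : 0 < r)
    (h : ∑ i, ‖z i - p i‖ ^ 2 < r ^ 2) : dist z p < r := by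
  rw [dist_pi_lt_iff hr]
  intro i
  rw [dist_eq_norm]
  have h1 : ‖z i - p i‖ ^ 2 ≤ ∑ i, ‖z i - p i‖ ^ 2 :=
    Finset.single_le_sum (f := fun i => ‖z i - p i‖ ^ 2) (fun i _ => by positivity)
      (Finset.mem_univ i)
  exact lt_of_pow_lt_pow_left₀ 2 hr.le (lt_of_le_of_lt h1 h)

/-- the ball algebra -/
theorem RB_cont {d : ℕ} {u : (Fin d → ℂ) → ℂ} (hu : DifferentiableOn ℂ u (Bn d))
    (hc : ContinuousOn u {z | ∑ i, ‖z i‖ ^ 2 ≤ 1}) : RB d u := by
  obtain ⟨C, hC⟩ := (RB_compact d).exists_bound_of_continuousOn hc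
  have hsub : ∀ z ∈ Bn d, z ∈ {z : Fin d → ℂ | ∑ i, ‖z i‖ ^ 2 ≤ 1} := fun z hz => by
    have h0 : ∑ i, ‖z i‖ ^ 2 < 1 := hz
    exact h0.le
  refine ⟨⟨hu, C, fun z hz => hC z (hsub z hz)⟩, fun p hp ε hε => ?_⟩
  have hpm : p ∈ {z : Fin d → ℂ | ∑ i, ‖z i‖ ^ 2 ≤ 1} := hp.le
  obtain ⟨r, hr, hr'⟩ := Metric.continuousWithinAt_iff.mp (hc p hpm) (ε / 2) (by linarith)
  refine ⟨r ^ 2, by positivity, fun z hz hzp => ?_⟩
  have hw : (fun i => ip p z * p i) ∈ Bn d := RB_slice hp (ip_ball hp hz)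
  have a1 := hr' (x := z) (hsub z hz) (RB_dist hr hzp)
  have h2 : ∑ i, ‖ip p z * p i - p i‖ ^ 2 < r ^ 2 := by
    have h3 : ∀ i, ‖ip p z * p i - p i‖ ^ 2 = ‖1 - ip p z‖ ^ 2 * ‖p i‖ ^ 2 := fun i => by
      rw [← mul_pow, ← norm_mul, ← norm_neg]
      congr 2
      ring
    rw [Finset.sum_congr rfl (fun i _ => h3 i), ← Finset.mul_sum, hp, mul_one]
    exact lt_of_le_of_lt (RB_near hp z) hzp
  have a2 := hr' (x := fun i => ip p z * p i) (hsub _ hw) (RB_dist hr h2)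
  rw [dist_eq_norm] at a1 a2
  have e1 : u z - u (fun i => ip p z * p i) =
      (u z - u p) - (u (fun i => ip p z * p i) - u p) := by ring
  rw [e1]
  refine (norm_sub_le _ _).trans ?_
  linarith

end Cor
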