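import Pool.Agent.helper45.Ball.RB
import Pool.Agent.helper45.Ball.Gl2
import Pool.Agent.helper45.Ball.Ch

/-!
Module BALL-RC: the corona theorem on the ball for one arbitrary generator and generators in `RB`.

PROOF of `rb_cor`.  Suppose there is no solution, let `χ` be a character of `H^∞(Bn d)` with
`χ (f j) = 0` for all `j` (`exists_char`).  Let `p i = χ (z_i)`, `s^2 = ∑ |p i|^2`.  The function
`ip p` is bounded by `s` on the ball (`ip_le`), and `χ (ip p) = ∑ conj(p i) p i = s^2`, so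
`s^2 ≤ s`, `s ≤ 1`.
(1) `s < 1`: `p ∈ Bn d`; some `f j p ≠ 0`; `gl_point` with `G = f j` and `char_no` (index set
`Option (Fin d)`).
(2) `s = 1`.  For `j ≠ j₀` put `φ j t = f j (t p)` (`H1`, `RB_slice`),
`c j = χ (φ j ∘ ip p)`, `ε = δ / (4 k)` (`k ≥ 1`, there is `j₀`).  Let `η > 0` be such that
`|f j z - φ j (ip p z)| ≤ ε` for all `j ≠ j₀` and `z ∈ Bn d` with `∑ |z_i - p_i|^2 < η`.
Claim: for every `G` with `HInf (Bn d) G`, `χ G = 0` and every `r > 0` there is `z ∈ Bn d` with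
`|G z| < r`, `|1 - ip p z| < r`, `|φ j (ip p z) - c j| < r` for all `j ≠ j₀`.  Otherwise the family
`G`, `1 - ip p z`, `φ j (ip p z) - c j` (`j ≠ j₀`; put the zero function for `j = j₀`; index set
`Fin (k + 2)`) is bounded below, all members but the first are functions of `ip p z`, so `ballDir`
gives a Bezout equation, which is impossible by `char_no` because `χ` vanishes on all members
(`χ (1 - ip p) = 1 - s^2 = 0`).
Apply the claim with `G = f j₀`, `r = min ε (η / 2)`: `∑ |z_i - p_i|^2 < η` by `RB_near'`, and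
`δ ≤ ∑ |f j z| ≤ ε + ∑_{j ≠ j₀} (|c j| + 2 ε)`; so `|c j| ≥ 2 ε` for some `j ≠ j₀` (otherwise the
right side is less than `ε + 4 ε (k - 1) ≤ δ`).  Apply the claim with `G = f j` for this `j`,
`r = min (ε / 2) (η / 2)`: `|c j| ≤ |φ j - c j| + |φ j - f j z| + |f j z| < ε/2 + ε + ε/2`, a
contradiction.
`rb_gen`: `gel` (Pool/Agent/helper30/Cor/Gel.lean) for the class `RB d`.
-/

noncomputable section

open Set Metric

namespace Cor

theorem RBc_coord {d : ℕ} (i : Fin d) : HInf (Bn d) (fun z => z i) := by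
  refine ⟨fun z _ => (differentiableAt_apply i z).differentiableWithinAt, 1, fun z hz => ?_⟩
  have h1 : ‖z i‖ ^ 2 ≤ ∑ i, ‖z i‖ ^ 2 :=
    Finset.single_le_sum (f := fun i => ‖z i‖ ^ 2) (fun _ _ => by positivity) (Finset.mem_univ i)
  have h2 : ∑ i, ‖z i‖ ^ 2 < 1 := hz
  nlinarith [norm_nonneg (z i)]

theorem RBc_ip {d : ℕ} (p : Fin d → ℂ) : HInf (Bn d) (ip p) := by
  have h := HInf_sum (Ω := Bn d) Finset.univ (f := fun i z => z i * (starRingEnd ℂ) (p i))
    (fun i _ => HInf_mul (RBc_coord i) (HInf_const _ _))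
  exact h

theorem RBc_ipc {d : ℕ} (χ : HA (Bn d) →ₐ[ℂ] ℂ) (q : Fin d → ℂ) :
    χ (HX (Bn d) (ip q)) = ∑ i, χ (HX (Bn d) (fun z => z i)) * (starRingEnd ℂ) (q i) := by
  have h1 : HX (Bn d) (ip q) =
      ∑ i, HX (Bn d) (fun z => z i * (starRingEnd ℂ) (q i)) :=
    HX_sum Finset.univ (f := fun i z => z i * (starRingEnd ℂ) (q i))
      (fun i _ => HInf_mul (RBc_coord i) (HInf_const _ _))
  rw [h1, map_sum]
  refine Finset.sum_congr rfl fun i _ => ?_
  rw [HX_mul (RBc_coord i) (HInf_const _ _), HX_const, map_mul, AlgHom.commutes]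
  rfl

theorem RBc_sub {d : ℕ} (χ : HA (Bn d) →ₐ[ℂ] ℂ) {u : (Fin d → ℂ) → ℂ} (hu : HInf (Bn d) u)
    (c : ℂ) : HInf (Bn d) (fun z => u z - c) ∧
      χ (HX (Bn d) (fun z => u z - c)) = χ (HX (Bn d) u) - c := by
  have h0 : (fun z => u z - c) = fun z => u z + (fun _ : Fin d → ℂ => -c) z := by
    funext z
    ring
  rw [h0]
  refine ⟨HInf_add hu (HInf_const _ _), ?_⟩
  rw [HX_add hu (HInf_const _ _), HX_const, map_add, AlgHom.commutes]
  simp [sub_eq_add_neg]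

theorem RBc_norm {d : ℕ} (χ : HA (Bn d) →ₐ[ℂ] ℂ) (hχ : ∀ x, ‖χ x‖ ≤ ‖x‖) :
    ∑ i, ‖χ (HX (Bn d) (fun z => z i))‖ ^ 2 ≤ 1 := by
  set p : Fin d → ℂ := fun i => χ (HX (Bn d) (fun z => z i)) with hp
  set S : ℝ := ∑ i, ‖p i‖ ^ 2 with hS
  have hS0 : 0 ≤ S := Finset.sum_nonneg fun i _ => by positivity
  have h1 : χ (HX (Bn d) (ip p)) = (S : ℂ) := by
    rw [RBc_ipc, hS]
    push_cast
    refine Finset.sum_congr rfl fun i _ => ?_
    show p i * (starRingEnd ℂ) (p i) = _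
    rw [Complex.mul_conj, Complex.normSq_eq_norm_sq]
    push_cast
    rfl
  have h2 : ‖HX (Bn d) (ip p)‖ ≤ Real.sqrt S := by
    refine HX_norm (RBc_ip p) (Real.sqrt_nonneg _) fun z hz => ?_
    apply Real.le_sqrt_of_sq_le
    have h3 := ip_le p z
    have h4 : ∑ i, ‖z i‖ ^ 2 < 1 := hz
    calc ‖ip p z‖ ^ 2 ≤ S * ∑ i, ‖z i‖ ^ 2 := h3
      _ ≤ S * 1 := mul_le_mul_of_nonneg_left h4.le hS0
      _ = S := mul_one S
  have h3 : S ≤ Real.sqrt S := by
    have h4 := (hχ (HX (Bn d) (ip p))).trans h2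
    rw [h1, Complex.norm_real, Real.norm_of_nonneg hS0] at h4
    exact h4
  have h4 := Real.sq_sqrt hS0
  have h5 := Real.sqrt_nonneg S
  by_contra h6
  push Not at h6
  have h7 : 1 < Real.sqrt S := by
    rw [Real.lt_sqrt zero_le_one]
    simpa using h6
  nlinarith

/-- the claim -/
theorem RBc_claim {d k : ℕ} (χ : HA (Bn d) →ₐ[ℂ] ℂ) {p : Fin d → ℂ}
    (hp : ∑ i, ‖p i‖ ^ 2 = 1) (hχp : χ (HX (Bn d) (ip p)) = 1) (φ : Fin k → ℂ → ℂ)
    (hφ : ∀ j, H1 (φ j)) (c : Fin k → ℂ) (hψ : ∀ j, HInf (Bn d) (fun z => φ j (ip p z)))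
    (hc : ∀ j, χ (HX (Bn d) (fun z => φ j (ip p z))) = c j) {G : (Fin d → ℂ) → ℂ}
    (hG : HInf (Bn d) G) (hχG : χ (HX (Bn d) G) = 0) {r : ℝ} (hr : 0 < r) :
    ∃ z ∈ Bn d, ‖G z‖ < r ∧ ‖1 - ip p z‖ < r ∧ ∀ j, ‖φ j (ip p z) - c j‖ < r := by
  by_contra hno
  push Not at hno
  set F : Fin (k + 2) → (Fin d → ℂ) → ℂ :=
    Fin.cons G (Fin.cons (fun z => ip p z - 1) (fun j z => φ j (ip p z) - c j)) with hF
  set Φ : Fin (k + 2) → ℂ → ℂ :=
    Fin.cons (fun _ => 0) (Fin.cons (fun t => t - 1) (fun j t => φ j t - c j)) with hΦ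
  have hF0 : F 0 = G := rfl
  have hF1 : F (Fin.succ 0) = fun z => ip p z - 1 := rfl
  have hF2 : ∀ j : Fin k, F (Fin.succ (Fin.succ j)) = fun z => φ j (ip p z) - c j := fun j => rfl
  have hΦ1 : Φ (Fin.succ 0) = fun t => t - 1 := rfl
  have hΦ2 : ∀ j : Fin k, Φ (Fin.succ (Fin.succ j)) = fun t => φ j t - c j := fun j => rfl
  have hFH : ∀ j, HInf (Bn d) (F j) := by
    intro j
    refine Fin.cases ?_ (fun i => ?_) j
    · rw [hF0]; exact hG
    · refine Fin.cases ?_ (fun i => ?_) i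
      · rw [hF1]; exact (RBc_sub χ (RBc_ip p) 1).1
      · rw [hF2]; exact (RBc_sub χ (hψ i) (c i)).1
  have hFχ : ∀ j, χ (HX (Bn d) (F j)) = 0 := by
    intro j
    refine Fin.cases ?_ (fun i => ?_) j
    · rw [hF0]; exact hχG
    · refine Fin.cases ?_ (fun i => ?_) i
      · rw [hF1, (RBc_sub χ (RBc_ip p) 1).2, hχp, sub_self]
      · rw [hF2, (RBc_sub χ (hψ i) (c i)).2, hc, sub_self]
  have hsub : ∀ (h : ℂ → ℂ) (a : ℂ), H1 h → H1 (fun t => h t - a) := by
    rintro h a ⟨h1, C, hC⟩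
    exact ⟨h1.sub_const a, C + ‖a‖, fun z hz => (norm_sub_le _ _).trans
      (by linarith [hC z hz])⟩
  have hid : H1 (fun t => t) :=
    ⟨differentiableOn_id, 1, fun z hz => by
      rw [mem_ball_zero_iff] at hz
      exact hz.le⟩
  have hFΦ : ∀ j, j ≠ 0 → H1 (Φ j) ∧ ∀ z ∈ Bn d, F j z = Φ j (ip p z) := by
    intro j hj
    obtain ⟨i, rfl⟩ := Fin.exists_succ_eq.2 hj
    refine Fin.cases ?_ (fun i => ?_) i
    · rw [hF1, hΦ1]
      exact ⟨hsub _ 1 hid, fun z _ => rfl⟩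
    · rw [hF2, hΦ2]
      exact ⟨hsub _ (c i) (hφ i), fun z _ => rfl⟩
  have hFb : ∀ z ∈ Bn d, r ≤ ∑ j, ‖F j z‖ := by
    intro z hz
    by_contra hlt
    push Not at hlt
    have hle : ∀ j, ‖F j z‖ < r := fun j =>
      (Finset.single_le_sum (f := fun j => ‖F j z‖) (fun _ _ => norm_nonneg _)
        (Finset.mem_univ j)).trans_lt hlt
    have a0 : ‖G z‖ < r := hle 0
    have a1 : ‖1 - ip p z‖ < r := by
      have := hle (Fin.succ 0)
      rw [hF1] at this
      rw [norm_sub_rev]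
      exact this
    obtain ⟨j, hj⟩ := hno z hz a0 a1
    have a2 := hle (Fin.succ (Fin.succ j))
    rw [hF2] at a2
    exact absurd a2 (not_lt.2 hj)
  obtain ⟨g, hg, hg1⟩ := ballDir hp F 0 Φ hFH hFΦ hr hFb
  exact char_no χ hFH hFχ hg hg1

theorem rb_cor {d k : ℕ} (f : Fin k → (Fin d → ℂ) → ℂ) (j₀ : Fin k)
    (hf : ∀ j, HInf (Bn d) (f j)) (hT : ∀ j, j ≠ j₀ → RB d (f j)) {δ : ℝ} (hδ : 0 < δ)
    (hb : ∀ z ∈ Bn d, δ ≤ ∑ j, ‖f j z‖) :
    ∃ A : Fin k → (Fin d → ℂ) → ℂ, (∀ j, HInf (Bn d) (A j)) ∧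
      ∀ z ∈ Bn d, ∑ j, f j z * A j z = 1 := by
  by_contra hno
  obtain ⟨χ, hχn, hχf⟩ := exists_char (Bn_open d) f hf hno
  have hSle := RBc_norm χ hχn
  set p : Fin d → ℂ := fun i => χ (HX (Bn d) (fun z => z i)) with hp
  rcases hSle.lt_or_eq with hlt | heq
  · -- an interior point
    have hpB : p ∈ Bn d := hlt
    obtain ⟨j, hj⟩ : ∃ j, f j p ≠ 0 := by
      by_contra h0
      push Not at h0
      have h1 := hb p hpB
      simp only [h0, norm_zero, Finset.sum_const_zero] at h1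
      linarith
    obtain ⟨A, B, hA, hB, hAB⟩ := gl_point hpB (hf j) hj
    refine char_no χ (κ := Option (Fin d)) (f := fun o => o.elim (f j) (fun i z => z i - p i))
      (A := fun o => o.elim A B) ?_ ?_ ?_ ?_
    · rintro (_ | i)
      · exact hf j
      · exact (RBc_sub χ (RBc_coord i) (p i)).1
    · rintro (_ | i)
      · exact hχf j
      · exact (RBc_sub χ (RBc_coord i) (p i)).2.trans (sub_self _)
    · rintro (_ | i)
      · exact hA
      · exact hB i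
    · intro z hz
      rw [Fintype.sum_option]
      exact hAB z hz
  · -- a boundary point
    have hχp : χ (HX (Bn d) (ip p)) = 1 := by
      rw [RBc_ipc]
      have h1 : ∀ i, χ (HX (Bn d) (fun z => z i)) * (starRingEnd ℂ) (p i) =
          ((‖p i‖ ^ 2 : ℝ) : ℂ) := by
        intro i
        show p i * (starRingEnd ℂ) (p i) = _
        rw [Complex.mul_conj, Complex.normSq_eq_norm_sq]
      rw [Finset.sum_congr rfl fun i _ => h1 i, ← Complex.ofReal_sum, heq, Complex.ofReal_one]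
    set φ : Fin k → ℂ → ℂ := fun j t => f j (fun i => t * p i) with hφd
    have hφ : ∀ j, H1 (φ j) := by
      intro j
      obtain ⟨h1, C, hC⟩ := hf j
      refine ⟨?_, C, fun t ht => hC _ (RB_slice heq (by rwa [mem_ball_zero_iff] at ht))⟩
      have h2 : DifferentiableOn ℂ (fun t : ℂ => (fun i => t * p i)) (ball 0 1) := by
        rw [differentiableOn_pi]
        intro i
        exact differentiableOn_id.mul_const (p i)
      exact h1.comp h2 fun t ht => RB_slice heq (by rwa [mem_ball_zero_iff] at ht)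
    have hψ : ∀ j, HInf (Bn d) (fun z => φ j (ip p z)) := by
      intro j
      obtain ⟨h1, C, hC⟩ := hφ j
      have h3 : MapsTo (ip p) (Bn d) (ball 0 1) := fun z hz => by
        rw [mem_ball_zero_iff]
        exact ip_ball heq hz
      exact ⟨h1.comp (RBc_ip p).1 h3, C, fun z hz => hC _ (h3 hz)⟩
    set c : Fin k → ℂ := fun j => χ (HX (Bn d) (fun z => φ j (ip p z))) with hc
    have claim := fun (G : (Fin d → ℂ) → ℂ) (hG : HInf (Bn d) G) (h0 : χ (HX (Bn d) G) = 0)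
      (r : ℝ) (hr : 0 < r) => RBc_claim χ heq hχp φ hφ c hψ (fun j => rfl) hG h0 hr
    have hk : 0 < (k : ℝ) := by
      have : 0 < k := Fin.pos j₀
      exact_mod_cast this
    set ε : ℝ := δ / (4 * k) with hε
    have hε0 : 0 < ε := by positivity
    have hεk : k * (4 * ε) = δ := by rw [hε]; field_simp
    have hη : ∀ j, ∃ η : ℝ, 0 < η ∧ (j ≠ j₀ → ∀ z ∈ Bn d, ∑ i, ‖z i - p i‖ ^ 2 < η →
        ‖f j z - φ j (ip p z)‖ ≤ ε) := by
      intro j
      by_cases hj : j = j₀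
      · exact ⟨1, one_pos, fun h => absurd hj h⟩
      · obtain ⟨η, h1, h2⟩ := (hT j hj).2 p heq ε hε0
        exact ⟨η, h1, fun _ => h2⟩
    choose η' hη' Hη' using hη
    obtain ⟨η, hη0, Hη⟩ : ∃ η : ℝ, 0 < η ∧ ∀ j, j ≠ j₀ → ∀ z ∈ Bn d,
        ∑ i, ‖z i - p i‖ ^ 2 < η → ‖f j z - φ j (ip p z)‖ ≤ ε := by
      have : Nonempty (Fin k) := ⟨j₀⟩
      obtain ⟨j₁, hj₁⟩ := Finite.exists_min η'
      exact ⟨η' j₁, hη' j₁, fun j hj z hz h => Hη' j hj z hz (h.trans_le (hj₁ j))⟩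
    -- first application
    obtain ⟨j, hj, hcj⟩ : ∃ j, j ≠ j₀ ∧ 2 * ε ≤ ‖c j‖ := by
      by_contra hsm
      push Not at hsm
      obtain ⟨z, hz, h1, h2, h3⟩ := claim (f j₀) (hf j₀) (hχf j₀) (min ε (η / 2))
        (lt_min hε0 (by positivity))
      have h4 : ∑ i, ‖z i - p i‖ ^ 2 < η := by
        have h5 := RB_near' heq hz
        have h6 := h2.trans_le (min_le_right _ _)
        linarith
      have h7 : ∀ j, ‖f j z‖ < 4 * ε := by
        intro j
        by_cases hj : j = j₀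
        · subst hj
          have := h1.trans_le (min_le_left _ _)
          linarith
        · have a1 := Hη j hj z hz h4
          have a2 := (h3 j).trans_le (min_le_left _ _)
          have a3 := hsm j hj
          calc ‖f j z‖ = ‖(f j z - φ j (ip p z)) + (φ j (ip p z) - c j) + c j‖ := by
                congr 1; ring
            _ ≤ ‖f j z - φ j (ip p z)‖ + ‖φ j (ip p z) - c j‖ + ‖c j‖ := norm_add₃_le
            _ < 4 * ε := by linarith
      have h8 : ∑ j, ‖f j z‖ < ∑ _j : Fin k, 4 * ε :=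
        Finset.sum_lt_sum_of_nonempty ⟨j₀, Finset.mem_univ _⟩ fun j _ => h7 j
      rw [Finset.sum_const, Finset.card_univ, Fintype.card_fin, nsmul_eq_mul, hεk] at h8
      have h9 := hb z hz
      linarith
    -- second application
    obtain ⟨z, hz, h1, h2, h3⟩ := claim (f j) (hf j) (hχf j) (min (ε / 2) (η / 2))
      (lt_min (by positivity) (by positivity))
    have h4 : ∑ i, ‖z i - p i‖ ^ 2 < η := by
      have h5 := RB_near' heq hz
      have h6 := h2.trans_le (min_le_right _ _)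
      linarith
    have a1 := Hη j hj z hz h4
    have a2 := (h3 j).trans_le (min_le_left _ _)
    have a3 := h1.trans_le (min_le_left _ _)
    have a4 : ‖c j‖ ≤ ‖φ j (ip p z) - c j‖ + ‖f j z - φ j (ip p z)‖ + ‖f j z‖ := by
      calc ‖c j‖ = ‖-(φ j (ip p z) - c j) + -(f j z - φ j (ip p z)) + f j z‖ := by
            congr 1; ring
        _ ≤ ‖-(φ j (ip p z) - c j)‖ + ‖-(f j z - φ j (ip p z))‖ + ‖f j z‖ := norm_add₃_le
        _ = _ := by rw [norm_neg, norm_neg]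
    linarith

theorem rb_gen {d k : ℕ} {F : (Fin d → ℂ) → ℂ} (hF : HInf (Bn d) F)
    (f : Fin k → (Fin d → ℂ) → ℂ) (hf : ∀ j, HInf (Bn d) (f j))
    (hfa : ∀ j, ∀ ε > 0, ∃ p, GAlg (RB d) F p ∧ ∀ z ∈ Bn d, ‖f j z - p z‖ ≤ ε)
    {δ : ℝ} (hδ : 0 < δ) (hb : ∀ z ∈ Bn d, δ ≤ ∑ j, ‖f j z‖) :
    ∃ A : Fin k → (Fin d → ℂ) → ℂ, (∀ j, HInf (Bn d) (A j)) ∧
      ∀ z ∈ Bn d, ∑ j, f j z * A j z = 1 := by
  refine gel (Bn_open d) (𝒢 := RB d) (fun u hu => hu.1) (fun u hu c => ?_)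
    (fun k f j₀ hf hT δ hδ hb => rb_cor f j₀ hf hT hδ hb) hF f hf hfa hδ hb
  have h0 : (fun z => u z - c) = fun z => u z + (fun _ : Fin d → ℂ => -c) z := by
    funext z
    ring
  rw [h0]
  exact RB_add hu (RB_const (-c))

end Cor
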