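import Pool.Agent.helper45.Ball.Kos1
import Pool.Agent.helper45.Ball.Kos2
import Pool.Agent.helper45.Ball.Bd
import Pool.Agent.helper45.Ball.PK

/-!
Module BALL-TR: the truncated patching theorem on the Siegel domain.

PROOF.  Let `w j z ζ = ∑ i, WB j i (rho l ζ z) * F i z`, so `NK j ζ z = w j z ζ * KG G ζ (z l)`.
For `z ∈ Sg l`, `ζ ∈ DNB N`: `rho l ζ z ∈ Sg l`, its coordinate `l` is `ζ`; by `WB_le`
`‖w j z ζ‖ ≤ P / im ζ`, `P = k * (14 * D * 2 ^ m * K ^ 2)`.
`NK_meas`: `w j z` is continuous on the open set `DNB N` (`WB_cont`), `KG_meas`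
(`ContinuousOn.measurable_piecewise` or `measurable_of_restrict_of_restrict_compl`).
`NK_le`: `im ζ > 2 (1/2)^N`, `KG_bdd`: `‖NK‖ ≤ P * 2 ^ N * 4 exp (5/3 T)`.
`AB_bezout`: the functions `ζ ↦ NK j ζ z * (z l - ζ)⁻¹` are integrable on `DNB N` (`NK_le`,
`inv_int`, `NK_meas`); so `∑ j, F j z * ∫ NK j ... = ∫ (∑_j ∑_i F j * WB j i * F i) ... = 0`
(`WB_anti`), and `sgm_bezout`.
`AB_le`: `sgm_le` and `corr_bound` with `X = DNB N`, `w = w j z`; `1 / π ≤ 1`.
`AB_hol`, variable `i ≠ l`: `sgm_hol`; and `s ↦ ∫ NK j ζ (update z i s) * (z l - ζ)⁻¹` is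
holomorphic near `z i` by `param_hol` with `V` = the open set of the `s` with
`update z i s ∈ Sg l`, `B ζ = (P 2^N 4 exp (5/3 T)) ‖z l - ζ‖⁻¹` (`WB_hol`, `F` holomorphic).
`AB_hol`, variable `l`: let `V = {t ∈ DNB N | update z l t ∈ Sg l}` (open, contained in
`X = DNB N`), `g t = sgm j (update z l t)`, `g' = L` from `sgm_fderiv`,
`N ζ t = NK j ζ (update z l t)`; apply `pk`: `N ζ` is holomorphic on `V` (`WB_hol`, `KG_diff`),
bounded by `NK_le`, measurable in `ζ` (`NK_meas`), and `N ζ ζ = tau j (update z l ζ)`: with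
`z' = update z l ζ`: `rho l ζ z' = z'` (`rho_self`), `∑ i, WB j i z' * F i z' = tau j z'` (`WB_F`),
`KG G ζ ζ = 1` if `ζ ∈ NB I` for some `I ∈ G` (`KG_one`), and otherwise `WB j i z' = 0` for all `i`
(`WB_zero`) so that both sides are `0`.
`AB_diff`: `osgood_open`.
-/

noncomputable section

open Set Finset MeasureTheory

namespace Cor

variable {Λ : Type*} {d k : ℕ} {l : Fin d} {m N : ℕ} {K T D : ℝ} {G : Finset Nd}
  {lab : ℕ → ℕ → ℕ → Λ} {F : Fin k → (Fin d → ℂ) → ℂ} {S : Λ → Fin k → (Fin d → ℂ) → ℂ}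

theorem DNB_open (N : ℕ) : IsOpen (DNB N) := by
  have h1 : IsOpen {z : ℂ | 1 / 4 < z.re} := isOpen_lt continuous_const Complex.continuous_re
  have h2 : IsOpen {z : ℂ | z.re < 3 / 4} := isOpen_lt Complex.continuous_re continuous_const
  have h3 : IsOpen {z : ℂ | 2 * (1 / 2) ^ N < z.im} :=
    isOpen_lt continuous_const Complex.continuous_im
  have h4 : IsOpen {z : ℂ | z.im < 1} := isOpen_lt Complex.continuous_im continuous_const
  exact h1.inter (h2.inter (h3.inter h4))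

theorem DNB_HP (N : ℕ) : DNB N ⊆ HP := by
  intro z hz
  have h1 : (0 : ℝ) < 2 * (1 / 2) ^ N := by positivity
  exact h1.trans hz.2.2.1

theorem DNB_bdd (N : ℕ) : Bornology.IsBounded (DNB N) := by
  apply (Metric.isBounded_ball (x := (0 : ℂ)) (r := 2)).subset
  intro z hz
  have h0 : 0 < z.im := DNB_HP N hz
  obtain ⟨h1, h2, _, h4⟩ := hz
  rw [Metric.mem_ball, dist_zero_right]
  have h5 := Complex.norm_le_abs_re_add_abs_im z
  rw [abs_of_pos (by linarith : 0 < z.re), abs_of_pos h0] at h5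
  linarith

private theorem Tr_D0 (hD : ∀ u, |dss u| ≤ D) : 0 ≤ D := (abs_nonneg _).trans (hD 0)

private theorem Tr_w_le (hD : ∀ u, |dss u| ≤ D) (hK : 0 ≤ K)
    (hF1 : ∀ j, ∀ z ∈ Sg l, ‖F j z‖ ≤ 1) (hS : BSol l m N K lab F S) (j : Fin k) {ζ : ℂ}
    (hζ : ζ ∈ DNB N) {z : Fin d → ℂ} (hz : z ∈ Sg l) :
    ‖∑ i, WB l m N lab S j i (rho l ζ z) * F i z‖ ≤ k * (14 * D * 2 ^ m * K ^ 2) / ζ.im := by
  have hζ0 : 0 < ζ.im := DNB_HP N hζ
  have h1 : ∀ i ∈ (Finset.univ : Finset (Fin k)), ‖WB l m N lab S j i (rho l ζ z) * F i z‖ ≤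
      14 * D * 2 ^ m * K ^ 2 / ζ.im := by
    intro i _
    have h2 := WB_le hD hK hS j i (rho_mem (DNB_HP N hζ) hz) (by rw [rho_l]; exact hζ)
    rw [rho_l] at h2
    rw [norm_mul]
    calc ‖WB l m N lab S j i (rho l ζ z)‖ * ‖F i z‖
        ≤ ‖WB l m N lab S j i (rho l ζ z)‖ * 1 :=
          mul_le_mul_of_nonneg_left (hF1 i z hz) (norm_nonneg _)
      _ ≤ _ := by rw [mul_one]; exact h2
  refine (norm_sum_le _ _).trans ((Finset.sum_le_card_nsmul _ _ _ h1).trans (le_of_eq ?_))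
  rw [Finset.card_univ, Fintype.card_fin, nsmul_eq_mul]
  ring

theorem NK_meas (hS : BSol l m N K lab F S) (j : Fin k) {z : Fin d → ℂ} (hz : z ∈ Sg l) :
    Measurable ((DNB N).indicator (fun ζ => NK l m N G lab F S j ζ z)) := by
  have h1 : ContinuousOn (fun ζ => ∑ i, WB l m N lab S j i (rho l ζ z) * F i z) (DNB N) := by
    refine continuousOn_finsetSum _ fun i _ => ?_
    exact (WB_cont hS j i hz).mul continuousOn_const
  have h2 : Measurable ((DNB N).indicator
      (fun ζ => ∑ i, WB l m N lab S j i (rho l ζ z) * F i z)) := by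
    classical
    rw [← Set.piecewise_eq_indicator]
    exact ContinuousOn.measurable_piecewise h1 continuousOn_const (DNB_open N).measurableSet
  have h3 : (DNB N).indicator (fun ζ => NK l m N G lab F S j ζ z) =
      fun ζ => (DNB N).indicator (fun ζ => ∑ i, WB l m N lab S j i (rho l ζ z) * F i z) ζ *
        KG G ζ (z l) := by
    funext ζ
    by_cases h : ζ ∈ DNB N
    · rw [Set.indicator_of_mem h, Set.indicator_of_mem h]
      rfl
    · rw [Set.indicator_of_notMem h, Set.indicator_of_notMem h, zero_mul]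
  rw [h3]
  exact h2.mul (KG_meas G (z l))

theorem NK_le (hT : ∀ z ∈ HP, ∑ p ∈ G, om z (cen p) ≤ T) (hD : ∀ u, |dss u| ≤ D) (hK : 0 ≤ K)
    (hF1 : ∀ j, ∀ z ∈ Sg l, ‖F j z‖ ≤ 1) (hS : BSol l m N K lab F S) (j : Fin k) {ζ : ℂ}
    (hζ : ζ ∈ DNB N) {z : Fin d → ℂ} (hz : z ∈ Sg l) :
    ‖NK l m N G lab F S j ζ z‖ ≤
      k * (14 * D * 2 ^ m * K ^ 2) * 2 ^ N * (4 * Real.exp (5 / 3 * T)) := by
  have hζ0 : 0 < ζ.im := DNB_HP N hζ
  have hD0 := Tr_D0 hD
  have h1 := Tr_w_le hD hK hF1 hS j hζ hz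
  have h2 := KG_bdd hT ζ (Sg_HP hz)
  have hP : (0 : ℝ) ≤ k * (14 * D * 2 ^ m * K ^ 2) := by positivity
  have h3 : (k : ℝ) * (14 * D * 2 ^ m * K ^ 2) / ζ.im ≤ k * (14 * D * 2 ^ m * K ^ 2) * 2 ^ N := by
    have h4 : 2 * (1 / 2) ^ N < ζ.im := hζ.2.2.1
    have h5 : (2 : ℝ) ^ N * (2 * (1 / 2) ^ N) = 2 := by
      rw [mul_left_comm, ← mul_pow]
      norm_num
    have h6 : (2 : ℝ) ^ N * (2 * (1 / 2) ^ N) ≤ 2 ^ N * ζ.im :=
      mul_le_mul_of_nonneg_left h4.le (by positivity)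
    have h8 : (1 : ℝ) ≤ 2 ^ N * ζ.im := by linarith
    rw [div_le_iff₀ hζ0, mul_assoc (k * (14 * D * 2 ^ m * K ^ 2) : ℝ)]
    exact le_mul_of_one_le_right hP h8
  have h7 : NK l m N G lab F S j ζ z =
      (∑ i, WB l m N lab S j i (rho l ζ z) * F i z) * KG G ζ (z l) := rfl
  rw [h7, norm_mul]
  exact mul_le_mul (h1.trans h3) h2 (norm_nonneg _) (by positivity)

private theorem Tr_ae (hS : BSol l m N K lab F S) (j : Fin k) {z : Fin d → ℂ} (hz : z ∈ Sg l)
    (t : ℂ) :
    AEStronglyMeasurable (fun ζ => NK l m N G lab F S j ζ z * (t - ζ)⁻¹)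
      (volume.restrict (DNB N)) := by
  have h1 : AEStronglyMeasurable (fun ζ => NK l m N G lab F S j ζ z)
      (volume.restrict (DNB N)) := by
    rw [← aestronglyMeasurable_indicator_iff (DNB_open N).measurableSet]
    exact (NK_meas hS j hz).aestronglyMeasurable
  exact h1.mul (measurable_const.sub measurable_id).inv.aestronglyMeasurable

private theorem Tr_int (hT : ∀ z ∈ HP, ∑ p ∈ G, om z (cen p) ≤ T) (hK : 0 ≤ K)
    (hF1 : ∀ j, ∀ z ∈ Sg l, ‖F j z‖ ≤ 1) (hS : BSol l m N K lab F S) (j : Fin k)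
    {z : Fin d → ℂ} (hz : z ∈ Sg l) (t : ℂ) :
    IntegrableOn (fun ζ => NK l m N G lab F S j ζ z * (t - ζ)⁻¹) (DNB N) := by
  obtain ⟨D, _, hD⟩ := dss_bdd
  have h1 : IntegrableOn (fun ζ : ℂ =>
      (k * (14 * D * 2 ^ m * K ^ 2) * 2 ^ N * (4 * Real.exp (5 / 3 * T))) * ‖t - ζ‖⁻¹)
      (DNB N) := (inv_int (DNB_open N).measurableSet (DNB_bdd N) t).const_mul _
  refine Integrable.mono' h1 (Tr_ae hS j hz t) ?_
  filter_upwards [ae_restrict_mem (DNB_open N).measurableSet] with ζ hζ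
  rw [norm_mul, norm_inv]
  exact mul_le_mul_of_nonneg_right (NK_le hT hD hK hF1 hS j hζ hz) (by positivity)

theorem AB_bezout (hT : ∀ z ∈ HP, ∑ p ∈ G, om z (cen p) ≤ T) (hK : 0 ≤ K)
    (hF1 : ∀ j, ∀ z ∈ Sg l, ‖F j z‖ ≤ 1) (hS : BSol l m N K lab F S) {z : Fin d → ℂ}
    (hz : z ∈ Sg l) (hzl : z l ∈ DNB N) : ∑ j, F j z * AB l m N G lab F S j z = 1 := by
  have hpt : ∀ ζ : ℂ, ∑ j, F j z * (NK l m N G lab F S j ζ z * (z l - ζ)⁻¹) = 0 := by
    intro ζ
    have h1 : ∑ j, F j z * (∑ i, WB l m N lab S j i (rho l ζ z) * F i z) = 0 := by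
      have h2 : ∑ j, F j z * (∑ i, WB l m N lab S j i (rho l ζ z) * F i z) =
          ∑ j, ∑ i, F j z * (WB l m N lab S j i (rho l ζ z) * F i z) := by
        refine Finset.sum_congr rfl fun j _ => ?_
        rw [Finset.mul_sum]
      have h3 : ∑ j, ∑ i, F j z * (WB l m N lab S j i (rho l ζ z) * F i z) =
          - ∑ j, ∑ i, F j z * (WB l m N lab S j i (rho l ζ z) * F i z) := by
        conv_rhs => rw [Finset.sum_comm]
        rw [← Finset.sum_neg_distrib]
        refine Finset.sum_congr rfl fun j _ => ?_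
        rw [← Finset.sum_neg_distrib]
        refine Finset.sum_congr rfl fun i _ => ?_
        rw [WB_anti j i]
        ring
      rw [h2]
      have h4 : (2 : ℂ) * ∑ j, ∑ i, F j z * (WB l m N lab S j i (rho l ζ z) * F i z) = 0 := by
        linear_combination h3
      rcases mul_eq_zero.mp h4 with h5 | h5
      · norm_num at h5
      · exact h5
    calc ∑ j, F j z * (NK l m N G lab F S j ζ z * (z l - ζ)⁻¹)
        = (∑ j, F j z * (∑ i, WB l m N lab S j i (rho l ζ z) * F i z)) *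
            (KG G ζ (z l) * (z l - ζ)⁻¹) := by
          rw [Finset.sum_mul]
          refine Finset.sum_congr rfl fun j _ => ?_
          unfold NK
          ring
      _ = 0 := by rw [h1, zero_mul]
  have hint : ∑ j, F j z * (∫ ζ in DNB N, NK l m N G lab F S j ζ z * (z l - ζ)⁻¹) = 0 := by
    have h1 : ∀ j ∈ (Finset.univ : Finset (Fin k)),
        F j z * (∫ ζ in DNB N, NK l m N G lab F S j ζ z * (z l - ζ)⁻¹) =
        ∫ ζ in DNB N, F j z * (NK l m N G lab F S j ζ z * (z l - ζ)⁻¹) := by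
      intro j _
      rw [integral_const_mul]
    rw [Finset.sum_congr rfl h1, ← integral_finsetSum]
    · simp only [hpt]
      simp
    · intro j _
      exact (Tr_int hT hK hF1 hS j hz (z l)).const_mul _
  have h1 : ∑ j, F j z * AB l m N G lab F S j z =
      ∑ j, F j z * sgm l m N lab S j z - (1 / (Real.pi : ℂ)) *
        ∑ j, F j z * (∫ ζ in DNB N, NK l m N G lab F S j ζ z * (z l - ζ)⁻¹) := by
    rw [Finset.mul_sum, ← Finset.sum_sub_distrib]
    refine Finset.sum_congr rfl fun j _ => ?_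
    unfold AB
    ring
  rw [h1, hint, sgm_bezout hS hz hzl]
  ring

theorem AB_le (hT : ∀ z ∈ HP, ∑ p ∈ G, om z (cen p) ≤ T) (hD : ∀ u, |dss u| ≤ D) (hK : 0 ≤ K)
    (hF1 : ∀ j, ∀ z ∈ Sg l, ‖F j z‖ ≤ 1) (hS : BSol l m N K lab F S) (j : Fin k)
    {z : Fin d → ℂ} (hz : z ∈ Sg l) (hzl : z l ∈ DNB N) :
    ‖AB l m N G lab F S j z‖ ≤
      K + 6720 * (k * (14 * D * 2 ^ m * K ^ 2)) * Real.exp (5 / 3 * T) := by
  have hD0 := Tr_D0 hD
  have hP : (0 : ℝ) ≤ k * (14 * D * 2 ^ m * K ^ 2) := by positivity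
  have h1 := corr_bound (G := G) hT (DNB_open N).measurableSet (DNB_bdd N) (DNB_HP N) hP
    (w := fun ζ => ∑ i, WB l m N lab S j i (rho l ζ z) * F i z)
    (fun ζ hζ => Tr_w_le hD hK hF1 hS j hζ hz) (Sg_HP hz)
  have h2 := sgm_le hK hS j hz hzl
  have h3 : ‖(1 / (Real.pi : ℂ))‖ ≤ 1 := by
    rw [norm_div, norm_one, Complex.norm_real, Real.norm_eq_abs, abs_of_pos Real.pi_pos]
    rw [div_le_one Real.pi_pos]
    linarith [Real.pi_gt_three]
  have h4 : ‖∫ ζ in DNB N, NK l m N G lab F S j ζ z * (z l - ζ)⁻¹‖ ≤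
      6720 * (k * (14 * D * 2 ^ m * K ^ 2)) * Real.exp (5 / 3 * T) := h1
  unfold AB
  refine (norm_sub_le _ _).trans (add_le_add h2 ?_)
  rw [norm_mul]
  calc ‖(1 / (Real.pi : ℂ))‖ * ‖∫ ζ in DNB N, NK l m N G lab F S j ζ z * (z l - ζ)⁻¹‖
      ≤ 1 * ‖∫ ζ in DNB N, NK l m N G lab F S j ζ z * (z l - ζ)⁻¹‖ :=
        mul_le_mul_of_nonneg_right h3 (norm_nonneg _)
    _ ≤ _ := by rw [one_mul]; exact h4

private theorem Tr_hol (hF : ∀ j, DifferentiableOn ℂ (F j) (Sg l)) (hS : BSol l m N K lab F S)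
    (j : Fin k) {ζ : ℂ} (hζ : ζ ∈ DNB N) :
    DifferentiableOn ℂ (fun z => NK l m N G lab F S j ζ z) (Sg l) := by
  have h1 : DifferentiableOn ℂ (fun z => ∑ i, WB l m N lab S j i (rho l ζ z) * F i z) (Sg l) := by
    refine DifferentiableOn.fun_sum fun i _ => ?_
    exact (WB_hol hS j i hζ).mul (hF i)
  have h2 : DifferentiableOn ℂ (fun z : Fin d → ℂ => KG G ζ (z l)) (Sg l) := by
    have h3 : DifferentiableOn ℂ (fun z : Fin d → ℂ => z l) (Sg l) :=
      (differentiable_apply l).differentiableOn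
    exact (KG_diff G ζ).comp h3 fun z hz => Sg_HP hz
  exact h1.mul h2

private theorem Tr_upd_open (z : Fin d → ℂ) (i : Fin d) :
    IsOpen {s : ℂ | Function.update z i s ∈ Sg l} :=
  (Sg_open l).preimage (update_diff z i).continuous

theorem AB_hol (hT : ∀ z ∈ HP, ∑ p ∈ G, om z (cen p) ≤ T) (hadj : AdjG m N lab G) (hK : 0 ≤ K)
    (hF : ∀ j, DifferentiableOn ℂ (F j) (Sg l)) (hF1 : ∀ j, ∀ z ∈ Sg l, ‖F j z‖ ≤ 1)
    (hS : BSol l m N K lab F S) (j : Fin k) {z : Fin d → ℂ} (hz : z ∈ Sg l) (hzl : z l ∈ DNB N)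
    (i : Fin d) :
    DifferentiableAt ℂ (fun s => AB l m N G lab F S j (Function.update z i s)) (z i) := by
  obtain ⟨D, hD0, hD⟩ := dss_bdd
  by_cases hi : i = l
  · subst hi
    obtain ⟨g', hg'c, hg'⟩ := sgm_fderiv hS j z
    set V : Set ℂ := {t | t ∈ DNB N ∧ Function.update z i t ∈ Sg i} with hVdef
    have hV : IsOpen V := (DNB_open N).inter (Tr_upd_open z i)
    have hzV : z i ∈ V := by
      refine ⟨hzl, ?_⟩
      rw [Function.update_eq_self]
      exact hz
    have hpk := pk (V := V) (X := DNB N) hV (DNB_open N).measurableSet (DNB_bdd N)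
      (fun t ht => ht.1) (g := fun t => sgm i m N lab S j (Function.update z i t)) (g' := g')
      (fun t ht => (hg' t ht.2).1) (hg'c.mono fun t ht => ht.2)
      (N := fun ζ t => NK i m N G lab F S j ζ (Function.update z i t))
      (M := k * (14 * D * 2 ^ m * K ^ 2) * 2 ^ N * (4 * Real.exp (5 / 3 * T)))
      (fun ζ hζ => (Tr_hol hF hS j hζ).comp (update_diff z i).differentiableOn
        (fun t ht => ht.2))
      (fun ζ hζ t ht => NK_le hT hD hK hF1 hS j hζ ht.2)
      (fun t ht => NK_meas hS j ht.2)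
      (by
        intro ζ hζ
        rw [(hg' ζ hζ.2).2]
        have hl : Function.update z i ζ i = ζ := Function.update_self i ζ z
        have h1 : rho i ζ (Function.update z i ζ) = Function.update z i ζ := by
          have h2 := rho_self hζ.2
          rwa [hl] at h2
        have h3 := WB_F (m := m) (N := N) (lab := lab) hS j hζ.2 (by rw [hl]; exact hζ.1)
        have h4 : NK i m N G lab F S j ζ (Function.update z i ζ) =
            (∑ i', WB i m N lab S j i' (Function.update z i ζ) * F i' (Function.update z i ζ)) *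
              KG G ζ ζ := by
          unfold NK
          rw [h1, hl]
        rw [h4]
        by_cases hI : ∃ I ∈ G, ζ ∈ NB I
        · rw [KG_one hI, mul_one, h3]
        · have h5 : ∀ i', WB i m N lab S j i' (Function.update z i ζ) = 0 := by
            intro i'
            refine WB_zero hadj j i' (by rw [hl]; exact hζ.1) ?_
            intro I hIG hIN
            rw [hl] at hIN
            exact hI ⟨I, hIG, hIN⟩
          rw [← h3]
          simp [h5])
    have h1 : (fun s => AB i m N G lab F S j (Function.update z i s)) =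
        fun t => sgm i m N lab S j (Function.update z i t) - (1 / (Real.pi : ℂ)) *
          ∫ ζ in DNB N, NK i m N G lab F S j ζ (Function.update z i t) * (t - ζ)⁻¹ := by
      funext t
      unfold AB
      rw [Function.update_self]
    rw [h1]
    exact hpk.differentiableAt (hV.mem_nhds hzV)
  · set V : Set ℂ := {s | Function.update z i s ∈ Sg l} with hVdef
    have hV : IsOpen V := Tr_upd_open z i
    have hzV : z i ∈ V := by
      rw [hVdef]
      change Function.update z i (z i) ∈ Sg l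
      rw [Function.update_eq_self]
      exact hz
    have hul : ∀ s : ℂ, Function.update z i s l = z l := fun s =>
      Function.update_of_ne (Ne.symm hi) s z
    have hB : IntegrableOn (fun ζ : ℂ =>
        (k * (14 * D * 2 ^ m * K ^ 2) * 2 ^ N * (4 * Real.exp (5 / 3 * T))) * ‖z l - ζ‖⁻¹)
        (DNB N) := (inv_int (DNB_open N).measurableSet (DNB_bdd N) (z l)).const_mul _
    have hp := param_hol (V := V) (X := DNB N) hV
      (H := fun ζ s => NK l m N G lab F S j ζ (Function.update z i s) * (z l - ζ)⁻¹)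
      (B := fun ζ => (k * (14 * D * 2 ^ m * K ^ 2) * 2 ^ N * (4 * Real.exp (5 / 3 * T))) *
        ‖z l - ζ‖⁻¹)
      (by
        filter_upwards [ae_restrict_mem (DNB_open N).measurableSet] with ζ hζ
        refine DifferentiableOn.mul_const ?_ _
        exact (Tr_hol hF hS j hζ).comp (update_diff z i).differentiableOn (fun t ht => ht))
      (by
        filter_upwards [ae_restrict_mem (DNB_open N).measurableSet] with ζ hζ
        intro s hs
        rw [norm_mul, norm_inv]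
        exact mul_le_mul_of_nonneg_right (NK_le hT hD hK hF1 hS j hζ hs) (by positivity))
      hB
      (fun s hs => Tr_ae hS j hs (z l))
    have h1 : (fun s => AB l m N G lab F S j (Function.update z i s)) =
        fun s => sgm l m N lab S j (Function.update z i s) - (1 / (Real.pi : ℂ)) *
          ∫ ζ in DNB N, NK l m N G lab F S j ζ (Function.update z i s) * (z l - ζ)⁻¹ := by
      funext s
      unfold AB
      rw [hul]
    rw [h1]
    exact (sgm_hol hS j hz hi).sub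
      ((hp.differentiableAt (hV.mem_nhds hzV)).const_mul _)

theorem AB_diff (hT : ∀ z ∈ HP, ∑ p ∈ G, om z (cen p) ≤ T) (hadj : AdjG m N lab G) (hK : 0 ≤ K)
    (hF : ∀ j, DifferentiableOn ℂ (F j) (Sg l)) (hF1 : ∀ j, ∀ z ∈ Sg l, ‖F j z‖ ≤ 1)
    (hS : BSol l m N K lab F S) (j : Fin k) :
    DifferentiableOn ℂ (AB l m N G lab F S j) {z | z ∈ Sg l ∧ z l ∈ DNB N} := by
  obtain ⟨D, hD0, hD⟩ := dss_bdd
  have hU : IsOpen {z : Fin d → ℂ | z ∈ Sg l ∧ z l ∈ DNB N} := by
    have h1 : IsOpen ((fun z : Fin d → ℂ => z l) ⁻¹' DNB N) :=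
      (DNB_open N).preimage (continuous_apply l)
    exact (Sg_open l).inter h1
  exact osgood_open hU (fun z hz => AB_le hT hD hK hF1 hS j hz.1 hz.2)
    (fun z hz i => AB_hol hT hadj hK hF hF1 hS j hz.1 hz.2 i)

end Cor
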